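import Pool.Agent.NonLow.Stmts

/-!
# Closure properties of `Sg` and `Dl`
-/

set_option autoImplicit false

namespace Pool.Agent.NonLow

open Encodable

variable {α β γ : Type} [Primcodable α] [Primcodable β] [Primcodable γ]

/-! ### Bounded search for computable Boolean functions -/

theorem comp_bex {f : α → ℕ → Bool} (hf : Computable₂ f) :
    Computable₂ (fun (x : α) (n : ℕ) => (Nat.rec false (fun m ih => ih || f x m) n : Bool)) := by
  refine (Computable.nat_rec (f := fun p : α × ℕ => p.2) (g := fun _ => false)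
    (h := fun (p : α × ℕ) (q : ℕ × Bool) => q.2 || f p.1 q.1) Computable.snd
    (Computable.const false) ?_)
  exact (Primrec.or.to_comp.comp (Computable.snd.comp Computable.snd)
    (hf.comp (Computable.fst.comp Computable.fst) (Computable.fst.comp Computable.snd)))

theorem rec_or_iff (f : ℕ → Bool) (n : ℕ) :
    (Nat.rec false (fun m ih => ih || f m) n : Bool) = true ↔ ∃ m < n, f m = true := by
  induction n with
  | zero => simp
  | succ n ih =>
    show ((Nat.rec false (fun m ih => ih || f m) n : Bool) || f n) = true ↔ _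
    rw [Bool.or_eq_true, ih]
    constructor
    · rintro (⟨m, hm, h⟩ | h)
      · exact ⟨m, by omega, h⟩
      · exact ⟨n, by omega, h⟩
    · rintro ⟨m, hm, h⟩
      rcases Nat.lt_succ_iff_lt_or_eq.mp hm with h' | h'
      · exact Or.inl ⟨m, h', h⟩
      · subst h'; exact Or.inr h

/-- a computable Boolean function for the bounded existential quantifier -/
theorem exists_comp_bex {f : α → ℕ → Bool} (hf : Computable₂ f) :
    ∃ g : α → ℕ → Bool, Computable₂ g ∧ ∀ x n, g x n = true ↔ ∃ m < n, f x m = true :=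
  ⟨_, comp_bex hf, fun x n => rec_or_iff (f x) n⟩

theorem exists_comp_ball {f : α → ℕ → Bool} (hf : Computable₂ f) :
    ∃ g : α → ℕ → Bool, Computable₂ g ∧ ∀ x n, g x n = true ↔ ∀ m < n, f x m = true := by
  obtain ⟨g, hg, h⟩ := exists_comp_bex (f := fun x m => !(f x m))
    (Primrec.not.to_comp.comp hf)
  refine ⟨fun x n => !(g x n), Primrec.not.to_comp.comp hg, fun x n => ?_⟩
  have h1 := h x n
  show (!(g x n)) = true ↔ _
  rw [Bool.not_eq_true', ← Bool.not_eq_true, h1]
  constructor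
  · intro h2 m hm
    by_contra hc
    exact h2 ⟨m, hm, by simpa using hc⟩
  · rintro h2 ⟨m, hm, h3⟩
    rw [h2 m hm] at h3
    exact absurd h3 (by simp)

/-! ### Segments -/

theorem seg_length (X : ℕ → ℕ) (s : ℕ) : (seg X s).length = s := by simp [seg]

theorem seg_take (X : ℕ → ℕ) {i s : ℕ} (h : i ≤ s) : (seg X s).take i = seg X i := by
  simp only [seg, ← List.map_take, List.take_range]
  rw [min_eq_left h]

theorem seg_getD (X : ℕ → ℕ) {i s : ℕ} (h : i < s) (d : ℕ) : (seg X s).getD i d = X i := by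
  simp [seg, h]

/-! ### `Σ₁` -/

theorem S1.mono_form {X : ℕ → ℕ} {P : α → Prop} (h : S1 X P) :
    ∃ θ : α → List ℕ → Bool, Computable₂ θ ∧ (∀ x, P x ↔ ∃ s, θ x (seg X s) = true) ∧
      ∀ x s s', s ≤ s' → θ x (seg X s) = true → θ x (seg X s') = true := by
  obtain ⟨θ, hθ, h⟩ := h
  obtain ⟨g, hg, hgi⟩ := exists_comp_bex (f := fun (p : α × List ℕ) (i : ℕ) => θ p.1 (p.2.take i))
    (hθ.comp (Computable.fst.comp Computable.fst)
      (Primrec.list_take.to_comp.comp Computable.snd (Computable.snd.comp Computable.fst)))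
  refine ⟨fun x w => g (x, w) (w.length + 1), ?_, ?_, ?_⟩
  · exact hg.comp Computable.id (Computable.succ.comp (Computable.list_length.comp Computable.snd))
  · intro x
    rw [h x]
    constructor
    · rintro ⟨s, hs⟩
      refine ⟨s, (hgi _ _).2 ⟨s, by rw [seg_length]; omega, ?_⟩⟩
      simpa [seg_take X (le_refl s)] using hs
    · rintro ⟨s, hs⟩
      obtain ⟨i, hi, h1⟩ := (hgi _ _).1 hs
      rw [seg_length] at hi
      refine ⟨i, ?_⟩
      simpa [seg_take X (Nat.lt_succ_iff.mp hi)] using h1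
  · intro x s s' hss hs
    obtain ⟨i, hi, h1⟩ := (hgi _ _).1 hs
    rw [seg_length] at hi
    refine (hgi _ _).2 ⟨i, by rw [seg_length]; omega, ?_⟩
    simp only [seg_take X (Nat.lt_succ_iff.mp hi)] at h1
    simpa [seg_take X (by omega : i ≤ s')] using h1

theorem S1.of_iff {X : ℕ → ℕ} {P Q : α → Prop} (h : S1 X P) (e : ∀ x, Q x ↔ P x) : S1 X Q := by
  obtain ⟨θ, hθ, h⟩ := h
  exact ⟨θ, hθ, fun x => (e x).trans (h x)⟩

theorem S1.comp {X : ℕ → ℕ} {P : β → Prop} (h : S1 X P) {f : α → β} (hf : Computable f) :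
    S1 X (fun x => P (f x)) := by
  obtain ⟨θ, hθ, h⟩ := h
  exact ⟨fun x w => θ (f x) w, hθ.comp (hf.comp Computable.fst) Computable.snd, fun x => h (f x)⟩

theorem S1.and {X : ℕ → ℕ} {P Q : α → Prop} (hP : S1 X P) (hQ : S1 X Q) :
    S1 X (fun x => P x ∧ Q x) := by
  obtain ⟨θ, hθ, h, hm⟩ := hP.mono_form
  obtain ⟨θ', hθ', h', hm'⟩ := hQ.mono_form
  refine ⟨fun x w => θ x w && θ' x w, Primrec.and.to_comp.comp hθ hθ', fun x => ?_⟩
  show P x ∧ Q x ↔ ∃ s, (θ x (seg X s) && θ' x (seg X s)) = true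
  rw [h x, h' x]
  constructor
  · rintro ⟨⟨s, hs⟩, ⟨s', hs'⟩⟩
    refine ⟨max s s', ?_⟩
    rw [Bool.and_eq_true]
    exact ⟨hm x _ _ (le_max_left _ _) hs, hm' x _ _ (le_max_right _ _) hs'⟩
  · rintro ⟨s, hs⟩
    rw [Bool.and_eq_true] at hs
    exact ⟨⟨s, hs.1⟩, ⟨s, hs.2⟩⟩

theorem S1.or {X : ℕ → ℕ} {P Q : α → Prop} (hP : S1 X P) (hQ : S1 X Q) :
    S1 X (fun x => P x ∨ Q x) := by
  obtain ⟨θ, hθ, h⟩ := hP
  obtain ⟨θ', hθ', h'⟩ := hQ
  refine ⟨fun x w => θ x w || θ' x w, Primrec.or.to_comp.comp hθ hθ', fun x => ?_⟩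
  show P x ∨ Q x ↔ ∃ s, (θ x (seg X s) || θ' x (seg X s)) = true
  rw [h x, h' x]
  constructor
  · rintro (⟨s, hs⟩ | ⟨s, hs⟩)
    · exact ⟨s, by rw [hs]; rfl⟩
    · exact ⟨s, by rw [hs, Bool.or_true]⟩
  · rintro ⟨s, hs⟩
    rw [Bool.or_eq_true] at hs
    rcases hs with hs | hs
    · exact Or.inl ⟨s, hs⟩
    · exact Or.inr ⟨s, hs⟩

theorem S1.of_bool {X : ℕ → ℕ} {P : α → Prop} {f : α → Bool} (hf : Computable f)
    (h : ∀ x, P x ↔ f x = true) : S1 X P :=
  ⟨fun x _ => f x, hf.comp Computable.fst, fun x => by simp [h x]⟩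

theorem S1.exN {X : ℕ → ℕ} {P : α → ℕ → Prop} (h : S1 X (fun p : α × ℕ => P p.1 p.2)) :
    S1 X (fun x => ∃ n, P x n) := by
  obtain ⟨θ, hθ, h, hm⟩ := h.mono_form
  obtain ⟨g, hg, hgi⟩ := exists_comp_bex (f := fun (p : α × List ℕ) (i : ℕ) => θ (p.1, i) p.2)
    (hθ.comp ((Computable.fst.comp Computable.fst).pair Computable.snd)
      (Computable.snd.comp Computable.fst))
  refine ⟨fun x w => g (x, w) w.length, ?_, ?_⟩
  · exact hg.comp Computable.id (Computable.list_length.comp Computable.snd)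
  · intro x
    constructor
    · rintro ⟨n, hn⟩
      obtain ⟨s, hs⟩ := (h (x, n)).1 hn
      refine ⟨max s (n + 1), (hgi _ _).2 ⟨n, by rw [seg_length]; omega, ?_⟩⟩
      exact hm _ _ _ (le_max_left _ _) hs
    · rintro ⟨s, hs⟩
      obtain ⟨n, _, h1⟩ := (hgi _ _).1 hs
      exact ⟨n, (h (x, n)).2 ⟨s, h1⟩⟩

theorem S1.ball {X : ℕ → ℕ} {P : α → ℕ → Prop} (h : S1 X (fun p : α × ℕ => P p.1 p.2))
    {f : α → ℕ} (hf : Computable f) : S1 X (fun x => ∀ m, m < f x → P x m) := by
  obtain ⟨θ, hθ, h, hm⟩ := h.mono_form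
  obtain ⟨g, hg, hgi⟩ := exists_comp_ball (f := fun (p : α × List ℕ) (i : ℕ) => θ (p.1, i) p.2)
    (hθ.comp ((Computable.fst.comp Computable.fst).pair Computable.snd)
      (Computable.snd.comp Computable.fst))
  refine ⟨fun x w => g (x, w) (f x), ?_, ?_⟩
  · exact hg.comp Computable.id (hf.comp Computable.fst)
  · intro x
    constructor
    · intro hx
      have : ∀ n, (∀ m, m < n → P x m) → ∃ s, ∀ m, m < n → θ (x, m) (seg X s) = true := by
        intro n
        induction n with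
        | zero => intro _; exact ⟨0, fun m hm => absurd hm (Nat.not_lt_zero _)⟩
        | succ n ih =>
          intro hn
          obtain ⟨s, hs⟩ := ih fun m hm => hn m (by omega)
          obtain ⟨s', hs'⟩ := (h (x, n)).1 (hn n (by omega))
          refine ⟨max s s', fun m hmn => ?_⟩
          rcases Nat.lt_succ_iff_lt_or_eq.mp hmn with h' | h'
          · exact hm _ _ _ (le_max_left _ _) (hs m h')
          · subst h'; exact hm _ _ _ (le_max_right _ _) hs'
      obtain ⟨s, hs⟩ := this (f x) hx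
      exact ⟨s, (hgi _ _).2 hs⟩
    · rintro ⟨s, hs⟩ m hmx
      exact (h (x, m)).2 ⟨s, (hgi _ _).1 hs m hmx⟩

/-! ### `Σ_{n+1}` -/

theorem Sg.of_iff {X : ℕ → ℕ} {n : ℕ} {P Q : α → Prop} (h : Sg X n P) (e : ∀ x, Q x ↔ P x) :
    Sg X n Q := by
  have : Q = P := funext fun x => propext (e x)
  rw [this]; exact h

theorem Sg.comp {X : ℕ → ℕ} {n : ℕ} {P : β → Prop} (h : Sg X n P) {f : α → β}
    (hf : Computable f) : Sg X n (fun x => P (f x)) := by
  induction n generalizing α β with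
  | zero => exact S1.comp h hf
  | succ n ih =>
    obtain ⟨Q, hQ, h⟩ := h
    refine ⟨fun p => Q (f p.1, p.2), ?_, fun x => h (f x)⟩
    exact ih hQ ((hf.comp Computable.fst).pair Computable.snd)

theorem Sg.of_bool {X : ℕ → ℕ} {n : ℕ} {P : α → Prop} {f : α → Bool} (hf : Computable f)
    (h : ∀ x, P x ↔ f x = true) : Sg X n P := by
  induction n generalizing α with
  | zero => exact S1.of_bool hf h
  | succ n ih =>
    refine ⟨fun p => P p.1, ?_, fun x => by simp⟩
    refine ih (f := fun p => !(f p.1)) (Primrec.not.to_comp.comp (hf.comp Computable.fst)) ?_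
    intro x
    show ¬ P x.1 ↔ (!(f x.1)) = true
    rw [h]
    simp

theorem Sg.and_or (X : ℕ → ℕ) (n : ℕ) : ∀ {α : Type} [Primcodable α] {P Q : α → Prop},
    Sg X n P → Sg X n Q → Sg X n (fun x => P x ∧ Q x) ∧ Sg X n (fun x => P x ∨ Q x) := by
  induction n with
  | zero => intro α _ P Q hP hQ; exact ⟨S1.and hP hQ, S1.or hP hQ⟩
  | succ n ih =>
    rintro α _ P Q ⟨P', hP', hP⟩ ⟨Q', hQ', hQ⟩
    constructor
    · refine ⟨fun p => P' (p.1, p.2.unpair.1) ∧ Q' (p.1, p.2.unpair.2), ?_, fun x => ?_⟩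
      · have h1 : Sg X n (fun p : α × ℕ => ¬ P' (p.1, p.2.unpair.1)) :=
          hP'.comp (f := fun p : α × ℕ => (p.1, p.2.unpair.1))
            (Computable.fst.pair (Computable.fst.comp (Computable.unpair.comp Computable.snd)))
        have h2 : Sg X n (fun p : α × ℕ => ¬ Q' (p.1, p.2.unpair.2)) :=
          hQ'.comp (f := fun p : α × ℕ => (p.1, p.2.unpair.2))
            (Computable.fst.pair (Computable.snd.comp (Computable.unpair.comp Computable.snd)))
        exact ((ih h1 h2).2).of_iff fun x => by tauto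
      · show P x ∧ Q x ↔ ∃ a : ℕ, P' (x, a.unpair.1) ∧ Q' (x, a.unpair.2)
        rw [hP, hQ]
        constructor
        · rintro ⟨⟨a, ha⟩, ⟨b, hb⟩⟩
          exact ⟨Nat.pair a b, by simpa using ha, by simpa using hb⟩
        · rintro ⟨c, h1, h2⟩
          exact ⟨⟨_, h1⟩, ⟨_, h2⟩⟩
    · refine ⟨fun p => P' p ∨ Q' p, ?_, fun x => ?_⟩
      · exact ((ih hP' hQ').1).of_iff fun x => by tauto
      · show P x ∨ Q x ↔ ∃ a : ℕ, P' (x, a) ∨ Q' (x, a)
        rw [hP, hQ]
        constructor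
        · rintro (⟨a, ha⟩ | ⟨a, ha⟩)
          · exact ⟨a, Or.inl ha⟩
          · exact ⟨a, Or.inr ha⟩
        · rintro ⟨a, ha | ha⟩
          · exact Or.inl ⟨a, ha⟩
          · exact Or.inr ⟨a, ha⟩

theorem Sg.and {X : ℕ → ℕ} {n : ℕ} {P Q : α → Prop} (hP : Sg X n P) (hQ : Sg X n Q) :
    Sg X n (fun x => P x ∧ Q x) := (Sg.and_or X n hP hQ).1

theorem Sg.or {X : ℕ → ℕ} {n : ℕ} {P Q : α → Prop} (hP : Sg X n P) (hQ : Sg X n Q) :
    Sg X n (fun x => P x ∨ Q x) := (Sg.and_or X n hP hQ).2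

theorem Sg.exN {X : ℕ → ℕ} {n : ℕ} {P : α → ℕ → Prop}
    (h : Sg X n (fun p : α × ℕ => P p.1 p.2)) : Sg X n (fun x => ∃ m, P x m) := by
  cases n with
  | zero => exact S1.exN h
  | succ n =>
    obtain ⟨Q, hQ, h⟩ := h
    refine ⟨fun p => Q ((p.1, p.2.unpair.1), p.2.unpair.2), ?_, fun x => ?_⟩
    · exact hQ.comp (f := fun p : α × ℕ => ((p.1, p.2.unpair.1), p.2.unpair.2))
        ((Computable.fst.pair (Computable.fst.comp (Computable.unpair.comp Computable.snd))).pair
          (Computable.snd.comp (Computable.unpair.comp Computable.snd)))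
    · constructor
      · rintro ⟨m, hm⟩
        obtain ⟨a, ha⟩ := (h (x, m)).1 hm
        exact ⟨Nat.pair m a, by simpa using ha⟩
      · rintro ⟨c, hc⟩
        exact ⟨c.unpair.1, (h (x, c.unpair.1)).2 ⟨_, hc⟩⟩

/-- existential quantifier over any `Primcodable` type -/
theorem Sg.ex {X : ℕ → ℕ} {n : ℕ} {P : α → β → Prop}
    (h : Sg X n (fun p : α × β => P p.1 p.2)) : Sg X n (fun x => ∃ b, P x b) := by
  by_cases hb : Nonempty β
  · obtain ⟨b0⟩ := hb
    have hd : Computable (fun m : ℕ => (decode (α := β) m).getD b0) :=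
      Computable.option_getD Computable.decode (Computable.const b0)
    have h1 : Sg X n (fun p : α × ℕ => P p.1 ((decode (α := β) p.2).getD b0)) :=
      h.comp (f := fun p : α × ℕ => (p.1, (decode (α := β) p.2).getD b0))
        (Computable.fst.pair (hd.comp Computable.snd))
    refine (Sg.exN (P := fun x m => P x ((decode (α := β) m).getD b0)) h1).of_iff fun x => ?_
    constructor
    · rintro ⟨b, hb⟩
      exact ⟨encode b, by simpa using hb⟩
    · rintro ⟨m, hm⟩
      exact ⟨_, hm⟩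
  · refine Sg.of_bool (f := fun _ => false) (Computable.const false) fun x => ?_
    simp only [Bool.false_eq_true, iff_false, not_exists]
    intro b
    exact absurd ⟨b⟩ hb

theorem Sg.ball {X : ℕ → ℕ} {n : ℕ} {P : α → ℕ → Prop}
    (h : Sg X n (fun p : α × ℕ => P p.1 p.2)) {f : α → ℕ} (hf : Computable f) :
    Sg X n (fun x => ∀ m, m < f x → P x m) := by
  cases n with
  | zero => exact S1.ball h hf
  | succ n =>
    obtain ⟨Q, hQ, h⟩ := h
    have hd : Computable (fun m : ℕ => (decode (α := List ℕ) m).getD []) :=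
      Computable.option_getD Computable.decode (Computable.const [])
    refine ⟨fun p => ∀ m, m < f p.1 →
      Q ((p.1, m), ((decode (α := List ℕ) p.2).getD []).getD m 0), ?_, fun x => ?_⟩
    · have h1 : Sg X n (fun p : (α × ℕ) × ℕ => p.2 < f p.1.1 ∧
          ¬ Q ((p.1.1, p.2), ((decode (α := List ℕ) p.1.2).getD []).getD p.2 0)) := by
        refine Sg.and ?_ ?_
        · refine Sg.of_bool (f := fun p : (α × ℕ) × ℕ => decide (p.2 < f p.1.1)) ?_ (by simp)
          exact (Primrec.nat_lt.decide.to_comp.comp Computable.snd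
            (hf.comp (Computable.fst.comp Computable.fst)))
        · exact hQ.comp (f := fun p : (α × ℕ) × ℕ =>
            ((p.1.1, p.2), ((decode (α := List ℕ) p.1.2).getD []).getD p.2 0))
            (((Computable.fst.comp Computable.fst).pair Computable.snd).pair
              ((Primrec.list_getD 0).to_comp.comp (hd.comp (Computable.snd.comp Computable.fst))
                Computable.snd))
      refine (Sg.exN (P := fun (p : α × ℕ) (m : ℕ) => m < f p.1 ∧
          ¬ Q ((p.1, m), ((decode (α := List ℕ) p.2).getD []).getD m 0)) h1).of_iff fun x => ?_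
      simp only [not_forall, exists_prop]
    · constructor
      · intro hx
        have : ∀ k, (∀ m, m < k → P x m) → ∃ l : List ℕ, ∀ m, m < k → Q ((x, m), l.getD m 0) := by
          intro k hk
          classical
          refine ⟨(List.range k).map fun m => if hm : m < k then ((h (x, m)).1 (hk m hm)).choose else 0,
            fun m hm => ?_⟩
          have := ((h (x, m)).1 (hk m hm)).choose_spec
          simpa [hm] using this
        obtain ⟨l, hl⟩ := this (f x) hx
        exact ⟨encode l, by simpa using hl⟩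
      · rintro ⟨c, hc⟩ m hm
        exact (h (x, m)).2 ⟨_, hc m hm⟩

/-! ### Level changes -/

theorem S1.seg_dec (X : ℕ → ℕ) {θ : α → List ℕ → Bool} (hθ : Computable₂ θ) :
    S1 X (fun p : α × ℕ => θ p.1 (seg X p.2) = true) ∧
    S1 X (fun p : α × ℕ => ¬ θ p.1 (seg X p.2) = true) := by
  have hc : Computable₂ (fun (p : α × ℕ) (w : List ℕ) => θ p.1 (w.take p.2)) :=
    hθ.comp (Computable.fst.comp Computable.fst)
      (Primrec.list_take.to_comp.comp (Computable.snd.comp Computable.fst) Computable.snd)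
  have hl : Computable₂ (fun (p : α × ℕ) (w : List ℕ) => decide (p.2 ≤ w.length)) :=
    Primrec.nat_le.decide.to_comp.comp (Computable.snd.comp Computable.fst)
      (Computable.list_length.comp Computable.snd)
  constructor
  · refine ⟨fun p w => decide (p.2 ≤ w.length) && θ p.1 (w.take p.2),
      Primrec.and.to_comp.comp hl hc, fun p => ?_⟩
    constructor
    · intro h
      exact ⟨p.2, by simp [seg_length, seg_take X (le_refl p.2), h]⟩
    · rintro ⟨s, hs⟩
      rw [Bool.and_eq_true, decide_eq_true_iff, seg_length] at hs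
      rw [seg_take X hs.1] at hs
      exact hs.2
  · refine ⟨fun p w => decide (p.2 ≤ w.length) && !(θ p.1 (w.take p.2)),
      Primrec.and.to_comp.comp hl (Primrec.not.to_comp.comp hc), fun p => ?_⟩
    constructor
    · intro h
      exact ⟨p.2, by simpa [seg_length, seg_take X (le_refl p.2)] using h⟩
    · rintro ⟨s, hs⟩
      rw [Bool.and_eq_true, decide_eq_true_iff, seg_length] at hs
      rw [seg_take X hs.1] at hs
      simpa using hs.2

theorem Sg.up {X : ℕ → ℕ} {n : ℕ} {P : α → Prop} (h : Sg X n P) : Sg X (n + 1) P := by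
  induction n generalizing α with
  | zero =>
    obtain ⟨θ, hθ, h⟩ := h
    exact ⟨fun p => θ p.1 (seg X p.2) = true, (S1.seg_dec X hθ).2, h⟩
  | succ n ih =>
    obtain ⟨Q, hQ, h⟩ := h
    exact ⟨Q, ih hQ, h⟩

theorem Sg.upc {X : ℕ → ℕ} {n : ℕ} {P : α → Prop} (h : Sg X n (fun x => ¬ P x)) :
    Sg X (n + 1) P :=
  ⟨fun p => P p.1, h.comp (f := fun p : α × ℕ => p.1) Computable.fst, fun x => by simp⟩

theorem Sg.le {X : ℕ → ℕ} {n m : ℕ} {P : α → Prop} (h : Sg X n P) (hnm : n ≤ m) : Sg X m P := by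
  induction m with
  | zero => obtain rfl : n = 0 := by omega
            exact h
  | succ m ih =>
    rcases Nat.lt_or_eq_of_le hnm with h' | h'
    · exact (ih (by omega)).up
    · subst h'; exact h

theorem Sg.light {X : ℕ → ℕ} {n : ℕ} {P : α → Prop} (h : Sg Z n P) : Sg X n P := by
  induction n generalizing α with
  | zero =>
    obtain ⟨θ, hθ, h⟩ := h
    refine ⟨fun x w => θ x ((List.range w.length).map fun _ => 0), ?_, fun x => ?_⟩
    · refine hθ.comp Computable.fst ?_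
      have : Primrec (fun w : List ℕ => (List.range w.length).map fun _ => 0) :=
        Primrec.list_map (Primrec.list_range.comp Primrec.list_length) (Primrec.const 0).to₂
      exact this.to_comp.comp Computable.snd
    · rw [h x]
      have : ∀ s, ((List.range (seg X s).length).map fun _ => 0) = seg Z s := by
        intro s; rw [seg_length]; rfl
      simp only [this]
  | succ n ih =>
    obtain ⟨Q, hQ, h⟩ := h
    exact ⟨Q, ih hQ, h⟩

/-! ### `Dl` -/

theorem Dl.sg {X : ℕ → ℕ} {n : ℕ} {P : α → Prop} (h : Dl X n P) : Sg X n P := h.1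

theorem Dl.sgn {X : ℕ → ℕ} {n : ℕ} {P : α → Prop} (h : Dl X n P) : Sg X n (fun x => ¬ P x) := h.2

theorem Dl.of_iff {X : ℕ → ℕ} {n : ℕ} {P Q : α → Prop} (h : Dl X n P) (e : ∀ x, Q x ↔ P x) :
    Dl X n Q := by
  have : Q = P := funext fun x => propext (e x)
  rw [this]; exact h

theorem Dl.comp {X : ℕ → ℕ} {n : ℕ} {P : β → Prop} (h : Dl X n P) {f : α → β}
    (hf : Computable f) : Dl X n (fun x => P (f x)) :=
  ⟨h.1.comp hf, h.2.comp (P := fun y => ¬ P y) hf⟩

theorem Dl.of_bool {X : ℕ → ℕ} {n : ℕ} {P : α → Prop} {f : α → Bool} (hf : Computable f)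
    (h : ∀ x, P x ↔ f x = true) : Dl X n P := by
  refine ⟨Sg.of_bool hf h, Sg.of_bool (f := fun x => !(f x)) (Primrec.not.to_comp.comp hf) ?_⟩
  intro x
  rw [h]
  simp

theorem Dl.of_prim {X : ℕ → ℕ} {n : ℕ} {P : α → Prop} (h : PrimrecPred P) : Dl X n P := by
  obtain ⟨_, h⟩ := h
  exact Dl.of_bool h.to_comp (by simp)

theorem Dl.not {X : ℕ → ℕ} {n : ℕ} {P : α → Prop} (h : Dl X n P) : Dl X n (fun x => ¬ P x) :=
  ⟨h.2, h.1.of_iff fun x => by tauto⟩

theorem Dl.and {X : ℕ → ℕ} {n : ℕ} {P Q : α → Prop} (hP : Dl X n P) (hQ : Dl X n Q) :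
    Dl X n (fun x => P x ∧ Q x) :=
  ⟨hP.1.and hQ.1, (hP.2.or hQ.2).of_iff fun x => by tauto⟩

theorem Dl.or {X : ℕ → ℕ} {n : ℕ} {P Q : α → Prop} (hP : Dl X n P) (hQ : Dl X n Q) :
    Dl X n (fun x => P x ∨ Q x) :=
  ⟨hP.1.or hQ.1, (hP.2.and hQ.2).of_iff fun x => by tauto⟩

theorem Dl.imp {X : ℕ → ℕ} {n : ℕ} {P Q : α → Prop} (hP : Dl X n P) (hQ : Dl X n Q) :
    Dl X n (fun x => P x → Q x) :=
  (hP.not.or hQ).of_iff fun x => by tauto

theorem Dl.iff {X : ℕ → ℕ} {n : ℕ} {P Q : α → Prop} (hP : Dl X n P) (hQ : Dl X n Q) :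
    Dl X n (fun x => (P x ↔ Q x)) :=
  ((hP.imp hQ).and (hQ.imp hP)).of_iff fun x => by tauto

theorem Dl.lt {X : ℕ → ℕ} {n : ℕ} {f g : α → ℕ} (hf : Computable f) (hg : Computable g) :
    Dl X n (fun x => f x < g x) :=
  Dl.of_bool (f := fun x => decide (f x < g x)) (Primrec.nat_lt.decide.to_comp.comp hf hg)
    (by simp)

theorem Dl.le {X : ℕ → ℕ} {n : ℕ} {f g : α → ℕ} (hf : Computable f) (hg : Computable g) :
    Dl X n (fun x => f x ≤ g x) :=
  Dl.of_bool (f := fun x => decide (f x ≤ g x)) (Primrec.nat_le.decide.to_comp.comp hf hg)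
    (by simp)

theorem Dl.eq {X : ℕ → ℕ} {n : ℕ} [DecidableEq β] {f g : α → β} (hf : Computable f)
    (hg : Computable g) : Dl X n (fun x => f x = g x) :=
  Dl.of_bool (f := fun x => decide (f x = g x)) (Primrec.eq.decide.to_comp.comp hf hg)
    (by simp)

theorem Sg.bex {X : ℕ → ℕ} {n : ℕ} {P : α → ℕ → Prop}
    (h : Sg X n (fun p : α × ℕ => P p.1 p.2)) {f : α → ℕ} (hf : Computable f) :
    Sg X n (fun x => ∃ m, m < f x ∧ P x m) :=
  Sg.exN (P := fun x m => m < f x ∧ P x m)
    (((Dl.lt Computable.snd (hf.comp Computable.fst)).1).and h)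

theorem Dl.ball {X : ℕ → ℕ} {n : ℕ} {P : α → ℕ → Prop}
    (h : Dl X n (fun p : α × ℕ => P p.1 p.2)) {f : α → ℕ} (hf : Computable f) :
    Dl X n (fun x => ∀ m, m < f x → P x m) := by
  refine ⟨h.1.ball hf, (Sg.bex (P := fun x m => ¬ P x m) h.2 hf).of_iff fun x => ?_⟩
  simp only [not_forall, exists_prop]

theorem Dl.bex {X : ℕ → ℕ} {n : ℕ} {P : α → ℕ → Prop}
    (h : Dl X n (fun p : α × ℕ => P p.1 p.2)) {f : α → ℕ} (hf : Computable f) :
    Dl X n (fun x => ∃ m, m < f x ∧ P x m) := by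
  refine ⟨h.1.bex hf, (Sg.ball (P := fun x m => ¬ P x m) h.2 hf).of_iff fun x => ?_⟩
  simp only [not_exists, not_and]

theorem Dl.up {X : ℕ → ℕ} {n : ℕ} {P : α → Prop} (h : Dl X n P) : Dl X (n + 1) P :=
  ⟨h.1.up, h.2.up⟩

theorem Dl.mono {X : ℕ → ℕ} {n m : ℕ} {P : α → Prop} (h : Dl X n P) (hnm : n ≤ m) : Dl X m P :=
  ⟨h.1.le hnm, h.2.le hnm⟩

theorem Dl.light {X : ℕ → ℕ} {n : ℕ} {P : α → Prop} (h : Dl Z n P) : Dl X n P :=
  ⟨h.1.light, h.2.light⟩

/-- `Σ_{n+1}(X)` predicates are `Δ_{n+2}(X)` -/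
theorem Sg.dl {X : ℕ → ℕ} {n : ℕ} {P : α → Prop} (h : Sg X n P) : Dl X (n + 1) P :=
  ⟨h.up, Sg.upc (P := fun x => ¬ P x) (h.of_iff fun x => by tauto)⟩

/-- `Π_{n+1}(X)` predicates are `Δ_{n+2}(X)` -/
theorem Sg.dlc {X : ℕ → ℕ} {n : ℕ} {P : α → Prop} (h : Sg X n (fun x => ¬ P x)) :
    Dl X (n + 1) P :=
  ⟨Sg.upc h, h.up⟩

/-- a Boolean computable condition on the segments of the oracle is `Δ₁(X)` -/
theorem Dl.seg (X : ℕ → ℕ) {θ : α → List ℕ → Bool} (hθ : Computable₂ θ) :
    Dl X 0 (fun p : α × ℕ => θ p.1 (seg X p.2) = true) := S1.seg_dec X hθ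

/-- the graph of the oracle is `Δ₁(X)` -/
theorem Dl.oracle (X : ℕ → ℕ) : Dl X 0 (fun p : ℕ × ℕ => X p.1 = p.2) := by
  have hθ : Computable₂ (fun (p : ℕ × ℕ) (w : List ℕ) => decide (w.getD p.1 0 = p.2)) :=
    Primrec.eq.decide.to_comp.comp
      ((Primrec.list_getD 0).to_comp.comp Computable.snd (Computable.fst.comp Computable.fst))
      (Computable.snd.comp Computable.fst)
  have h := (Dl.seg X hθ).comp (f := fun p : ℕ × ℕ => (p, p.1 + 1))
    (Computable.id.pair (Computable.succ.comp Computable.fst))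
  refine h.of_iff fun p => ?_
  show X p.1 = p.2 ↔ decide ((NonLow.seg X (p.1 + 1)).getD p.1 0 = p.2) = true
  rw [seg_getD X (Nat.lt_succ_self p.1), decide_eq_true_iff]

/-- substitution of a function with `Σ` graph into a `Σ` predicate -/
theorem Sg.fsub {X : ℕ → ℕ} {n : ℕ} {P : α → β → Prop} {f : α → β}
    (hf : Sg X n (fun p : α × β => f p.1 = p.2)) (h : Sg X n (fun p : α × β => P p.1 p.2)) :
    Sg X n (fun x => P x (f x)) :=
  (Sg.ex (P := fun x y => f x = y ∧ P x y) (hf.and h)).of_iff fun x => by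
    constructor
    · intro hx; exact ⟨_, rfl, hx⟩
    · rintro ⟨y, rfl, hy⟩; exact hy

/-- substitution of a function with `Σ` graph into a `Δ` predicate -/
theorem Dl.fsub {X : ℕ → ℕ} {n : ℕ} {P : α → β → Prop} {f : α → β}
    (hf : Sg X n (fun p : α × β => f p.1 = p.2)) (h : Dl X n (fun p : α × β => P p.1 p.2)) :
    Dl X n (fun x => P x (f x)) :=
  ⟨Sg.fsub hf h.1, Sg.fsub (P := fun x y => ¬ P x y) hf h.2⟩

/-- a total function with `Σ` graph has `Δ` graph -/
theorem Dl.of_graph {X : ℕ → ℕ} {n : ℕ} [DecidableEq β] {f : α → β}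
    (hf : Sg X n (fun p : α × β => f p.1 = p.2)) : Dl X n (fun p : α × β => f p.1 = p.2) := by
  have h1 : Sg X n (fun p : (α × β) × β => f p.1.1 = p.2) :=
    hf.comp (f := fun p : (α × β) × β => (p.1.1, p.2))
      ((Computable.fst.comp Computable.fst).pair Computable.snd)
  exact Dl.fsub (P := fun (p : α × β) (y : β) => y = p.2) (f := fun p : α × β => f p.1) h1
    (Dl.eq Computable.snd (Computable.snd.comp Computable.fst))

end Pool.Agent.NonLow
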