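import Pool.Agent.NonLow.Stmts

/-!
# Facts on the coloured copy `Qd` of the rationals
-/

set_option autoImplicit false

namespace Pool.Agent.NonLow

theorem qdf_key_pos (q : Qd) : 0 < q.key := by
  unfold Qd.key
  positivity

/-- between two nonnegative rationals there is an element of any given colour and of large code -/
theorem qdf_between (n s : ℕ) (α β : ℚ) (hα : 0 ≤ α) (h : α < β) :
    ∃ c : Qd, c.col = n ∧ s ≤ c.cd ∧ α < c.key ∧ c.key < β := by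
  obtain ⟨N₀, hN₀⟩ := exists_nat_gt (3 / (β - α))
  have hβα : 0 < β - α := sub_pos.2 h
  let N := max N₀ s
  let k := Nat.pair n N
  have hNk : N ≤ k := Nat.right_le_pair n N
  have hpow : (N₀ : ℚ) ≤ 2 ^ k := by
    have h1 : N₀ ≤ 2 ^ k :=
      (le_max_left N₀ s).trans (hNk.trans (Nat.lt_two_pow_self).le)
    exact_mod_cast h1
  have hbig : 3 < 2 ^ k * (β - α) := by
    have h1 : 3 < (N₀ : ℚ) * (β - α) := by
      rwa [div_lt_iff₀ hβα] at hN₀
    nlinarith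
  let m := ⌊α * 2 ^ k / 2⌋₊ + 1
  have hk0 : (0 : ℚ) < 2 ^ k := by positivity
  have hx0 : 0 ≤ α * 2 ^ k / 2 := by positivity
  have hm1 : (⌊α * 2 ^ k / 2⌋₊ : ℚ) ≤ α * 2 ^ k / 2 := Nat.floor_le hx0
  have hm2 : α * 2 ^ k / 2 < (⌊α * 2 ^ k / 2⌋₊ : ℚ) + 1 := Nat.lt_floor_add_one _
  refine ⟨(Nat.pair m k : ℕ), ?_, ?_, ?_, ?_⟩
  · change (Nat.unpair (Nat.unpair (Nat.pair m k)).2).1 = n
    simp only [Nat.unpair_pair, k]
  · change s ≤ Nat.pair m k
    exact (le_max_right N₀ s).trans (hNk.trans (Nat.right_le_pair m k))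
  · change α < (2 * ((Nat.unpair (Nat.pair m k)).1 : ℚ) + 1) / 2 ^ (Nat.unpair (Nat.pair m k)).2
    rw [Nat.unpair_pair, lt_div_iff₀ hk0]
    simp only [m]
    push_cast
    linarith
  · change (2 * ((Nat.unpair (Nat.pair m k)).1 : ℚ) + 1) / 2 ^ (Nat.unpair (Nat.pair m k)).2 < β
    rw [Nat.unpair_pair, div_lt_iff₀ hk0]
    simp only [m]
    push_cast
    linarith

theorem qd_main : StmtQd := by
  refine ⟨?_, ?_, ?_⟩
  · intro n a b hab
    obtain ⟨c, h1, -, h3, h4⟩ := qdf_between n 0 a.key b.key (qdf_key_pos a).le hab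
    exact ⟨c, h1, h3, h4⟩
  · intro n a
    obtain ⟨c, h1, -, h3, -⟩ := qdf_between n 0 a.key (a.key + 1) (qdf_key_pos a).le (by linarith)
    exact ⟨c, h1, h3⟩
  · intro n a
    obtain ⟨c, h1, -, -, h4⟩ := qdf_between n 0 0 a.key le_rfl (qdf_key_pos a)
    exact ⟨c, h1, h4⟩

/-- the elements of colour `n` and code at least `s` form a good set -/
theorem good_col_cofinite (n s : ℕ) : Good (fun q => q.col = n ∧ s ≤ q.cd) := by
  refine ⟨?_, ?_, ?_⟩
  · intro a b hab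
    obtain ⟨c, h1, h2, h3, h4⟩ := qdf_between n s a.key b.key (qdf_key_pos a).le hab
    exact ⟨c, ⟨h1, h2⟩, h3, h4⟩
  · intro a
    obtain ⟨c, h1, h2, h3, -⟩ := qdf_between n s a.key (a.key + 1) (qdf_key_pos a).le (by linarith)
    exact ⟨c, ⟨h1, h2⟩, h3⟩
  · intro a
    obtain ⟨c, h1, h2, -, h4⟩ := qdf_between n s 0 a.key le_rfl (qdf_key_pos a)
    exact ⟨c, ⟨h1, h2⟩, h4⟩

theorem good_mono {S T : Qd → Prop} (h : Good S) (hST : ∀ q, S q → T q) : Good T := by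
  obtain ⟨h1, h2, h3⟩ := h
  refine ⟨?_, ?_, ?_⟩
  · intro a b hab
    obtain ⟨c, hc, h4⟩ := h1 a b hab
    exact ⟨c, hST c hc, h4⟩
  · intro a
    obtain ⟨c, hc, h4⟩ := h2 a
    exact ⟨c, hST c hc, h4⟩
  · intro a
    obtain ⟨c, hc, h4⟩ := h3 a
    exact ⟨c, hST c hc, h4⟩

theorem good_univ : Good (fun _ => True) :=
  good_mono (good_col_cofinite 0 0) fun _ _ => trivial

theorem good_cofinite (s : ℕ) : Good (fun q => s ≤ q.cd) :=
  good_mono (good_col_cofinite 0 s) fun _ h => h.2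

theorem good_iso (S : Qd → Prop) (h : Good S) : Nonempty ({q : Qd // S q} ≃o Qd) := by
  obtain ⟨h1, h2, h3⟩ := h
  obtain ⟨g1, g2, g3⟩ := good_univ
  have i1 : DenselyOrdered {q : Qd // S q} := ⟨by
    rintro ⟨a, ha⟩ ⟨b, hb⟩ hab
    obtain ⟨c, hc, h4, h5⟩ := h1 a b hab
    exact ⟨⟨c, hc⟩, h4, h5⟩⟩
  have i2 : NoMaxOrder {q : Qd // S q} := ⟨by
    rintro ⟨a, ha⟩
    obtain ⟨c, hc, h4⟩ := h2 a
    exact ⟨⟨c, hc⟩, h4⟩⟩
  have i3 : NoMinOrder {q : Qd // S q} := ⟨by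
    rintro ⟨a, ha⟩
    obtain ⟨c, hc, h4⟩ := h3 a
    exact ⟨⟨c, hc⟩, h4⟩⟩
  have i4 : Nonempty {q : Qd // S q} := by
    obtain ⟨c, hc, -⟩ := h2 (0 : ℕ)
    exact ⟨⟨c, hc⟩⟩
  have j1 : DenselyOrdered Qd := ⟨by
    intro a b hab
    obtain ⟨c, -, h4, h5⟩ := g1 a b hab
    exact ⟨c, h4, h5⟩⟩
  have j2 : NoMaxOrder Qd := ⟨by
    intro a
    obtain ⟨c, -, h4⟩ := g2 a
    exact ⟨c, h4⟩⟩
  have j3 : NoMinOrder Qd := ⟨by
    intro a
    obtain ⟨c, -, h4⟩ := g3 a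
    exact ⟨c, h4⟩⟩
  exact Order.iso_of_countable_dense _ _

/-! ### computability -/

/-- the order of `Qd` on codes -/
def qlt (a b : ℕ) : Bool :=
  decide ((2 * (Nat.unpair a).1 + 1) * 2 ^ (Nat.unpair b).2 <
    (2 * (Nat.unpair b).1 + 1) * 2 ^ (Nat.unpair a).2)

theorem qlt_iff (a b : ℕ) : qlt a b = true ↔ (show Qd from a) < (show Qd from b) := by
  unfold qlt
  rw [decide_eq_true_iff]
  change _ ↔ (2 * ((Nat.unpair a).1 : ℚ) + 1) / 2 ^ (Nat.unpair a).2 <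
    (2 * ((Nat.unpair b).1 : ℚ) + 1) / 2 ^ (Nat.unpair b).2
  rw [div_lt_div_iff₀ (by positivity) (by positivity)]
  exact_mod_cast Iff.rfl

theorem qdf_primrec_two_pow : Primrec (fun n : ℕ => 2 ^ n) := by
  have h : Primrec (fun n : ℕ => Nat.rec (motive := fun _ => ℕ) 1 (fun _ IH => 2 * IH) n) :=
    Primrec.nat_rec₁ 1 (Primrec.nat_mul.comp (Primrec.const 2) Primrec.snd)
  refine h.of_eq fun n => ?_
  induction n with
  | zero => rfl
  | succ n ih =>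
    rw [pow_succ, mul_comm, ← ih]

theorem qlt_primrec : Primrec₂ qlt := by
  have hu1 : Primrec (fun p : ℕ × ℕ => (Nat.unpair p.1).1) :=
    Primrec.fst.comp (Primrec.unpair.comp Primrec.fst)
  have hu2 : Primrec (fun p : ℕ × ℕ => (Nat.unpair p.1).2) :=
    Primrec.snd.comp (Primrec.unpair.comp Primrec.fst)
  have hv1 : Primrec (fun p : ℕ × ℕ => (Nat.unpair p.2).1) :=
    Primrec.fst.comp (Primrec.unpair.comp Primrec.snd)
  have hv2 : Primrec (fun p : ℕ × ℕ => (Nat.unpair p.2).2) :=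
    Primrec.snd.comp (Primrec.unpair.comp Primrec.snd)
  have hodd : Primrec (fun m : ℕ => 2 * m + 1) :=
    Primrec.succ.comp (Primrec.nat_mul.comp (Primrec.const 2) Primrec.id)
  have hL : Primrec (fun p : ℕ × ℕ => (2 * (Nat.unpair p.1).1 + 1) * 2 ^ (Nat.unpair p.2).2) :=
    Primrec.nat_mul.comp (hodd.comp hu1) (qdf_primrec_two_pow.comp hv2)
  have hR : Primrec (fun p : ℕ × ℕ => (2 * (Nat.unpair p.2).1 + 1) * 2 ^ (Nat.unpair p.1).2) :=
    Primrec.nat_mul.comp (hodd.comp hv1) (qdf_primrec_two_pow.comp hu2)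
  exact (Primrec.nat_lt.comp hL hR).decide

theorem qlt_computable : Computable₂ qlt := qlt_primrec.to_comp

theorem qd_col_primrec : Primrec (fun n : ℕ => Qd.col n) :=
  Primrec.fst.comp (Primrec.unpair.comp (Primrec.snd.comp Primrec.unpair))

theorem qd_col_computable : Computable (fun n : ℕ => Qd.col n) := qd_col_primrec.to_comp

end Pool.Agent.NonLow
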