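import Pool.Agent.NonLow.Stmts2
import Pool.Agent.NonLow.QdFacts

/-!
# Closure of uniformly computable families of linear orders
-/

set_option autoImplicit false

namespace Pool.Agent.NonLow

open Encodable

variable {X : ℕ → ℕ} {ι κ : Type} [Primcodable ι] [Primcodable κ]

theorem Pr.comp {A : ι → Type} [∀ i, LinearOrder (A i)] (h : Pr X A) {f : κ → ι}
    (hf : Computable f) : Pr X (fun k => A (f k)) := by
  obtain ⟨c, hc, hd, r, hr, hrl⟩ := h
  refine ⟨fun k => c (f k), fun k => hc (f k), ?_, fun p => r (f p.1, p.2), ?_, ?_⟩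
  · exact hd.comp (f := fun p : κ × ℕ => (f p.1, p.2))
      ((hf.comp Computable.fst).pair Computable.snd)
  · exact hr.comp (f := fun p : κ × ℕ × ℕ => (f p.1, p.2))
      ((hf.comp Computable.fst).pair Computable.snd)
  · intro k a b
    exact hrl (f k) a b

theorem Pr.fin {f : ι → ℕ} (hf : Computable f) : Pr X (fun i => Fin (f i)) := by
  refine ⟨fun i a => a.val, fun i => Fin.val_injective, ?_, fun p => p.2.1 < p.2.2, ?_, ?_⟩
  · refine (Dl.lt (X := X) (n := 0) (f := fun p : ι × ℕ => p.2) (g := fun p : ι × ℕ => f p.1)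
      Computable.snd (hf.comp Computable.fst)).of_iff fun p => ?_
    constructor
    · rintro ⟨a, ha⟩
      rw [← ha]
      exact a.isLt
    · intro h
      exact ⟨⟨p.2, h⟩, rfl⟩
  · exact Dl.lt (Computable.fst.comp Computable.snd) (Computable.snd.comp Computable.snd)
  · intro i a b
    exact Iff.rfl

theorem Pr.unit : Pr X (fun _ : ι => Unit) := by
  refine ⟨fun _ _ => 0, fun _ a b _ => rfl, ?_, fun _ => False, ?_, ?_⟩
  · refine (Dl.eq (X := X) (n := 0) (f := fun p : ι × ℕ => p.2) (g := fun _ : ι × ℕ => 0)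
      Computable.snd (Computable.const 0)).of_iff fun p => ?_
    constructor
    · rintro ⟨a, ha⟩
      exact ha.symm
    · intro h
      exact ⟨(), h.symm⟩
  · exact Dl.of_bool (f := fun _ => false) (Computable.const false) (by simp)
  · intro i a b
    constructor
    · intro h; exact h.elim
    · intro h; exact (lt_irrefl _ h).elim

/-- the order of `Qd` is computable -/
theorem prl_qlt {α : Type} [Primcodable α] {f g : α → ℕ} (hf : Computable f) (hg : Computable g) :
    Dl X 0 (fun x : α => qlt (f x) (g x) = true) :=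
  Dl.of_bool (f := fun x => qlt (f x) (g x)) (qlt_computable.comp hf hg) (fun _ => Iff.rfl)

theorem Pr.sub {E : ι → Qd → Prop} (hE : Dl X 0 (fun p : ι × Qd => E p.1 p.2)) :
    Pr X (fun i => {q : Qd // E i q}) := by
  refine ⟨fun i q => q.1.cd, fun i a b h => Subtype.ext h, ?_,
    fun p => qlt p.2.1 p.2.2 = true, ?_, ?_⟩
  · have h1 : Dl X 0 (fun p : ι × ℕ => E p.1 (show Qd from p.2)) := hE
    refine h1.of_iff fun p => ?_
    constructor
    · rintro ⟨a, ha⟩
      have : (show Qd from p.2) = a.1 := ha.symm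
      rw [this]
      exact a.2
    · intro h
      exact ⟨⟨(show Qd from p.2), h⟩, rfl⟩
  · exact prl_qlt (Computable.fst.comp Computable.snd) (Computable.snd.comp Computable.snd)
  · intro i a b
    exact qlt_iff a.1.cd b.1.cd

theorem Pr.qd : Pr X (fun _ : ι => Qd) := by
  refine ⟨fun i q => q.cd, fun i a b h => h, ?_, fun p => qlt p.2.1 p.2.2 = true, ?_, ?_⟩
  · refine (Dl.of_bool (X := X) (n := 0) (P := fun _ : ι × ℕ => True) (f := fun _ => true)
      (Computable.const true) (by simp)).of_iff fun p => ?_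
    constructor
    · intro _; trivial
    · intro _
      exact ⟨(show Qd from p.2), rfl⟩
  · exact prl_qlt (Computable.fst.comp Computable.snd) (Computable.snd.comp Computable.snd)
  · intro i a b
    exact qlt_iff a.cd b.cd

theorem prl_div2 {α : Type} [Primcodable α] {f : α → ℕ} (hf : Computable f) :
    Computable (fun x => f x / 2) :=
  (Primrec.nat_div.to_comp.comp hf (Computable.const 2))

theorem prl_mod2 {α : Type} [Primcodable α] {f : α → ℕ} (hf : Computable f) :
    Computable (fun x => f x % 2) :=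
  (Primrec.nat_mod.to_comp.comp hf (Computable.const 2))

theorem Pr.sum {A B : ι → Type} [∀ i, LinearOrder (A i)] [∀ i, LinearOrder (B i)]
    (hA : Pr X A) (hB : Pr X B) : Pr X (fun i => A i ⊕ₗ B i) := by
  obtain ⟨c, hc, hd, r, hr, hrl⟩ := hA
  obtain ⟨c', hc', hd', r', hr', hrl'⟩ := hB
  refine ⟨fun i x => Sum.elim (fun a => 2 * c i a) (fun b => 2 * c' i b + 1) (ofLex x), ?_, ?_,
    fun p => (p.2.1 % 2 = 0 ∧ p.2.2 % 2 = 0 ∧ r (p.1, p.2.1 / 2, p.2.2 / 2)) ∨
      (p.2.1 % 2 = 1 ∧ p.2.2 % 2 = 1 ∧ r' (p.1, p.2.1 / 2, p.2.2 / 2)) ∨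
      (p.2.1 % 2 = 0 ∧ p.2.2 % 2 = 1), ?_, ?_⟩
  · rintro i (a | a) (b | b) h
    · have h1 : 2 * c i a = 2 * c i b := h
      have : a = b := hc i (by omega)
      rw [this]
    · have h1 : 2 * c i a = 2 * c' i b + 1 := h
      omega
    · have h1 : 2 * c' i a + 1 = 2 * c i b := h
      omega
    · have h1 : 2 * c' i a + 1 = 2 * c' i b + 1 := h
      have : a = b := hc' i (by omega)
      rw [this]
  · have h1 : Dl X 0 (fun p : ι × ℕ => p.2 % 2 = 0 ∧ ∃ a : A p.1, c p.1 a = p.2 / 2) :=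
      (Dl.eq (prl_mod2 Computable.snd) (Computable.const 0)).and
        (hd.comp (f := fun p : ι × ℕ => (p.1, p.2 / 2))
          (Computable.fst.pair (prl_div2 Computable.snd)))
    have h2 : Dl X 0 (fun p : ι × ℕ => p.2 % 2 = 1 ∧ ∃ a : B p.1, c' p.1 a = p.2 / 2) :=
      (Dl.eq (prl_mod2 Computable.snd) (Computable.const 1)).and
        (hd'.comp (f := fun p : ι × ℕ => (p.1, p.2 / 2))
          (Computable.fst.pair (prl_div2 Computable.snd)))
    refine (h1.or h2).of_iff fun p => ?_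
    constructor
    · rintro ⟨a | a, ha⟩
      · have h3 : 2 * c p.1 a = p.2 := ha
        exact Or.inl ⟨by omega, a, by omega⟩
      · have h3 : 2 * c' p.1 a + 1 = p.2 := ha
        exact Or.inr ⟨by omega, a, by omega⟩
    · rintro (⟨h3, a, ha⟩ | ⟨h3, a, ha⟩)
      · refine ⟨toLex (Sum.inl a), ?_⟩
        show 2 * c p.1 a = p.2
        omega
      · refine ⟨toLex (Sum.inr a), ?_⟩
        show 2 * c' p.1 a + 1 = p.2
        omega
  · have ca : Computable (fun p : ι × ℕ × ℕ => p.2.1) := Computable.fst.comp Computable.snd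
    have cb : Computable (fun p : ι × ℕ × ℕ => p.2.2) := Computable.snd.comp Computable.snd
    have cr : Computable (fun p : ι × ℕ × ℕ => (p.1, p.2.1 / 2, p.2.2 / 2)) :=
      Computable.fst.pair ((prl_div2 ca).pair (prl_div2 cb))
    have a0 : Dl X 0 (fun p : ι × ℕ × ℕ => p.2.1 % 2 = 0) :=
      Dl.eq (prl_mod2 ca) (Computable.const 0)
    have a1 : Dl X 0 (fun p : ι × ℕ × ℕ => p.2.1 % 2 = 1) :=
      Dl.eq (prl_mod2 ca) (Computable.const 1)
    have b0 : Dl X 0 (fun p : ι × ℕ × ℕ => p.2.2 % 2 = 0) :=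
      Dl.eq (prl_mod2 cb) (Computable.const 0)
    have b1 : Dl X 0 (fun p : ι × ℕ × ℕ => p.2.2 % 2 = 1) :=
      Dl.eq (prl_mod2 cb) (Computable.const 1)
    exact (a0.and (b0.and (hr.comp cr))).or ((a1.and (b1.and (hr'.comp cr))).or (a0.and b1))
  · rintro i (a | a) (b | b)
    · show ((2 * c i a) % 2 = 0 ∧ (2 * c i b) % 2 = 0 ∧ r (i, (2 * c i a) / 2, (2 * c i b) / 2)) ∨
        ((2 * c i a) % 2 = 1 ∧ (2 * c i b) % 2 = 1 ∧ r' (i, (2 * c i a) / 2, (2 * c i b) / 2)) ∨
        ((2 * c i a) % 2 = 0 ∧ (2 * c i b) % 2 = 1) ↔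
        (toLex (Sum.inl a) : A i ⊕ₗ B i) < toLex (Sum.inl b)
      rw [Sum.Lex.inl_lt_inl_iff, ← hrl i a b, Nat.mul_div_cancel_left _ (by norm_num : 0 < 2),
        Nat.mul_div_cancel_left _ (by norm_num : 0 < 2)]
      constructor
      · rintro (h | h | h)
        · exact h.2.2
        · omega
        · omega
      · intro h
        exact Or.inl ⟨by omega, by omega, h⟩
    · show ((2 * c i a) % 2 = 0 ∧ (2 * c' i b + 1) % 2 = 0 ∧
          r (i, (2 * c i a) / 2, (2 * c' i b + 1) / 2)) ∨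
        ((2 * c i a) % 2 = 1 ∧ (2 * c' i b + 1) % 2 = 1 ∧
          r' (i, (2 * c i a) / 2, (2 * c' i b + 1) / 2)) ∨
        ((2 * c i a) % 2 = 0 ∧ (2 * c' i b + 1) % 2 = 1) ↔
        (toLex (Sum.inl a) : A i ⊕ₗ B i) < toLex (Sum.inr b)
      constructor
      · intro _
        exact Sum.Lex.inl_lt_inr a b
      · intro _
        exact Or.inr (Or.inr ⟨by omega, by omega⟩)
    · show ((2 * c' i a + 1) % 2 = 0 ∧ (2 * c i b) % 2 = 0 ∧
          r (i, (2 * c' i a + 1) / 2, (2 * c i b) / 2)) ∨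
        ((2 * c' i a + 1) % 2 = 1 ∧ (2 * c i b) % 2 = 1 ∧
          r' (i, (2 * c' i a + 1) / 2, (2 * c i b) / 2)) ∨
        ((2 * c' i a + 1) % 2 = 0 ∧ (2 * c i b) % 2 = 1) ↔
        (toLex (Sum.inr a) : A i ⊕ₗ B i) < toLex (Sum.inl b)
      constructor
      · intro h
        omega
      · intro h
        exact absurd h Sum.Lex.not_inr_lt_inl
    · show ((2 * c' i a + 1) % 2 = 0 ∧ (2 * c' i b + 1) % 2 = 0 ∧
          r (i, (2 * c' i a + 1) / 2, (2 * c' i b + 1) / 2)) ∨
        ((2 * c' i a + 1) % 2 = 1 ∧ (2 * c' i b + 1) % 2 = 1 ∧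
          r' (i, (2 * c' i a + 1) / 2, (2 * c' i b + 1) / 2)) ∨
        ((2 * c' i a + 1) % 2 = 0 ∧ (2 * c' i b + 1) % 2 = 1) ↔
        (toLex (Sum.inr a) : A i ⊕ₗ B i) < toLex (Sum.inr b)
      have e1 : (2 * c' i a + 1) / 2 = c' i a := by omega
      have e2 : (2 * c' i b + 1) / 2 = c' i b := by omega
      rw [Sum.Lex.inr_lt_inr_iff, ← hrl' i a b, e1, e2]
      constructor
      · rintro (h | h | h)
        · omega
        · exact h.2.2
        · omega
      · intro h
        exact Or.inr (Or.inl ⟨by omega, by omega, h⟩)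

/-- lexicographic sums over a computable linear order `J` coded by an injective function -/
theorem prl_sigma {J : Type} [LinearOrder J] [Primcodable J] (cj : J → ℕ)
    (hcj : Function.Injective cj) (dj : ℕ → J) (hdj : Computable dj) (hdc : ∀ j, dj (cj j) = j)
    (hcd : ∀ n, cj (dj n) = n) (lj : ℕ → ℕ → Bool) (hlj : Computable₂ lj)
    (hl : ∀ j k : J, lj (cj j) (cj k) = true ↔ j < k)
    {A : ι → J → Type} [∀ i j, LinearOrder (A i j)]
    (h : Pr X (fun p : ι × J => A p.1 p.2)) : Pr X (fun i => Σₗ j : J, A i j) := by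
  obtain ⟨c, hc, hd, r, hr, hrl⟩ := h
  refine ⟨fun i x => Nat.pair (cj (ofLex x).1) (c (i, (ofLex x).1) (ofLex x).2), ?_, ?_,
    fun p => lj (Nat.unpair p.2.1).1 (Nat.unpair p.2.2).1 = true ∨
      ((Nat.unpair p.2.1).1 = (Nat.unpair p.2.2).1 ∧
        r ((p.1, dj (Nat.unpair p.2.1).1), (Nat.unpair p.2.1).2, (Nat.unpair p.2.2).2)), ?_, ?_⟩
  · rintro i ⟨j, a⟩ ⟨k, b⟩ h
    have h1 : Nat.pair (cj j) (c (i, j) a) = Nat.pair (cj k) (c (i, k) b) := h
    rw [Nat.pair_eq_pair] at h1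
    obtain rfl : j = k := hcj h1.1
    obtain rfl : a = b := hc (i, j) h1.2
    rfl
  · have h1 := hd.comp (f := fun p : ι × ℕ => ((p.1, dj (Nat.unpair p.2).1), (Nat.unpair p.2).2))
      ((Computable.fst.pair (hdj.comp (Computable.fst.comp (Computable.unpair.comp
        Computable.snd)))).pair (Computable.snd.comp (Computable.unpair.comp Computable.snd)))
    refine h1.of_iff fun p => ?_
    constructor
    · rintro ⟨⟨j, a⟩, ha⟩
      have h2 : Nat.pair (cj j) (c (p.1, j) a) = p.2 := ha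
      have h3 : dj (Nat.unpair p.2).1 = j := by
        rw [← h2, Nat.unpair_pair]
        exact hdc j
      have h4 : (Nat.unpair p.2).2 = c (p.1, j) a := by
        rw [← h2, Nat.unpair_pair]
      show ∃ a : A p.1 (dj (Nat.unpair p.2).1), c (p.1, dj (Nat.unpair p.2).1) a =
        (Nat.unpair p.2).2
      rw [h4, h3]
      exact ⟨a, rfl⟩
    · rintro ⟨a, ha⟩
      refine ⟨toLex ⟨dj (Nat.unpair p.2).1, a⟩, ?_⟩
      show Nat.pair (cj (dj (Nat.unpair p.2).1)) (c (p.1, dj (Nat.unpair p.2).1) a) = p.2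
      have ha' : c (p.1, dj (Nat.unpair p.2).1) a = (Nat.unpair p.2).2 := ha
      rw [ha', hcd, Nat.pair_unpair]
  · have ca : Computable (fun p : ι × ℕ × ℕ => (Nat.unpair p.2.1).1) :=
      Computable.fst.comp (Computable.unpair.comp (Computable.fst.comp Computable.snd))
    have ca2 : Computable (fun p : ι × ℕ × ℕ => (Nat.unpair p.2.1).2) :=
      Computable.snd.comp (Computable.unpair.comp (Computable.fst.comp Computable.snd))
    have cb : Computable (fun p : ι × ℕ × ℕ => (Nat.unpair p.2.2).1) :=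
      Computable.fst.comp (Computable.unpair.comp (Computable.snd.comp Computable.snd))
    have cb2 : Computable (fun p : ι × ℕ × ℕ => (Nat.unpair p.2.2).2) :=
      Computable.snd.comp (Computable.unpair.comp (Computable.snd.comp Computable.snd))
    refine (Dl.of_bool (f := fun p : ι × ℕ × ℕ => lj (Nat.unpair p.2.1).1 (Nat.unpair p.2.2).1)
      (hlj.comp ca cb) (fun _ => Iff.rfl)).or ((Dl.eq ca cb).and ?_)
    exact hr.comp (f := fun p : ι × ℕ × ℕ =>
      ((p.1, dj (Nat.unpair p.2.1).1), (Nat.unpair p.2.1).2, (Nat.unpair p.2.2).2))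
      ((Computable.fst.pair (hdj.comp ca)).pair (ca2.pair cb2))
  · rintro i ⟨j, a⟩ ⟨k, b⟩
    show (lj (Nat.unpair (Nat.pair (cj j) (c (i, j) a))).1
        (Nat.unpair (Nat.pair (cj k) (c (i, k) b))).1 = true ∨
      ((Nat.unpair (Nat.pair (cj j) (c (i, j) a))).1 =
          (Nat.unpair (Nat.pair (cj k) (c (i, k) b))).1 ∧
        r ((i, dj (Nat.unpair (Nat.pair (cj j) (c (i, j) a))).1),
          (Nat.unpair (Nat.pair (cj j) (c (i, j) a))).2,
          (Nat.unpair (Nat.pair (cj k) (c (i, k) b))).2))) ↔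
      (toLex ⟨j, a⟩ : Σₗ j : J, A i j) < toLex ⟨k, b⟩
    simp only [Nat.unpair_pair]
    rw [Sigma.Lex.lt_def, hl, hdc]
    show (j < k ∨ cj j = cj k ∧ r ((i, j), c (i, j) a, c (i, k) b)) ↔
      (j < k ∨ ∃ h : j = k, h.rec a < b)
    constructor
    · rintro (h | ⟨h, h'⟩)
      · exact Or.inl h
      · obtain rfl : j = k := hcj h
        exact Or.inr ⟨rfl, (hrl (i, j) a b).1 h'⟩
    · rintro (h | ⟨h, h'⟩)
      · exact Or.inl h
      · subst h
        exact Or.inr ⟨rfl, (hrl (i, j) a b).2 h'⟩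

theorem Pr.sigmaN {A : ι → ℕ → Type} [∀ i j, LinearOrder (A i j)]
    (h : Pr X (fun p : ι × ℕ => A p.1 p.2)) : Pr X (fun i => Σₗ j : ℕ, A i j) :=
  prl_sigma (J := ℕ) id Function.injective_id id Computable.id (fun _ => rfl) (fun _ => rfl)
    (fun a b => decide (a < b)) Primrec.nat_lt.decide.to_comp (fun _ _ => by simp) h

theorem Pr.sigmaQ {A : ι → Qd → Type} [∀ i j, LinearOrder (A i j)]
    (h : Pr X (fun p : ι × Qd => A p.1 p.2)) : Pr X (fun i => Σₗ j : Qd, A i j) :=
  prl_sigma (J := Qd) Qd.cd (fun _ _ h => h) (fun n => (show Qd from n)) Computable.id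
    (fun _ => rfl) (fun _ => rfl) qlt qlt_computable (fun a b => qlt_iff a.cd b.cd) h

end Pool.Agent.NonLow
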