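import Pool.Agent.NonLow.Stmts2

/-!
# An infinite presented order has a copy on the natural numbers
-/

set_option autoImplicit false

namespace Pool.Agent.NonLow

open Classical in
/-- the number of elements of `D` below `x` has a `Σ₁(X)` graph -/
theorem reindex_count {X : ℕ → ℕ} {D : ℕ → Prop} (hD : Dl X 0 D) :
    Sg X 0 (fun p : ℕ × ℕ => Nat.count D p.1 = p.2) := by
  have hget : ∀ {α : Type} [Primcodable α] (f : α → List ℕ) (g : α → ℕ), Computable f →
      Computable g → Computable (fun x => (f x).getD (g x) 0) := fun f g hf hg =>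
    (Primrec.list_getD 0).to_comp.comp hf hg
  have h1 : Sg X 0 (fun p : (ℕ × ℕ) × List ℕ => p.2.getD 0 0 = 0 ∧
      ((∀ i, i < p.1.1 → (D i ∧ p.2.getD (i + 1) 0 = p.2.getD i 0 + 1) ∨
        (¬ D i ∧ p.2.getD (i + 1) 0 = p.2.getD i 0)) ∧ p.2.getD p.1.1 0 = p.1.2)) := by
    refine Sg.and ?_ (Sg.and ?_ ?_)
    · exact (Dl.eq (hget (fun p : (ℕ × ℕ) × List ℕ => p.2) (fun _ => 0) Computable.snd
        (Computable.const 0)) (Computable.const 0)).1
    · refine Sg.ball (P := fun (p : (ℕ × ℕ) × List ℕ) (i : ℕ) =>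
        (D i ∧ p.2.getD (i + 1) 0 = p.2.getD i 0 + 1) ∨
        (¬ D i ∧ p.2.getD (i + 1) 0 = p.2.getD i 0)) ?_ (f := fun p => p.1.1)
        (Computable.fst.comp Computable.fst)
      have e1 : Computable (fun p : ((ℕ × ℕ) × List ℕ) × ℕ => p.1.2.getD (p.2 + 1) 0) :=
        hget _ _ (Computable.snd.comp Computable.fst) (Computable.succ.comp Computable.snd)
      have e2 : Computable (fun p : ((ℕ × ℕ) × List ℕ) × ℕ => p.1.2.getD p.2 0) :=
        hget _ _ (Computable.snd.comp Computable.fst) Computable.snd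
      refine Sg.or (Sg.and ?_ ?_) (Sg.and ?_ ?_)
      · exact hD.1.comp (f := fun p : ((ℕ × ℕ) × List ℕ) × ℕ => p.2) Computable.snd
      · exact (Dl.eq e1 (Computable.succ.comp e2)).1
      · exact hD.2.comp (P := fun x => ¬ D x) (f := fun p : ((ℕ × ℕ) × List ℕ) × ℕ => p.2)
          Computable.snd
      · exact (Dl.eq e1 e2).1
    · exact (Dl.eq (hget (fun p : (ℕ × ℕ) × List ℕ => p.2) (fun p => p.1.1) Computable.snd
        (Computable.fst.comp Computable.fst)) (Computable.snd.comp Computable.fst)).1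
  refine (Sg.ex (P := fun (p : ℕ × ℕ) (l : List ℕ) => l.getD 0 0 = 0 ∧
      ((∀ i, i < p.1 → (D i ∧ l.getD (i + 1) 0 = l.getD i 0 + 1) ∨
        (¬ D i ∧ l.getD (i + 1) 0 = l.getD i 0)) ∧ l.getD p.1 0 = p.2)) h1).of_iff ?_
  rintro ⟨x, n⟩
  constructor
  · intro h
    have hl : ∀ i ≤ x, ((List.range (x + 1)).map (Nat.count D)).getD i 0 = Nat.count D i := by
      intro i hi
      have : i < x + 1 := by omega
      simp [this]
    refine ⟨(List.range (x + 1)).map (Nat.count D), ?_, ?_, ?_⟩
    · rw [hl 0 (Nat.zero_le _)]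
      exact Nat.count_zero _
    · intro i hi
      have hi' : i < x := hi
      rw [hl i (by omega), hl (i + 1) (by omega), Nat.count_succ]
      by_cases hDi : D i
      · exact Or.inl ⟨hDi, by rw [if_pos hDi]⟩
      · exact Or.inr ⟨hDi, by rw [if_neg hDi, Nat.add_zero]⟩
    · change ((List.range (x + 1)).map (Nat.count D)).getD x 0 = n
      rw [hl x le_rfl]
      exact h
  · rintro ⟨l, h0, hs, he⟩
    have hl : ∀ i, i ≤ x → l.getD i 0 = Nat.count D i := by
      intro i
      induction i with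
      | zero => intro _; rw [h0, Nat.count_zero]
      | succ i ih =>
        intro hi
        have h2 := ih (by omega)
        rcases hs i (show i < x by omega) with ⟨hDi, h3⟩ | ⟨hDi, h3⟩
        · rw [h3, h2, Nat.count_succ, if_pos hDi]
        · rw [h3, h2, Nat.count_succ, if_neg hDi, Nat.add_zero]
    have := hl x le_rfl
    change Nat.count D x = n
    rw [← this]
    exact he

theorem reindex_main : StmtReindex := by
  classical
  rintro X A _ _ ⟨c, hc, hD, r, hr, hrr⟩
  set D : ℕ → Prop := fun x => ∃ a : A, c 0 a = x with hDdef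
  have hD0 : Dl X 0 D := hD.comp (f := fun x : ℕ => ((0 : ℕ), x))
    ((Computable.const 0).pair Computable.id)
  have hinf : (setOf D).Infinite := by
    have : setOf D = Set.range (c 0) := by
      ext x
      exact Iff.rfl
    rw [this]
    exact Set.infinite_range_of_injective (hc 0)
  have hmem : ∀ n, D (Nat.nth D n) := fun n => Nat.nth_mem_of_infinite hinf n
  have hgraph : Sg X 0 (fun p : ℕ × ℕ => Nat.nth D p.1 = p.2) := by
    have h1 : Sg X 0 (fun p : ℕ × ℕ => D p.2 ∧ Nat.count D p.2 = p.1) := by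
      refine Sg.and ?_ ?_
      · exact hD0.1.comp (f := fun p : ℕ × ℕ => p.2) Computable.snd
      · exact (reindex_count hD0).comp (f := fun p : ℕ × ℕ => (p.2, p.1))
          (Computable.snd.pair Computable.fst)
    refine h1.of_iff fun p => ?_
    constructor
    · intro h
      rw [← h]
      exact ⟨hmem _, Nat.count_nth_of_infinite hinf _⟩
    · rintro ⟨h2, h3⟩
      rw [← h3]
      exact Nat.nth_count h2
  choose φ hφ using hmem
  have hinj : Function.Injective φ := by
    intro a b hab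
    have h1 := hφ a
    rw [hab, hφ b] at h1
    exact (Nat.nth_injective hinf h1).symm
  have hsurj : Function.Surjective φ := by
    intro a
    have h1 : D (c 0 a) := ⟨a, rfl⟩
    refine ⟨Nat.count D (c 0 a), hc 0 ?_⟩
    rw [hφ]
    exact Nat.nth_count h1
  refine ⟨fun p => r (0, Nat.nth D p.1, Nat.nth D p.2), ?_,
    Equiv.ofBijective φ ⟨hinj, hsurj⟩, fun a b => ?_⟩
  · have h1 : Dl X 0 (fun q : (ℕ × ℕ) × ℕ => r (0, Nat.nth D q.1.1, q.2)) := by
      refine Dl.fsub (P := fun (q : (ℕ × ℕ) × ℕ) (y : ℕ) => r (0, y, q.2))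
        (f := fun q : (ℕ × ℕ) × ℕ => Nat.nth D q.1.1) ?_ ?_
      · exact hgraph.comp (f := fun p : ((ℕ × ℕ) × ℕ) × ℕ => (p.1.1.1, p.2))
          ((Computable.fst.comp (Computable.fst.comp Computable.fst)).pair Computable.snd)
      · exact hr.comp (f := fun p : ((ℕ × ℕ) × ℕ) × ℕ => ((0 : ℕ), p.2, p.1.2))
          ((Computable.const 0).pair
            (Computable.snd.pair (Computable.snd.comp Computable.fst)))
    refine Dl.fsub (P := fun (p : ℕ × ℕ) (y : ℕ) => r (0, Nat.nth D p.1, y))
      (f := fun p : ℕ × ℕ => Nat.nth D p.2) ?_ h1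
    exact hgraph.comp (f := fun p : (ℕ × ℕ) × ℕ => (p.1.2, p.2))
      ((Computable.snd.comp Computable.fst).pair Computable.snd)
  · change r (0, Nat.nth D a, Nat.nth D b) ↔ φ a < φ b
    rw [← hφ a, ← hφ b]
    exact hrr 0 _ _

end Pool.Agent.NonLow
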