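import Pool.Agent.NonLow.Stmts

/-!
# The shuffle lemma
-/

set_option autoImplicit false

namespace Pool.Agent.NonLow

/-! ### congruence of lexicographic sums -/

/-- congruence of lexicographic sums -/
theorem sigmaLex_congr {α β : Type} [LinearOrder α] [LinearOrder β] {A : α → Type} {B : β → Type}
    [∀ a, LinearOrder (A a)] [∀ b, LinearOrder (B b)] (f : α ≃o β)
    (h : ∀ a, Nonempty (A a ≃o B (f a))) : Nonempty ((Σₗ a, A a) ≃o (Σₗ b, B b)) := by
  classical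
  have g : ∀ a, A a ≃o B (f a) := fun a => Classical.choice (h a)
  let F : (Σₗ a, A a) → (Σₗ b, B b) := fun x => toLex ⟨f (ofLex x).1, g (ofLex x).1 (ofLex x).2⟩
  have hmono : StrictMono F := by
    intro x y hxy
    rw [Sigma.Lex.lt_def] at hxy ⊢
    rcases hxy with h1 | ⟨h1, h2⟩
    · exact Or.inl (f.lt_iff_lt.2 h1)
    · obtain ⟨i, x⟩ := x
      obtain ⟨j, y⟩ := y
      cases h1
      right
      exact ⟨rfl, (g i).lt_iff_lt.2 h2⟩
  have hsurj : Function.Surjective F := by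
    rintro ⟨b, y⟩
    obtain ⟨a, rfl⟩ := f.surjective b
    obtain ⟨x, rfl⟩ := (g a).surjective y
    exact ⟨toLex ⟨a, x⟩, rfl⟩
  exact ⟨StrictMono.orderIsoOfSurjective F hmono hsurj⟩

/-! ### back and forth with a relation -/

section bf

variable {α β : Type} [LinearOrder α] [LinearOrder β]

/-- every element of `α` has related elements in every gap of a finite subset of `β` -/
def ShufDense (r : α → β → Prop) : Prop :=
  ∀ (a : α) (lo hi : Finset β), (∀ x ∈ lo, ∀ y ∈ hi, x < y) →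
    ∃ b, r a b ∧ (∀ x ∈ lo, x < b) ∧ ∀ y ∈ hi, b < y

theorem shuf_across (r : α → β → Prop) (h : ShufDense r) (f : Finset (α × β))
    (hf : ∀ p ∈ f, ∀ q ∈ f, cmp p.1 q.1 = cmp p.2 q.2) (hr : ∀ p ∈ f, r p.1 p.2) (a : α) :
    ∃ b, r a b ∧ ∀ p ∈ f, cmp p.1 a = cmp p.2 b := by
  classical
  by_cases hab : ∃ b, (a, b) ∈ f
  · obtain ⟨b, hb⟩ := hab
    exact ⟨b, hr _ hb, fun p hp => hf p hp _ hb⟩
  have key : ∀ x ∈ {p ∈ f | p.1 < a}.image Prod.snd, ∀ y ∈ {p ∈ f | a < p.1}.image Prod.snd,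
      x < y := by
    intro x hx y hy
    rw [Finset.mem_image] at hx hy
    rcases hx with ⟨p, hp1, rfl⟩
    rcases hy with ⟨q, hq1, rfl⟩
    rw [Finset.mem_filter] at hp1 hq1
    rw [← lt_iff_lt_of_cmp_eq_cmp (hf _ hp1.1 _ hq1.1)]
    exact lt_trans hp1.right hq1.right
  obtain ⟨b, hb0, hb1, hb2⟩ := h a _ _ key
  refine ⟨b, hb0, ?_⟩
  rintro ⟨p1, p2⟩ hp
  have hne : p1 ≠ a := fun he => hab ⟨p2, he ▸ hp⟩
  rcases lt_or_gt_of_ne hne with hl | hr
  · have h2 : p1 < a ∧ p2 < b :=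
      ⟨hl, hb1 _ (Finset.mem_image.mpr ⟨(p1, p2), Finset.mem_filter.mpr ⟨hp, hl⟩, rfl⟩)⟩
    rw [← cmp_eq_lt_iff, ← cmp_eq_lt_iff] at h2
    exact h2.1.trans h2.2.symm
  · have h2 : a < p1 ∧ b < p2 :=
      ⟨hr, hb2 _ (Finset.mem_image.mpr ⟨(p1, p2), Finset.mem_filter.mpr ⟨hp, hr⟩, rfl⟩)⟩
    rw [← cmp_eq_gt_iff, ← cmp_eq_gt_iff] at h2
    exact h2.1.trans h2.2.symm

/-- finite approximations -/
def ShufPI (r : α → β → Prop) : Type :=
  {f : Finset (α × β) // (∀ p ∈ f, ∀ q ∈ f, cmp p.1 q.1 = cmp p.2 q.2) ∧ ∀ p ∈ f, r p.1 p.2}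

instance (r : α → β → Prop) : Preorder (ShufPI r) := Subtype.preorder _

/-- adding a pair -/
theorem shuf_insert (r : α → β → Prop) (f : ShufPI r) (a : α) (b : β) (h1 : r a b)
    (h2 : ∀ p ∈ f.1, cmp p.1 a = cmp p.2 b) : ∃ g : ShufPI r, (a, b) ∈ g.1 ∧ f ≤ g := by
  classical
  refine ⟨⟨insert (a, b) f.1, ?_, ?_⟩, Finset.mem_insert_self _ _, Finset.subset_insert _ _⟩
  · intro p hp q hq
    rw [Finset.mem_insert] at hp hq
    rcases hp with (rfl | pf) <;> rcases hq with (rfl | qf)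
    · simp only [cmp_self_eq_eq]
    · rw [cmp_eq_cmp_symm]
      exact h2 _ qf
    · exact h2 _ pf
    · exact f.2.1 _ pf _ qf
  · intro p hp
    rw [Finset.mem_insert] at hp
    rcases hp with (rfl | pf)
    · exact h1
    · exact f.2.2 _ pf

/-- the approximations defined at `a` -/
def shufLeft (r : α → β → Prop) (h : ShufDense r) (a : α) : Order.Cofinal (ShufPI r) where
  carrier := {f | ∃ b, (a, b) ∈ f.1}
  isCofinal := by
    intro f
    obtain ⟨b, hb, hb2⟩ := shuf_across r h f.1 f.2.1 f.2.2 a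
    obtain ⟨g, hg, hg2⟩ := shuf_insert r f a b hb hb2
    exact ⟨g, ⟨b, hg⟩, hg2⟩

/-- the approximations whose range contains `b` -/
def shufRight (r : α → β → Prop) (h : ShufDense (fun b a => r a b)) (b : β) :
    Order.Cofinal (ShufPI r) where
  carrier := {f | ∃ a, (a, b) ∈ f.1}
  isCofinal := by
    classical
    intro f
    obtain ⟨a, ha, ha2⟩ := shuf_across (fun b a => r a b) h (f.1.image Prod.swap)
      (by
        intro p hp q hq
        obtain ⟨p', hp', rfl⟩ := Finset.mem_image.1 hp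
        obtain ⟨q', hq', rfl⟩ := Finset.mem_image.1 hq
        exact (f.2.1 p' hp' q' hq').symm)
      (by
        intro p hp
        obtain ⟨p', hp', rfl⟩ := Finset.mem_image.1 hp
        exact f.2.2 p' hp') b
    obtain ⟨g, hg, hg2⟩ := shuf_insert r f a b ha (by
      intro p hp
      exact (ha2 p.swap (Finset.mem_image_of_mem _ hp)).symm)
    exact ⟨g, ⟨a, hg⟩, hg2⟩

/-- back and forth with a relation -/
theorem shuf_back_forth [Countable α] [Countable β] (r : α → β → Prop) (h1 : ShufDense r)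
    (h2 : ShufDense (fun b a => r a b)) : ∃ f : α ≃o β, ∀ a, r a (f a) := by
  classical
  cases nonempty_encodable α
  cases nonempty_encodable β
  let cof : α ⊕ β → Order.Cofinal (ShufPI r) := fun p => Sum.recOn p (shufLeft r h1) (shufRight r h2)
  let I : Order.Ideal (ShufPI r) := Order.idealOfCofinals ⟨∅, by simp, by simp⟩ cof
  have hF : ∀ a : α, ∃ b : β, ∃ f ∈ I, (a, b) ∈ f.1 := by
    intro a
    obtain ⟨f, ⟨b, hb⟩, hf⟩ := Order.cofinal_meets_idealOfCofinals ⟨∅, by simp, by simp⟩ cof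
      (Sum.inl a)
    exact ⟨b, f, hf, hb⟩
  have hG : ∀ b : β, ∃ a : α, ∃ f ∈ I, (a, b) ∈ f.1 := by
    intro b
    obtain ⟨f, ⟨a, ha⟩, hf⟩ := Order.cofinal_meets_idealOfCofinals ⟨∅, by simp, by simp⟩ cof
      (Sum.inr b)
    exact ⟨a, f, hf, ha⟩
  choose F hF2 using hF
  choose G hG2 using hG
  refine ⟨OrderIso.ofCmpEqCmp F G (fun a b => ?_), fun a => ?_⟩
  · obtain ⟨f, hf, ha⟩ := hF2 a
    obtain ⟨g, hg, hb⟩ := hG2 b
    rcases I.directed _ hf _ hg with ⟨m, _, fm, gm⟩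
    exact m.2.1 (a, _) (fm ha) (_, b) (gm hb)
  · obtain ⟨f, hf, ha⟩ := hF2 a
    exact f.2.2 _ ha

end bf

/-- coloured version of density for finite sets -/
theorem shuf_between (hq : StmtQd) (n : ℕ) (lo hi : Finset Qd)
    (h : ∀ x ∈ lo, ∀ y ∈ hi, x < y) : ∃ b : Qd, b.col = n ∧ (∀ x ∈ lo, x < b) ∧
      ∀ y ∈ hi, b < y := by
  classical
  obtain ⟨q1, q2, q3⟩ := hq
  by_cases nlo : lo.Nonempty
  · by_cases nhi : hi.Nonempty
    · obtain ⟨c, hc, hc1, hc2⟩ := q1 n _ _ (h _ (Finset.max'_mem _ nlo) _ (Finset.min'_mem _ nhi))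
      exact ⟨c, hc, fun x hx => lt_of_le_of_lt (Finset.le_max' lo x hx) hc1,
        fun y hy => lt_of_lt_of_le hc2 (Finset.min'_le hi y hy)⟩
    · obtain ⟨c, hc, hc1⟩ := q2 n (Finset.max' lo nlo)
      exact ⟨c, hc, fun x hx => lt_of_le_of_lt (Finset.le_max' lo x hx) hc1,
        fun y hy => (nhi ⟨y, hy⟩).elim⟩
  · by_cases nhi : hi.Nonempty
    · obtain ⟨c, hc, hc1⟩ := q3 n (Finset.min' hi nhi)
      exact ⟨c, hc, fun x hx => (nlo ⟨x, hx⟩).elim,
        fun y hy => lt_of_lt_of_le hc1 (Finset.min'_le hi y hy)⟩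
    · obtain ⟨q0⟩ : Nonempty Qd := inferInstance
      obtain ⟨c, hc, _⟩ := q2 n q0
      exact ⟨c, hc, fun x hx => (nlo ⟨x, hx⟩).elim, fun y hy => (nhi ⟨y, hy⟩).elim⟩

theorem shuffle_main (hq : StmtQd) : StmtShuffle := by
  intro A B _ _ hAB hBA
  obtain ⟨f, hf⟩ := shuf_back_forth (fun q q' : Qd => Nonempty (A q.col ≃o B q'.col))
    (by
      intro q lo hi hlh
      obtain ⟨j, hj⟩ := hAB q.col
      obtain ⟨b, hb, hb1, hb2⟩ := shuf_between hq j lo hi hlh
      refine ⟨b, ?_, hb1, hb2⟩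
      change Nonempty (A q.col ≃o B b.col)
      rw [hb]
      exact hj)
    (by
      intro q lo hi hlh
      obtain ⟨i, hi'⟩ := hBA q.col
      obtain ⟨b, hb, hb1, hb2⟩ := shuf_between hq i lo hi hlh
      refine ⟨b, ?_, hb1, hb2⟩
      change Nonempty (A b.col ≃o B q.col)
      rw [hb]
      exact hi')
  exact sigmaLex_congr (A := fun q : Qd => A q.col) (B := fun q : Qd => B q.col) f hf

end Pool.Agent.NonLow
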