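import Pool.Agent.NonLow.Stmts2

/-!
# NB: complexity of locations and their contents
-/

set_option autoImplicit false

namespace Pool.Agent.NonLow

open Encodable

/-! ## Coded sequences -/

theorem cpx_dec : Computable (fun p : ℕ × ℕ => dec p.1 p.2) := by
  have hd : Computable (fun m : ℕ => (decode (α := List ℕ) m).getD []) :=
      Computable.option_getD Computable.decode (Computable.const [])
  exact (Primrec.list_getD 0).to_comp.comp (hd.comp Computable.fst) Computable.snd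

theorem cpx_dec_surj (v : ℕ) (f : ℕ → ℕ) : ∃ l, ∀ i < v, dec l i = f i := by
  refine ⟨encode ((List.range v).map f), fun i hi => ?_⟩
  simp [dec, hi]

theorem cpx_encard (s : Set ℕ) (v : ℕ) : (v : ℕ∞) < s.encard ↔
    ∃ l : ℕ, (∀ i, i < v + 1 → ∀ j, j < i → dec l j ≠ dec l i) ∧
      (∀ i, i < v + 1 → dec l i ∈ s) := by
  constructor
  · intro h
    have h1 : ((v + 1 : ℕ) : ℕ∞) ≤ s.encard := by
      have := Order.add_one_le_of_lt h
      exact_mod_cast this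
    obtain ⟨t, ht, hc⟩ := Set.exists_subset_encard_eq h1
    have hf : t.Finite := Set.finite_of_encard_eq_coe hc
    have hcard : hf.toFinset.card = v + 1 := by
      have h2 : t.encard = (hf.toFinset.card : ℕ∞) := hf.encard_eq_coe_toFinset_card
      rw [h2] at hc
      exact_mod_cast hc
    obtain ⟨l, hl⟩ := cpx_dec_surj (v + 1)
      (fun i => if h : i < v + 1 then hf.toFinset.orderEmbOfFin hcard ⟨i, h⟩ else 0)
    refine ⟨l, fun i hi j hj => ?_, fun i hi => ?_⟩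
    · rw [hl i hi, hl j (hj.trans hi), dif_pos hi, dif_pos (hj.trans hi)]
      intro h3
      have h4 := (hf.toFinset.orderEmbOfFin hcard).injective h3
      have h5 : j = i := congrArg Fin.val h4
      omega
    · rw [hl i hi, dif_pos hi]
      apply ht
      have h3 := Finset.orderEmbOfFin_mem hf.toFinset hcard ⟨i, hi⟩
      exact hf.mem_toFinset.1 h3
  · rintro ⟨l, h1, h2⟩
    have hinj : Set.InjOn (dec l) (Finset.range (v + 1) : Finset ℕ) := by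
      intro i hi j hj hij
      simp only [Finset.coe_range, Set.mem_Iio] at hi hj
      rcases lt_trichotomy i j with h | h | h
      · exact absurd hij (h1 j hj i h)
      · exact h
      · exact absurd hij.symm (h1 i hi j h)
    have h3 : ((Finset.range (v + 1)).image (dec l)).card = v + 1 := by
      rw [Finset.card_image_of_injOn hinj, Finset.card_range]
    have h4 : (((Finset.range (v + 1)).image (dec l) : Finset ℕ) : Set ℕ) ⊆ s := by
      intro x hx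
      simp only [Finset.coe_image, Set.mem_image, Finset.coe_range, Set.mem_Iio] at hx
      obtain ⟨i, hi, rfl⟩ := hx
      exact h2 i hi
    have h5 := Set.encard_le_encard h4
    rw [Set.encard_coe_eq_coe_finsetCard, h3] at h5
    refine lt_of_lt_of_le ?_ h5
    exact_mod_cast Nat.lt_succ_self v

/-- counting the elements of a `Σ` set is `Σ` -/
theorem cpx_card {α : Type} [Primcodable α] {X : ℕ → ℕ} {n : ℕ} {S : α → ℕ → Prop}
    (h : Sg X n (fun p : α × ℕ => S p.1 p.2)) :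
    Sg X n (fun p : α × ℕ => (p.2 : ℕ∞) < {a | S p.1 a}.encard) := by
  have hf : Computable (fun q : (α × ℕ) × ℕ => q.1.2 + 1) :=
    Computable.succ.comp (Computable.snd.comp Computable.fst)
  have hA : Dl X n (fun q : (α × ℕ) × ℕ =>
      ∀ i, i < q.1.2 + 1 → ∀ j, j < i → dec q.2 j ≠ dec q.2 i) := by
    refine Dl.ball (P := fun (q : (α × ℕ) × ℕ) (i : ℕ) => ∀ j, j < i → dec q.2 j ≠ dec q.2 i)
      ?_ hf
    refine Dl.ball (P := fun (r : ((α × ℕ) × ℕ) × ℕ) (j : ℕ) => dec r.1.2 j ≠ dec r.1.2 r.2)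
      ?_ Computable.snd
    refine Dl.not (Dl.eq ?_ ?_)
    · exact cpx_dec.comp (f := fun p : ℕ × ℕ => dec p.1 p.2)
        (g := fun r : (((α × ℕ) × ℕ) × ℕ) × ℕ => (r.1.1.2, r.2))
        ((Computable.snd.comp (Computable.fst.comp Computable.fst)).pair Computable.snd)
    · exact cpx_dec.comp (f := fun p : ℕ × ℕ => dec p.1 p.2)
        (g := fun r : (((α × ℕ) × ℕ) × ℕ) × ℕ => (r.1.1.2, r.1.2))
        ((Computable.snd.comp (Computable.fst.comp Computable.fst)).pair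
          (Computable.snd.comp Computable.fst))
  have hB : Sg X n (fun q : (α × ℕ) × ℕ => ∀ i, i < q.1.2 + 1 → S q.1.1 (dec q.2 i)) := by
    refine Sg.ball (P := fun (q : (α × ℕ) × ℕ) (i : ℕ) => S q.1.1 (dec q.2 i)) ?_ hf
    refine h.comp (f := fun r : ((α × ℕ) × ℕ) × ℕ => (r.1.1.1, dec r.1.2 r.2)) ?_
    refine (Computable.fst.comp (Computable.fst.comp Computable.fst)).pair ?_
    exact cpx_dec.comp (f := fun p : ℕ × ℕ => dec p.1 p.2)
        (g := fun r : ((α × ℕ) × ℕ) × ℕ => (r.1.2, r.2))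
        ((Computable.snd.comp Computable.fst).pair Computable.snd)
  refine (Sg.exN (P := fun (p : α × ℕ) (l : ℕ) =>
    (∀ i, i < p.2 + 1 → ∀ j, j < i → dec l j ≠ dec l i) ∧
      ∀ i, i < p.2 + 1 → S p.1 (dec l i)) (hA.1.and hB)).of_iff ?_
  intro p
  exact cpx_encard _ _

/-! ## The basic relations -/

section basic
variable {M : Type} [LinearOrder M] {φ : ℕ ≃ M} {lt : ℕ × ℕ → Prop}
variable {α : Type} [Primcodable α]

theorem cpx_lt (hlt : ∀ a b, lt (a, b) ↔ φ a < φ b) (h1 : Dl Z 1 lt) {f g : α → ℕ}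
    (hf : Computable f) (hg : Computable g) : Dl Z 1 (fun x => φ (f x) < φ (g x)) :=
  (h1.comp (hf.pair hg)).of_iff fun x => (hlt (f x) (g x)).symm

theorem cpx_cov_iff (hlt : ∀ a b, lt (a, b) ↔ φ a < φ b) (a b : ℕ) :
    φ a ⋖ φ b ↔ (lt (a, b) ∧ ¬ ∃ z, lt (a, z) ∧ lt (z, b)) := by
  constructor
  · intro h
    refine ⟨(hlt a b).2 h.1, ?_⟩
    rintro ⟨z, h1, h2⟩
    exact h.2 ((hlt a z).1 h1) ((hlt z b).1 h2)
  · rintro ⟨h1, h2⟩
    refine ⟨(hlt a b).1 h1, fun c hc1 hc2 => ?_⟩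
    obtain ⟨z, rfl⟩ := φ.surjective c
    exact h2 ⟨z, (hlt a z).2 hc1, (hlt z b).2 hc2⟩

theorem cpx_cov (hlt : ∀ a b, lt (a, b) ↔ φ a < φ b) (h1 : Dl Z 1 lt)
    (h2 : Dl Z 1 (fun p : ℕ × ℕ => ∃ z, lt (p.1, z) ∧ lt (z, p.2))) {f g : α → ℕ}
    (hf : Computable f) (hg : Computable g) : Dl Z 1 (fun x => φ (f x) ⋖ φ (g x)) :=
  ((h1.and h2.not).comp (hf.pair hg)).of_iff fun x => cpx_cov_iff hlt (f x) (g x)

theorem cpx_C3 (hlt : ∀ a b, lt (a, b) ↔ φ a < φ b) (h1 : Dl Z 1 lt)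
    (h2 : Dl Z 1 (fun p : ℕ × ℕ => ∃ z, lt (p.1, z) ∧ lt (z, p.2))) {f : α → ℕ}
    (hf : Computable f) : Sg Z 1 (fun x => C3 (φ (f x))) := by
  have hA : Sg Z 1 (fun p : α × (ℕ × ℕ) => φ (f p.1) ⋖ φ p.2.1 ∧ φ p.2.1 ⋖ φ p.2.2) :=
    (cpx_cov hlt h1 h2 (hf.comp Computable.fst) (Computable.fst.comp Computable.snd)).1.and
      (cpx_cov hlt h1 h2 (Computable.fst.comp Computable.snd)
        (Computable.snd.comp Computable.snd)).1
  refine (Sg.ex (P := fun (x : α) (q : ℕ × ℕ) => φ (f x) ⋖ φ q.1 ∧ φ q.1 ⋖ φ q.2) hA).of_iff ?_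
  intro x
  constructor
  · rintro ⟨y, z, h3, h4⟩
    obtain ⟨b, rfl⟩ := φ.surjective y
    obtain ⟨c, rfl⟩ := φ.surjective z
    exact ⟨(b, c), h3, h4⟩
  · rintro ⟨⟨b, c⟩, h3, h4⟩
    exact ⟨φ b, φ c, h3, h4⟩

theorem cpx_C4 (hlt : ∀ a b, lt (a, b) ↔ φ a < φ b) (h1 : Dl Z 1 lt)
    (h2 : Dl Z 1 (fun p : ℕ × ℕ => ∃ z, lt (p.1, z) ∧ lt (z, p.2))) {f : α → ℕ}
    (hf : Computable f) : Sg Z 1 (fun x => C4 (φ (f x))) := by
  have hA : Sg Z 1 (fun p : α × (ℕ × ℕ × ℕ) =>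
      φ (f p.1) ⋖ φ p.2.1 ∧ φ p.2.1 ⋖ φ p.2.2.1 ∧ φ p.2.2.1 ⋖ φ p.2.2.2) :=
    (cpx_cov hlt h1 h2 (hf.comp Computable.fst) (Computable.fst.comp Computable.snd)).1.and
      ((cpx_cov hlt h1 h2 (Computable.fst.comp Computable.snd)
        (Computable.fst.comp (Computable.snd.comp Computable.snd))).1.and
      (cpx_cov hlt h1 h2 (Computable.fst.comp (Computable.snd.comp Computable.snd))
        (Computable.snd.comp (Computable.snd.comp Computable.snd))).1)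
  refine (Sg.ex (P := fun (x : α) (q : ℕ × ℕ × ℕ) =>
    φ (f x) ⋖ φ q.1 ∧ φ q.1 ⋖ φ q.2.1 ∧ φ q.2.1 ⋖ φ q.2.2) hA).of_iff ?_
  intro x
  constructor
  · rintro ⟨y, z, w, h3, h4, h5⟩
    obtain ⟨b, rfl⟩ := φ.surjective y
    obtain ⟨c, rfl⟩ := φ.surjective z
    obtain ⟨d, rfl⟩ := φ.surjective w
    exact ⟨(b, c, d), h3, h4, h5⟩
  · rintro ⟨⟨b, c, d⟩, h3, h4, h5⟩
    exact ⟨φ b, φ c, φ d, h3, h4, h5⟩

theorem cpx_cnt (hlt : ∀ a b, lt (a, b) ↔ φ a < φ b) (h1 : Dl Z 1 lt)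
    (h2 : Dl Z 1 (fun p : ℕ × ℕ => ∃ z, lt (p.1, z) ∧ lt (z, p.2))) {f g v : α → ℕ}
    (hf : Computable f) (hg : Computable g) (hv : Computable v) :
    Sg Z 1 (fun x => (v x : ℕ∞) < cnt (φ (f x)) (φ (g x))) := by
  have hA : Sg Z 1 (fun p : (α × ℕ) × ℕ => φ p.1.2 ⋖ φ p.2 ∧ φ p.2 < φ (g p.1.1)) :=
    (cpx_cov hlt h1 h2 (Computable.snd.comp Computable.fst) Computable.snd).1.and
      (cpx_lt hlt h1 Computable.snd (hg.comp (Computable.fst.comp Computable.fst))).1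
  have hB : Sg Z 1 (fun p : α × ℕ => φ (f p.1) < φ p.2 ∧
      ∃ b : ℕ, φ p.2 ⋖ φ b ∧ φ b < φ (g p.1)) :=
    (cpx_lt hlt h1 (hf.comp Computable.fst) Computable.snd).1.and
      (Sg.exN (P := fun (p : α × ℕ) (b : ℕ) => φ p.2 ⋖ φ b ∧ φ b < φ (g p.1)) hA)
  have hC := (cpx_card (S := fun (x : α) (a : ℕ) => φ (f x) < φ a ∧
      ∃ b : ℕ, φ a ⋖ φ b ∧ φ b < φ (g x)) hB).comp (f := fun x : α => (x, v x))
      (Computable.id.pair hv)
  refine hC.of_iff fun x => ?_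
  have hD : cnt (φ (f x)) (φ (g x)) = {a : ℕ | φ (f x) < φ a ∧
      ∃ b : ℕ, φ a ⋖ φ b ∧ φ b < φ (g x)}.encard := by
    unfold cnt
    rw [← Set.image_preimage_eq {a : M | φ (f x) < a ∧ ∃ b, a ⋖ b ∧ b < φ (g x)} φ.surjective,
      φ.injective.encard_image]
    congr 1
    ext a
    constructor
    · rintro ⟨h3, b, h4, h5⟩
      obtain ⟨c, rfl⟩ := φ.surjective b
      exact ⟨h3, c, h4, h5⟩
    · rintro ⟨h3, b, h4, h5⟩
      exact ⟨h3, φ b, h4, h5⟩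
  rw [hD]

/-- conjunction of two `Π` predicates -/
theorem cpx_pand {X : ℕ → ℕ} {n : ℕ} {P Q : α → Prop} (hP : Sg X n (fun x => ¬ P x))
    (hQ : Sg X n (fun x => ¬ Q x)) : Sg X n (fun x => ¬ (P x ∧ Q x)) :=
  (hP.or hQ).of_iff fun x => by tauto

/-- a bounded chain is `Δ₂` -/
theorem cpx_chain (hlt : ∀ a b, lt (a, b) ↔ φ a < φ b) (h1 : Dl Z 1 lt)
    (h2 : Dl Z 1 (fun p : ℕ × ℕ => ∃ z, lt (p.1, z) ∧ lt (z, p.2))) {l o n : α → ℕ}
    (hl : Computable l) (ho : Computable o) (hn : Computable n) :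
    Dl Z 1 (fun x => ∀ i, i < n x → φ (dec (l x) (o x + i)) ⋖ φ (dec (l x) (o x + 1 + i))) := by
  refine Dl.ball (P := fun (x : α) (i : ℕ) =>
    φ (dec (l x) (o x + i)) ⋖ φ (dec (l x) (o x + 1 + i))) ?_ hn
  have hadd : Computable (fun p : ℕ × ℕ => p.1 + p.2) := Primrec.nat_add.to_comp
  refine cpx_cov hlt h1 h2 (f := fun p : α × ℕ => dec (l p.1) (o p.1 + p.2))
    (g := fun p : α × ℕ => dec (l p.1) (o p.1 + 1 + p.2)) ?_ ?_
  · refine cpx_dec.comp (f := fun p : ℕ × ℕ => dec p.1 p.2)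
      (g := fun p : α × ℕ => (l p.1, o p.1 + p.2)) ?_
    exact (hl.comp Computable.fst).pair (hadd.comp (g := fun p : α × ℕ => (o p.1, p.2))
      ((ho.comp Computable.fst).pair Computable.snd))
  · refine cpx_dec.comp (f := fun p : ℕ × ℕ => dec p.1 p.2)
      (g := fun p : α × ℕ => (l p.1, o p.1 + 1 + p.2)) ?_
    exact (hl.comp Computable.fst).pair (hadd.comp (g := fun p : α × ℕ => (o p.1 + 1, p.2))
      ((Computable.succ.comp (ho.comp Computable.fst)).pair Computable.snd))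

/-- no predecessor -/
theorem cpx_nopred (hlt : ∀ a b, lt (a, b) ↔ φ a < φ b) (h1 : Dl Z 1 lt)
    (h2 : Dl Z 1 (fun p : ℕ × ℕ => ∃ z, lt (p.1, z) ∧ lt (z, p.2))) {f : α → ℕ}
    (hf : Computable f) : Sg Z 1 (fun x => ¬ ∀ z, ¬ z ⋖ φ (f x)) := by
  refine (Sg.exN (P := fun (x : α) (z : ℕ) => φ z ⋖ φ (f x))
    (cpx_cov hlt h1 h2 Computable.snd (hf.comp Computable.fst)).1).of_iff fun x => ?_
  push Not
  constructor
  · rintro ⟨z, hz⟩
    obtain ⟨c, rfl⟩ := φ.surjective z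
    exact ⟨c, hz⟩
  · rintro ⟨c, hc⟩
    exact ⟨φ c, hc⟩

/-- no successor -/
theorem cpx_nosucc (hlt : ∀ a b, lt (a, b) ↔ φ a < φ b) (h1 : Dl Z 1 lt)
    (h2 : Dl Z 1 (fun p : ℕ × ℕ => ∃ z, lt (p.1, z) ∧ lt (z, p.2))) {f : α → ℕ}
    (hf : Computable f) : Sg Z 1 (fun x => ¬ ∀ z, ¬ φ (f x) ⋖ z) := by
  refine (Sg.exN (P := fun (x : α) (z : ℕ) => φ (f x) ⋖ φ z)
    (cpx_cov hlt h1 h2 (hf.comp Computable.fst) Computable.snd).1).of_iff fun x => ?_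
  push Not
  constructor
  · rintro ⟨z, hz⟩
    obtain ⟨c, rfl⟩ := φ.surjective z
    exact ⟨c, hz⟩
  · rintro ⟨c, hc⟩
    exact ⟨φ c, hc⟩

/-- no 4-chain starts strictly between -/
theorem cpx_noC4 (hlt : ∀ a b, lt (a, b) ↔ φ a < φ b) (h1 : Dl Z 1 lt)
    (h2 : Dl Z 1 (fun p : ℕ × ℕ => ∃ z, lt (p.1, z) ∧ lt (z, p.2))) {f g : α → ℕ}
    (hf : Computable f) (hg : Computable g) :
    Sg Z 1 (fun x => ¬ ∀ z, φ (f x) < z → z < φ (g x) → ¬ C4 z) := by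
  refine (Sg.exN (P := fun (x : α) (z : ℕ) => φ (f x) < φ z ∧ φ z < φ (g x) ∧ C4 (φ z))
    ((cpx_lt hlt h1 (hf.comp Computable.fst) Computable.snd).1.and
      ((cpx_lt hlt h1 Computable.snd (hg.comp Computable.fst)).1.and
        (cpx_C4 hlt h1 h2 Computable.snd)))).of_iff fun x => ?_
  push Not
  constructor
  · rintro ⟨z, hz⟩
    obtain ⟨c, rfl⟩ := φ.surjective z
    exact ⟨c, hz⟩
  · rintro ⟨c, hc⟩
    exact ⟨φ c, hc⟩

/-- no 3-chain starts strictly between -/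
theorem cpx_noC3 (hlt : ∀ a b, lt (a, b) ↔ φ a < φ b) (h1 : Dl Z 1 lt)
    (h2 : Dl Z 1 (fun p : ℕ × ℕ => ∃ z, lt (p.1, z) ∧ lt (z, p.2))) {f g : α → ℕ}
    (hf : Computable f) (hg : Computable g) :
    Sg Z 1 (fun x => ¬ ∀ z, φ (f x) < z → z < φ (g x) → ¬ C3 z) := by
  refine (Sg.exN (P := fun (x : α) (z : ℕ) => φ (f x) < φ z ∧ φ z < φ (g x) ∧ C3 (φ z))
    ((cpx_lt hlt h1 (hf.comp Computable.fst) Computable.snd).1.and
      ((cpx_lt hlt h1 Computable.snd (hg.comp Computable.fst)).1.and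
        (cpx_C3 hlt h1 h2 Computable.snd)))).of_iff fun x => ?_
  push Not
  constructor
  · rintro ⟨z, hz⟩
    obtain ⟨c, rfl⟩ := φ.surjective z
    exact ⟨c, hz⟩
  · rintro ⟨c, hc⟩
    exact ⟨φ c, hc⟩

theorem cpx_enat_eq (c : ℕ∞) (f : ℕ) :
    c = f ↔ ((∀ v, v < f → (v : ℕ∞) < c) ∧ ¬ (f : ℕ∞) < c) := by
  constructor
  · rintro rfl
    exact ⟨fun v hv => by exact_mod_cast hv, lt_irrefl _⟩
  · rintro ⟨h1, h2⟩
    have h3 : c ≤ f := not_lt.1 h2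
    refine le_antisymm h3 ?_
    by_contra h4
    have h5 : c < f := not_le.1 h4
    have h6 : c ≠ ⊤ := (h5.trans_le le_top).ne
    obtain ⟨m, rfl⟩ := ENat.ne_top_iff_exists.1 h6
    have h7 : m < f := by exact_mod_cast h5
    exact absurd (h1 m h7) (lt_irrefl _)

/-- the number of adjacent pairs equals a given number: `Δ₃` -/
theorem cpx_cnt_eq (hlt : ∀ a b, lt (a, b) ↔ φ a < φ b) (h1 : Dl Z 1 lt)
    (h2 : Dl Z 1 (fun p : ℕ × ℕ => ∃ z, lt (p.1, z) ∧ lt (z, p.2))) {f g v : α → ℕ}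
    (hf : Computable f) (hg : Computable g) (hv : Computable v) :
    Dl Z 2 (fun x => cnt (φ (f x)) (φ (g x)) = (v x : ℕ∞)) := by
  have hA : Sg Z 1 (fun x => ∀ m, m < v x → (m : ℕ∞) < cnt (φ (f x)) (φ (g x))) :=
    Sg.ball (P := fun (x : α) (m : ℕ) => (m : ℕ∞) < cnt (φ (f x)) (φ (g x)))
      (cpx_cnt hlt h1 h2 (hf.comp Computable.fst) (hg.comp Computable.fst) Computable.snd) hv
  exact (hA.dl.and (cpx_cnt hlt h1 h2 hf hg hv).dl.not).of_iff fun x => cpx_enat_eq _ _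

end basic

/-! ## Main statements -/

/-- `dec l (e + c)` as a computable function -/
theorem cpx_decAt {α : Type} [Primcodable α] {l e : α → ℕ} (hl : Computable l)
    (he : Computable e) (c : ℕ) : Computable (fun x => dec (l x) (e x + c)) := by
  have hadd : Computable (fun p : ℕ × ℕ => p.1 + p.2) := Primrec.nat_add.to_comp
  exact cpx_dec.comp (f := fun p : ℕ × ℕ => dec p.1 p.2)
    (g := fun x : α => (l x, e x + c))
    (hl.pair (hadd.comp (g := fun x : α => (e x, c)) (he.pair (Computable.const c))))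

theorem cpx_add {α : Type} [Primcodable α] {e : α → ℕ}
    (he : Computable e) (c : ℕ) : Computable (fun x => e x + c) := by
  have hadd : Computable (fun p : ℕ × ℕ => p.1 + p.2) := Primrec.nat_add.to_comp
  exact hadd.comp (g := fun x : α => (e x, c)) (he.pair (Computable.const c))

theorem cpx_loc_iff {M : Type} [LinearOrder M] (e : ℕ) (x : ℕ → M) :
    Loc e x ↔ ((∀ i, i < e + 4 → x (0 + i) ⋖ x (0 + 1 + i)) ∧ (∀ z, ¬ z ⋖ x 0) ∧
      (∀ z, ¬ x (e + 4) ⋖ z) ∧ x (e + 4) < x (e + 5) ∧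
      (∀ z, x (e + 4) < z → z < x (e + 5) → ¬ C4 z) ∧
      (∀ i, i < 3 → x (e + 5 + i) ⋖ x (e + 5 + 1 + i)) ∧ x (e + 8) < x (e + 9) ∧
      (∀ z, x (e + 8) < z → z < x (e + 9) → ¬ C4 z) ∧
      (∀ i, i < 3 → x (e + 9 + i) ⋖ x (e + 9 + 1 + i))) := by
  constructor
  · intro h
    refine ⟨fun i hi => ?_, h.nopred, h.nosucc, h.lt1, h.no1, h.chain1, h.lt2, h.no2, h.chain2⟩
    have := h.chain i hi
    rw [Nat.zero_add, Nat.zero_add, Nat.add_comm 1 i]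
    exact this
  · rintro ⟨h1, h2, h3, h4, h5, h6, h7, h8, h9⟩
    refine ⟨fun i hi => ?_, h2, h3, h4, h5, h6, h7, h8, h9⟩
    have := h1 i hi
    rw [Nat.zero_add, Nat.zero_add, Nat.add_comm 1 i] at this
    exact this

/-- NB -/
theorem cplx_main : StmtCplx := by
  intro M _ φ lt hlt h1 h2
  refine ⟨?_, ?_, ?_⟩
  · have he : Computable (fun p : ℕ × ℕ => p.1) := Computable.fst
    have hl : Computable (fun p : ℕ × ℕ => p.2) := Computable.snd
    have d (c : ℕ) : Computable (fun p : ℕ × ℕ => dec p.2 (p.1 + c)) := cpx_decAt hl he c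
    have d0 : Computable (fun p : ℕ × ℕ => dec p.2 0) :=
      cpx_dec.comp (f := fun p : ℕ × ℕ => dec p.1 p.2)
        (g := fun p : ℕ × ℕ => (p.2, 0)) (hl.pair (Computable.const 0))
    have H := cpx_pand (cpx_chain hlt h1 h2 hl (Computable.const 0) (cpx_add he 4)).2
      (cpx_pand (cpx_nopred hlt h1 h2 d0)
      (cpx_pand (cpx_nosucc hlt h1 h2 (d 4))
      (cpx_pand (cpx_lt hlt h1 (d 4) (d 5)).2
      (cpx_pand (cpx_noC4 hlt h1 h2 (d 4) (d 5))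
      (cpx_pand (cpx_chain hlt h1 h2 hl (cpx_add he 5) (Computable.const 3)).2
      (cpx_pand (cpx_lt hlt h1 (d 8) (d 9)).2
      (cpx_pand (cpx_noC4 hlt h1 h2 (d 8) (d 9))
      (cpx_chain hlt h1 h2 hl (cpx_add he 9) (Computable.const 3)).2)))))))
    exact H.of_iff fun p => not_congr (cpx_loc_iff _ _)
  · have he : Computable (fun p : ℕ × ℕ × ℕ => p.1) := Computable.fst
    have hl : Computable (fun p : ℕ × ℕ × ℕ => p.2.1) := Computable.fst.comp Computable.snd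
    exact cpx_cnt hlt h1 h2 (cpx_decAt hl he 8) (cpx_decAt hl he 9)
      (Computable.snd.comp Computable.snd)
  · have he : Computable (fun p : (ℕ × ℕ × ℕ) × (ℕ × ℕ × ℕ × ℕ × ℕ × ℕ) => p.1.1) :=
      Computable.fst.comp Computable.fst
    have hl : Computable (fun p : (ℕ × ℕ × ℕ) × (ℕ × ℕ × ℕ × ℕ × ℕ × ℕ) => p.1.2.1) :=
      Computable.fst.comp (Computable.snd.comp Computable.fst)
    have hf : Computable (fun p : (ℕ × ℕ × ℕ) × (ℕ × ℕ × ℕ × ℕ × ℕ × ℕ) => p.1.2.2) :=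
      Computable.snd.comp (Computable.snd.comp Computable.fst)
    have a0 : Computable (fun p : (ℕ × ℕ × ℕ) × (ℕ × ℕ × ℕ × ℕ × ℕ × ℕ) => p.2.1) :=
      Computable.fst.comp Computable.snd
    have a1 : Computable (fun p : (ℕ × ℕ × ℕ) × (ℕ × ℕ × ℕ × ℕ × ℕ × ℕ) => p.2.2.1) :=
      Computable.fst.comp (Computable.snd.comp Computable.snd)
    have a2 : Computable (fun p : (ℕ × ℕ × ℕ) × (ℕ × ℕ × ℕ × ℕ × ℕ × ℕ) => p.2.2.2.1) :=
      Computable.fst.comp (Computable.snd.comp (Computable.snd.comp Computable.snd))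
    have b0 : Computable (fun p : (ℕ × ℕ × ℕ) × (ℕ × ℕ × ℕ × ℕ × ℕ × ℕ) => p.2.2.2.2.1) :=
      Computable.fst.comp (Computable.snd.comp (Computable.snd.comp (Computable.snd.comp
        Computable.snd)))
    have b1 : Computable (fun p : (ℕ × ℕ × ℕ) × (ℕ × ℕ × ℕ × ℕ × ℕ × ℕ) => p.2.2.2.2.2.1) :=
      Computable.fst.comp (Computable.snd.comp (Computable.snd.comp (Computable.snd.comp
        (Computable.snd.comp Computable.snd))))
    have b2 : Computable (fun p : (ℕ × ℕ × ℕ) × (ℕ × ℕ × ℕ × ℕ × ℕ × ℕ) => p.2.2.2.2.2.2) :=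
      Computable.snd.comp (Computable.snd.comp (Computable.snd.comp (Computable.snd.comp
        (Computable.snd.comp Computable.snd))))
    have H := (cpx_lt hlt h1 (cpx_decAt hl he 4) a0).up.and
      ((cpx_cov hlt h1 h2 a0 a1).up.and
      ((cpx_cov hlt h1 h2 a1 a2).up.and
      ((cpx_lt hlt h1 a2 b0).up.and
      ((cpx_cov hlt h1 h2 b0 b1).up.and
      ((cpx_cov hlt h1 h2 b1 b2).up.and
      ((cpx_lt hlt h1 b2 (cpx_decAt hl he 5)).up.and
      ((cpx_noC3 hlt h1 h2 a2 b0).dlc.and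
      (cpx_cnt_eq hlt h1 h2 a2 b0 hf))))))))
    refine (Sg.ex (P := fun (p : ℕ × ℕ × ℕ) (q : ℕ × ℕ × ℕ × ℕ × ℕ × ℕ) =>
      φ (dec p.2.1 (p.1 + 4)) < φ q.1 ∧ φ q.1 ⋖ φ q.2.1 ∧ φ q.2.1 ⋖ φ q.2.2.1 ∧
      φ q.2.2.1 < φ q.2.2.2.1 ∧ φ q.2.2.2.1 ⋖ φ q.2.2.2.2.1 ∧
      φ q.2.2.2.2.1 ⋖ φ q.2.2.2.2.2 ∧ φ q.2.2.2.2.2 < φ (dec p.2.1 (p.1 + 5)) ∧
      (∀ z, φ q.2.2.1 < z → z < φ q.2.2.2.1 → ¬ C3 z) ∧
      cnt (φ q.2.2.1) (φ q.2.2.2.1) = p.2.2) H.1).of_iff fun p => ?_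
    constructor
    · rintro ⟨x0, x1, x2, y0, y1, y2, h⟩
      obtain ⟨a0, rfl⟩ := φ.surjective x0
      obtain ⟨a1, rfl⟩ := φ.surjective x1
      obtain ⟨a2, rfl⟩ := φ.surjective x2
      obtain ⟨b0, rfl⟩ := φ.surjective y0
      obtain ⟨b1, rfl⟩ := φ.surjective y1
      obtain ⟨b2, rfl⟩ := φ.surjective y2
      exact ⟨(a0, a1, a2, b0, b1, b2), h⟩
    · rintro ⟨⟨a0, a1, a2, b0, b1, b2⟩, h⟩
      exact ⟨φ a0, φ a1, φ a2, φ b0, φ b1, φ b2, h⟩

end Pool.Agent.NonLow
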