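import Pool.Agent.NonLow.Stmts

/-!
# Covering relation in lexicographic sums

`cl` is the stem of the auxiliary names. `inL a`, `inR b` are the two injections into `α ⊕ₗ β`,
`sg i x` is the element `(i, x)` of `Σₗ i, α i`.
-/

set_option autoImplicit false

namespace Pool.Agent.NonLow

section sumlex

variable {α β : Type*}

/-- left injection -/
def inL (a : α) : α ⊕ₗ β := toLex (Sum.inl a)

/-- right injection -/
def inR (b : β) : α ⊕ₗ β := toLex (Sum.inr b)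

theorem cl_sum_cases (x : α ⊕ₗ β) : (∃ a, x = inL a) ∨ ∃ b, x = inR b := by
  rcases h : ofLex x with a | b
  · exact Or.inl ⟨a, by rw [inL, ← h, toLex_ofLex]⟩
  · exact Or.inr ⟨b, by rw [inR, ← h, toLex_ofLex]⟩

theorem inL_injective : Function.Injective (inL : α → α ⊕ₗ β) := fun _ _ h =>
  Sum.inl_injective (toLex.injective h)

theorem inR_injective : Function.Injective (inR : β → α ⊕ₗ β) := fun _ _ h =>
  Sum.inr_injective (toLex.injective h)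

theorem inL_ne_inR (a : α) (b : β) : (inL a : α ⊕ₗ β) ≠ inR b := fun h =>
  Sum.inl_ne_inr (toLex.injective h)

theorem inR_ne_inL (a : α) (b : β) : (inR b : α ⊕ₗ β) ≠ inL a := (inL_ne_inR a b).symm

variable [LinearOrder α] [LinearOrder β]

theorem inL_lt_inL {a a' : α} : (inL a : α ⊕ₗ β) < inL a' ↔ a < a' := Sum.Lex.inl_lt_inl_iff

theorem inR_lt_inR {b b' : β} : (inR b : α ⊕ₗ β) < inR b' ↔ b < b' := Sum.Lex.inr_lt_inr_iff

theorem inL_lt_inR (a : α) (b : β) : (inL a : α ⊕ₗ β) < inR b := Sum.Lex.inl_lt_inr a b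

theorem not_inR_lt_inL (a : α) (b : β) : ¬ (inR b : α ⊕ₗ β) < inL a := Sum.Lex.not_inr_lt_inl

theorem inL_covBy_inL {a a' : α} : (inL a : α ⊕ₗ β) ⋖ inL a' ↔ a ⋖ a' := by
  constructor
  · rintro ⟨h1, h2⟩
    exact ⟨inL_lt_inL.1 h1, fun c h3 h4 => h2 (inL_lt_inL.2 h3) (inL_lt_inL.2 h4)⟩
  · rintro ⟨h1, h2⟩
    refine ⟨inL_lt_inL.2 h1, fun c h3 h4 => ?_⟩
    rcases cl_sum_cases c with ⟨c, rfl⟩ | ⟨c, rfl⟩
    · exact h2 (inL_lt_inL.1 h3) (inL_lt_inL.1 h4)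
    · exact not_inR_lt_inL _ _ h4

theorem inR_covBy_inR {b b' : β} : (inR b : α ⊕ₗ β) ⋖ inR b' ↔ b ⋖ b' := by
  constructor
  · rintro ⟨h1, h2⟩
    exact ⟨inR_lt_inR.1 h1, fun c h3 h4 => h2 (inR_lt_inR.2 h3) (inR_lt_inR.2 h4)⟩
  · rintro ⟨h1, h2⟩
    refine ⟨inR_lt_inR.2 h1, fun c h3 h4 => ?_⟩
    rcases cl_sum_cases c with ⟨c, rfl⟩ | ⟨c, rfl⟩
    · exact not_inR_lt_inL _ _ h3
    · exact h2 (inR_lt_inR.1 h3) (inR_lt_inR.1 h4)

theorem inL_covBy_inR {a : α} {b : β} : (inL a : α ⊕ₗ β) ⋖ inR b ↔ IsMax a ∧ IsMin b := by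
  constructor
  · rintro ⟨h1, h2⟩
    constructor
    · rw [isMax_iff_forall_not_lt]
      exact fun c hc => h2 (inL_lt_inL.2 hc) (inL_lt_inR _ _)
    · rw [isMin_iff_forall_not_lt]
      exact fun c hc => h2 (inL_lt_inR _ _) (inR_lt_inR.2 hc)
  · rintro ⟨h1, h2⟩
    refine ⟨inL_lt_inR _ _, fun c h3 h4 => ?_⟩
    rcases cl_sum_cases c with ⟨c, rfl⟩ | ⟨c, rfl⟩
    · exact h1.not_lt (inL_lt_inL.1 h3)
    · exact h2.not_lt (inR_lt_inR.1 h4)

theorem not_inR_covBy_inL (a : α) (b : β) : ¬ (inR b : α ⊕ₗ β) ⋖ inL a := fun h =>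
  not_inR_lt_inL _ _ h.1

/-- adjacency in a lexicographic sum of two orders -/
theorem cl_sum_covBy_iff (x y : α ⊕ₗ β) : x ⋖ y ↔
    (∃ a a', x = inL a ∧ y = inL a' ∧ a ⋖ a') ∨ (∃ b b', x = inR b ∧ y = inR b' ∧ b ⋖ b') ∨
      ∃ a b, x = inL a ∧ y = inR b ∧ IsMax a ∧ IsMin b := by
  constructor
  · intro h
    rcases cl_sum_cases x with ⟨a, rfl⟩ | ⟨b, rfl⟩
    · rcases cl_sum_cases y with ⟨a', rfl⟩ | ⟨b', rfl⟩
      · exact Or.inl ⟨a, a', rfl, rfl, inL_covBy_inL.1 h⟩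
      · exact Or.inr (Or.inr ⟨a, b', rfl, rfl, inL_covBy_inR.1 h⟩)
    · rcases cl_sum_cases y with ⟨a', rfl⟩ | ⟨b', rfl⟩
      · exact absurd h (not_inR_covBy_inL _ _)
      · exact Or.inr (Or.inl ⟨b, b', rfl, rfl, inR_covBy_inR.1 h⟩)
  · rintro (⟨a, a', rfl, rfl, h⟩ | ⟨b, b', rfl, rfl, h⟩ | ⟨a, b, rfl, rfl, h⟩)
    · exact inL_covBy_inL.2 h
    · exact inR_covBy_inR.2 h
    · exact inL_covBy_inR.2 h

theorem isMax_inR {b : β} : IsMax (inR b : α ⊕ₗ β) ↔ IsMax b := by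
  rw [isMax_iff_forall_not_lt, isMax_iff_forall_not_lt]
  constructor
  · exact fun h c hc => h _ (inR_lt_inR.2 hc)
  · intro h c hc
    rcases cl_sum_cases c with ⟨c, rfl⟩ | ⟨c, rfl⟩
    · exact not_inR_lt_inL _ _ hc
    · exact h _ (inR_lt_inR.1 hc)

theorem isMin_inL {a : α} : IsMin (inL a : α ⊕ₗ β) ↔ IsMin a := by
  rw [isMin_iff_forall_not_lt, isMin_iff_forall_not_lt]
  constructor
  · exact fun h c hc => h _ (inL_lt_inL.2 hc)
  · intro h c hc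
    rcases cl_sum_cases c with ⟨c, rfl⟩ | ⟨c, rfl⟩
    · exact h _ (inL_lt_inL.1 hc)
    · exact not_inR_lt_inL _ _ hc

theorem not_isMax_inL [Nonempty β] (a : α) : ¬ IsMax (inL a : α ⊕ₗ β) := by
  obtain ⟨b⟩ := (inferInstance : Nonempty β)
  exact not_isMax_iff.2 ⟨inR b, inL_lt_inR _ _⟩

theorem not_isMin_inR [Nonempty α] (b : β) : ¬ IsMin (inR b : α ⊕ₗ β) := by
  obtain ⟨a⟩ := (inferInstance : Nonempty α)
  exact not_isMin_iff.2 ⟨inL a, inL_lt_inR _ _⟩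

end sumlex

section sigmalex

variable {ι : Type*} {α : ι → Type*}

/-- the element `(i, x)` -/
def sg (i : ι) (x : α i) : Σₗ i, α i := toLex ⟨i, x⟩

theorem cl_sg_cases (z : Σₗ i, α i) : ∃ i x, z = sg i x := ⟨(ofLex z).1, (ofLex z).2, rfl⟩

theorem sg_injective (i : ι) : Function.Injective (sg i : α i → Σₗ i, α i) := by
  intro x y h
  have h2 : (⟨i, x⟩ : Sigma α) = ⟨i, y⟩ := toLex.injective h
  exact eq_of_heq (Sigma.mk.inj h2).2

theorem sg_fst_eq {i j : ι} {x : α i} {y : α j} (h : sg i x = sg j y) : i = j := by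
  have h2 : (⟨i, x⟩ : Sigma α) = ⟨j, y⟩ := toLex.injective h
  exact (Sigma.mk.inj h2).1

variable [LinearOrder ι] [∀ i, LinearOrder (α i)]

theorem sg_lt_of_lt {i j : ι} (h : i < j) (x : α i) (y : α j) : sg i x < sg j y :=
  Sigma.Lex.lt_def.2 (Or.inl h)

theorem sg_lt_sg {i : ι} {x y : α i} : sg i x < sg i y ↔ x < y := by
  constructor
  · intro h
    rcases Sigma.Lex.lt_def.1 h with h | ⟨h, h'⟩
    · exact absurd h (lt_irrefl i)
    · exact h'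
  · intro h
    exact Sigma.Lex.lt_def.2 (Or.inr ⟨rfl, h⟩)

theorem sg_lt_imp_le {i j : ι} {x : α i} {y : α j} (h : sg i x < sg j y) : i ≤ j := by
  rcases Sigma.Lex.lt_def.1 h with h | ⟨h, _⟩
  · exact le_of_lt h
  · exact le_of_eq h

/-- adjacency inside a fibre -/
theorem sg_covBy_sg {i : ι} {x y : α i} : sg i x ⋖ sg i y ↔ x ⋖ y := by
  constructor
  · rintro ⟨h1, h2⟩
    exact ⟨sg_lt_sg.1 h1, fun c h3 h4 => h2 (sg_lt_sg.2 h3) (sg_lt_sg.2 h4)⟩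
  · rintro ⟨h1, h2⟩
    refine ⟨sg_lt_sg.2 h1, fun c h3 h4 => ?_⟩
    obtain ⟨j, c, rfl⟩ := cl_sg_cases c
    have hij : i = j := le_antisymm (sg_lt_imp_le h3) (sg_lt_imp_le h4)
    subst hij
    exact h2 (sg_lt_sg.1 h3) (sg_lt_sg.1 h4)

/-- adjacency across fibres -/
theorem sg_covBy_of_lt {i j : ι} (hij : i < j) {x : α i} {y : α j} :
    sg i x ⋖ sg j y ↔ IsMax x ∧ IsMin y ∧ ∀ k, i < k → k < j → IsEmpty (α k) := by
  constructor
  · rintro ⟨h1, h2⟩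
    refine ⟨?_, ?_, ?_⟩
    · rw [isMax_iff_forall_not_lt]
      exact fun c hc => h2 (sg_lt_sg.2 hc) (sg_lt_of_lt hij _ _)
    · rw [isMin_iff_forall_not_lt]
      exact fun c hc => h2 (sg_lt_of_lt hij _ _) (sg_lt_sg.2 hc)
    · exact fun k h3 h4 => ⟨fun c => h2 (sg_lt_of_lt h3 _ c) (sg_lt_of_lt h4 c _)⟩
  · rintro ⟨h1, h2, h3⟩
    refine ⟨sg_lt_of_lt hij _ _, fun c h4 h5 => ?_⟩
    obtain ⟨k, c, rfl⟩ := cl_sg_cases c
    rcases (sg_lt_imp_le h4).lt_or_eq with h6 | h6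
    · rcases (sg_lt_imp_le h5).lt_or_eq with h7 | h7
      · exact (h3 k h6 h7).false c
      · subst h7
        exact h2.not_lt (sg_lt_sg.1 h5)
    · subst h6
      exact h1.not_lt (sg_lt_sg.1 h4)

/-- over a densely ordered index type with nonempty fibres, adjacent elements are in one fibre -/
theorem sg_covBy_fst [DenselyOrdered ι] [∀ i, Nonempty (α i)] {i j : ι} {x : α i} {y : α j}
    (h : sg i x ⋖ sg j y) : i = j := by
  rcases (sg_lt_imp_le h.1).lt_or_eq with h1 | h1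
  · exfalso
    obtain ⟨k, h2, h3⟩ := exists_between h1
    obtain ⟨c⟩ := (inferInstance : Nonempty (α k))
    exact h.2 (sg_lt_of_lt h2 x c) (sg_lt_of_lt h3 c y)
  · exact h1

/-- adjacency over a densely ordered index type with nonempty fibres -/
theorem cl_sg_covBy_iff [DenselyOrdered ι] [∀ i, Nonempty (α i)] (z w : Σₗ i, α i) :
    z ⋖ w ↔ ∃ i x y, z = sg i x ∧ w = sg i y ∧ x ⋖ y := by
  constructor
  · intro h
    obtain ⟨i, x, rfl⟩ := cl_sg_cases z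
    obtain ⟨j, y, rfl⟩ := cl_sg_cases w
    have hij := sg_covBy_fst h
    subst hij
    exact ⟨i, x, y, rfl, rfl, sg_covBy_sg.1 h⟩
  · rintro ⟨i, x, y, rfl, rfl, h⟩
    exact sg_covBy_sg.2 h

/-- if no fibre has a least element, then adjacent elements are in one fibre -/
theorem cl_sg_covBy_iff_of_noMin [∀ i, NoMinOrder (α i)] (z w : Σₗ i, α i) :
    z ⋖ w ↔ ∃ i x y, z = sg i x ∧ w = sg i y ∧ x ⋖ y := by
  constructor
  · intro h
    obtain ⟨i, x, rfl⟩ := cl_sg_cases z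
    obtain ⟨j, y, rfl⟩ := cl_sg_cases w
    rcases (sg_lt_imp_le h.1).lt_or_eq with h1 | h1
    · exact absurd ((sg_covBy_of_lt h1).1 h).2.1 (not_isMin y)
    · subst h1
      exact ⟨i, x, y, rfl, rfl, sg_covBy_sg.1 h⟩
  · rintro ⟨i, x, y, rfl, rfl, h⟩
    exact sg_covBy_sg.2 h

end sigmalex

section nat

variable {α : ℕ → Type*} [∀ i, LinearOrder (α i)]

/-- adjacency across fibres over `ℕ` -/
theorem sg_covBy_nat [∀ i, Nonempty (α i)] {i j : ℕ} (hij : i ≠ j) {x : α i} {y : α j} :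
    sg i x ⋖ sg j y ↔ j = i + 1 ∧ IsMax x ∧ IsMin y := by
  constructor
  · intro h
    have h1 : i < j := lt_of_le_of_ne (sg_lt_imp_le h.1) hij
    obtain ⟨h2, h3, h4⟩ := (sg_covBy_of_lt h1).1 h
    refine ⟨?_, h2, h3⟩
    by_contra hcon
    have h5 : i + 1 < j := by omega
    obtain ⟨c⟩ := (inferInstance : Nonempty (α (i + 1)))
    exact (h4 (i + 1) (Nat.lt_succ_self i) h5).false c
  · rintro ⟨rfl, h1, h2⟩
    exact (sg_covBy_of_lt (Nat.lt_succ_self i)).2 ⟨h1, h2, fun k h3 h4 => by omega⟩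

end nat

end Pool.Agent.NonLow
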