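import Pool.Agent.NonLow.Stmts2

/-!
# Universal lightface predicates
-/

set_option autoImplicit false

namespace Pool.Agent.NonLow

open Encodable

/-- every lightface `Σ₁` predicate is `HH c` for some code `c` -/
theorem exists_code_S1 {α : Type} [Primcodable α] {P : α → Prop} (h : Sg Z 0 P) :
    ∃ c, ∀ x, P x ↔ HH c (Encodable.encode x) := by
  obtain ⟨θ, hθ, h⟩ := h
  have hseg : Computable (fun s : ℕ => seg Z s) := by
    have : Primrec (fun s : ℕ => (List.range s).map fun _ => 0) :=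
      Primrec.list_map Primrec.list_range (Primrec.const 0).to₂
    exact this.to_comp
  have h1 : Computable₂ (fun (x : α) (s : ℕ) => θ x (seg Z s)) :=
    hθ.comp Computable.fst (hseg.comp Computable.snd)
  have h2 : Partrec (fun x : α => Nat.rfind (fun s : ℕ => Part.some (θ x (seg Z s)))) :=
    Partrec.rfind (p := fun (x : α) (s : ℕ) => Part.some (θ x (seg Z s))) h1
  obtain ⟨c, hc⟩ := Nat.Partrec.Code.exists_code.1 h2
  refine ⟨encode c, fun x => ?_⟩
  unfold HH
  rw [Denumerable.ofNat_encode, hc, h x]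
  simp only [encodek, Part.coe_some, Part.bind_some]
  rw [Part.map_Dom, Nat.rfind_dom]
  constructor
  · rintro ⟨s, hs⟩
    exact ⟨s, by rw [Part.mem_some_iff]; exact hs.symm, fun _ => trivial⟩
  · rintro ⟨s, hs, _⟩
    rw [Part.mem_some_iff] at hs
    exact ⟨s, hs.symm⟩

theorem univ_HH : Sg Z 0 (fun p : ℕ × ℕ => HH p.1 p.2) := by
  refine ⟨fun p w => (Nat.Partrec.Code.evaln w.length
    (Denumerable.ofNat Nat.Partrec.Code p.1) p.2).isSome, ?_, ?_⟩
  · have h1 : Primrec (fun q : (ℕ × ℕ) × List ℕ => Nat.Partrec.Code.evaln q.2.length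
        (Denumerable.ofNat Nat.Partrec.Code q.1.1) q.1.2) :=
      Nat.Partrec.Code.primrec_evaln.comp
        (f := fun a : (ℕ × Nat.Partrec.Code) × ℕ => Nat.Partrec.Code.evaln a.1.1 a.1.2 a.2)
        (g := fun q : (ℕ × ℕ) × List ℕ =>
          ((q.2.length, Denumerable.ofNat Nat.Partrec.Code q.1.1), q.1.2))
        (((Primrec.list_length.comp Primrec.snd).pair
          ((Primrec.ofNat _).comp (Primrec.fst.comp Primrec.fst))).pair
            (Primrec.snd.comp Primrec.fst))
    exact (Primrec.option_isSome.comp h1).to_comp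
  · intro p
    show ((Denumerable.ofNat Nat.Partrec.Code p.1).eval p.2).Dom ↔
      ∃ s, (Nat.Partrec.Code.evaln (seg Z s).length
        (Denumerable.ofNat Nat.Partrec.Code p.1) p.2).isSome = true
    rw [Part.dom_iff_mem]
    constructor
    · rintro ⟨y, hy⟩
      obtain ⟨k, hk⟩ := Nat.Partrec.Code.evaln_complete.1 hy
      exact ⟨k, by rw [seg_length, Option.isSome_iff_exists]; exact ⟨y, hk⟩⟩
    · rintro ⟨k, hk⟩
      rw [seg_length, Option.isSome_iff_exists] at hk
      obtain ⟨y, hy⟩ := hk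
      exact ⟨y, Nat.Partrec.Code.evaln_complete.2 ⟨k, hy⟩⟩

/-- NA: universality. -/
theorem univ_main : StmtUniv := by
  refine ⟨univ_HH, ?_, ?_, ?_⟩
  · rintro P ⟨Q, hQ, h⟩
    have h1 : Sg Z 0 (fun x : ℕ × ℕ × ℕ => ¬ Q ((x.1, x.2.1), x.2.2)) :=
      hQ.comp (f := fun x : ℕ × ℕ × ℕ => ((x.1, x.2.1), x.2.2))
        ((Computable.fst.pair (Computable.fst.comp Computable.snd)).pair
          (Computable.snd.comp Computable.snd))
    obtain ⟨c, hc⟩ := exists_code_S1 h1
    refine ⟨c, fun n l => ?_⟩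
    have h2 : ¬ P (n, l) ↔ _ := h (n, l)
    rw [← not_iff_not, h2]
    simp only [← hc, not_forall, not_not]
  · rintro P ⟨Q, hQ, h⟩
    have h1 : Sg Z 0 (fun x : ℕ × ℕ × ℕ × ℕ => ¬ Q ((x.1, x.2.1, x.2.2.1), x.2.2.2)) :=
      hQ.comp (f := fun x : ℕ × ℕ × ℕ × ℕ => ((x.1, x.2.1, x.2.2.1), x.2.2.2))
        ((Computable.fst.pair ((Computable.fst.comp Computable.snd).pair
          (Computable.fst.comp (Computable.snd.comp Computable.snd)))).pair
          (Computable.snd.comp (Computable.snd.comp Computable.snd)))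
    obtain ⟨c, hc⟩ := exists_code_S1 h1
    refine ⟨c, fun n l v => ?_⟩
    rw [h (n, l, v)]
    simp only [← hc, not_not]
  · rintro P ⟨Q, ⟨Q', hQ', h'⟩, h⟩
    have h1 : Sg Z 0 (fun x : ℕ × ℕ × ℕ × ℕ × ℕ =>
        ¬ Q' (((x.1, x.2.1, x.2.2.1), x.2.2.2.1), x.2.2.2.2)) :=
      hQ'.comp (f := fun x : ℕ × ℕ × ℕ × ℕ × ℕ =>
        (((x.1, x.2.1, x.2.2.1), x.2.2.2.1), x.2.2.2.2))
        (((Computable.fst.pair ((Computable.fst.comp Computable.snd).pair
          (Computable.fst.comp (Computable.snd.comp Computable.snd)))).pair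
          (Computable.fst.comp (Computable.snd.comp (Computable.snd.comp Computable.snd)))).pair
          (Computable.snd.comp (Computable.snd.comp (Computable.snd.comp Computable.snd))))
    obtain ⟨c, hc⟩ := exists_code_S1 h1
    refine ⟨c, fun n l f => ?_⟩
    rw [h (n, l, f)]
    refine exists_congr fun w => ?_
    have h2 : ¬ Q ((n, l, f), w) ↔ _ := h' ((n, l, f), w)
    rw [← not_iff_not, h2]
    simp only [← hc, not_forall, not_not]

end Pool.Agent.NonLow
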