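import Pool.Agent.NonLow.Stmts2

/-!
# Interface with Mathlib's relative computability: modules I1 and I2
-/

set_option autoImplicit false

namespace Pool.Agent.NonLow

open Encodable

/-! ### I1 -/

/-- the graph of a primitive recursion -/
theorem interA_prec (f h : ℕ →. ℕ) (a n v : ℕ) :
    v ∈ (Nat.rec (f a) (fun y IH => IH.bind fun i => h (Nat.pair a (Nat.pair y i))) n : Part ℕ) ↔
      ∃ l : List ℕ, l.getD 0 0 ∈ f a ∧
        (∀ y, y < n → l.getD (y + 1) 0 ∈ h (Nat.pair a (Nat.pair y (l.getD y 0)))) ∧
        l.getD n 0 = v := by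
  constructor
  · intro hv
    have key : ∀ n v, v ∈ (Nat.rec (f a)
        (fun y IH => IH.bind fun i => h (Nat.pair a (Nat.pair y i))) n : Part ℕ) →
        ∃ l : List ℕ, l.length = n + 1 ∧ l.getD 0 0 ∈ f a ∧
        (∀ y, y < n → l.getD (y + 1) 0 ∈ h (Nat.pair a (Nat.pair y (l.getD y 0)))) ∧
        l.getD n 0 = v := by
      intro n
      induction n with
      | zero =>
        intro v hv
        exact ⟨[v], rfl, hv, fun y hy => absurd hy (Nat.not_lt_zero _), rfl⟩
      | succ n ih =>
        intro v hv
        obtain ⟨i, hi, hvi⟩ := Part.mem_bind_iff.1 hv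
        obtain ⟨l, h0, h1, h2, h3⟩ := ih i hi
        have e1 : ∀ j, j < n + 1 → (l ++ [v]).getD j 0 = l.getD j 0 := by
          intro j hj
          rw [List.getD_append _ _ _ _ (by omega)]
        have e2 : (l ++ [v]).getD (n + 1) 0 = v := by
          rw [List.getD_append_right _ _ _ _ (by omega), h0]
          simp
        refine ⟨l ++ [v], by simp [h0], ?_, ?_, e2⟩
        · rw [e1 0 (by omega)]
          exact h1
        · intro y hy
          rcases Nat.lt_succ_iff_lt_or_eq.1 hy with hy' | rfl
          · rw [e1 y (by omega), e1 (y + 1) (by omega)]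
            exact h2 y hy'
          · rw [e1 y (by omega), e2, h3]
            exact hvi
    obtain ⟨l, _, h1⟩ := key n v hv
    exact ⟨l, h1⟩
  · rintro ⟨l, h1, h2, h3⟩
    have key : ∀ m, m ≤ n → l.getD m 0 ∈ (Nat.rec (f a)
        (fun y IH => IH.bind fun i => h (Nat.pair a (Nat.pair y i))) m : Part ℕ) := by
      intro m
      induction m with
      | zero => exact fun _ => h1
      | succ m ih =>
        intro hm
        exact Part.mem_bind_iff.2 ⟨_, ih (by omega), h2 m (by omega)⟩
    rw [← h3]
    exact key n le_rfl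

theorem interA_unpair1 {α : Type} [Primcodable α] {g : α → ℕ} (hg : Computable g) :
    Computable fun x => (g x).unpair.1 := Computable.fst.comp (Computable.unpair.comp hg)

theorem interA_unpair2 {α : Type} [Primcodable α] {g : α → ℕ} (hg : Computable g) :
    Computable fun x => (g x).unpair.2 := Computable.snd.comp (Computable.unpair.comp hg)

theorem interA_pair {α : Type} [Primcodable α] {g h : α → ℕ} (hg : Computable g)
    (hh : Computable h) : Computable fun x => Nat.pair (g x) (h x) :=
  Primrec₂.natPair.to_comp.comp hg hh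

theorem interA_getD {α : Type} [Primcodable α] {g : α → List ℕ} {h : α → ℕ} (hg : Computable g)
    (hh : Computable h) : Computable fun x => (g x).getD (h x) 0 :=
  (Primrec.list_getD 0).to_comp.comp hg hh

theorem interA_i1 (X : ℕ → ℕ) (f : ℕ →. ℕ) (hf : Nat.RecursiveIn {PFun.lift X} f) :
    Sg X 0 (fun p : ℕ × ℕ => p.2 ∈ f p.1) := by
  induction hf with
  | zero =>
    refine (Dl.eq (β := ℕ) Computable.snd (Computable.const 0)).1.of_iff fun p => ?_
    exact Part.mem_some_iff
  | succ =>
    refine (Dl.eq (β := ℕ) Computable.snd (Computable.succ.comp Computable.fst)).1.of_iff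
      fun p => ?_
    exact Part.mem_some_iff
  | left =>
    refine (Dl.eq (β := ℕ) Computable.snd (interA_unpair1 Computable.fst)).1.of_iff fun p => ?_
    exact Part.mem_some_iff
  | right =>
    refine (Dl.eq (β := ℕ) Computable.snd (interA_unpair2 Computable.fst)).1.of_iff fun p => ?_
    exact Part.mem_some_iff
  | oracle g hg =>
    rw [Set.mem_singleton_iff] at hg
    subst hg
    refine (Dl.oracle X).1.of_iff fun p => ?_
    exact Part.mem_some_iff.trans eq_comm
  | @pair f h _ _ ihf ihh =>
    have h1 := ihf.comp (f := fun p : ℕ × ℕ => (p.1, p.2.unpair.1))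
      (Computable.fst.pair (interA_unpair1 Computable.snd))
    have h2 := ihh.comp (f := fun p : ℕ × ℕ => (p.1, p.2.unpair.2))
      (Computable.fst.pair (interA_unpair2 Computable.snd))
    refine (h1.and h2).of_iff fun p => ?_
    constructor
    · intro hp
      obtain ⟨x, hx, hx2⟩ := Part.mem_bind_iff.1 hp
      obtain ⟨a, ha, rfl⟩ := (Part.mem_map_iff _).1 hx
      obtain ⟨b, hb, hb2⟩ := (Part.mem_map_iff _).1 hx2
      rw [← hb2]
      simp only [Nat.unpair_pair]
      exact ⟨ha, hb⟩
    · rintro ⟨ha, hb⟩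
      refine Part.mem_bind_iff.2 ⟨_, (Part.mem_map_iff _).2 ⟨_, ha, rfl⟩,
        (Part.mem_map_iff _).2 ⟨_, hb, ?_⟩⟩
      exact Nat.pair_unpair p.2
  | @comp f h _ _ ihf ihh =>
    have h1 := ihh.comp (f := fun p : (ℕ × ℕ) × ℕ => (p.1.1, p.2))
      ((Computable.fst.comp Computable.fst).pair Computable.snd)
    have h2 := ihf.comp (f := fun p : (ℕ × ℕ) × ℕ => (p.2, p.1.2))
      (Computable.snd.pair (Computable.snd.comp Computable.fst))
    refine (Sg.exN (P := fun (p : ℕ × ℕ) (a : ℕ) => a ∈ h p.1 ∧ p.2 ∈ f a)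
      (h1.and h2)).of_iff fun p => ?_
    exact Part.mem_bind_iff
  | @prec f h _ _ ihf ihh =>
    have h1 := ihf.comp (f := fun p : (ℕ × ℕ) × List ℕ => (p.1.1.unpair.1, p.2.getD 0 0))
      ((interA_unpair1 (Computable.fst.comp Computable.fst)).pair
        (interA_getD Computable.snd (Computable.const 0)))
    have h2 := ihh.comp (f := fun q : ((ℕ × ℕ) × List ℕ) × ℕ =>
        (Nat.pair q.1.1.1.unpair.1 (Nat.pair q.2 (q.1.2.getD q.2 0)), q.1.2.getD (q.2 + 1) 0))
      ((interA_pair (interA_unpair1 (Computable.fst.comp (Computable.fst.comp Computable.fst)))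
        (interA_pair Computable.snd
          (interA_getD (Computable.snd.comp Computable.fst) Computable.snd))).pair
        (interA_getD (Computable.snd.comp Computable.fst) (Computable.succ.comp Computable.snd)))
    have h3 := Sg.ball (P := fun (p : (ℕ × ℕ) × List ℕ) (y : ℕ) =>
      p.2.getD (y + 1) 0 ∈ h (Nat.pair p.1.1.unpair.1 (Nat.pair y (p.2.getD y 0)))) h2
      (f := fun p => p.1.1.unpair.2) (interA_unpair2 (Computable.fst.comp Computable.fst))
    have h4 := (Dl.eq (X := X) (n := 0) (β := ℕ)
      (f := fun p : (ℕ × ℕ) × List ℕ => p.2.getD p.1.1.unpair.2 0)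
      (g := fun p : (ℕ × ℕ) × List ℕ => p.1.2)
      (interA_getD Computable.snd (interA_unpair2 (Computable.fst.comp Computable.fst)))
      (Computable.snd.comp Computable.fst)).1
    refine (Sg.ex (P := fun (p : ℕ × ℕ) (l : List ℕ) => l.getD 0 0 ∈ f p.1.unpair.1 ∧
      (∀ y, y < p.1.unpair.2 →
        l.getD (y + 1) 0 ∈ h (Nat.pair p.1.unpair.1 (Nat.pair y (l.getD y 0)))) ∧
        l.getD p.1.unpair.2 0 = p.2) (h1.and (h3.and h4))).of_iff fun p => ?_
    exact interA_prec f h p.1.unpair.1 p.1.unpair.2 p.2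
  | @rfind f _ ihf =>
    have h1 := ihf.comp (f := fun p : ℕ × ℕ => (Nat.pair p.1 p.2, 0))
      ((interA_pair Computable.fst Computable.snd).pair (Computable.const 0))
    have h2 := ihf.comp (f := fun q : ((ℕ × ℕ) × ℕ) × ℕ => (Nat.pair q.1.1.1 q.1.2, q.2))
      ((interA_pair (Computable.fst.comp (Computable.fst.comp Computable.fst))
        (Computable.snd.comp Computable.fst)).pair Computable.snd)
    have h3 := (Dl.lt (X := X) (n := 0) (f := fun _ : ((ℕ × ℕ) × ℕ) × ℕ => 0)
      (g := fun q : ((ℕ × ℕ) × ℕ) × ℕ => q.2) (Computable.const 0) Computable.snd).1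
    have h4 := Sg.exN (P := fun (q : (ℕ × ℕ) × ℕ) (w : ℕ) => w ∈ f (Nat.pair q.1.1 q.2) ∧ 0 < w)
      (h2.and h3)
    have h5 := Sg.ball (P := fun (p : ℕ × ℕ) (m : ℕ) => ∃ w, w ∈ f (Nat.pair p.1 m) ∧ 0 < w) h4
      (f := fun p => p.2) Computable.snd
    refine (h1.and h5).of_iff fun p => ?_
    refine Iff.trans (Nat.mem_rfind (p := (fun n => (fun m => decide (m = 0)) <$>
      f (Nat.pair p.1 n) : ℕ →. Bool))) ?_
    constructor
    · rintro ⟨a1, a2⟩
      refine ⟨?_, fun m hm => ?_⟩
      · obtain ⟨w, hw, hw2⟩ := (Part.mem_map_iff _).1 a1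
        have : w = 0 := by simpa using hw2
        rw [← this]
        exact hw
      · obtain ⟨w, hw, hw2⟩ := (Part.mem_map_iff _).1 (a2 hm)
        have : w ≠ 0 := by simpa using hw2
        exact ⟨w, hw, Nat.pos_of_ne_zero this⟩
    · rintro ⟨a1, a2⟩
      refine ⟨(Part.mem_map_iff _).2 ⟨0, a1, by simp⟩, fun {m} hm => ?_⟩
      obtain ⟨w, hw, hw2⟩ := a2 m hm
      exact (Part.mem_map_iff _).2 ⟨w, hw, by simp; omega⟩

theorem i1_main : StmtI1 := by
  intro X f hf
  exact interA_i1 X f (RecursiveIn.iff_nat.1 hf)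

/-! ### I2 -/

/-- total functions recursive in `X` -/
def InterTR (X g : ℕ → ℕ) : Prop :=
  Nat.RecursiveIn {PFun.lift X} (fun n => Part.some (g n))

theorem InterTR.comp {X f h : ℕ → ℕ} (hf : InterTR X f) (hh : InterTR X h) :
    InterTR X (fun n => f (h n)) :=
  (Nat.RecursiveIn.comp hf hh).of_eq fun n => by
    show (Part.some (h n)).bind _ = _
    rw [Part.bind_some]

theorem InterTR.pair {X f h : ℕ → ℕ} (hf : InterTR X f) (hh : InterTR X h) :
    InterTR X (fun n => Nat.pair (f n) (h n)) :=
  (Nat.RecursiveIn.pair hf hh).of_eq fun n => by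
    simp [Seq.seq]

theorem InterTR.of_comp {X g : ℕ → ℕ} (hg : Computable g) : InterTR X g :=
  (Nat.Partrec.recursiveIn (Partrec.nat_iff.1 hg.partrec)).of_eq fun _ => rfl

theorem InterTR.oracle (X : ℕ → ℕ) : InterTR X X :=
  (Nat.RecursiveIn.oracle _ (Set.mem_singleton _)).of_eq fun _ => rfl

theorem InterTR.prec {X f h : ℕ → ℕ} (hf : InterTR X f) (hh : InterTR X h) :
    InterTR X (fun p => Nat.rec (f p.unpair.1)
      (fun y i => h (Nat.pair p.unpair.1 (Nat.pair y i))) p.unpair.2) :=
  (Nat.RecursiveIn.prec hf hh).of_eq fun p => by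
    show (Nat.rec (Part.some (f p.unpair.1)) (fun y IH => IH.bind fun i =>
      Part.some (h (Nat.pair p.unpair.1 (Nat.pair y i)))) p.unpair.2 : Part ℕ) =
      Part.some (Nat.rec (f p.unpair.1)
        (fun y i => h (Nat.pair p.unpair.1 (Nat.pair y i))) p.unpair.2)
    generalize p.unpair.2 = n
    induction n with
    | zero => rfl
    | succ n ih =>
      show Part.bind _ _ = _
      rw [ih, Part.bind_some]

/-- the code of a segment of the oracle -/
theorem interTR_seg (X : ℕ → ℕ) : InterTR X (fun s => encode (seg X s)) := by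
  have hG : Computable (fun p : ℕ => encode (((decode (α := List ℕ) p.unpair.1).getD []) ++
      [p.unpair.2])) := by
    refine Computable.encode.comp ?_
    have h1 : Computable (fun p : ℕ => (decode (α := List ℕ) p.unpair.1).getD []) :=
      Computable.option_getD (Computable.decode.comp (interA_unpair1 Computable.id))
        (Computable.const [])
    have h2 : Computable (fun p : ℕ => [p.unpair.2]) :=
      Computable.list_cons.comp (interA_unpair2 Computable.id) (Computable.const [])
    exact Computable.list_append.comp h1 h2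
  have hh : InterTR X (fun q => encode (((decode (α := List ℕ)
      (Nat.pair q.unpair.2.unpair.2 (X q.unpair.2.unpair.1)).unpair.1).getD []) ++
      [(Nat.pair q.unpair.2.unpair.2 (X q.unpair.2.unpair.1)).unpair.2])) := by
    refine InterTR.comp (f := fun p : ℕ => encode (((decode (α := List ℕ) p.unpair.1).getD []) ++
      [p.unpair.2])) (InterTR.of_comp hG) (InterTR.pair ?_ ?_)
    · exact InterTR.of_comp (interA_unpair2 (interA_unpair2 Computable.id))
    · exact InterTR.comp (InterTR.oracle X)
        (InterTR.of_comp (interA_unpair1 (interA_unpair2 Computable.id)))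
  have hf : InterTR X (fun _ => encode ([] : List ℕ)) := InterTR.of_comp (Computable.const _)
  have h1 := InterTR.prec hf hh
  have h2 := InterTR.comp h1 (InterTR.pair (InterTR.of_comp (Computable.const 0))
    (InterTR.of_comp Computable.id))
  refine Nat.RecursiveIn.of_eq h2 fun s => ?_
  congr 1
  simp only [Nat.unpair_pair, id]
  induction s with
  | zero => rfl
  | succ s ih =>
    show encode _ = _
    simp only [ih]
    rw [encodek]
    simp [seg, List.range_succ]

theorem interA_i2 (X f : ℕ → ℕ) (hf : S1 X (fun p : ℕ × ℕ => f p.1 = p.2)) : InterTR X f := by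
  obtain ⟨θ, hθ, h⟩ := hf
  -- the search function
  have hK : Computable (fun m : ℕ => bif θ (m.unpair.1.unpair.1, m.unpair.1.unpair.2)
      ((decode (α := List ℕ) m.unpair.2).getD []) then 0 else 1) := by
    refine Computable.cond (hθ.comp ?_ ?_) (Computable.const 0) (Computable.const 1)
    · exact (interA_unpair1 (interA_unpair1 Computable.id)).pair
        (interA_unpair2 (interA_unpair1 Computable.id))
    · exact Computable.option_getD (Computable.decode.comp (interA_unpair2 Computable.id))
        (Computable.const [])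
  have hD : InterTR X (fun q => bif θ (q.unpair.1, q.unpair.2.unpair.1)
      (seg X q.unpair.2.unpair.2) then 0 else 1) := by
    have h1 := InterTR.comp (InterTR.of_comp (X := X) hK)
      (InterTR.pair (f := fun q => Nat.pair q.unpair.1 q.unpair.2.unpair.1)
        (h := fun q => encode (seg X q.unpair.2.unpair.2))
        (InterTR.of_comp (interA_pair (interA_unpair1 Computable.id)
          (interA_unpair1 (interA_unpair2 Computable.id))))
        (InterTR.comp (interTR_seg X)
          (InterTR.of_comp (interA_unpair2 (interA_unpair2 Computable.id)))))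
    refine Nat.RecursiveIn.of_eq h1 fun q => ?_
    simp only [Nat.unpair_pair, encodek, Option.getD_some]
  have hR := Nat.RecursiveIn.rfind hD
  have hC := Nat.RecursiveIn.comp Nat.RecursiveIn.left hR
  refine hC.of_eq fun n => ?_
  rw [Part.eq_some_iff]
  obtain ⟨s, hs⟩ := (h (n, f n)).1 rfl
  let F : ℕ →. Bool := fun c => (fun m => decide (m = 0)) <$> (Part.some
      (bif θ ((Nat.pair n c).unpair.1, (Nat.pair n c).unpair.2.unpair.1)
        (seg X (Nat.pair n c).unpair.2.unpair.2) then 0 else 1) : Part ℕ)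
  have hdom : (Nat.rfind F).Dom := by
    refine (Nat.rfind_dom (p := F)).2 ⟨Nat.pair (f n) s, ?_, ?_⟩
    · refine (Part.mem_map_iff _).2 ⟨0, ?_, rfl⟩
      rw [Part.mem_some_iff]
      simp only [Nat.unpair_pair, hs, cond_true]
    · intro m _
      trivial
  obtain ⟨c, hc⟩ := Part.dom_iff_mem.1 hdom
  refine Part.mem_bind_iff.2 ⟨c, hc, ?_⟩
  have h1 := (Nat.mem_rfind.1 hc).1
  obtain ⟨w, hw, hw2⟩ := (Part.mem_map_iff _).1 h1
  rw [Part.mem_some_iff] at hw
  have hw0 : w = 0 := by simpa using hw2
  rw [hw0] at hw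
  simp only [Nat.unpair_pair] at hw
  have hθc : θ (n, c.unpair.1) (seg X c.unpair.2) = true := by
    by_contra hne
    rw [Bool.not_eq_true] at hne
    rw [hne] at hw
    exact absurd hw (by norm_num)
  have h2 : f n = c.unpair.1 := (h (n, c.unpair.1)).2 ⟨_, hθc⟩
  rw [h2]
  exact Part.mem_some_iff.2 rfl

theorem i2_main : StmtI2 := by
  intro X f hf
  exact RecursiveIn.iff_nat.2 ((interA_i2 X f hf).of_eq fun _ => rfl)

end Pool.Agent.NonLow
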