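import Pool.Agent.NonLow.Stmts2

/-!
# Upward closure of the degree spectrum of a linear order
-/

set_option autoImplicit false

namespace Pool.Agent.NonLow

/-- exchange of `2 n` and `2 n + 1` -/
def icFlip (a : ℕ) : ℕ := if a % 2 = 0 then a + 1 else a - 1

theorem icFlip_flip (a : ℕ) : icFlip (icFlip a) = a := by
  unfold icFlip
  split_ifs <;> omega

theorem icFlip_div (a : ℕ) : icFlip a / 2 = a / 2 := by
  unfold icFlip
  split_ifs <;> omega

theorem icFlip_even (n : ℕ) : icFlip (2 * n) = 2 * n + 1 := by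
  unfold icFlip
  split_ifs <;> omega

theorem icFlip_odd (n : ℕ) : icFlip (2 * n + 1) = 2 * n := by
  unfold icFlip
  split_ifs <;> omega

theorem icFlip_computable : Computable icFlip := by
  have h1 : PrimrecPred (fun a : ℕ => a % 2 = 0) :=
    Primrec.eq.comp (Primrec.nat_mod.comp Primrec.id (Primrec.const 2)) (Primrec.const 0)
  exact (Primrec.ite h1 Primrec.succ Primrec.pred).to_comp

open Classical in
/-- the map which exchanges `2 n` and `2 n + 1` for the `n` in `s` -/
noncomputable def icE (s : ℕ → Prop) (a : ℕ) : ℕ := if s (a / 2) then icFlip a else a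

theorem icE_icE (s : ℕ → Prop) (a : ℕ) : icE s (icE s a) = a := by
  unfold icE
  by_cases h : s (a / 2)
  · rw [if_pos h, icFlip_div, if_pos h, icFlip_flip]
  · rw [if_neg h, if_neg h]

/-- the map `icE` as a permutation -/
noncomputable def icEquiv (s : ℕ → Prop) : ℕ ≃ ℕ where
  toFun := icE s
  invFun := icE s
  left_inv := icE_icE s
  right_inv := icE_icE s

theorem i5_main (h1 : StmtI1) (h2 : StmtI2) : StmtI5 := by
  intro X R hrefl htrans hanti htot hR
  -- the bits to be coded
  let bit : ℕ → Prop := fun n => X (Nat.unpair n).1 = (Nat.unpair n).2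
  let s : ℕ → Prop := fun n => ¬ (R (2 * n) (2 * n + 1) = true ↔ bit n)
  let S : ℕ → ℕ → Bool := fun a b => R (icE s a) (icE s b)
  have hdbl : Computable (fun n : ℕ => 2 * n) :=
    (Primrec.nat_mul.comp (Primrec.const 2) Primrec.id).to_comp
  have hdbl1 : Computable (fun n : ℕ => 2 * n + 1) := Computable.succ.comp hdbl
  have hu1 : Computable (fun n : ℕ => (Nat.unpair n).1) :=
    (Primrec.fst.comp Primrec.unpair).to_comp
  have hu2 : Computable (fun n : ℕ => (Nat.unpair n).2) :=
    (Primrec.snd.comp Primrec.unpair).to_comp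
  have hbit : Dl X 0 bit := (Dl.oracle X).comp (f := fun n : ℕ => ((Nat.unpair n).1, (Nat.unpair n).2))
    (hu1.pair hu2)
  have hs : Dl X 0 s := by
    have h3 : Dl X 0 (fun n : ℕ => R (2 * n) (2 * n + 1) = true) :=
      hR.comp (f := fun n : ℕ => (2 * n, 2 * n + 1)) (hdbl.pair hdbl1)
    exact (h3.iff hbit).not
  have hhalf : Computable (fun a : ℕ => a / 2) :=
    (Primrec.nat_div.comp Primrec.id (Primrec.const 2)).to_comp
  have hE : Dl X 0 (fun p : ℕ × ℕ => icE s p.1 = p.2) := by
    have a1 : Dl X 0 (fun p : ℕ × ℕ => s (p.1 / 2)) := hs.comp (hhalf.comp Computable.fst)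
    have a2 : Dl X 0 (fun p : ℕ × ℕ => icFlip p.1 = p.2) :=
      Dl.eq (icFlip_computable.comp Computable.fst) Computable.snd
    have a3 : Dl X 0 (fun p : ℕ × ℕ => p.1 = p.2) := Dl.eq Computable.fst Computable.snd
    refine ((a1.and a2).or (a1.not.and a3)).of_iff fun p => ?_
    unfold icE
    by_cases h : s (p.1 / 2)
    · rw [if_pos h]; tauto
    · rw [if_neg h]; tauto
  have hS : Dl X 0 (fun x : ℕ × ℕ => S x.1 x.2 = true) := by
    have b1 : Dl X 0 (fun p : (ℕ × ℕ) × ℕ => R p.1.1 p.2 = true) :=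
      hR.comp (f := fun p : (ℕ × ℕ) × ℕ => (p.1.1, p.2))
        ((Computable.fst.comp Computable.fst).pair Computable.snd)
    have b2 : Sg X 0 (fun p : (ℕ × ℕ) × ℕ => icE s p.1.2 = p.2) :=
      hE.1.comp (f := fun p : (ℕ × ℕ) × ℕ => (p.1.2, p.2))
        ((Computable.snd.comp Computable.fst).pair Computable.snd)
    have b3 : Dl X 0 (fun x : ℕ × ℕ => R x.1 (icE s x.2) = true) :=
      Dl.fsub (P := fun (x : ℕ × ℕ) (y : ℕ) => R x.1 y = true) (f := fun x => icE s x.2) b2 b1
    have b4 : Dl X 0 (fun p : (ℕ × ℕ) × ℕ => R p.2 (icE s p.1.2) = true) :=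
      b3.comp (f := fun p : (ℕ × ℕ) × ℕ => (p.2, p.1.2))
        (Computable.snd.pair (Computable.snd.comp Computable.fst))
    have b5 : Sg X 0 (fun p : (ℕ × ℕ) × ℕ => icE s p.1.1 = p.2) :=
      hE.1.comp (f := fun p : (ℕ × ℕ) × ℕ => (p.1.1, p.2))
        ((Computable.fst.comp Computable.fst).pair Computable.snd)
    exact Dl.fsub (P := fun (x : ℕ × ℕ) (y : ℕ) => R y (icE s x.2) = true)
      (f := fun x => icE s x.1) b5 b4
  have hSval : ∀ n, (S (2 * n) (2 * n + 1) = true ↔ bit n) := by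
    intro n
    have e0 : 2 * n / 2 = n := by omega
    have e1 : (2 * n + 1) / 2 = n := by omega
    change R (icE s (2 * n)) (icE s (2 * n + 1)) = true ↔ bit n
    unfold icE
    rw [e0, e1]
    by_cases h : s n
    · rw [if_pos h, if_pos h, icFlip_even, icFlip_odd]
      have h' : ¬ (R (2 * n) (2 * n + 1) = true ↔ bit n) := h
      have h3 : R (2 * n + 1) (2 * n) = true ↔ ¬ R (2 * n) (2 * n + 1) = true := by
        constructor
        · intro h4 h5
          have := hanti _ _ h4 h5
          omega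
        · intro h4
          exact (htot (2 * n) (2 * n + 1)).resolve_left h4
      rw [h3]
      tauto
    · rw [if_neg h, if_neg h]
      exact not_not.1 h
  refine ⟨S, ⟨icEquiv s, fun a b => ?_⟩, ?_, ?_⟩
  · change R a b = R (icE s (icE s a)) (icE s (icE s b))
    rw [icE_icE, icE_icE]
  · refine h2 X (fun p : ℕ => (S (Nat.unpair p).1 (Nat.unpair p).2).toNat) ?_
    have c1 : Dl X 0 (fun p : ℕ × ℕ => S (Nat.unpair p.1).1 (Nat.unpair p.1).2 = true) :=
      hS.comp (f := fun p : ℕ × ℕ => ((Nat.unpair p.1).1, (Nat.unpair p.1).2))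
        ((hu1.comp Computable.fst).pair (hu2.comp Computable.fst))
    have c2 : Dl X 0 (fun p : ℕ × ℕ => (1 : ℕ) = p.2) := Dl.eq (Computable.const 1) Computable.snd
    have c3 : Dl X 0 (fun p : ℕ × ℕ => (0 : ℕ) = p.2) := Dl.eq (Computable.const 0) Computable.snd
    refine (((c1.and c2).or (c1.not.and c3)).of_iff fun p => ?_).1
    cases hb : S (Nat.unpair p.1).1 (Nat.unpair p.1).2
    · simp
    · simp
  · refine h2 (fun p : ℕ => (S (Nat.unpair p).1 (Nat.unpair p).2).toNat) X ?_
    have hpair : Computable (fun p : ℕ × ℕ => Nat.pair p.1 p.2) :=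
      (Primrec₂.natPair).to_comp
    have d1 := (Dl.oracle (fun p : ℕ => (S (Nat.unpair p).1 (Nat.unpair p).2).toNat)).comp
      (f := fun p : ℕ × ℕ => (Nat.pair (2 * Nat.pair p.1 p.2) (2 * Nat.pair p.1 p.2 + 1), (1 : ℕ)))
      ((hpair.comp ((hdbl.comp hpair).pair (hdbl1.comp hpair))).pair (Computable.const 1))
    refine (d1.of_iff fun p => ?_).1
    have d2 := hSval (Nat.pair p.1 p.2)
    simp only [bit, Nat.unpair_pair] at d2
    simp only [Nat.unpair_pair]
    rw [← d2]
    cases hb : S (2 * Nat.pair p.1 p.2) (2 * Nat.pair p.1 p.2 + 1)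
    · simp
    · simp

end Pool.Agent.NonLow
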