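import Pool.Agent.NonLow.Stmts2

/-!
# Assembly: the main theorem from its parts
-/

set_option autoImplicit false

namespace Pool.Agent.NonLow

open Computability

instance enat_countable : Countable ℕ∞ := inferInstanceAs (Countable (Option ℕ))

theorem exists_enum (D : Data) (h : (Fam D).Nonempty) : ∃ t : ℕ → Typ, Set.range t = Fam D := by
  obtain ⟨f, hf⟩ := (Set.to_countable (Fam D)).exists_eq_range h
  exact ⟨f, hf.symm⟩

theorem lo_countable (t : ℕ → Typ) : Countable (Lo t) := by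
  have h1 : ∀ E : ℕ → Qd → Prop, Countable (PP E) := fun E => by
    have : ∀ j, Countable (Qd ⊕ₗ (Unit ⊕ₗ ({q : Qd // E j q} ⊕ₗ Unit))) := fun j => by
      have h0 : Countable (Lex ({q : Qd // E j q} ⊕ Unit)) :=
        inferInstanceAs (Countable ({q : Qd // E j q} ⊕ Unit))
      have h1 : Countable (Lex (Unit ⊕ Lex ({q : Qd // E j q} ⊕ Unit))) :=
        inferInstanceAs (Countable (Unit ⊕ Lex ({q : Qd // E j q} ⊕ Unit)))
      exact inferInstanceAs (Countable (Qd ⊕ Lex (Unit ⊕ Lex ({q : Qd // E j q} ⊕ Unit))))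
    exact inferInstanceAs (Countable (Σ j : ℕ, (Qd ⊕ₗ (Unit ⊕ₗ ({q : Qd // E j q} ⊕ₗ Unit)))))
  have h2 : ∀ k (E : ℕ → Qd → Prop), Countable (GG k E) := fun k E => by
    have := h1 E
    have h0 : Countable (Lex (PP E ⊕ Fin k)) := inferInstanceAs (Countable (PP E ⊕ Fin k))
    exact inferInstanceAs (Countable (Fin k ⊕ Lex (PP E ⊕ Fin k)))
  have h3 : ∀ E : ℕ → ℕ → Qd → Prop, Countable (DD E) := fun E => by
    have : ∀ q : Qd, Countable (GG 3 (E q.col)) := fun q => h2 _ _
    exact inferInstanceAs (Countable (Σ q : Qd, GG 3 (E q.col)))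
  have h4 : ∀ e E2 E1, Countable (KK e E2 E1) := fun e E2 E1 => by
    have := h3 E2
    have := h2 4 E1
    have h0 : Countable (Lex (DD E2 ⊕ GG 4 E1)) := inferInstanceAs (Countable (DD E2 ⊕ GG 4 E1))
    exact inferInstanceAs (Countable (Fin (e + 5) ⊕ Lex (DD E2 ⊕ GG 4 E1)))
  have h5 : ∀ q : Qd, Countable (KK (t q.col).1 (fun k => can (enumF (t q.col).2.2 k))
      (can (t q.col).2.1)) := fun q => h4 _ _ _
  exact inferInstanceAs (Countable (Σ q : Qd, KK (t q.col).1
    (fun k => can (enumF (t q.col).2.2 k)) (can (t q.col).2.1)))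

theorem lo_infinite (t : ℕ → Typ) : Infinite (Lo t) := by
  have hinj : Function.Injective (fun n : ℕ =>
      (toLex ⟨(show Qd from n), toLex (Sum.inl (⟨0, by omega⟩ : Fin ((t (Qd.col n)).1 + 5)))⟩ :
        Lo t)) := by
    intro a b h
    have h1 := congrArg (fun x : Lo t => (ofLex x).1) h
    exact h1
  exact Infinite.of_injective _ hinj

/-- the main theorem from its parts -/
theorem main_of (hn : StmtLowNo) (hp : StmtPres) (hf : StmtFam) (hlo : StmtLo) (i1 : StmtI1)
    (i3 : StmtI3) (i4 : StmtI4) (i5 : StmtI5)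
    (hne : ∀ D : Data, (Fam D).Nonempty) : StmtMain := by
  classical
  obtain ⟨D, hT, hU, hG, hno⟩ := hn
  obtain ⟨t0, ht0⟩ := exists_enum D (hne D)
  have := lo_countable t0
  have := lo_infinite t0
  obtain ⟨φ0⟩ : Nonempty (ℕ ≃ Lo t0) := by
    obtain ⟨h⟩ := nonempty_denumerable (Lo t0)
    exact ⟨(Denumerable.eqv (Lo t0)).symm⟩
  refine ⟨fun a b => decide (φ0 a ≤ φ0 b), ?_, ?_, ?_, ?_, ?_⟩
  · intro a; simp
  · intro a b c h1 h2
    simp only [decide_eq_true_eq] at h1 h2 ⊢
    exact h1.trans h2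
  · intro a b h1 h2
    simp only [decide_eq_true_eq] at h1 h2
    exact φ0.injective (le_antisymm h1 h2)
  · intro a b
    simp only [decide_eq_true_eq]
    exact le_total _ _
  intro X
  constructor
  · intro hX
    obtain ⟨A, hA, hA2⟩ := i4 X hX
    obtain ⟨t, ht, hc1, hc2, hc3⟩ := hf D hT hU hG X A hA hA2
    obtain ⟨lt, hlt, φ, hφ⟩ := hp X t hc1 hc2 hc3
    obtain ⟨ψ⟩ := hlo t t0 (ht.trans ht0.symm)
    obtain ⟨S, ⟨e, he⟩, hS1, hS2⟩ := i5 X (fun a b => decide (φ a ≤ φ b)) (by intro a; simp)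
      (by
        intro a b c h1 h2
        simp only [decide_eq_true_eq] at h1 h2 ⊢
        exact h1.trans h2)
      (by
        intro a b h1 h2
        simp only [decide_eq_true_eq] at h1 h2
        exact φ.injective (le_antisymm h1 h2))
      (by
        intro a b
        simp only [decide_eq_true_eq]
        exact le_total _ _)
      (by
        refine (hlt.comp (f := fun p : ℕ × ℕ => (p.2, p.1))
          (Computable.snd.pair Computable.fst)).not.of_iff fun p => ?_
        rw [hφ, decide_eq_true_iff, not_lt])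
    refine ⟨S, ⟨((φ0.trans ψ.symm.toEquiv).trans φ.symm).trans e, fun a b => ?_⟩, hS1, hS2⟩
    show decide (φ0 a ≤ φ0 b) = S (e (φ.symm (ψ.symm (φ0 a)))) (e (φ.symm (ψ.symm (φ0 b))))
    rw [← he, Equiv.apply_symm_apply, Equiv.apply_symm_apply]
    simp
  · rintro ⟨S, ⟨e, he⟩, hS1, -⟩ hX
    have hg := i1 X _ hS1
    have hg2 : Dl X 0 (fun p : ℕ × ℕ => S p.1 p.2 = true) := by
      have h1 : Sg X 0 (fun p : (ℕ × ℕ) × ℕ => (S p.1.1 p.1.2).toNat = p.2) := by
        refine (hg.comp (f := fun p : (ℕ × ℕ) × ℕ => (Nat.pair p.1.1 p.1.2, p.2)) ?_).of_iff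
          fun p => ?_
        · exact (Primrec₂.natPair.to_comp.comp (Computable.fst.comp Computable.fst)
            (Computable.snd.comp Computable.fst)).pair Computable.snd
        · simp [PFun.lift, eq_comm]
      have h2 := Dl.of_graph (f := fun p : ℕ × ℕ => (S p.1 p.2).toNat) h1
      refine (h2.comp (f := fun p : ℕ × ℕ => (p, 1)) (Computable.id.pair (Computable.const 1))).of_iff
        fun p => ?_
      cases S p.1 p.2 <;> simp
    have hlt : Dl X 0 (fun p : ℕ × ℕ => ¬ S p.2 p.1 = true) :=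
      (hg2.comp (f := fun p : ℕ × ℕ => (p.2, p.1)) (Computable.snd.pair Computable.fst)).not
    have hR : Sg X 0 (fun p : ℕ × ℕ => ∃ z, ¬ S z p.1 = true ∧ ¬ S p.2 z = true) := by
      refine Sg.exN (P := fun (p : ℕ × ℕ) z => ¬ S z p.1 = true ∧ ¬ S p.2 z = true) ?_
      exact (hlt.comp (f := fun q : (ℕ × ℕ) × ℕ => (q.1.1, q.2))
        ((Computable.fst.comp Computable.fst).pair Computable.snd)).sg.and
        (hlt.comp (f := fun q : (ℕ × ℕ) × ℕ => (q.2, q.1.2))
        (Computable.snd.pair (Computable.snd.comp Computable.fst))).sg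
    refine hno t0 ht0 (fun p : ℕ × ℕ => ¬ S p.2 p.1 = true) (i3 X hX _ hlt.sg) (i3 X hX _ hR)
      (e.symm.trans φ0) ?_
    intro a b
    have := he (e.symm b) (e.symm a)
    simp only [Equiv.apply_symm_apply] at this
    show ¬ S b a = true ↔ _
    rw [← this, decide_eq_true_iff, not_le]
    rfl

end Pool.Agent.NonLow
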