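import Pool.Agent.NonLow.Stmts2

/-!
# Assembly: diagonalisation against low copies
-/

set_option autoImplicit false

namespace Pool.Agent.NonLow

theorem loc_congr {M : Type} [LinearOrder M] {e : ℕ} {x y : ℕ → M} (h : ∀ i < e + 13, x i = y i)
    (hx : Loc e x) : Loc e y := by
  obtain ⟨h1, h2, h3, h4, h5, h6, h7, h8, h9⟩ := hx
  refine ⟨?_, ?_, ?_, ?_, ?_, ?_, ?_, ?_, ?_⟩
  · intro i hi
    rw [← h i (by omega), ← h (i + 1) (by omega)]; exact h1 i hi
  · rw [← h 0 (by omega)]; exact h2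
  · rw [← h (e + 4) (by omega)]; exact h3
  · rw [← h (e + 4) (by omega), ← h (e + 5) (by omega)]; exact h4
  · rw [← h (e + 4) (by omega), ← h (e + 5) (by omega)]; exact h5
  · intro i hi
    rw [← h (e + 5 + i) (by omega), ← h (e + 6 + i) (by omega)]; exact h6 i hi
  · rw [← h (e + 8) (by omega), ← h (e + 9) (by omega)]; exact h7
  · rw [← h (e + 8) (by omega), ← h (e + 9) (by omega)]; exact h8
  · intro i hi
    rw [← h (e + 9 + i) (by omega), ← h (e + 10 + i) (by omega)]; exact h9 i hi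

theorem exists_dec (n : ℕ) (y : ℕ → ℕ) : ∃ l, ∀ i < n, dec l i = y i := by
  refine ⟨Encodable.encode ((List.range n).map y), fun i hi => ?_⟩
  simp [dec, hi]

theorem encard_lt (V : ℕ∞) : {v : ℕ | (v : ℕ∞) < V}.encard = V := by
  induction V using ENat.recTopCoe with
  | top =>
    have : {v : ℕ | (v : ℕ∞) < ⊤} = Set.univ := by
      ext v; simp
    rw [this]; simp
  | coe n =>
    have : {v : ℕ | (v : ℕ∞) < (n : ℕ∞)} = (Finset.range n : Set ℕ) := by
      ext v; simp
    rw [this, Set.encard_coe_eq_coe_finsetCard]; simp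

theorem encard_ball_lt (V : ℕ∞) : {v : ℕ | ∀ v' ≤ v, (v' : ℕ∞) < V}.encard = V := by
  conv_rhs => rw [← encard_lt V]
  congr 1
  ext v
  constructor
  · intro h; exact h v le_rfl
  · intro h v' hv'
    exact lt_of_le_of_lt (by exact_mod_cast hv') h

theorem fst_unique {D : Data} {e a b : ℕ} (ha : fst D e a) (hb : fst D e b) : a = b := by
  rcases Nat.lt_trichotomy a b with h | h | h
  · exact absurd ha.1 (hb.2 a h)
  · exact h
  · exact absurd hb.1 (ha.2 b h)

theorem exists_fst {D : Data} {e l : ℕ} (h : tru D e l) : ∃ a, fst D e a := by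
  classical
  exact ⟨Nat.find ⟨l, h⟩, Nat.find_spec ⟨l, h⟩, fun l' hl' => Nat.find_min ⟨l, h⟩ hl'⟩

theorem fam_nonempty (D : Data) (e : ℕ) : ∃ τ ∈ Fam D, τ.1 = e := by
  by_cases h : ∀ l, ¬ tru D e l
  · exact ⟨(e, ⊤, ∅), Or.inl ⟨h, rfl⟩, rfl⟩
  · push Not at h
    obtain ⟨l, hl⟩ := h
    obtain ⟨a, ha⟩ := exists_fst hl
    by_cases h0 : Unum D e a = 0
    · refine ⟨(e, 1, ∅), Or.inr ⟨a, ha, Or.inl ⟨?_, ?_⟩⟩, rfl⟩
      · simp
      · show (1 : ℕ∞) ≠ Unum D e a
        rw [h0]; simp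
    · refine ⟨(e, 0, ∅), Or.inr ⟨a, ha, Or.inl ⟨?_, ?_⟩⟩, rfl⟩
      · simp
      · exact fun h => h0 h.symm

/-- the universal data -/
def uData : Data where
  T := fun p => HH p.1.unpair.1 (Encodable.encode p)
  U := fun p => ¬ HH p.1.unpair.2.unpair.1 (Encodable.encode p)
  G := fun p => HH p.1.unpair.2.unpair.2 (Encodable.encode p)

theorem lowno_main (hu : StmtUniv) (hc : StmtCplx) (hsem : StmtSem) : StmtLowNo := by
  obtain ⟨hHH, hu1, hu2, hu3⟩ := hu
  refine ⟨uData, ?_, ?_, ?_, ?_⟩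
  · exact (hHH.comp (f := fun p : ℕ × ℕ × ℕ => (p.1.unpair.1, Encodable.encode p))
      ((Computable.fst.comp (Computable.unpair.comp Computable.fst)).pair Computable.encode)).dl
  · exact (hHH.comp (f := fun p : ℕ × ℕ × ℕ × ℕ => (p.1.unpair.2.unpair.1, Encodable.encode p))
      ((Computable.fst.comp (Computable.unpair.comp (Computable.snd.comp
        (Computable.unpair.comp Computable.fst)))).pair Computable.encode)).dl.not
  · exact (hHH.comp (f := fun p : ℕ × ℕ × ℕ × ℕ × ℕ => (p.1.unpair.2.unpair.2, Encodable.encode p))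
      ((Computable.snd.comp (Computable.unpair.comp (Computable.snd.comp
        (Computable.unpair.comp Computable.fst)))).pair Computable.encode)).dl
  · intro t ht lt hlt hR φ hφ
    obtain ⟨hc1, hc2, hc3⟩ := hc (Lo t) φ lt hφ hlt hR
    obtain ⟨c1, h1⟩ := hu1 (fun p => Loc p.1 (fun i => φ (dec p.2 i))) hc1
    obtain ⟨c2, h2⟩ := hu2 (fun p : ℕ × ℕ × ℕ =>
      (p.2.2 : ℕ∞) < cnt (φ (dec p.2.1 (p.1 + 8))) (φ (dec p.2.1 (p.1 + 9)))) hc2
    obtain ⟨c3, h3⟩ := hu3 (fun p : ℕ × ℕ × ℕ =>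
      p.2.2 ∈ gaps (φ (dec p.2.1 (p.1 + 4))) (φ (dec p.2.1 (p.1 + 5)))) hc3
    set e := Nat.pair c1 (Nat.pair c2 c3) with he
    have htru : ∀ l, tru uData e l ↔ Loc e (fun i => φ (dec l i)) := by
      intro l
      refine Iff.trans ?_ (h1 e l).symm
      show (∀ a, HH e.unpair.1 _) ↔ _
      rw [he, Nat.unpair_pair]
    have hU : ∀ l, Unum uData e l = cnt (φ (dec l (e + 8))) (φ (dec l (e + 9))) := by
      intro l
      have : ∀ v, (∃ a, uData.U (e, l, v, a)) ↔
          (v : ℕ∞) < cnt (φ (dec l (e + 8))) (φ (dec l (e + 9))) := by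
        intro v
        refine Iff.trans ?_ (h2 e l v).symm
        show (∃ a, ¬ HH e.unpair.2.unpair.1 _) ↔ _
        rw [he, Nat.unpair_pair, Nat.unpair_pair]
      unfold Unum
      simp only [this]
      exact encard_ball_lt _
    have hG : ∀ l, Gset uData e l = gaps (φ (dec l (e + 4))) (φ (dec l (e + 5))) := by
      intro l
      ext f
      refine Iff.trans ?_ (h3 e l f).symm
      show (∃ w, ∀ b, HH e.unpair.2.unpair.2 _) ↔ _
      rw [he, Nat.unpair_pair, Nat.unpair_pair]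
    -- a location exists
    obtain ⟨τ, hτ, hτe⟩ := fam_nonempty uData e
    rw [← ht] at hτ
    obtain ⟨i, hi⟩ := hτ
    obtain ⟨x, hx⟩ := (hsem t).1 i
    rw [hi, hτe] at hx
    obtain ⟨l, hl⟩ := exists_dec (e + 13) (fun i => φ.symm (x i))
    have hloc : Loc e (fun i => φ (dec l i)) := by
      refine loc_congr (fun i hi => ?_) hx
      rw [hl i hi, Equiv.apply_symm_apply]
    obtain ⟨a, ha⟩ := exists_fst ((htru l).2 hloc)
    obtain ⟨j, hj1, hj2, hj3⟩ := (hsem t).2 e _ ((htru a).1 ha.1)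
    have hj : t j ∈ Fam uData := by rw [← ht]; exact ⟨j, rfl⟩
    rw [← hU] at hj2
    rw [← hG] at hj3
    rcases hj with ⟨h4, _⟩ | ⟨b, hb, h4⟩
    · rw [hj1] at h4
      exact h4 a ha.1
    · rw [hj1] at hb h4
      have := fst_unique ha hb
      subst this
      rcases h4 with ⟨_, h5⟩ | ⟨_, _, h5⟩
      · exact h5 hj2.symm
      · exact h5 hj3.symm

end Pool.Agent.NonLow
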