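import Pool.Agent.NonLow.Stmts2

/-!
# B3: complexity of the component types in case beta
-/

set_option autoImplicit false

namespace Pool.Agent.NonLow

open Encodable

/-! ## The least number -/

theorem b3_leastN_iff (W : ℕ → Prop) (v : ℕ) :
    (v : ℕ∞) < leastN W ↔ ∀ v', v' < v + 1 → W v' := by
  unfold leastN
  constructor
  · intro h
    by_contra hc
    push Not at hc
    obtain ⟨v', h1, h2⟩ := hc
    have hsub : {v : ℕ | ∀ v', v' ≤ v → W v'} ⊆ ((Finset.range v : Finset ℕ) : Set ℕ) := by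
      intro u hu
      simp only [Finset.coe_range, Set.mem_Iio]
      by_contra h3
      exact h2 (hu v' (by omega))
    have h3 := Set.encard_le_encard hsub
    rw [Set.encard_coe_eq_coe_finsetCard, Finset.card_range] at h3
    exact absurd h (not_lt.2 h3)
  · intro h
    have hsub : ((Finset.range (v + 1) : Finset ℕ) : Set ℕ) ⊆ {v : ℕ | ∀ v', v' ≤ v → W v'} := by
      intro u hu
      simp only [Finset.coe_range, Set.mem_Iio] at hu
      exact fun v' hv' => h v' (by omega)
    have h3 := Set.encard_le_encard hsub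
    rw [Set.encard_coe_eq_coe_finsetCard, Finset.card_range] at h3
    refine lt_of_lt_of_le ?_ h3
    exact_mod_cast Nat.lt_succ_self v

/-- complexity of the least number -/
theorem b3_leastN {β : Type} [Primcodable β] {X : ℕ → ℕ} {n : ℕ} {W : β → ℕ → Prop}
    (h : Sg X n (fun p : β × ℕ => W p.1 p.2)) :
    Sg X n (fun p : β × ℕ => (p.2 : ℕ∞) < leastN (W p.1)) := by
  have h1 : Sg X n (fun q : (β × ℕ) × ℕ => W q.1.1 q.2) :=
    h.comp (f := fun q : (β × ℕ) × ℕ => (q.1.1, q.2))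
      ((Computable.fst.comp Computable.fst).pair Computable.snd)
  exact (Sg.ball (P := fun (q : β × ℕ) (i : ℕ) => W q.1 i) h1
    (f := fun q : β × ℕ => q.2 + 1) (Computable.succ.comp Computable.snd)).of_iff
    fun p => b3_leastN_iff _ _

/-! ## Basic predicates -/

section basic
variable {β : Type} [Primcodable β]

/-- membership in a list is decidable -/
theorem b3_mem {X : ℕ → ℕ} {n : ℕ} {f : β → ℕ} {l : β → List ℕ} (hf : Computable f)
    (hl : Computable l) : Dl X n (fun x => f x ∈ l x) := by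
  refine (Dl.bex (P := fun (x : β) (i : ℕ) => (l x).getD i 0 = f x) ?_
    (f := fun x => (l x).length) (Computable.list_length.comp hl)).of_iff fun x => ?_
  · refine Dl.eq ?_ (hf.comp Computable.fst)
    exact (Primrec.list_getD 0).to_comp.comp (hl.comp Computable.fst) Computable.snd
  · rw [List.mem_iff_getElem]
    constructor
    · rintro ⟨i, hi, h⟩
      exact ⟨i, hi, by rw [List.getD_eq_getElem _ _ hi, h]⟩
    · rintro ⟨i, hi, h⟩
      refine ⟨i, hi, ?_⟩
      rwa [List.getD_eq_getElem _ _ hi] at h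

variable {D : Data}

theorem b3_ltU (hU : Dl Z 1 (fun p : (ℕ × ℕ) × ℕ => Ucur D p.1.1 p.1.2 = p.2)) {h e s : β → ℕ}
    (hh : Computable h) (he : Computable e) (hs : Computable s) :
    Dl Z 1 (fun x => h x < Ucur D (e x) (s x)) := by
  refine Dl.fsub (P := fun (x : β) (y : ℕ) => h x < y) (f := fun x => Ucur D (e x) (s x)) ?_
    (Dl.lt (hh.comp Computable.fst) Computable.snd)
  exact hU.1.comp (f := fun p : β × ℕ => ((e p.1, s p.1), p.2))
    (((he.comp Computable.fst).pair (hs.comp Computable.fst)).pair Computable.snd)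

theorem b3_G (hL : Dl Z 1 (fun p : (ℕ × ℕ) × ℕ => lst D p.1.1 p.1.2 = p.2)) (hG : Dl Z 1 D.G)
    {e s f w b : β → ℕ} (he : Computable e) (hs : Computable s) (hf : Computable f)
    (hw : Computable w) (hb : Computable b) :
    Dl Z 1 (fun x => D.G (e x, lst D (e x) (s x), f x, w x, b x)) := by
  refine Dl.fsub (P := fun (x : β) (y : ℕ) => D.G (e x, y, f x, w x, b x))
    (f := fun x => lst D (e x) (s x)) ?_ ?_
  · exact hL.1.comp (f := fun p : β × ℕ => ((e p.1, s p.1), p.2))
      (((he.comp Computable.fst).pair (hs.comp Computable.fst)).pair Computable.snd)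
  · exact hG.comp (f := fun p : β × ℕ => (e p.1, p.2, f p.1, w p.1, b p.1))
      ((he.comp Computable.fst).pair (Computable.snd.pair ((hf.comp Computable.fst).pair
        ((hw.comp Computable.fst).pair (hb.comp Computable.fst)))))

theorem b3_push (hbad : Dl Z 1 (fun p : ℕ × ℕ × ℕ => bad D p.1 p.2.1 p.2.2)) {X g : ℕ → ℕ}
    (hg : Dl X 1 (fun p : ℕ × ℕ => g p.1 = p.2)) {e r v : β → ℕ} (he : Computable e)
    (hr : Computable r) (hv : Computable v) : Sg X 1 (fun x => Push D g (e x) (r x) (v x)) := by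
  refine Sg.exN (P := fun (x : β) (s : ℕ) => g (v x) ≤ s ∧ r x ≤ s ∧ bad D (e x) s (v x)) ?_
  have h1 : Dl X 1 (fun p : β × ℕ => g (v p.1) ≤ p.2) := by
    refine Dl.fsub (P := fun (p : β × ℕ) (y : ℕ) => y ≤ p.2) (f := fun p : β × ℕ => g (v p.1)) ?_
      (Dl.le Computable.snd (Computable.snd.comp Computable.fst))
    exact hg.1.comp (f := fun q : (β × ℕ) × ℕ => (v q.1.1, q.2))
      ((hv.comp (Computable.fst.comp Computable.fst)).pair Computable.snd)
  have h2 : Dl X 1 (fun p : β × ℕ => r p.1 ≤ p.2) := Dl.le (hr.comp Computable.fst) Computable.snd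
  have h3 : Dl X 1 (fun p : β × ℕ => bad D (e p.1) p.2 (v p.1)) :=
    hbad.light.comp (f := fun p : β × ℕ => (e p.1, p.2, v p.1))
      ((he.comp Computable.fst).pair (Computable.snd.pair (hv.comp Computable.fst)))
  exact (h1.and (h2.and h3)).1

end basic

/-! ## Projections of component indices -/

theorem b3_e : Computable Idx.e := Computable.fst
theorem b3_k : Computable Idx.k := Computable.fst.comp Computable.snd
theorem b3_m : Computable Idx.m := Computable.fst.comp (Computable.snd.comp Computable.snd)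
theorem b3_r : Computable Idx.r :=
  Computable.fst.comp (Computable.snd.comp (Computable.snd.comp Computable.snd))
theorem b3_r' : Computable Idx.r' :=
  Computable.fst.comp (Computable.snd.comp (Computable.snd.comp (Computable.snd.comp
    Computable.snd)))
theorem b3_f : Computable Idx.f :=
  Computable.fst.comp (Computable.snd.comp (Computable.snd.comp (Computable.snd.comp
    (Computable.snd.comp Computable.snd))))
theorem b3_w : Computable Idx.w :=
  Computable.fst.comp (Computable.snd.comp (Computable.snd.comp (Computable.snd.comp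
    (Computable.snd.comp (Computable.snd.comp Computable.snd)))))
theorem b3_l : Computable Idx.l :=
  Computable.snd.comp (Computable.snd.comp (Computable.snd.comp (Computable.snd.comp
    (Computable.snd.comp (Computable.snd.comp Computable.snd)))))

/-! ## The predicate `Hb` -/

section hb
variable {D : Data}

theorem b3_hb1 (hL : Dl Z 1 (fun p : (ℕ × ℕ) × ℕ => lst D p.1.1 p.1.2 = p.2))
    (hU : Dl Z 1 (fun p : (ℕ × ℕ) × ℕ => Ucur D p.1.1 p.1.2 = p.2)) (hG : Dl Z 1 D.G) :
    Sg Z 1 (fun x : Idx × ℕ => ∃ s, x.2 < Ucur D x.1.e s ∧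
      ∀ w, w < x.2 + 1 → ∃ b, b < s + 1 ∧ ¬ D.G (x.1.e, lst D x.1.e s, x.1.f, w, b)) := by
  refine Sg.exN (P := fun (x : Idx × ℕ) (s : ℕ) => x.2 < Ucur D x.1.e s ∧
      ∀ w, w < x.2 + 1 → ∃ b, b < s + 1 ∧ ¬ D.G (x.1.e, lst D x.1.e s, x.1.f, w, b)) ?_
  refine ((b3_ltU hU (Computable.snd.comp Computable.fst)
    (b3_e.comp (Computable.fst.comp Computable.fst)) Computable.snd).and ?_).1
  refine Dl.ball (P := fun (x : (Idx × ℕ) × ℕ) (w : ℕ) =>
    ∃ b, b < x.2 + 1 ∧ ¬ D.G (x.1.1.e, lst D x.1.1.e x.2, x.1.1.f, w, b)) ?_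
    (f := fun x : (Idx × ℕ) × ℕ => x.1.2 + 1)
    (Computable.succ.comp (Computable.snd.comp Computable.fst))
  refine Dl.bex (P := fun (x : ((Idx × ℕ) × ℕ) × ℕ) (b : ℕ) =>
    ¬ D.G (x.1.1.1.e, lst D x.1.1.1.e x.1.2, x.1.1.1.f, x.2, b)) ?_
    (f := fun x : ((Idx × ℕ) × ℕ) × ℕ => x.1.2 + 1)
    (Computable.succ.comp (Computable.snd.comp Computable.fst))
  refine (b3_G hL hG (β := (((Idx × ℕ) × ℕ) × ℕ) × ℕ) (e := fun x => x.1.1.1.1.e)
    (s := fun x => x.1.1.2) (f := fun x => x.1.1.1.1.f) (w := fun x => x.1.2) (b := fun x => x.2)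
    ?_ ?_ ?_ ?_ ?_).not
  · exact b3_e.comp (Computable.fst.comp (Computable.fst.comp (Computable.fst.comp
      Computable.fst)))
  · exact Computable.snd.comp (Computable.fst.comp Computable.fst)
  · exact b3_f.comp (Computable.fst.comp (Computable.fst.comp (Computable.fst.comp
      Computable.fst)))
  · exact Computable.snd.comp Computable.fst
  · exact Computable.snd

theorem b3_hb2 (hL : Dl Z 1 (fun p : (ℕ × ℕ) × ℕ => lst D p.1.1 p.1.2 = p.2))
    (hU : Dl Z 1 (fun p : (ℕ × ℕ) × ℕ => Ucur D p.1.1 p.1.2 = p.2)) (hG : Dl Z 1 D.G) :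
    Sg Z 1 (fun x : Idx × ℕ => ∃ s, x.2 ≤ s ∧ x.2 < Ucur D x.1.e s ∧
      ∀ b, b < s + 1 → D.G (x.1.e, lst D x.1.e s, x.1.f, x.1.w, b)) := by
  refine Sg.exN (P := fun (x : Idx × ℕ) (s : ℕ) => x.2 ≤ s ∧ x.2 < Ucur D x.1.e s ∧
      ∀ b, b < s + 1 → D.G (x.1.e, lst D x.1.e s, x.1.f, x.1.w, b)) ?_
  refine ((Dl.le (Computable.snd.comp Computable.fst) Computable.snd).and
    ((b3_ltU hU (Computable.snd.comp Computable.fst)
    (b3_e.comp (Computable.fst.comp Computable.fst)) Computable.snd).and ?_)).1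
  refine Dl.ball (P := fun (x : (Idx × ℕ) × ℕ) (b : ℕ) =>
    D.G (x.1.1.e, lst D x.1.1.e x.2, x.1.1.f, x.1.1.w, b)) ?_
    (f := fun x : (Idx × ℕ) × ℕ => x.2 + 1)
    (Computable.succ.comp Computable.snd)
  refine b3_G hL hG (β := ((Idx × ℕ) × ℕ) × ℕ) (e := fun x => x.1.1.1.e)
    (s := fun x => x.1.2) (f := fun x => x.1.1.1.f) (w := fun x => x.1.1.1.w) (b := fun x => x.2)
    ?_ ?_ ?_ ?_ ?_
  · exact b3_e.comp (Computable.fst.comp (Computable.fst.comp Computable.fst))
  · exact Computable.snd.comp Computable.fst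
  · exact b3_f.comp (Computable.fst.comp (Computable.fst.comp Computable.fst))
  · exact b3_w.comp (Computable.fst.comp (Computable.fst.comp Computable.fst))
  · exact Computable.snd

theorem b3_hb (hL : Dl Z 1 (fun p : (ℕ × ℕ) × ℕ => lst D p.1.1 p.1.2 = p.2))
    (hU : Dl Z 1 (fun p : (ℕ × ℕ) × ℕ => Ucur D p.1.1 p.1.2 = p.2)) (hG : Dl Z 1 D.G) :
    Sg Z 1 (fun x : Idx × ℕ => Hb D x.1 x.2) := by
  have hk1 : Dl Z 1 (fun x : Idx × ℕ => x.1.k = 1) :=
    Dl.eq (b3_k.comp Computable.fst) (Computable.const 1)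
  have hk2 : Dl Z 1 (fun x : Idx × ℕ => x.1.k = 2) :=
    Dl.eq (b3_k.comp Computable.fst) (Computable.const 2)
  have hm : Dl Z 1 (fun x : Idx × ℕ => x.1.f ∈ x.1.l) :=
    b3_mem (b3_f.comp Computable.fst) (b3_l.comp Computable.fst)
  have h1 := hk1.1.and (hm.1.and (b3_hb1 hL hU hG))
  have h2 := hk2.1.and (hm.2.and (b3_hb2 hL hU hG))
  have h3 : Sg Z 1 (fun x : Idx × ℕ => ¬ (x.1.k = 1 ∧ x.1.f ∈ x.1.l) ∧
      ¬ (x.1.k = 2 ∧ x.1.f ∉ x.1.l) ∧ x.2 < x.1.m) :=
    ((hk1.and hm).not.and ((hk2.and hm.not).not.and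
      (Dl.lt Computable.snd (b3_m.comp Computable.fst)))).1
  exact (h1.or (h2.or h3)).of_iff fun x => Iff.rfl

end hb

/-- B3 -/
theorem b3_main (hc : StmtStageC) : StmtB3 := by
  intro D hT hU hG X g hg
  obtain ⟨cL, cU, cbad, -⟩ := hc D hT hU hG
  constructor
  · have h1 : Sg X 1 (fun x : Idx × ℕ => Hb D x.1 x.2 ∨ Push D g x.1.e x.1.r x.2) :=
      (b3_hb cL cU hG).light.or
        (b3_push cbad hg (b3_e.comp Computable.fst) (b3_r.comp Computable.fst) Computable.snd)
    exact (b3_leastN (W := fun (p : Idx) (v : ℕ) => Hb D p v ∨ Push D g p.e p.r v) h1).of_iff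
      fun p => Iff.rfl
  · refine (b3_mem (X := X) (n := 2) (f := fun p : Idx × ℕ => p.2) (l := fun p : Idx × ℕ => p.1.l)
      Computable.snd (b3_l.comp Computable.fst)).1.of_iff fun p => ?_
    exact List.mem_toFinset

end Pool.Agent.NonLow
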