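import Pool.Agent.NonLow.Stmts2

/-!
# Module B2: the range of the component types in case beta
-/

set_option autoImplicit false

namespace Pool.Agent.NonLow

/-! ### `leastN` -/

private theorem brange_encard_lt (v : ℕ) : ({u : ℕ | u < v} : Set ℕ).encard = v := by
  have h : ({u : ℕ | u < v} : Set ℕ) = ((Finset.range v : Finset ℕ) : Set ℕ) := by
    ext u
    simp
  rw [h, Set.encard_coe_eq_coe_finsetCard, Finset.card_range]

private theorem brange_leastN_top (W : ℕ → Prop) : leastN W = ⊤ ↔ ∀ v, W v := by
  constructor
  · intro h v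
    by_contra hv
    have hsub : {u : ℕ | ∀ v', v' ≤ u → W v'} ⊆ {u : ℕ | u < v} := by
      intro u hu
      by_contra hc
      exact hv (hu v (not_lt.1 hc))
    have h2 := Set.encard_le_encard hsub
    rw [brange_encard_lt] at h2
    unfold leastN at h
    rw [h] at h2
    exact absurd h2 (by simp)
  · intro h
    unfold leastN
    have : {u : ℕ | ∀ v', v' ≤ u → W v'} = Set.univ := by
      ext u
      simp [h]
    rw [this, Set.encard_univ]
    simp

private theorem brange_leastN_eq (W : ℕ → Prop) (v : ℕ) (h0 : ¬ W v) (h1 : ∀ u, u < v → W u) :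
    leastN W = v := by
  unfold leastN
  have : {u : ℕ | ∀ v', v' ≤ u → W v'} = {u : ℕ | u < v} := by
    ext u
    constructor
    · intro hu
      by_contra hc
      exact h0 (hu v (not_lt.1 hc))
    · intro hu v' hv'
      exact h1 v' (lt_of_le_of_lt hv' hu)
  rw [this, brange_encard_lt]

private theorem brange_leastN_find (W : ℕ → Prop) (h : ∃ v, ¬ W v) :
    ∃ v : ℕ, leastN W = v ∧ ¬ W v ∧ ∀ u, u < v → W u := by
  classical
  refine ⟨Nat.find h, brange_leastN_eq W _ (Nat.find_spec h) ?_, Nat.find_spec h, ?_⟩
  · intro u hu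
    exact not_not.1 (Nat.find_min h hu)
  · intro u hu
    exact not_not.1 (Nat.find_min h hu)

private theorem brange_exists_fst (D : Data) (e : ℕ) (h : ¬ ∀ ℓ, ¬ tru D e ℓ) :
    ∃ t, fst D e t := by
  classical
  push Not at h
  refine ⟨Nat.find h, Nat.find_spec h, fun ℓ' hℓ' => Nat.find_min h hℓ'⟩

/-! ### Pushing -/

private theorem brange_push_notru (hs : StmtStage) (D : Data) (g : ℕ → ℕ) (e r v : ℕ)
    (h : ∀ ℓ, ¬ tru D e ℓ) : Push D g e r v := by
  obtain ⟨_, _, h3, _⟩ := hs D
  obtain ⟨s, hs1, hs2⟩ := h3 e h (g v + r)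
  exact ⟨s, by omega, by omega, Or.inl hs2⟩

private theorem brange_not_push (hs : StmtStage) (D : Data) (g : ℕ → ℕ) (e t v : ℕ)
    (ht : fst D e t) (hv : (v : ℕ∞) ≠ Unum D e t) : ∃ r, ¬ Push D g e r v := by
  obtain ⟨_, h2, _, _, _, h6, h7⟩ := hs D
  obtain ⟨s0, hs0⟩ := h2 e t ht
  rcases lt_or_gt_of_ne hv with hlt | hgt
  · have h8 : ((v + 1 : ℕ) : ℕ∞) ≤ Unum D e t := by
      rw [Nat.cast_add, Nat.cast_one]
      exact Order.add_one_le_of_lt hlt
    obtain ⟨s1, hs1⟩ := h7 e t (v + 1) h8
    refine ⟨s0 + s1, ?_⟩
    rintro ⟨s, _, hsr, hb⟩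
    rcases hb with hb | hb
    · apply hb
      rw [hs0 s (by omega), hs0 (s + 1) (by omega)]
    · unfold Ucur at hb
      rw [hs0 s (by omega)] at hb
      have := hs1 s (by omega)
      omega
  · refine ⟨s0, ?_⟩
    rintro ⟨s, _, hsr, hb⟩
    rcases hb with hb | hb
    · apply hb
      rw [hs0 s (by omega), hs0 (s + 1) (by omega)]
    · unfold Ucur at hb
      rw [hs0 s (by omega)] at hb
      have h8 := h6 e t s
      rw [hb] at h8
      exact absurd h8 (not_le.2 hgt)

/-! ### The predicate `Hb` -/

private theorem brange_hb_down (D : Data) (p : Idx) (h h' : ℕ) (hh : h' ≤ h) (hb : Hb D p h) :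
    Hb D p h' := by
  rcases hb with ⟨hk, hf, s, h1, h2⟩ | ⟨hk, hf, s, h0, h1, h2⟩ | ⟨h1, h2, h3⟩
  · exact Or.inl ⟨hk, hf, s, by omega, fun w hw => h2 w (by omega)⟩
  · exact Or.inr (Or.inl ⟨hk, hf, s, by omega, by omega, h2⟩)
  · exact Or.inr (Or.inr ⟨h1, h2, by omega⟩)

private theorem brange_finite_value (hs : StmtStage) (D : Data) (g : ℕ → ℕ) (e t v : ℕ)
    (F : Finset ℕ) (ht : fst D e t) (hv : (v : ℕ∞) ≠ Unum D e t) :
    ((e, (v : ℕ∞), F) : Typ) ∈ Set.range (typB D g) := by
  obtain ⟨r, hr⟩ := brange_not_push hs D g e t v ht hv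
  set p : Idx := (e, 0, v, r, 0, 0, 0, F.toList) with hp
  refine ⟨p, ?_⟩
  have hk : p.k = 0 := rfl
  have h1 : leastN (fun v => Hb D p v ∨ Push D g p.e p.r v) = v := by
    refine brange_leastN_eq _ v ?_ ?_
    · rintro (h | h)
      · rcases h with ⟨h, _⟩ | ⟨h, _⟩ | ⟨_, _, h⟩
        · rw [hk] at h
          omega
        · rw [hk] at h
          omega
        · exact absurd h (lt_irrefl v)
      · exact hr h
    · intro u hu
      refine Or.inl (Or.inr (Or.inr ⟨?_, ?_, hu⟩))
      · rintro ⟨h, _⟩
        rw [hk] at h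
        omega
      · rintro ⟨h, _⟩
        rw [hk] at h
        omega
  have h2 : p.l.toFinset = F := F.toList_toFinset
  show ((p.e, leastN (fun v => Hb D p v ∨ Push D g p.e p.r v), p.l.toFinset) : Typ) = _
  rw [h1, h2]
  rfl

theorem b2_main (hs : StmtStage) : StmtB2 := by
  classical
  intro D g hslow
  obtain ⟨hg, hsl⟩ := hslow
  obtain ⟨k1, k2, k3, k4, k5, k6, k7⟩ := hs D
  apply Set.Subset.antisymm
  · rintro _ ⟨p, rfl⟩
    show ((p.e, leastN (fun v => Hb D p v ∨ Push D g p.e p.r v), p.l.toFinset) : Typ) ∈ Fam D
    set W : ℕ → Prop := fun v => Hb D p v ∨ Push D g p.e p.r v with hW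
    by_cases htr : ∀ ℓ, ¬ tru D p.e ℓ
    · left
      refine ⟨htr, ?_⟩
      show leastN W = ⊤
      rw [brange_leastN_top]
      intro v
      exact Or.inr (brange_push_notru hs D g p.e p.r v htr)
    · right
      obtain ⟨t, ht⟩ := brange_exists_fst D p.e htr
      refine ⟨t, ht, ?_⟩
      show (leastN W ≠ ⊤ ∧ leastN W ≠ Unum D p.e t) ∨
        (leastN W = ⊤ ∧ Unum D p.e t = ⊤ ∧ (p.l.toFinset : Set ℕ) ≠ Gset D p.e t)
      obtain ⟨s0, hs0⟩ := k2 p.e t ht
      by_cases hU : Unum D p.e t = ⊤
      · by_cases hall : ∀ h, Hb D p h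
        · right
          refine ⟨(brange_leastN_top W).2 fun v => Or.inl (hall v), hU, ?_⟩
          intro hG
          -- late stages see the true location
          have hlate : ∀ s h, s0 ≤ h → h < Ucur D p.e s → lst D p.e s = t := by
            intro s h h1 h2
            have h3 := k5 p.e (lst D p.e s) s
            unfold Ucur at h2
            exact hs0 s (by omega)
          rcases hall p.m with ⟨hk, hf, _⟩ | ⟨hk, hf, _⟩ | ⟨_, _, h3⟩
          · have hfG : p.f ∈ Gset D p.e t := by
              rw [← hG]
              simpa using hf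
            obtain ⟨w, hw⟩ := hfG
            rcases hall (s0 + w) with ⟨_, _, s, h1, h2⟩ | ⟨hk', _⟩ | ⟨hn, _⟩
            · obtain ⟨b, _, hb⟩ := h2 w (by omega)
              rw [hlate s (s0 + w) (by omega) h1] at hb
              exact hb (hw b)
            · omega
            · exact hn ⟨hk, hf⟩
          · have hfG : p.f ∉ Gset D p.e t := by
              rw [← hG]
              simpa using hf
            apply hfG
            refine ⟨p.w, fun b => ?_⟩
            rcases hall (s0 + b) with ⟨hk', _⟩ | ⟨_, _, s, h0, h1, h2⟩ | ⟨_, hn, _⟩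
            · omega
            · have hb := h2 b (by omega)
              rw [hlate s (s0 + b) (by omega) h1] at hb
              exact hb
            · exact absurd ⟨hk, hf⟩ hn
          · exact absurd h3 (lt_irrefl _)
        · left
          push Not at hall
          obtain ⟨h0, hh0⟩ := hall
          obtain ⟨v, hv1, hv2⟩ := hsl p.e t ht hU h0 p.r
          have hnot : ¬ W v := by
            rintro (h | h)
            · exact hh0 (brange_hb_down D p v h0 hv1 h)
            · exact hv2 h
          obtain ⟨V, hV, _, _⟩ := brange_leastN_find W ⟨_, hnot⟩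
          rw [hV, hU]
          exact ⟨ENat.natCast_ne_top V, ENat.natCast_ne_top V⟩
      · left
        obtain ⟨U, hU'⟩ := ENat.ne_top_iff_exists.1 hU
        have hpush : Push D g p.e p.r U := by
          obtain ⟨s1, hs1⟩ := k7 p.e t U (le_of_eq hU')
          refine ⟨s0 + s1 + g U + p.r, by omega, by omega, Or.inr ?_⟩
          unfold Ucur
          rw [hs0 _ (by omega)]
          have h1 := hs1 (s0 + s1 + g U + p.r) (by omega)
          have h2 := k6 p.e t (s0 + s1 + g U + p.r)
          rw [← hU', Nat.cast_le] at h2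
          omega
        have hbound : ∀ s, Ucur D p.e s ≤ s0 + U := by
          intro s
          by_cases hss : s0 ≤ s
          · unfold Ucur
            rw [hs0 s hss]
            have h2 := k6 p.e t s
            rw [← hU', Nat.cast_le] at h2
            omega
          · have := k5 p.e (lst D p.e s) s
            unfold Ucur
            omega
        have hnot : ¬ W (s0 + U + p.m + 1) := by
          rintro (h | h)
          · rcases h with ⟨_, _, s, h, _⟩ | ⟨_, _, s, _, h, _⟩ | ⟨_, _, h⟩
            · have := hbound s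
              omega
            · have := hbound s
              omega
            · omega
          · obtain ⟨s, h1, _, h3⟩ := h
            have h1' := hg (s0 + U + p.m + 1)
            rcases h3 with h3 | h3
            · apply h3
              rw [hs0 s (by omega), hs0 (s + 1) (by omega)]
            · have := hbound s
              omega
        obtain ⟨V, hV, hV1, _⟩ := brange_leastN_find W ⟨_, hnot⟩
        refine ⟨by rw [hV]; exact ENat.natCast_ne_top V, ?_⟩
        rw [hV, ← hU']
        intro h
        have h' : V = U := by exact_mod_cast h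
        rw [h'] at hV1
        exact hV1 (Or.inr hpush)
  · rintro ⟨e, V, F⟩ hmem
    rcases hmem with ⟨htr, hV⟩ | ⟨t, ht, h⟩
    · have hV' : V = ⊤ := hV
      have htr' : ∀ ℓ, ¬ tru D e ℓ := htr
      subst hV'
      set p : Idx := (e, 0, 0, 0, 0, 0, 0, F.toList) with hp
      refine ⟨p, ?_⟩
      show ((p.e, leastN (fun v => Hb D p v ∨ Push D g p.e p.r v), p.l.toFinset) : Typ) = _
      have h1 : leastN (fun v => Hb D p v ∨ Push D g p.e p.r v) = ⊤ := by
        rw [brange_leastN_top]
        intro v
        exact Or.inr (brange_push_notru hs D g p.e p.r v htr')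
      have h2 : p.l.toFinset = F := F.toList_toFinset
      rw [h1, h2]
      rfl
    · have ht' : fst D e t := ht
      rcases h with ⟨hV, hU⟩ | ⟨hV, hU, hG⟩
      · have hV' : V ≠ ⊤ := hV
        have hU' : V ≠ Unum D e t := hU
        obtain ⟨v, rfl⟩ := ENat.ne_top_iff_exists.1 hV'
        exact brange_finite_value hs D g e t v F ht' hU'
      · have hV' : V = ⊤ := hV
        have hU' : Unum D e t = ⊤ := hU
        have hG' : (F : Set ℕ) ≠ Gset D e t := hG
        subst hV'
        obtain ⟨s0, hs0⟩ := k2 e t ht'
        -- it suffices to find a component with `Hb` always true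
        have key : ∀ p : Idx, p.e = e → p.l = F.toList → (∀ h, Hb D p h) →
            ((e, (⊤ : ℕ∞), F) : Typ) ∈ Set.range (typB D g) := by
          intro p hpe hpl hall
          refine ⟨p, ?_⟩
          show ((p.e, leastN (fun v => Hb D p v ∨ Push D g p.e p.r v), p.l.toFinset) : Typ) = _
          have h1 : leastN (fun v => Hb D p v ∨ Push D g p.e p.r v) = ⊤ := by
            rw [brange_leastN_top]
            intro v
            exact Or.inl (hall v)
          have h2 : p.l.toFinset = F := by
            rw [hpl]
            exact F.toList_toFinset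
          rw [h1, h2, hpe]
        by_cases h1 : ∃ f, f ∈ F ∧ f ∉ Gset D e t
        · obtain ⟨f, hf, hfG⟩ := h1
          have hb : ∀ w, ∃ b, ¬ D.G (e, t, f, w, b) := by
            intro w
            by_contra hc
            push Not at hc
            exact hfG ⟨w, hc⟩
          choose b hb using hb
          refine key ((e, 1, 0, 0, 0, f, 0, F.toList) : Idx) rfl rfl ?_
          intro h
          obtain ⟨s1, hs1⟩ := k7 e t (h + 1) (by rw [hU']; exact le_top)
          refine Or.inl ⟨rfl, Finset.mem_toList.2 hf,
            s0 + s1 + ∑ w ∈ Finset.range (h + 1), b w, ?_, ?_⟩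
          · show h < Ust D e (lst D e (s0 + s1 + ∑ w ∈ Finset.range (h + 1), b w))
              (s0 + s1 + ∑ w ∈ Finset.range (h + 1), b w)
            rw [hs0 _ (by omega)]
            have := hs1 (s0 + s1 + ∑ w ∈ Finset.range (h + 1), b w) (by omega)
            omega
          · intro w hw
            refine ⟨b w, ?_, ?_⟩
            · have := Finset.single_le_sum (f := b) (fun _ _ => Nat.zero_le _)
                (Finset.mem_range.2 hw)
              omega
            · show ¬ D.G (e, lst D e (s0 + s1 + ∑ w ∈ Finset.range (h + 1), b w), f, w, b w)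
              rw [hs0 _ (by omega)]
              exact hb w
        · push Not at h1
          have h2 : ∃ f, f ∈ Gset D e t ∧ f ∉ F := by
            by_contra hc
            push Not at hc
            apply hG'
            ext f
            exact ⟨fun hf => h1 f hf, fun hf => hc f hf⟩
          obtain ⟨f, ⟨w, hw⟩, hf⟩ := h2
          refine key ((e, 2, 0, 0, 0, f, w, F.toList) : Idx) rfl rfl ?_
          intro h
          obtain ⟨s1, hs1⟩ := k7 e t (h + 1) (by rw [hU']; exact le_top)
          refine Or.inr (Or.inl ⟨rfl, fun hm => hf (Finset.mem_toList.1 hm),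
            s0 + s1 + h, by omega, ?_, ?_⟩)
          · show h < Ust D e (lst D e (s0 + s1 + h)) (s0 + s1 + h)
            rw [hs0 _ (by omega)]
            have := hs1 (s0 + s1 + h) (by omega)
            omega
          · intro b _
            show D.G (e, lst D e (s0 + s1 + h), f, w, b)
            rw [hs0 _ (by omega)]
            exact hw b

end Pool.Agent.NonLow
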