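import Pool.Agent.NonLow.Stmts2

/-!
# B1: existence of a slow delay function
-/

set_option autoImplicit false

namespace Pool.Agent.NonLow

/-- the matrix of the `Σ₂` definitions -/
private def bslP (D : Data) (e s0 v0 : ℕ) (b : ℕ × ℕ → Prop) (k v N : ℕ) : Prop :=
  v0 ≤ v ∧ k ≤ v ∧ s0 ≤ N ∧ v < Ucur D e N ∧ ∀ s, s < N → (v ≤ s → b (k, s))

private theorem bsl_sg (hc : StmtStageC) {D : Data} (hT : Dl Z 1 D.T) (hU : Dl Z 1 D.U)
    (hG : Dl Z 1 D.G) (e s0 v0 : ℕ) {b : ℕ × ℕ → Prop} (hb : Dl Z 1 b) :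
    Sg Z 1 (fun k : ℕ => ∃ v, ∃ N, bslP D e s0 v0 b k v N) := by
  obtain ⟨-, hUc, -, -⟩ := hc D hT hU hG
  refine Sg.exN (P := fun k v => ∃ N, bslP D e s0 v0 b k v N) ?_
  refine Sg.exN (P := fun (p : ℕ × ℕ) N => bslP D e s0 v0 b p.1 p.2 N) ?_
  have h1 : Dl Z 1 (fun q : (ℕ × ℕ) × ℕ => v0 ≤ q.1.2) :=
    Dl.le (Computable.const v0) (Computable.snd.comp Computable.fst)
  have h2 : Dl Z 1 (fun q : (ℕ × ℕ) × ℕ => q.1.1 ≤ q.1.2) :=
    Dl.le (Computable.fst.comp Computable.fst) (Computable.snd.comp Computable.fst)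
  have h3 : Dl Z 1 (fun q : (ℕ × ℕ) × ℕ => s0 ≤ q.2) :=
    Dl.le (Computable.const s0) Computable.snd
  have h4 : Dl Z 1 (fun q : (ℕ × ℕ) × ℕ => q.1.2 < Ucur D e q.2) := by
    refine Dl.fsub (P := fun (q : (ℕ × ℕ) × ℕ) (u : ℕ) => q.1.2 < u)
      (f := fun q => Ucur D e q.2) ?_ ?_
    · exact hUc.1.comp (f := fun p : ((ℕ × ℕ) × ℕ) × ℕ => ((e, p.1.2), p.2))
        (((Computable.const e).pair (Computable.snd.comp Computable.fst)).pair Computable.snd)
    · exact Dl.lt (Computable.snd.comp (Computable.fst.comp Computable.fst)) Computable.snd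
  have h5 : Dl Z 1 (fun q : (ℕ × ℕ) × ℕ => ∀ s, s < q.2 → (q.1.2 ≤ s → b (q.1.1, s))) := by
    refine Dl.ball (P := fun (q : (ℕ × ℕ) × ℕ) s => q.1.2 ≤ s → b (q.1.1, s)) ?_ Computable.snd
    refine Dl.imp ?_ ?_
    · exact Dl.le (Computable.snd.comp (Computable.fst.comp Computable.fst)) Computable.snd
    · exact hb.comp (f := fun p : ((ℕ × ℕ) × ℕ) × ℕ => (p.1.1.1, p.2))
        ((Computable.fst.comp (Computable.fst.comp Computable.fst)).pair Computable.snd)
  exact (h1.and (h2.and (h3.and (h4.and h5)))).1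

theorem b1_main (hs : StmtStage) (hc : StmtStageC) (hl : StmtLim) : StmtB1 := by
  classical
  intro D hT hU hG X A hA1 hA2 hA3
  obtain ⟨a, ha, hlim⟩ := hl A hA3
  choose s1 hs1 using hlim
  -- the delay function
  let S : ℕ → Set ℕ := fun n => {s | n ≤ s ∧ ∀ m, m < n + 1 → (a (m, s) ↔ A m)}
  have hne : ∀ n, (S n).Nonempty := by
    intro n
    refine ⟨max n ((Finset.range (n + 1)).sup s1), le_max_left _ _, fun m hm => ?_⟩
    refine hs1 m _ (le_trans ?_ (le_max_right _ _))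
    exact Finset.le_sup (f := s1) (Finset.mem_range.mpr hm)
  let g : ℕ → ℕ := fun n => sInf (S n)
  have hg : ∀ n, n ≤ g n ∧ ∀ m, m < n + 1 → (a (m, g n) ↔ A m) := fun n => Nat.sInf_mem (hne n)
  have hgraph : ∀ n s, g n = s ↔ (s ∈ S n ∧ ∀ s', s' < s → ¬ s' ∈ S n) := by
    intro n s
    constructor
    · rintro rfl
      exact ⟨hg n, fun s' h h' => absurd (Nat.sInf_le h') (not_le.mpr h)⟩
    · rintro ⟨h1, h2⟩
      refine le_antisymm (Nat.sInf_le h1) ?_
      by_contra h
      exact h2 _ (not_le.mp h) (hg n)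
  refine ⟨g, ⟨fun v => (hg v).1, ?_⟩, ?_⟩
  · intro e t ht hUt m r
    by_contra hcon
    push_neg at hcon
    obtain ⟨-, hst, -, hmono, -, -, hunb⟩ := hs D
    obtain ⟨s0, hs0⟩ := hst e t ht
    have hmon : Monotone (fun s => Ust D e t s) := monotone_nat_of_le_succ (fun s => hmono e t s)
    let v0 := max m s0
    have hcur : ∀ s, s0 ≤ s → Ucur D e s = Ust D e t s := by
      intro s h
      unfold Ucur
      rw [hs0 s h]
    have hkey : ∀ v, v0 ≤ v → Ust D e t (g v) ≤ v := by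
      intro v hv
      obtain ⟨s, h1, -, h3⟩ := hcon v (le_trans (le_max_left _ _) hv)
      have hs : s0 ≤ s := (le_max_right _ _).trans (hv.trans ((hg v).1.trans h1))
      rcases h3 with h3 | h3
      · exact absurd ((hs0 (s + 1) (by omega)).trans (hs0 s hs).symm) h3
      · rw [hcur s hs] at h3
        exact (hmon h1).trans h3.le
    have hback : ∀ (b : ℕ × ℕ → Prop) (k : ℕ),
        (∃ v, ∃ N, bslP D e s0 v0 b k v N) → ∃ v, k ≤ v ∧ b (k, g v) := by
      rintro b k ⟨v, N, h1, h2, h3, h4, h5⟩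
      refine ⟨v, h2, h5 _ ?_ (hg v).1⟩
      by_contra h
      rw [hcur N h3] at h4
      have := hmon (not_lt.mp h)
      have := hkey v h1
      simp only at *
      omega
    have hforw : ∀ (b : ℕ × ℕ → Prop) (k s2 : ℕ), (∀ s, s2 ≤ s → b (k, s)) →
        ∃ v, ∃ N, bslP D e s0 v0 b k v N := by
      intro b k s2 h
      let v := max (max v0 k) s2
      obtain ⟨s3, hs3⟩ := hunb e t (v + 1) (by rw [hUt]; exact le_top)
      refine ⟨v, max s0 s3, (le_max_left _ _).trans (le_max_left _ _),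
        (le_max_right _ _).trans (le_max_left _ _), le_max_left _ _, ?_, ?_⟩
      · rw [hcur _ (le_max_left _ _)]
        exact hs3 _ (le_max_right _ _)
      · intro s _ hvs
        exact h s ((le_max_right _ _).trans hvs)
    apply hA2
    constructor
    · refine (bsl_sg hc hT hU hG e s0 v0 ha).of_iff fun k => ?_
      constructor
      · intro hk
        exact hforw a k (s1 k) fun s h => (hs1 k s h).mpr hk
      · intro h
        obtain ⟨v, hv, hb⟩ := hback a k h
        exact ((hg v).2 k (by omega)).mp hb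
    · refine (bsl_sg hc hT hU hG e s0 v0 ha.not).of_iff fun k => ?_
      constructor
      · intro hk
        exact hforw (fun p => ¬ a p) k (s1 k) fun s h => fun h' => hk ((hs1 k s h).mp h')
      · intro h
        obtain ⟨v, hv, hb⟩ := hback (fun p => ¬ a p) k h
        exact fun hA => hb (((hg v).2 k (by omega)).mpr hA)
  · have haX : Dl X 1 a := ha.light
    have hAX : Dl X 1 A := hA1.dl
    -- membership in `S n`
    have hm : Dl X 1 (fun p : ℕ × ℕ => p.2 ∈ S p.1) := by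
      refine Dl.and (P := fun p : ℕ × ℕ => p.1 ≤ p.2)
        (Q := fun p : ℕ × ℕ => ∀ m, m < p.1 + 1 → (a (m, p.2) ↔ A m)) ?_ ?_
      · exact Dl.le Computable.fst Computable.snd
      · refine Dl.ball (P := fun (p : ℕ × ℕ) m => (a (m, p.2) ↔ A m))
          (f := fun p : ℕ × ℕ => p.1 + 1) ?_ (Computable.succ.comp Computable.fst)
        refine Dl.iff ?_ ?_
        · exact haX.comp (f := fun p : (ℕ × ℕ) × ℕ => (p.2, p.1.2))
            (Computable.snd.pair (Computable.snd.comp Computable.fst))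
        · exact hAX.comp (f := fun p : (ℕ × ℕ) × ℕ => p.2) Computable.snd
    have h2 : Dl X 1 (fun p : ℕ × ℕ => ∀ s', s' < p.2 → ¬ s' ∈ S p.1) := by
      refine Dl.ball (P := fun (p : ℕ × ℕ) s' => ¬ s' ∈ S p.1) (f := fun p : ℕ × ℕ => p.2) ?_
        Computable.snd
      exact (hm.comp (f := fun p : (ℕ × ℕ) × ℕ => (p.1.1, p.2))
        ((Computable.fst.comp Computable.fst).pair Computable.snd)).not
    exact (hm.and h2).of_iff fun p => hgraph p.1 p.2

end Pool.Agent.NonLow
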