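import Pool.Agent.NonLow.Stmts2

/-!
# Complexity of the component types in case gamma
-/

set_option autoImplicit false

namespace Pool.Agent.NonLow

/-! ### The number part -/

theorem cc_lt_leastN (W : ℕ → Prop) (v : ℕ) :
    ((v : ℕ∞) < leastN W) ↔ ∀ v', v' < v + 1 → W v' := by
  unfold leastN
  constructor
  · intro h
    by_contra hc
    have hsub : {v : ℕ | ∀ v', v' ≤ v → W v'} ⊆ ((Finset.range v : Finset ℕ) : Set ℕ) := by
      intro u hu
      rw [Finset.coe_range, Set.mem_Iio]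
      by_contra hle
      exact hc fun v' hv' => hu v' (by omega)
    have h2 := Set.encard_le_encard hsub
    rw [Set.encard_coe_eq_coe_finsetCard, Finset.card_range] at h2
    exact absurd h (not_lt.mpr h2)
  · intro h
    have hsub : ((Finset.range (v + 1) : Finset ℕ) : Set ℕ) ⊆ {v : ℕ | ∀ v', v' ≤ v → W v'} := by
      intro u hu
      rw [Finset.coe_range, Set.mem_Iio] at hu
      intro v' hv'
      exact h v' (by omega)
    have h2 := Set.encard_le_encard hsub
    rw [Set.encard_coe_eq_coe_finsetCard, Finset.card_range] at h2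
    refine lt_of_lt_of_le ?_ h2
    exact_mod_cast Nat.lt_succ_self v

/-! ### Projections -/

theorem cc_e : Computable Idx.e := Computable.fst
theorem cc_k : Computable Idx.k := Computable.fst.comp Computable.snd
theorem cc_m : Computable Idx.m := Computable.fst.comp (Computable.snd.comp Computable.snd)
theorem cc_r : Computable Idx.r :=
  Computable.fst.comp (Computable.snd.comp (Computable.snd.comp Computable.snd))
theorem cc_r' : Computable Idx.r' :=
  Computable.fst.comp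
    (Computable.snd.comp (Computable.snd.comp (Computable.snd.comp Computable.snd)))
theorem cc_l : Computable Idx.l :=
  Computable.snd.comp
    (Computable.snd.comp (Computable.snd.comp (Computable.snd.comp
      (Computable.snd.comp (Computable.snd.comp Computable.snd)))))

/-! ### Pushing -/

theorem cc_push {D : Data} (hb : Dl Z 1 (fun p : ℕ × ℕ × ℕ => bad D p.1 p.2.1 p.2.2)) :
    Sg Z 1 (fun p : ℕ × ℕ × ℕ => Push D (fun v => v) p.1 p.2.1 p.2.2) := by
  refine Sg.exN (P := fun (p : ℕ × ℕ × ℕ) (s : ℕ) =>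
    p.2.2 ≤ s ∧ p.2.1 ≤ s ∧ bad D p.1 s p.2.2) ?_
  refine Sg.and ?_ (Sg.and ?_ ?_)
  · exact (Dl.le (Computable.snd.comp (Computable.snd.comp Computable.fst)) Computable.snd).1
  · exact (Dl.le (Computable.fst.comp (Computable.snd.comp Computable.fst)) Computable.snd).1
  · exact hb.1.comp (f := fun q : (ℕ × ℕ × ℕ) × ℕ => (q.1.1, q.2, q.1.2.2))
      ((Computable.fst.comp Computable.fst).pair
        (Computable.snd.pair (Computable.snd.comp (Computable.snd.comp Computable.fst))))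

theorem cc_Hc {D : Data} (hU : Dl Z 1 (fun p : (ℕ × ℕ) × ℕ => Ucur D p.1.1 p.1.2 = p.2)) :
    Sg Z 1 (fun p : Idx × ℕ => Hc D p.1 p.2) := by
  refine Sg.or (Sg.and ?_ ?_) (Sg.and ?_ ?_)
  · exact (Dl.eq (X := Z) (n := 1) (f := fun p : Idx × ℕ => p.1.k) (g := fun _ => 0)
      (cc_k.comp Computable.fst) (Computable.const 0)).2
  · refine Sg.exN (P := fun (p : Idx × ℕ) (s : ℕ) => p.2 < Ucur D p.1.e s) ?_
    refine Sg.fsub (P := fun (q : (Idx × ℕ) × ℕ) (y : ℕ) => q.1.2 < y)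
      (f := fun q : (Idx × ℕ) × ℕ => Ucur D q.1.1.e q.2) ?_ ?_
    · exact hU.1.comp (f := fun r : ((Idx × ℕ) × ℕ) × ℕ => ((r.1.1.1.e, r.1.2), r.2))
        (((cc_e.comp (Computable.fst.comp (Computable.fst.comp Computable.fst))).pair
          (Computable.snd.comp Computable.fst)).pair Computable.snd)
    · exact (Dl.lt (Computable.snd.comp (Computable.fst.comp Computable.fst)) Computable.snd).1
  · exact (Dl.eq (X := Z) (n := 1) (f := fun p : Idx × ℕ => p.1.k) (g := fun _ => 0)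
      (cc_k.comp Computable.fst) (Computable.const 0)).1
  · exact (Dl.lt Computable.snd (cc_m.comp Computable.fst)).1

theorem cc_num {D : Data} (hU : Dl Z 1 (fun p : (ℕ × ℕ) × ℕ => Ucur D p.1.1 p.1.2 = p.2))
    (hb : Dl Z 1 (fun p : ℕ × ℕ × ℕ => bad D p.1 p.2.1 p.2.2)) (A : ℕ → Prop) :
    Sg Z 1 (fun p : Idx × ℕ => (p.2 : ℕ∞) < (typC D A p.1).2.1) := by
  have h1 : Sg Z 1 (fun q : (Idx × ℕ) × ℕ =>
      Hc D q.1.1 q.2 ∨ Push D (fun v => v) q.1.1.e q.1.1.r q.2) := by
    refine Sg.or ?_ ?_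
    · exact (cc_Hc hU).comp (f := fun q : (Idx × ℕ) × ℕ => (q.1.1, q.2))
        ((Computable.fst.comp Computable.fst).pair Computable.snd)
    · exact (cc_push hb).comp (f := fun q : (Idx × ℕ) × ℕ => (q.1.1.e, q.1.1.r, q.2))
        ((cc_e.comp (Computable.fst.comp Computable.fst)).pair
          ((cc_r.comp (Computable.fst.comp Computable.fst)).pair Computable.snd))
  refine (Sg.ball (P := fun (p : Idx × ℕ) (v : ℕ) =>
    Hc D p.1 v ∨ Push D (fun v => v) p.1.e p.1.r v) h1 (f := fun p => p.2 + 1)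
    (Computable.succ.comp Computable.snd)).of_iff fun p => ?_
  exact cc_lt_leastN _ _

/-! ### The set part -/

theorem cc_inF_iff {D : Data} {A : ℕ → Prop} (hs : Stops D A) (p : Idx) (f : ℕ) :
    f ∈ (typC D A p).2.2 ↔ inF D A p f := by
  have hfin : {f | inF D A p f}.Finite := by
    obtain ⟨n, hn⟩ := hs p.e p.l p.r'
    refine ((p.l.toFinset ∪ Finset.range (2 * n + 2) : Finset ℕ).finite_toSet).subset ?_
    intro g hg
    rw [Finset.coe_union, Set.mem_union]
    rcases hg with hg | ⟨_, m', hm, hp⟩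
    · left; simpa using hg
    · right
      have hlt : m' < n := by
        by_contra hge
        exact hn (hp n (by omega))
      rw [Finset.coe_range, Set.mem_Iio]
      rcases hm with ⟨h, _⟩ | ⟨h, _⟩ <;> omega
  show f ∈ setC D A p ↔ _
  unfold setC
  rw [dif_pos hfin, Set.Finite.mem_toFinset]
  rfl

theorem cc_mem {X : ℕ → ℕ} {n : ℕ} {α : Type} [Primcodable α] {f : α → ℕ} {l : α → List ℕ}
    (hf : Computable f) (hl : Computable l) : Dl X n (fun x => f x ∈ l x) := by
  have h1 : Dl X n (fun q : α × ℕ => (l q.1).getD q.2 0 = f q.1) :=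
    Dl.eq ((Primrec.list_getD 0).to_comp.comp (hl.comp Computable.fst) Computable.snd)
      (hf.comp Computable.fst)
  refine (Dl.bex (P := fun (x : α) (i : ℕ) => (l x).getD i 0 = f x) h1
    (f := fun x => (l x).length) (Computable.list_length.comp hl)).of_iff fun x => ?_
  rw [List.mem_iff_getElem]
  constructor
  · rintro ⟨i, hi, h⟩
    exact ⟨i, hi, by rw [List.getD_eq_getElem _ _ hi]; exact h⟩
  · rintro ⟨i, hi, h⟩
    rw [List.getD_eq_getElem _ _ hi] at h
    exact ⟨i, hi, h⟩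

theorem cc_bdd {X : ℕ → ℕ} {n : ℕ} {α : Type} [Primcodable α] {f : α → ℕ} {l : α → List ℕ}
    (hf : Computable f) (hl : Computable l) : Dl X n (fun x => ∀ g, g ∈ l x → g ≤ f x) := by
  have h1 : Dl X n (fun q : α × ℕ => (l q.1).getD q.2 0 ≤ f q.1) :=
    Dl.le ((Primrec.list_getD 0).to_comp.comp (hl.comp Computable.fst) Computable.snd)
      (hf.comp Computable.fst)
  refine (Dl.ball (P := fun (x : α) (i : ℕ) => (l x).getD i 0 ≤ f x) h1
    (f := fun x => (l x).length) (Computable.list_length.comp hl)).of_iff fun x => ?_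
  constructor
  · intro h i hi
    rw [List.getD_eq_getElem _ _ hi]
    exact h _ (List.getElem_mem hi)
  · intro h g hg
    obtain ⟨i, hi, rfl⟩ := List.mem_iff_getElem.1 hg
    have := h i hi
    rwa [List.getD_eq_getElem _ _ hi] at this

theorem cc_even {X : ℕ → ℕ} {n : ℕ} {α : Type} [Primcodable α] {A : ℕ → Prop}
    (hA : Dl X n A) {f m : α → ℕ} (hf : Computable f) (hm : Computable m) :
    Dl X n (fun x => (f x = 2 * m x ∧ ¬ A (m x)) ∨ (f x = 2 * m x + 1 ∧ A (m x))) := by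
  have h2 : Computable (fun x => 2 * m x) :=
    Primrec.nat_mul.to_comp.comp (Computable.const 2) hm
  exact Dl.or (Dl.and (Dl.eq hf h2) (hA.comp hm).not)
    (Dl.and (Dl.eq hf (Computable.succ.comp h2)) (hA.comp hm))

theorem cc_memF {X : ℕ → ℕ} {n : ℕ} {A : ℕ → Prop} (hA : Dl X n A) :
    Dl X n (fun p : List ℕ × ℕ × ℕ => memF A p.1 p.2.1 p.2.2) := by
  refine Dl.or (cc_mem (Computable.snd.comp Computable.snd) Computable.fst) ?_
  refine Dl.bex (P := fun (p : List ℕ × ℕ × ℕ) (m : ℕ) =>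
    (p.2.2 = 2 * m ∧ ¬ A m) ∨ (p.2.2 = 2 * m + 1 ∧ A m)) ?_
    (Computable.fst.comp Computable.snd)
  exact cc_even hA (f := fun q : (List ℕ × ℕ × ℕ) × ℕ => q.1.2.2) (m := fun q => q.2)
    (Computable.snd.comp (Computable.snd.comp Computable.fst)) Computable.snd

theorem cc_G {D : Data} (hG : Dl Z 1 D.G) :
    Dl Z 2 (fun p : ℕ × ℕ × ℕ × ℕ => ∀ b, D.G (p.1, p.2.1, p.2.2.1, p.2.2.2, b)) := by
  have h1 : Sg Z 1 (fun q : (ℕ × ℕ × ℕ × ℕ) × ℕ =>
      ¬ D.G (q.1.1, q.1.2.1, q.1.2.2.1, q.1.2.2.2, q.2)) := by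
    refine hG.2.comp (P := fun y => ¬ D.G y)
      (f := fun q : (ℕ × ℕ × ℕ × ℕ) × ℕ => (q.1.1, q.1.2.1, q.1.2.2.1, q.1.2.2.2, q.2)) ?_
    exact (Computable.fst.comp Computable.fst).pair
      ((Computable.fst.comp (Computable.snd.comp Computable.fst)).pair
        ((Computable.fst.comp (Computable.snd.comp (Computable.snd.comp Computable.fst))).pair
          ((Computable.snd.comp (Computable.snd.comp (Computable.snd.comp Computable.fst))).pair
            Computable.snd)))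
  refine Sg.dlc ((Sg.exN (P := fun (p : ℕ × ℕ × ℕ × ℕ) (b : ℕ) =>
    ¬ D.G (p.1, p.2.1, p.2.2.1, p.2.2.2, b)) h1).of_iff fun p => ?_)
  rw [not_forall]

/-- the parameters of `Mat`: `(e, l, n, s)` -/
theorem cc_Mat {D : Data} (hG : Dl Z 1 D.G) (hfst : Dl Z 2 (fun p : ℕ × ℕ => fst D p.1 p.2))
    {X : ℕ → ℕ} {A : ℕ → Prop} (hA : Dl X 2 A) :
    Dl X 2 (fun p : ℕ × List ℕ × ℕ × ℕ => Mat D A p.1 p.2.1 p.2.2.1 p.2.2.2) := by
  have ce : Computable (fun p : ℕ × List ℕ × ℕ × ℕ => p.1) := Computable.fst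
  have cl : Computable (fun p : ℕ × List ℕ × ℕ × ℕ => p.2.1) :=
    Computable.fst.comp Computable.snd
  have cn : Computable (fun p : ℕ × List ℕ × ℕ × ℕ => p.2.2.1) :=
    Computable.fst.comp (Computable.snd.comp Computable.snd)
  have cs : Computable (fun p : ℕ × List ℕ × ℕ × ℕ => p.2.2.2) :=
    Computable.snd.comp (Computable.snd.comp Computable.snd)
  refine Dl.bex (P := fun (p : ℕ × List ℕ × ℕ × ℕ) (t : ℕ) => fst D p.1 t ∧
    (∀ f, f ∈ p.2.1 → f ≤ p.2.2.2) ∧ (∀ m', m' < p.2.2.1 → 2 * m' + 1 ≤ p.2.2.2) ∧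
    ∀ f, f < p.2.2.2 + 1 → (memF A p.2.1 p.2.2.1 f ↔
      ∃ w, w < p.2.2.2 + 1 ∧ ∀ b, D.G (p.1, t, f, w, b))) ?_
    (f := fun p => p.2.2.2 + 1) (Computable.succ.comp cs)
  refine Dl.and ?_ (Dl.and ?_ (Dl.and ?_ ?_))
  · exact (Dl.light hfst).comp (f := fun q : (ℕ × List ℕ × ℕ × ℕ) × ℕ => (q.1.1, q.2))
      ((ce.comp Computable.fst).pair Computable.snd)
  · exact cc_bdd (f := fun q : (ℕ × List ℕ × ℕ × ℕ) × ℕ => q.1.2.2.2) (l := fun q => q.1.2.1)
      (cs.comp Computable.fst) (cl.comp Computable.fst)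
  · refine Dl.ball (P := fun (q : (ℕ × List ℕ × ℕ × ℕ) × ℕ) (m : ℕ) =>
      2 * m + 1 ≤ q.1.2.2.2) ?_ (f := fun q => q.1.2.2.1) (cn.comp Computable.fst)
    exact Dl.le (Computable.succ.comp (Primrec.nat_mul.to_comp.comp (Computable.const 2)
      Computable.snd)) (cs.comp (Computable.fst.comp Computable.fst))
  · refine Dl.ball (P := fun (q : (ℕ × List ℕ × ℕ × ℕ) × ℕ) (f : ℕ) =>
      (memF A q.1.2.1 q.1.2.2.1 f ↔
        ∃ w, w < q.1.2.2.2 + 1 ∧ ∀ b, D.G (q.1.1, q.2, f, w, b))) ?_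
      (f := fun q => q.1.2.2.2 + 1) (Computable.succ.comp (cs.comp Computable.fst))
    refine Dl.iff ?_ ?_
    · exact (cc_memF hA).comp
        (f := fun u : ((ℕ × List ℕ × ℕ × ℕ) × ℕ) × ℕ => (u.1.1.2.1, u.1.1.2.2.1, u.2))
        ((cl.comp (Computable.fst.comp Computable.fst)).pair
          ((cn.comp (Computable.fst.comp Computable.fst)).pair Computable.snd))
    · refine Dl.bex (P := fun (u : ((ℕ × List ℕ × ℕ × ℕ) × ℕ) × ℕ) (w : ℕ) =>
        ∀ b, D.G (u.1.1.1, u.1.2, u.2, w, b)) ?_ (f := fun u => u.1.1.2.2.2 + 1)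
        (Computable.succ.comp (cs.comp (Computable.fst.comp Computable.fst)))
      exact (Dl.light (cc_G hG)).comp
        (f := fun v : (((ℕ × List ℕ × ℕ × ℕ) × ℕ) × ℕ) × ℕ => (v.1.1.1.1, v.1.1.2, v.1.2, v.2))
        ((ce.comp (Computable.fst.comp (Computable.fst.comp Computable.fst))).pair
          ((Computable.snd.comp (Computable.fst.comp Computable.fst)).pair
            ((Computable.snd.comp Computable.fst).pair Computable.snd)))

/-- the parameters of `Pass`: `(e, l, r', n)` -/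
theorem cc_Pass {D : Data} (hG : Dl Z 1 D.G) (hfst : Dl Z 2 (fun p : ℕ × ℕ => fst D p.1 p.2))
    {X : ℕ → ℕ} {A : ℕ → Prop} (hA : Dl X 2 A) :
    Sg X 2 (fun p : ℕ × List ℕ × ℕ × ℕ => Pass D A p.1 p.2.1 p.2.2.1 p.2.2.2) := by
  refine Sg.exN (P := fun (p : ℕ × List ℕ × ℕ × ℕ) (s : ℕ) =>
    p.2.2.1 ≤ s ∧ Mat D A p.1 p.2.1 p.2.2.2 s) ?_
  refine Sg.and ?_ ?_
  · exact (Dl.le (Computable.fst.comp (Computable.snd.comp (Computable.snd.comp Computable.fst)))
      Computable.snd).1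
  · exact (cc_Mat hG hfst hA).1.comp
      (f := fun q : (ℕ × List ℕ × ℕ × ℕ) × ℕ => (q.1.1, q.1.2.1, q.1.2.2.2, q.2))
      ((Computable.fst.comp Computable.fst).pair
        ((Computable.fst.comp (Computable.snd.comp Computable.fst)).pair
          ((Computable.snd.comp (Computable.snd.comp (Computable.snd.comp Computable.fst))).pair
            Computable.snd)))

theorem cc_inF {D : Data} (hG : Dl Z 1 D.G) (hfst : Dl Z 2 (fun p : ℕ × ℕ => fst D p.1 p.2))
    (hb : Dl Z 1 (fun p : ℕ × ℕ × ℕ => bad D p.1 p.2.1 p.2.2))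
    {X : ℕ → ℕ} {A : ℕ → Prop} (hA : Dl X 2 A) :
    Sg X 2 (fun p : Idx × ℕ => inF D A p.1 p.2) := by
  refine Sg.or ?_ (Sg.and (Sg.or ?_ ?_) ?_)
  · exact (cc_mem (f := fun p : Idx × ℕ => p.2) (l := fun p => p.1.l) Computable.snd
      (cc_l.comp Computable.fst)).1
  · exact (Dl.eq (X := X) (n := 2) (f := fun p : Idx × ℕ => p.1.k) (g := fun _ => 0)
      (cc_k.comp Computable.fst) (Computable.const 0)).2
  · exact ((Sg.light (cc_push hb)).up).comp
      (f := fun p : Idx × ℕ => (p.1.e, p.1.r, p.1.m))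
      ((cc_e.comp Computable.fst).pair
        ((cc_r.comp Computable.fst).pair (cc_m.comp Computable.fst)))
  · refine Sg.exN (P := fun (p : Idx × ℕ) (m' : ℕ) =>
      ((p.2 = 2 * m' ∧ ¬ A m') ∨ (p.2 = 2 * m' + 1 ∧ A m')) ∧
      ∀ n', n' < m' + 1 → Pass D A p.1.e p.1.l p.1.r' n') ?_
    refine Sg.and ?_ ?_
    · exact (cc_even hA (f := fun q : (Idx × ℕ) × ℕ => q.1.2) (m := fun q => q.2)
        (Computable.snd.comp Computable.fst) Computable.snd).1
    · refine Sg.ball (P := fun (q : (Idx × ℕ) × ℕ) (n' : ℕ) =>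
        Pass D A q.1.1.e q.1.1.l q.1.1.r' n') ?_ (f := fun q => q.2 + 1)
        (Computable.succ.comp Computable.snd)
      exact (cc_Pass hG hfst hA).comp
        (f := fun u : ((Idx × ℕ) × ℕ) × ℕ => (u.1.1.1.e, u.1.1.1.l, u.1.1.1.r', u.2))
        ((cc_e.comp (Computable.fst.comp (Computable.fst.comp Computable.fst))).pair
          ((cc_l.comp (Computable.fst.comp (Computable.fst.comp Computable.fst))).pair
            ((cc_r'.comp (Computable.fst.comp (Computable.fst.comp Computable.fst))).pair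
              Computable.snd)))

/-- C3: complexity (case gamma). -/
theorem c3_main (hc : StmtStageC) : StmtC3 := by
  intro D hT hU hG X A hA hs
  obtain ⟨_, hUc, hb, hfst⟩ := hc D hT hU hG
  refine ⟨Sg.light (cc_num hUc hb A), ?_⟩
  exact (cc_inF hG hfst hb (hA.dl.up)).of_iff fun p => cc_inF_iff hs p.1 p.2

end Pool.Agent.NonLow
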