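import Pool.Agent.NonLow.Stmts2

/-!
# Module C2: the range of the component types in case gamma
-/

set_option autoImplicit false

namespace Pool.Agent.NonLow

/-! ### `leastN` -/

private theorem crange_encard_lt (v : ℕ) : ({u : ℕ | u < v} : Set ℕ).encard = v := by
  have h : ({u : ℕ | u < v} : Set ℕ) = ((Finset.range v : Finset ℕ) : Set ℕ) := by
    ext u
    simp
  rw [h, Set.encard_coe_eq_coe_finsetCard, Finset.card_range]

private theorem crange_leastN_top (W : ℕ → Prop) : leastN W = ⊤ ↔ ∀ v, W v := by
  constructor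
  · intro h v
    by_contra hv
    have hsub : {u : ℕ | ∀ v', v' ≤ u → W v'} ⊆ {u : ℕ | u < v} := by
      intro u hu
      by_contra hc
      exact hv (hu v (not_lt.1 hc))
    have h2 := Set.encard_le_encard hsub
    rw [crange_encard_lt] at h2
    unfold leastN at h
    rw [h] at h2
    exact absurd h2 (by simp)
  · intro h
    unfold leastN
    have : {u : ℕ | ∀ v', v' ≤ u → W v'} = Set.univ := by
      ext u
      simp [h]
    rw [this, Set.encard_univ]
    simp

private theorem crange_leastN_eq (W : ℕ → Prop) (v : ℕ) (h0 : ¬ W v) (h1 : ∀ u, u < v → W u) :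
    leastN W = v := by
  unfold leastN
  have : {u : ℕ | ∀ v', v' ≤ u → W v'} = {u : ℕ | u < v} := by
    ext u
    constructor
    · intro hu
      by_contra hc
      exact h0 (hu v (not_lt.1 hc))
    · intro hu v' hv'
      exact h1 v' (lt_of_le_of_lt hv' hu)
  rw [this, crange_encard_lt]

/-- if `W` fails somewhere then `leastN W` is the least place -/
private theorem crange_leastN_find (W : ℕ → Prop) (h : ∃ v, ¬ W v) :
    ∃ v : ℕ, leastN W = v ∧ ¬ W v ∧ ∀ u, u < v → W u := by
  classical
  refine ⟨Nat.find h, crange_leastN_eq W _ (Nat.find_spec h) ?_, Nat.find_spec h, ?_⟩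
  · intro u hu
    exact not_not.1 (Nat.find_min h hu)
  · intro u hu
    exact not_not.1 (Nat.find_min h hu)

private theorem crange_fst_unique (D : Data) (e t t' : ℕ) (h : fst D e t) (h' : fst D e t') :
    t = t' := by
  rcases lt_trichotomy t t' with hlt | heq | hlt
  · exact absurd h.1 (h'.2 t hlt)
  · exact heq
  · exact absurd h'.1 (h.2 t' hlt)

private theorem crange_exists_fst (D : Data) (e : ℕ) (h : ¬ ∀ ℓ, ¬ tru D e ℓ) :
    ∃ t, fst D e t := by
  classical
  push Not at h
  refine ⟨Nat.find h, Nat.find_spec h, fun ℓ' hℓ' => Nat.find_min h hℓ'⟩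

/-! ### The set of a component -/

private theorem crange_setC_eq (D : Data) (A : ℕ → Prop) (p : Idx) (F : Finset ℕ)
    (h : ∀ f, inF D A p f ↔ f ∈ F) : setC D A p = F := by
  classical
  have h1 : {f | inF D A p f} = (F : Set ℕ) := by
    ext f
    exact h f
  have h2 : {f | inF D A p f}.Finite := by
    rw [h1]
    exact F.finite_toSet
  unfold setC
  rw [dif_pos h2]
  ext f
  rw [Set.Finite.mem_toFinset]
  exact h f

/-- the set is `l` if the component is not active -/
private theorem crange_inactive (D : Data) (A : ℕ → Prop) (p : Idx)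
    (h : ¬ (p.k ≠ 0 ∨ Push D (fun v => v) p.e p.r p.m)) : setC D A p = p.l.toFinset := by
  refine crange_setC_eq D A p _ fun f => ?_
  rw [List.mem_toFinset]
  constructor
  · rintro (h1 | ⟨h1, _⟩)
    · exact h1
    · exact absurd h1 h
  · intro h1
    exact Or.inl h1

/-- the set is `l` if nothing passes -/
private theorem crange_nopass (D : Data) (A : ℕ → Prop) (p : Idx)
    (h : ¬ Pass D A p.e p.l p.r' 0) : setC D A p = p.l.toFinset := by
  refine crange_setC_eq D A p _ fun f => ?_
  rw [List.mem_toFinset]
  constructor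
  · rintro (h1 | ⟨_, m', _, h2⟩)
    · exact h1
    · exact absurd (h2 0 (Nat.succ_pos _)) h
  · intro h1
    exact Or.inl h1

private theorem crange_memF_finite (A : ℕ → Prop) (l : List ℕ) (N : ℕ) :
    {f | memF A l N f}.Finite := by
  have hsub : {f | memF A l N f} ⊆ ((l.toFinset ∪ Finset.range (2 * N) : Finset ℕ) : Set ℕ) := by
    intro f hf
    rw [Finset.coe_union]
    rcases hf with h | ⟨m', hm', h⟩
    · left
      simpa using h
    · right
      rw [Finset.mem_coe, Finset.mem_range]
      rcases h with ⟨h, _⟩ | ⟨h, _⟩ <;> omega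
  exact (Finset.finite_toSet _).subset hsub

/-- the set of an active component -/
private theorem crange_active (D : Data) (A : ℕ → Prop) (hst : Stops D A) (p : Idx)
    (h : p.k ≠ 0 ∨ Push D (fun v => v) p.e p.r p.m) :
    ∃ N, ¬ Pass D A p.e p.l p.r' N ∧ ((setC D A p : Finset ℕ) : Set ℕ) = {f | memF A p.l N f} := by
  classical
  have hex := hst p.e p.l p.r'
  refine ⟨Nat.find hex, Nat.find_spec hex, ?_⟩
  have hlt : ∀ m', (∀ n', n' < m' + 1 → Pass D A p.e p.l p.r' n') ↔ m' < Nat.find hex := by
    intro m'
    constructor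
    · intro h1
      by_contra hc
      exact Nat.find_spec hex (h1 _ (by omega))
    · intro h1 n' hn'
      exact not_not.1 (Nat.find_min hex (by omega : n' < Nat.find hex))
  have h1 : ∀ f, inF D A p f ↔ memF A p.l (Nat.find hex) f := by
    intro f
    constructor
    · rintro (h2 | ⟨_, m', h3, h4⟩)
      · exact Or.inl h2
      · exact Or.inr ⟨m', (hlt m').1 h4, h3⟩
    · rintro (h2 | ⟨m', h3, h4⟩)
      · exact Or.inl h2
      · exact Or.inr ⟨h, m', h4, (hlt m').2 h3⟩
  have h2 := crange_setC_eq D A p (crange_memF_finite A p.l (Nat.find hex)).toFinset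
    (fun f => by rw [h1 f, Set.Finite.mem_toFinset]; rfl)
  rw [h2, Set.Finite.coe_toFinset]

/-- if `F^{(N)}` is the set `G` then the chase passes `N` -/
private theorem crange_pass (D : Data) (A : ℕ → Prop) (e t : ℕ) (ht : fst D e t) (l : List ℕ)
    (r' N : ℕ) (h : {f | memF A l N f} = Gset D e t) : Pass D A e l r' N := by
  classical
  have hfin := crange_memF_finite A l N
  -- witnesses
  have hw : ∀ f, ∃ w, memF A l N f → ∀ b, D.G (e, t, f, w, b) := by
    intro f
    by_cases hf : memF A l N f
    · have h1 : f ∈ Gset D e t := by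
        rw [← h]
        exact hf
      obtain ⟨w, hw⟩ := h1
      exact ⟨w, fun _ => hw⟩
    · exact ⟨0, fun h => absurd h hf⟩
  choose w hw using hw
  set s : ℕ := r' + t + l.sum + 2 * N + ∑ f ∈ hfin.toFinset, w f with hs
  refine ⟨s, by omega, t, by omega, ht, ?_, ?_, ?_⟩
  · intro f hf
    have := List.single_le_sum (fun x _ => Nat.zero_le x) f hf
    omega
  · intro m' hm'
    omega
  · intro f _
    constructor
    · intro hf
      refine ⟨w f, ?_, hw f hf⟩
      have h1 : w f ≤ ∑ f ∈ hfin.toFinset, w f :=
        Finset.single_le_sum (f := w) (fun _ _ => Nat.zero_le _) (hfin.mem_toFinset.2 hf)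
      omega
    · rintro ⟨w', _, hw'⟩
      have h1 : f ∈ Gset D e t := ⟨w', hw'⟩
      rw [← h] at h1
      exact h1

/-- if `F` is not the set `G` then no late stage matches `F` -/
private theorem crange_nomat (D : Data) (A : ℕ → Prop) (e t : ℕ) (ht : fst D e t) (F : Finset ℕ)
    (h : (F : Set ℕ) ≠ Gset D e t) : ∃ r', ¬ Pass D A e F.toList r' 0 := by
  classical
  by_cases h1 : ∃ f, f ∈ F ∧ f ∉ Gset D e t
  · obtain ⟨f, hf, hg⟩ := h1
    refine ⟨0, ?_⟩
    rintro ⟨s, _, t', _, ht', hl, _, hm⟩
    have htt := crange_fst_unique D e t t' ht ht'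
    subst htt
    have hfl : f ∈ F.toList := Finset.mem_toList.2 hf
    obtain ⟨w, _, hw⟩ := (hm f (Nat.lt_succ_of_le (hl f hfl))).1 (Or.inl hfl)
    exact hg ⟨w, hw⟩
  · push Not at h1
    have h2 : ∃ f, f ∈ Gset D e t ∧ f ∉ F := by
      by_contra hc
      push Not at hc
      apply h
      ext f
      exact ⟨fun hf => h1 f hf, fun hf => hc f hf⟩
    obtain ⟨f, ⟨w, hw⟩, hf⟩ := h2
    refine ⟨f + w, ?_⟩
    rintro ⟨s, hs, t', _, ht', _, _, hm⟩
    have htt := crange_fst_unique D e t t' ht ht'
    subst htt
    rcases (hm f (by omega)).2 ⟨w, by omega, hw⟩ with h3 | ⟨m', hm', _⟩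
    · exact hf (Finset.mem_toList.1 h3)
    · omega

/-! ### The main theorem -/

private theorem crange_push_notru (hs : StmtStage) (D : Data) (e r v : ℕ)
    (h : ∀ ℓ, ¬ tru D e ℓ) : Push D (fun v => v) e r v := by
  obtain ⟨_, _, h3, _⟩ := hs D
  obtain ⟨s, hs1, hs2⟩ := h3 e h (v + r)
  exact ⟨s, by show v ≤ s; omega, by omega, Or.inl hs2⟩

/-- a finite value different from the number is not pushed from some stage on -/
private theorem crange_not_push (hs : StmtStage) (D : Data) (e t v : ℕ) (ht : fst D e t)
    (hv : (v : ℕ∞) ≠ Unum D e t) : ∃ r, ¬ Push D (fun v => v) e r v := by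
  obtain ⟨_, h2, _, _, _, h6, h7⟩ := hs D
  obtain ⟨s0, hs0⟩ := h2 e t ht
  rcases lt_or_gt_of_ne hv with hlt | hgt
  · -- `v < U`
    have h8 : ((v + 1 : ℕ) : ℕ∞) ≤ Unum D e t := by
      rw [Nat.cast_add, Nat.cast_one]
      exact Order.add_one_le_of_lt hlt
    obtain ⟨s1, hs1⟩ := h7 e t (v + 1) h8
    refine ⟨s0 + s1, ?_⟩
    rintro ⟨s, _, hsr, hb⟩
    rcases hb with hb | hb
    · apply hb
      rw [hs0 s (by omega), hs0 (s + 1) (by omega)]
    · unfold Ucur at hb
      rw [hs0 s (by omega)] at hb
      have := hs1 s (by omega)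
      omega
  · -- `U < v`
    refine ⟨s0, ?_⟩
    rintro ⟨s, _, hsr, hb⟩
    rcases hb with hb | hb
    · apply hb
      rw [hs0 s (by omega), hs0 (s + 1) (by omega)]
    · unfold Ucur at hb
      rw [hs0 s (by omega)] at hb
      have h8 := h6 e t s
      rw [hb] at h8
      exact absurd h8 (not_le.2 hgt)

/-- the components with `k = 0` give all finite values different from the number -/
private theorem crange_finite_value (hs : StmtStage) (D : Data) (A : ℕ → Prop) (e t v : ℕ)
    (F : Finset ℕ) (ht : fst D e t) (hv : (v : ℕ∞) ≠ Unum D e t) :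
    ((e, (v : ℕ∞), F) : Typ) ∈ Set.range (typC D A) := by
  obtain ⟨r, hr⟩ := crange_not_push hs D e t v ht hv
  set p : Idx := (e, 0, v, r, 0, 0, 0, F.toList) with hp
  refine ⟨p, ?_⟩
  have h1 : leastN (fun v => Hc D p v ∨ Push D (fun v => v) p.e p.r v) = v := by
    refine crange_leastN_eq _ v ?_ ?_
    · rintro (h | h)
      · rcases h with ⟨h, _⟩ | ⟨_, h⟩
        · exact h rfl
        · exact absurd h (lt_irrefl v)
      · exact hr h
    · intro u hu
      exact Or.inl (Or.inr ⟨rfl, hu⟩)
  have h2 : setC D A p = F := by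
    rw [crange_inactive D A p]
    · exact F.toList_toFinset
    · rintro (h | h)
      · exact h rfl
      · exact hr h
  show ((p.e, leastN (fun v => Hc D p v ∨ Push D (fun v => v) p.e p.r v), setC D A p) : Typ) = _
  rw [h1, h2]
  rfl

theorem c2_main (hs : StmtStage) : StmtC2 := by
  classical
  intro D A hst
  obtain ⟨k1, k2, k3, k4, k5, k6, k7⟩ := hs D
  apply Set.Subset.antisymm
  · rintro _ ⟨p, rfl⟩
    show ((p.e, leastN (fun v => Hc D p v ∨ Push D (fun v => v) p.e p.r v), setC D A p) : Typ) ∈
      Fam D
    set W : ℕ → Prop := fun v => Hc D p v ∨ Push D (fun v => v) p.e p.r v with hW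
    by_cases htr : ∀ ℓ, ¬ tru D p.e ℓ
    · left
      refine ⟨htr, ?_⟩
      show leastN W = ⊤
      rw [crange_leastN_top]
      intro v
      exact Or.inr (crange_push_notru hs D p.e p.r v htr)
    · right
      obtain ⟨t, ht⟩ := crange_exists_fst D p.e htr
      refine ⟨t, ht, ?_⟩
      show (leastN W ≠ ⊤ ∧ leastN W ≠ Unum D p.e t) ∨
        (leastN W = ⊤ ∧ Unum D p.e t = ⊤ ∧ (setC D A p : Set ℕ) ≠ Gset D p.e t)
      obtain ⟨s0, hs0⟩ := k2 p.e t ht
      by_cases hU : Unum D p.e t = ⊤
      · by_cases hV : leastN W = ⊤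
        · right
          refine ⟨hV, hU, ?_⟩
          rw [crange_leastN_top] at hV
          have hact : p.k ≠ 0 ∨ Push D (fun v => v) p.e p.r p.m := by
            by_cases hk : p.k = 0
            · right
              rcases hV p.m with h | h
              · rcases h with ⟨h, _⟩ | ⟨_, h⟩
                · exact absurd hk h
                · exact absurd h (lt_irrefl _)
              · exact h
            · exact Or.inl hk
          obtain ⟨N, hN, hset⟩ := crange_active D A hst p hact
          rw [hset]
          intro hG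
          exact hN (crange_pass D A p.e t ht p.l p.r' N hG)
        · left
          exact ⟨hV, by rw [hU]; exact hV⟩
      · left
        obtain ⟨U, hU'⟩ := ENat.ne_top_iff_exists.1 hU
        -- the number is pushed
        have hpush : Push D (fun v => v) p.e p.r U := by
          obtain ⟨s1, hs1⟩ := k7 p.e t U (le_of_eq hU')
          refine ⟨s0 + s1 + U + p.r, by show U ≤ _; omega, by omega, Or.inr ?_⟩
          unfold Ucur
          rw [hs0 _ (by omega)]
          have h1 := hs1 (s0 + s1 + U + p.r) (by omega)
          have h2 := k6 p.e t (s0 + s1 + U + p.r)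
          rw [← hU', Nat.cast_le] at h2
          omega
        -- large numbers are not
        have hbound : ∀ s, Ucur D p.e s ≤ s0 + U := by
          intro s
          by_cases hss : s0 ≤ s
          · unfold Ucur
            rw [hs0 s hss]
            have h2 := k6 p.e t s
            rw [← hU', Nat.cast_le] at h2
            omega
          · have := k5 p.e (lst D p.e s) s
            unfold Ucur
            omega
        have hnot : ¬ W (s0 + U + p.m + 1) := by
          rintro (h | h)
          · rcases h with ⟨_, s, h⟩ | ⟨_, h⟩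
            · have := hbound s
              omega
            · omega
          · obtain ⟨s, h1, _, h3⟩ := h
            have h1' : s0 + U + p.m + 1 ≤ s := h1
            rcases h3 with h3 | h3
            · apply h3
              rw [hs0 s (by omega), hs0 (s + 1) (by omega)]
            · have := hbound s
              omega
        obtain ⟨V, hV, hV1, _⟩ := crange_leastN_find W ⟨_, hnot⟩
        refine ⟨by rw [hV]; exact ENat.natCast_ne_top V, ?_⟩
        rw [hV, ← hU']
        intro h
        have h' : V = U := by exact_mod_cast h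
        rw [h'] at hV1
        exact hV1 (Or.inr hpush)
  · rintro ⟨e, V, F⟩ hmem
    rcases hmem with ⟨htr, hV⟩ | ⟨t, ht, h⟩
    · have hV' : V = ⊤ := hV
      have htr' : ∀ ℓ, ¬ tru D e ℓ := htr
      subst hV'
      set p : Idx := (e, 1, 0, 0, 0, 0, 0, F.toList) with hp
      refine ⟨p, ?_⟩
      show ((p.e, leastN (fun v => Hc D p v ∨ Push D (fun v => v) p.e p.r v), setC D A p) :
        Typ) = _
      have h1 : leastN (fun v => Hc D p v ∨ Push D (fun v => v) p.e p.r v) = ⊤ := by
        rw [crange_leastN_top]
        intro v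
        exact Or.inr (crange_push_notru hs D p.e p.r v htr')
      have h2 : setC D A p = F := by
        rw [crange_nopass D A p]
        · exact F.toList_toFinset
        · rintro ⟨s, _, t', _, ht', _⟩
          exact htr' t' ht'.1
      rw [h1, h2]
      rfl
    · have ht' : fst D e t := ht
      rcases h with ⟨hV, hU⟩ | ⟨hV, hU, hG⟩
      · have hV' : V ≠ ⊤ := hV
        have hU' : V ≠ Unum D e t := hU
        obtain ⟨v, rfl⟩ := ENat.ne_top_iff_exists.1 hV'
        exact crange_finite_value hs D A e t v F ht' hU'
      · have hV' : V = ⊤ := hV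
        have hU' : Unum D e t = ⊤ := hU
        have hG' : (F : Set ℕ) ≠ Gset D e t := hG
        subst hV'
        obtain ⟨r', hr'⟩ := crange_nomat D A e t ht' F hG'
        set p : Idx := (e, 1, 0, 0, r', 0, 0, F.toList) with hp
        refine ⟨p, ?_⟩
        show ((p.e, leastN (fun v => Hc D p v ∨ Push D (fun v => v) p.e p.r v), setC D A p) :
          Typ) = _
        have h1 : leastN (fun v => Hc D p v ∨ Push D (fun v => v) p.e p.r v) = ⊤ := by
          rw [crange_leastN_top]
          intro v
          refine Or.inl (Or.inl ⟨one_ne_zero, ?_⟩)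
          obtain ⟨s0, hs0⟩ := k2 e t ht'
          obtain ⟨s1, hs1⟩ := k7 e t (v + 1) (by rw [hU']; exact le_top)
          refine ⟨s0 + s1, ?_⟩
          show v < Ust D e (lst D e (s0 + s1)) (s0 + s1)
          rw [hs0 _ (by omega)]
          have := hs1 (s0 + s1) (by omega)
          omega
        have h2 : setC D A p = F := by
          rw [crange_nopass D A p]
          · exact F.toList_toFinset
          · exact hr'
        rw [h1, h2]
        rfl

end Pool.Agent.NonLow
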