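import Pool.Agent.NonLow.Stmts2

/-!
# C1: the chase stops if `A` is not `Δ₃`
-/

set_option autoImplicit false

namespace Pool.Agent.NonLow

theorem cstop_fst_unique {D : Data} {e t t' : ℕ} (h : fst D e t) (h' : fst D e t') : t = t' := by
  rcases lt_trichotomy t t' with hlt | heq | hgt
  · exact absurd h.1 (h'.2 t hlt)
  · exact heq
  · exact absurd h'.1 (h.2 t' hgt)

theorem cstop_gset {D : Data} {A : ℕ → Prop} {e r' : ℕ} {l : List ℕ}
    (hp : ∀ n, Pass D A e l r' n) :
    ∃ t, ∀ f, f ∈ Gset D e t ↔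
      (f ∈ l ∨ ∃ m', (f = 2 * m' ∧ ¬ A m') ∨ (f = 2 * m' + 1 ∧ A m')) := by
  obtain ⟨s0, _, t, ht, hfst, hl0, _, hm0⟩ := hp 0
  refine ⟨t, ?_⟩
  have hmat : ∀ n, ∃ s, (∀ m', m' < n → 2 * m' + 1 ≤ s) ∧
      ∀ f, f < s + 1 → (memF A l n f ↔ ∃ w, w < s + 1 ∧ ∀ b, D.G (e, t, f, w, b)) := by
    intro n
    obtain ⟨s, _, t', _, hfst', _, h2, h3⟩ := hp n
    have : t' = t := cstop_fst_unique hfst' hfst
    subst this
    exact ⟨s, h2, h3⟩
  intro f
  constructor
  · rintro ⟨w, hw⟩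
    obtain ⟨s, h2, h3⟩ := hmat (max f w + 1)
    have hs := h2 (max f w) (Nat.lt_succ_self _)
    have hf : f < s + 1 := by
      have := le_max_left f w
      omega
    have hws : w < s + 1 := by
      have := le_max_right f w
      omega
    rcases (h3 f hf).2 ⟨w, hws, hw⟩ with h | ⟨m', _, h⟩
    · exact Or.inl h
    · exact Or.inr ⟨m', h⟩
  · rintro (h | ⟨m', h⟩)
    · have hf : f < s0 + 1 := Nat.lt_succ_of_le (hl0 f h)
      obtain ⟨w, _, hw⟩ := (hm0 f hf).1 (Or.inl h)
      exact ⟨w, hw⟩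
    · obtain ⟨s, h2, h3⟩ := hmat (m' + 1)
      have hs := h2 m' (Nat.lt_succ_self _)
      have hf : f < s + 1 := by
        rcases h with ⟨h, _⟩ | ⟨h, _⟩ <;> omega
      obtain ⟨w, _, hw⟩ := (h3 f hf).1 (Or.inr ⟨m', Nat.lt_succ_self _, h⟩)
      exact ⟨w, hw⟩

theorem cstop_list {X : ℕ → ℕ} {n : ℕ} (L : List ℕ) : Dl X n (fun m : ℕ => m ∈ L) := by
  have h1 : Dl X n (fun p : ℕ × ℕ => L.getD p.2 0 = p.1) :=
    Dl.eq ((Primrec.list_getD 0).to_comp.comp (Computable.const L) Computable.snd) Computable.fst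
  have h2 := Dl.bex (P := fun (m : ℕ) (i : ℕ) => L.getD i 0 = m) h1
    (f := fun _ => L.length) (Computable.const L.length)
  refine h2.of_iff fun m => ?_
  rw [List.mem_iff_getElem]
  constructor
  · rintro ⟨i, hi, h⟩
    refine ⟨i, hi, ?_⟩
    rw [List.getD_eq_getElem _ _ hi, h]
  · rintro ⟨i, hi, h⟩
    refine ⟨i, hi, ?_⟩
    rw [List.getD_eq_getElem _ _ hi] at h
    exact h

theorem c1_main (_hc : StmtStageC) : StmtC1 := by
  intro D _ _ hG A hA
  intro e l r'
  by_contra hcon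
  have hp : ∀ n, Pass D A e l r' n := by
    intro n
    by_contra hn
    exact hcon ⟨n, hn⟩
  obtain ⟨t, ht⟩ := cstop_gset hp
  apply hA
  -- the set `Gset D e t` is `Σ₃`
  have hS : Sg Z 2 (fun f : ℕ => f ∈ Gset D e t) := by
    refine ⟨fun p => ∀ b, D.G (e, t, p.1, p.2, b), ?_, fun f => Iff.rfl⟩
    have h1 : Sg Z 1 (fun q : (ℕ × ℕ) × ℕ => ¬ D.G (e, t, q.1.1, q.1.2, q.2)) :=
      hG.2.comp (P := fun y => ¬ D.G y)
        (f := fun q : (ℕ × ℕ) × ℕ => ((e, t, q.1.1, q.1.2, q.2) : ℕ × ℕ × ℕ × ℕ × ℕ))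
        ((Computable.const e).pair ((Computable.const t).pair
          ((Computable.fst.comp Computable.fst).pair
            ((Computable.snd.comp Computable.fst).pair Computable.snd))))
    refine (Sg.exN (P := fun (p : ℕ × ℕ) (b : ℕ) => ¬ D.G (e, t, p.1, p.2, b)) h1).of_iff
      fun p => ?_
    simp only [not_forall]
  classical
  obtain ⟨m0, hm0⟩ : ∃ m0, ∀ f ∈ l, f < m0 := by
    refine ⟨l.sum + 1, fun f hf => ?_⟩
    have := List.single_le_sum (fun x _ => Nat.zero_le x) f hf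
    omega
  let L : List ℕ := (List.range m0).filter fun m => decide (A m)
  have hL : ∀ m, m < m0 → (m ∈ L ↔ A m) := by
    intro m hm
    simp [L, hm]
  have hlt : Dl Z 2 (fun m : ℕ => m < m0) := Dl.lt Computable.id (Computable.const m0)
  have hodd : Computable (fun m : ℕ => 2 * m + 1) :=
    (Primrec.succ.comp (Primrec.nat_mul.comp (Primrec.const 2) Primrec.id)).to_comp
  have heven : Computable (fun m : ℕ => 2 * m) :=
    (Primrec.nat_mul.comp (Primrec.const 2) Primrec.id).to_comp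
  constructor
  · have h1 : Sg Z 2 (fun m : ℕ => (m < m0 ∧ m ∈ L) ∨ (¬ m < m0 ∧ 2 * m + 1 ∈ Gset D e t)) :=
      (hlt.1.and (cstop_list L).1).or (hlt.2.and (hS.comp hodd))
    refine h1.of_iff fun m => ?_
    by_cases hm : m < m0
    · simp [hm, hL m hm]
    · simp only [hm, false_and, false_or, not_false_eq_true, true_and]
      rw [ht]
      constructor
      · intro h
        exact Or.inr ⟨m, Or.inr ⟨rfl, h⟩⟩
      · rintro (h | ⟨m', ⟨h, _⟩ | ⟨h, h2⟩⟩)
        · have := hm0 _ h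
          omega
        · omega
        · have : m' = m := by omega
          rw [← this]
          exact h2
  · have h1 : Sg Z 2 (fun m : ℕ => (m < m0 ∧ ¬ m ∈ L) ∨ (¬ m < m0 ∧ 2 * m ∈ Gset D e t)) :=
      (hlt.1.and (cstop_list L).2).or (hlt.2.and (hS.comp heven))
    refine h1.of_iff fun m => ?_
    by_cases hm : m < m0
    · simp [hm, hL m hm]
    · simp only [hm, false_and, false_or, not_false_eq_true, true_and]
      rw [ht]
      constructor
      · intro h
        exact Or.inr ⟨m, Or.inl ⟨rfl, h⟩⟩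
      · rintro (h | ⟨m', ⟨h, h2⟩ | ⟨h, _⟩⟩)
        · have := hm0 _ h
          omega
        · have : m' = m := by omega
          rw [← this]
          exact h2
        · omega

end Pool.Agent.NonLow
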