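import Mathlib

/-!
# A linear order whose degree spectrum is exactly the non-low degrees: definitions
-/

set_option autoImplicit false

namespace Pool.Agent.NonLow

/-! ## Arithmetical hierarchy relative to an oracle `X : ℕ → ℕ` -/

/-- the first `s` values of the oracle -/
def seg (X : ℕ → ℕ) (s : ℕ) : List ℕ := (List.range s).map X

/-- `Σ₁(X)` predicates on a `Primcodable` type: `P x ↔ ∃ s, θ x (X↾s)` with `θ` computable. -/
def S1 (X : ℕ → ℕ) {α : Type} [Primcodable α] (P : α → Prop) : Prop :=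
  ∃ θ : α → List ℕ → Bool, Computable₂ θ ∧ ∀ x, P x ↔ ∃ s, θ x (seg X s) = true

/-- `Sg X n P` says that `P` is `Σ_{n+1}(X)`. -/
def Sg (X : ℕ → ℕ) : ℕ → ∀ {α : Type} [Primcodable α], (α → Prop) → Prop
  | 0, _, _, P => S1 X P
  | n + 1, α, _, P => ∃ Q : α × ℕ → Prop, Sg X n (fun p => ¬ Q p) ∧ ∀ x, P x ↔ ∃ a, Q (x, a)

/-- `Dl X n P` says that `P` is `Δ_{n+1}(X)`. -/
def Dl (X : ℕ → ℕ) (n : ℕ) {α : Type} [Primcodable α] (P : α → Prop) : Prop :=
  Sg X n P ∧ Sg X n (fun x => ¬ P x)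

/-- the computable oracle -/
def Z : ℕ → ℕ := fun _ => 0

/-! ## Low oracles -/

/-- characteristic function of a set -/
noncomputable def chi (A : ℕ → Prop) : ℕ → ℕ := fun n => by
  classical exact if A n then 1 else 0

/-- the halting set -/
def Halt : ℕ → Prop := fun n =>
  ((Denumerable.ofNat Nat.Partrec.Code n.unpair.1).eval n.unpair.2).Dom

/-- `X` is low: every set c.e. in `X` (domain of a function partial recursive in `X`) is computable
from the halting set. -/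
def Low (X : ℕ → ℕ) : Prop :=
  ∀ f : ℕ →. ℕ, TuringReducible f (PFun.lift X) →
    TuringReducible (PFun.lift (chi fun n => (f n).Dom)) (PFun.lift (chi Halt))

/-! ## A computable copy of the rationals with a dense colouring -/

/-- a copy of the positive dyadic rationals with odd numerator, coded by natural numbers -/
def Qd : Type := ℕ

instance : Primcodable Qd := inferInstanceAs (Primcodable ℕ)
instance : Countable Qd := inferInstanceAs (Countable ℕ)
instance : Nonempty Qd := ⟨(0 : ℕ)⟩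

/-- the dyadic rational coded by `q` -/
def Qd.key (q : Qd) : ℚ := (2 * ((Nat.unpair q).1 : ℚ) + 1) / 2 ^ (Nat.unpair q).2

/-- the colour of `q`; every colour is dense -/
def Qd.col (q : Qd) : ℕ := (Nat.unpair (Nat.unpair q).2).1

/-- the code of `q` -/
def Qd.cd (q : Qd) : ℕ := q

theorem Qd.key_injective : Function.Injective Qd.key := by
  intro a b h
  have h2 : ((2 * ((Nat.unpair a).1 : ℚ) + 1) * 2 ^ (Nat.unpair b).2
      = (2 * ((Nat.unpair b).1 : ℚ) + 1) * 2 ^ (Nat.unpair a).2) := by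
    unfold Qd.key at h
    rw [div_eq_div_iff (by positivity) (by positivity)] at h
    exact h
  have h3 : (2 * (Nat.unpair a).1 + 1) * 2 ^ (Nat.unpair b).2
      = (2 * (Nat.unpair b).1 + 1) * 2 ^ (Nat.unpair a).2 := by exact_mod_cast h2
  have key : ∀ m n k l : ℕ, (2 * m + 1) * 2 ^ l = (2 * n + 1) * 2 ^ k → m = n ∧ k = l := by
    intro m n k l
    induction k generalizing l with
    | zero =>
      intro h
      cases l with
      | zero => simp at h; exact ⟨h, rfl⟩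
      | succ l =>
        exfalso
        rw [pow_succ, pow_zero, mul_one] at h
        have : (2 * m + 1) * (2 ^ l * 2) = 2 * ((2 * m + 1) * 2 ^ l) := by ring
        omega
    | succ k ih =>
      intro h
      cases l with
      | zero =>
        exfalso
        rw [pow_succ, pow_zero, mul_one] at h
        have : (2 * n + 1) * (2 ^ k * 2) = 2 * ((2 * n + 1) * 2 ^ k) := by ring
        omega
      | succ l =>
        have := ih l (by rw [pow_succ, pow_succ] at h; nlinarith)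
        exact ⟨this.1, by omega⟩
  obtain ⟨e1, e2⟩ := key _ _ _ _ h3
  have : Nat.unpair a = Nat.unpair b := Prod.ext e1 e2
  have h4 : Nat.pair (Nat.unpair a).1 (Nat.unpair a).2
      = Nat.pair (Nat.unpair b).1 (Nat.unpair b).2 := by rw [this]
  exact (Nat.pair_unpair a).symm.trans (h4.trans (Nat.pair_unpair b))

noncomputable instance : LinearOrder Qd := LinearOrder.lift' Qd.key Qd.key_injective

theorem Qd.lt_iff (a b : Qd) : a < b ↔ Qd.key a < Qd.key b := Iff.rfl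

/-! ## The gadget orders -/

/-- `Σ_{j<ω} (η + 1 + E_j + 1)`, where `E_j = {q | E j q}` -/
abbrev PP (E : ℕ → Qd → Prop) : Type :=
  Σₗ j : ℕ, (Qd ⊕ₗ (Unit ⊕ₗ ({q : Qd // E j q} ⊕ₗ Unit)))

/-- the canonical sets `E_j`: empty for `j < V`, everything for `j ≥ V`; so `PP (can V)` has exactly
`V` adjacent pairs -/
def can (V : ℕ∞) : ℕ → Qd → Prop := fun j _ => ¬ ((j : ℕ∞) < V)

/-- `B_k + P + B_k` -/
abbrev GG (k : ℕ) (E : ℕ → Qd → Prop) : Type := Fin k ⊕ₗ (PP E ⊕ₗ Fin k)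

/-- the shuffle of the orders `B_3 + P(E_k) + B_3`, `k ∈ ℕ` -/
abbrev DD (E : ℕ → ℕ → Qd → Prop) : Type := Σₗ q : Qd, GG 3 (E q.col)

/-- `B_{e+5} + D + B_4 + P + B_4` -/
abbrev KK (e : ℕ) (E2 : ℕ → ℕ → Qd → Prop) (E1 : ℕ → Qd → Prop) : Type :=
  Fin (e + 5) ⊕ₗ (DD E2 ⊕ₗ GG 4 E1)

/-- the sum over `q ∈ η` of the gadget of colour `q.col` -/
abbrev LL (e : ℕ → ℕ) (E2 : ℕ → ℕ → ℕ → Qd → Prop) (E1 : ℕ → ℕ → Qd → Prop) : Type :=
  Σₗ q : Qd, KK (e q.col) (E2 q.col) (E1 q.col)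

/-- types of components: label, number of pairs, finite set -/
abbrev Typ : Type := ℕ × ℕ∞ × Finset ℕ

/-- an enumeration of `F ∪ {∞}` -/
noncomputable def enumF (F : Finset ℕ) : ℕ → ℕ∞ := fun k => if k ∈ F then (k : ℕ∞) else ⊤

/-- the canonical order with component types `t 0, t 1, …`, each type occurring densely -/
abbrev Lo (t : ℕ → Typ) : Type :=
  LL (fun i => (t i).1) (fun i k => can (enumF (t i).2.2 k)) (fun i => can (t i).2.1)

/-! ## Invariants of linear orders -/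

section inv
variable {M : Type} [LinearOrder M]

/-- `x` starts a chain of three successive elements -/
def C3 (x : M) : Prop := ∃ y z, x ⋖ y ∧ y ⋖ z

/-- `x` starts a chain of four successive elements -/
def C4 (x : M) : Prop := ∃ y z w, x ⋖ y ∧ y ⋖ z ∧ z ⋖ w

/-- the number of adjacent pairs inside the interval `(x,y)` -/
noncomputable def cnt (x y : M) : ℕ∞ := {a : M | x < a ∧ ∃ b, a ⋖ b ∧ b < y}.encard

/-- the finite numbers of adjacent pairs between two consecutive 3-blocks inside `(x,y)` -/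
def gaps (x y : M) : Set ℕ :=
  {f | ∃ a0 a1 a2 b0 b1 b2 : M, x < a0 ∧ a0 ⋖ a1 ∧ a1 ⋖ a2 ∧ a2 < b0 ∧ b0 ⋖ b1 ∧ b1 ⋖ b2 ∧ b2 < y ∧
    (∀ z, a2 < z → z < b0 → ¬ C3 z) ∧ cnt a2 b0 = f}

/-- `x` is the location of a component with label `e`: `x 0 … x (e+4)` is a maximal block, the next
4-chain to the right is `x (e+5) … x (e+8)`, the next one after it is `x (e+9) … x (e+12)`. -/
structure Loc (e : ℕ) (x : ℕ → M) : Prop where
  chain : ∀ i < e + 4, x i ⋖ x (i + 1)
  nopred : ∀ z, ¬ z ⋖ x 0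
  nosucc : ∀ z, ¬ x (e + 4) ⋖ z
  lt1 : x (e + 4) < x (e + 5)
  no1 : ∀ z, x (e + 4) < z → z < x (e + 5) → ¬ C4 z
  chain1 : ∀ i < 3, x (e + 5 + i) ⋖ x (e + 6 + i)
  lt2 : x (e + 8) < x (e + 9)
  no2 : ∀ z, x (e + 8) < z → z < x (e + 9) → ¬ C4 z
  chain2 : ∀ i < 3, x (e + 9 + i) ⋖ x (e + 10 + i)

end inv

/-! ## The families of component types

`T' e ℓ a`, `U' e ℓ v a`, `G' e ℓ f w b` are arbitrary relations. -/

section fam

/-- the data from which the families are built -/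
structure Data where
  T : ℕ × ℕ × ℕ → Prop
  U : ℕ × ℕ × ℕ × ℕ → Prop
  G : ℕ × ℕ × ℕ × ℕ × ℕ → Prop

variable (D : Data)

/-- `ℓ` is a true location for `e` -/
def tru (e ℓ : ℕ) : Prop := ∀ a, D.T (e, ℓ, a)

/-- `ℓ` is the least true location for `e` -/
def fst (e ℓ : ℕ) : Prop := tru D e ℓ ∧ ∀ ℓ' < ℓ, ¬ tru D e ℓ'

/-- the number at location `ℓ` -/
noncomputable def Unum (e ℓ : ℕ) : ℕ∞ := {v : ℕ | ∀ v' ≤ v, ∃ a, D.U (e, ℓ, v', a)}.encard

/-- the set at location `ℓ` -/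
def Gset (e ℓ : ℕ) : Set ℕ := {f | ∃ w, ∀ b, D.G (e, ℓ, f, w, b)}

/-- the family of types -/
def Fam : Set Typ := {t |
  ((∀ ℓ, ¬ tru D t.1 ℓ) ∧ t.2.1 = ⊤) ∨
  ∃ ℓ, fst D t.1 ℓ ∧ ((t.2.1 ≠ ⊤ ∧ t.2.1 ≠ Unum D t.1 ℓ) ∨
    (t.2.1 = ⊤ ∧ Unum D t.1 ℓ = ⊤ ∧ (t.2.2 : Set ℕ) ≠ Gset D t.1 ℓ))}

end fam

end Pool.Agent.NonLow
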