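import Pool.Agent.NonLow.Stmts2
import Pool.Agent.NonLow.QdFacts

/-!
# `Σ₂(X)` numbers as numbers of empty members of an `X`-decidable family
-/

set_option autoImplicit false

namespace Pool.Agent.NonLow

open Encodable

variable {α : Type} [Primcodable α]

/-- `Σ₂(X)` predicates in the form with a unique `Π₁(X)` witness -/
theorem en_unique {X : ℕ → ℕ} {P : α → Prop} (h : Sg X 1 P) :
    ∃ W : α × ℕ → Prop, Sg X 0 (fun p => ¬ W p) ∧ (∀ x, P x ↔ ∃ j, W (x, j)) ∧
      ∀ x j j', W (x, j) → W (x, j') → j = j' := by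
  obtain ⟨Q, hQ, h⟩ := h
  obtain ⟨θ, hθ, hθi, hm⟩ := S1.mono_form hQ
  set D : α × ℕ → Prop := fun p =>
    (∀ a', a' < p.2.unpair.1 → θ (p.1, a') (seg X p.2.unpair.2) = true) ∧
    (p.2.unpair.2 = 0 ∨
      ∃ a', a' < p.2.unpair.1 ∧ ¬ θ (p.1, a') (seg X (p.2.unpair.2 - 1)) = true) with hDdef
  have hu1 : Computable (fun p : α × ℕ => p.2.unpair.1) :=
    Computable.fst.comp (Computable.unpair.comp Computable.snd)
  have hu2 : Computable (fun p : α × ℕ => p.2.unpair.2) :=
    Computable.snd.comp (Computable.unpair.comp Computable.snd)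
  have hD : Dl X 0 D := by
    refine Dl.and ?_ (Dl.or (Dl.eq hu2 (Computable.const 0)) ?_)
    · refine Dl.ball (P := fun (p : α × ℕ) (a' : ℕ) =>
        θ (p.1, a') (seg X p.2.unpair.2) = true) ?_ hu1
      exact (Dl.seg X hθ).comp (f := fun p : (α × ℕ) × ℕ => ((p.1.1, p.2), p.1.2.unpair.2))
        (((Computable.fst.comp Computable.fst).pair Computable.snd).pair
          (hu2.comp Computable.fst))
    · refine Dl.bex (P := fun (p : α × ℕ) (a' : ℕ) =>
        ¬ θ (p.1, a') (seg X (p.2.unpair.2 - 1)) = true) ?_ hu1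
      exact (Dl.seg X hθ).not.comp
        (f := fun p : (α × ℕ) × ℕ => ((p.1.1, p.2), p.1.2.unpair.2 - 1))
        (((Computable.fst.comp Computable.fst).pair Computable.snd).pair
          (Primrec.pred.to_comp.comp (hu2.comp Computable.fst)))
  refine ⟨fun p => Q (p.1, p.2.unpair.1) ∧ D p, ?_, ?_, ?_⟩
  · have h1 : Sg X 0 (fun p : α × ℕ => ¬ Q (p.1, p.2.unpair.1)) :=
      Sg.comp (P := fun p => ¬ Q p) hQ (f := fun p : α × ℕ => (p.1, p.2.unpair.1))
        (Computable.fst.pair hu1)
    exact (h1.or hD.2).of_iff fun p => not_and_or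
  · intro x
    rw [h x]
    constructor
    · intro hx
      classical
      have hx' := hx
      set a := Nat.find hx' with ha
      have haQ : Q (x, a) := Nat.find_spec hx'
      have hlt : ∀ a' < a, ∃ s, θ (x, a') (seg X s) = true := fun a' ha' =>
        (hθi (x, a')).1 (Nat.find_min hx' ha')
      have hex : ∃ m, ∀ a' < a, θ (x, a') (seg X m) = true := by
        have : ∀ b ≤ a, ∃ m, ∀ a' < b, θ (x, a') (seg X m) = true := by
          intro b
          induction b with
          | zero => intro _; exact ⟨0, fun a' ha' => absurd ha' (by omega)⟩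
          | succ b ih =>
            intro hb
            obtain ⟨m, hm'⟩ := ih (by omega)
            obtain ⟨s, hs⟩ := hlt b (by omega)
            refine ⟨max m s, fun a' ha' => ?_⟩
            rcases Nat.lt_succ_iff_lt_or_eq.mp ha' with h1 | h1
            · exact hm _ _ _ (le_max_left _ _) (hm' a' h1)
            · subst h1; exact hm _ _ _ (le_max_right _ _) hs
        exact this a le_rfl
      set m := Nat.find hex with hmdef
      have hmm : ∀ a' < a, θ (x, a') (seg X m) = true := Nat.find_spec hex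
      refine ⟨Nat.pair a m, ?_, ?_⟩
      · simpa using haQ
      · simp only [hDdef, Nat.unpair_pair]
        refine ⟨hmm, ?_⟩
        rcases Nat.eq_zero_or_pos m with h0 | h0
        · exact Or.inl h0
        · right
          have := Nat.find_min hex (show m - 1 < m by omega)
          simpa using this
    · rintro ⟨j, hj, -⟩
      exact ⟨_, hj⟩
  · rintro x j j' ⟨hQ1, hD1⟩ ⟨hQ2, hD2⟩
    simp only [hDdef] at hD1 hD2 hQ1 hQ2
    have hnn : ∀ {a m}, θ (x, a) (seg X m) = true → ¬ Q (x, a) := fun {a m} h1 =>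
      (hθi (x, a)).2 ⟨m, h1⟩
    have ha : j.unpair.1 = j'.unpair.1 := by
      rcases lt_trichotomy j.unpair.1 j'.unpair.1 with h1 | h1 | h1
      · exact absurd hQ1 (hnn (hD2.1 _ h1))
      · exact h1
      · exact absurd hQ2 (hnn (hD1.1 _ h1))
    have hb : j.unpair.2 = j'.unpair.2 := by
      have key : ∀ i i' : ℕ, i.unpair.1 = i'.unpair.1 →
          (∀ a', a' < i.unpair.1 → θ (x, a') (seg X i.unpair.2) = true) →
          (i'.unpair.2 = 0 ∨
            ∃ a', a' < i'.unpair.1 ∧ ¬ θ (x, a') (seg X (i'.unpair.2 - 1)) = true) →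
          i'.unpair.2 ≤ i.unpair.2 := by
        intro i i' h1 h2 h3
        rcases h3 with h3 | ⟨a', ha', h3⟩
        · omega
        · by_contra hc
          exact h3 (hm _ _ _ (by omega) (h2 a' (by omega)))
      exact le_antisymm (key j' j ha.symm hD2.1 hD1.2) (key j j' ha hD1.1 hD2.2)
    calc j = Nat.pair j.unpair.1 j.unpair.2 := (Nat.pair_unpair j).symm
      _ = Nat.pair j'.unpair.1 j'.unpair.2 := by rw [ha, hb]
      _ = j' := Nat.pair_unpair j'

theorem en_encard_lt (N : ℕ∞) : {v : ℕ | (v : ℕ∞) < N}.encard = N := by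
  induction N with
  | top =>
    have : {v : ℕ | (v : ℕ∞) < ⊤} = Set.univ := by
      ext v; simp
    rw [this, Set.encard_univ]
    simp
  | coe n =>
    have : {v : ℕ | (v : ℕ∞) < (n : ℕ∞)} = ((Finset.range n : Finset ℕ) : Set ℕ) := by
      ext v; simp
    rw [this, Set.encard_coe_eq_coe_finsetCard, Finset.card_range]

theorem en_cd_comp : Computable Qd.cd := (Computable.id : Computable (fun n : ℕ => n))

theorem e1_main (_hq : StmtQd) : StmtE1 := by
  intro X ι _ V hV
  obtain ⟨W, hW, hWi, hWu⟩ := en_unique hV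
  obtain ⟨θ, hθ, hθi, hm⟩ := S1.mono_form hW
  refine ⟨fun i j q => θ ((i, j.unpair.1), j.unpair.2) (seg X q.cd) = true, ?_, fun i => ⟨?_, ?_⟩⟩
  · exact (Dl.seg X hθ).comp
      (f := fun p : (ι × ℕ) × Qd => (((p.1.1, p.1.2.unpair.1), p.1.2.unpair.2), p.2.cd))
      ((((Computable.fst.comp Computable.fst).pair
        (Computable.fst.comp (Computable.unpair.comp (Computable.snd.comp Computable.fst)))).pair
        (Computable.snd.comp (Computable.unpair.comp (Computable.snd.comp Computable.fst)))).pair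
        (en_cd_comp.comp Computable.snd))
  · intro j
    by_cases hj : W ((i, j.unpair.1), j.unpair.2)
    · left
      intro q hq
      exact (hθi _).2 ⟨_, hq⟩ hj
    · right
      obtain ⟨s, hs⟩ := (hθi _).1 hj
      exact good_mono (good_cofinite s) fun q hq => hm _ _ _ hq hs
  · have hset : {j : ℕ | ∀ q : Qd, ¬ θ ((i, j.unpair.1), j.unpair.2) (seg X q.cd) = true}
        = {j : ℕ | W ((i, j.unpair.1), j.unpair.2)} := by
      ext j
      constructor
      · intro hj
        by_contra hc
        obtain ⟨s, hs⟩ := (hθi _).1 hc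
        exact hj (show Qd from s) hs
      · intro hj q hq
        exact (hθi _).2 ⟨_, hq⟩ hj
    unfold nE
    rw [hset]
    have himg : (fun j : ℕ => j.unpair.1) '' {j : ℕ | W ((i, j.unpair.1), j.unpair.2)}
        = {v : ℕ | (v : ℕ∞) < V i} := by
      ext v
      constructor
      · rintro ⟨j, hj, rfl⟩
        exact (hWi (i, j.unpair.1)).2 ⟨_, hj⟩
      · intro hv
        obtain ⟨j', hj'⟩ := (hWi (i, v)).1 hv
        refine ⟨Nat.pair v j', ?_, by simp⟩
        show W ((i, (Nat.pair v j').unpair.1), (Nat.pair v j').unpair.2)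
        rw [Nat.unpair_pair]
        exact hj'
    have hinj : Set.InjOn (fun j : ℕ => j.unpair.1)
        {j : ℕ | W ((i, j.unpair.1), j.unpair.2)} := by
      intro j hj j' hj' hjj
      have hj1 : W ((i, j.unpair.1), j.unpair.2) := hj
      have hj2 : W ((i, j'.unpair.1), j'.unpair.2) := hj'
      have hjj' : j.unpair.1 = j'.unpair.1 := hjj
      rw [← hjj'] at hj2
      have := hWu _ _ _ hj1 hj2
      calc j = Nat.pair j.unpair.1 j.unpair.2 := (Nat.pair_unpair j).symm
        _ = Nat.pair j'.unpair.1 j'.unpair.2 := by rw [hjj', this]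
        _ = j' := Nat.pair_unpair j'
    rw [← hinj.encard_image, himg, en_encard_lt]

theorem e2_main : StmtE2 := by
  intro X ι _ F hF
  obtain ⟨Q, hQ, h⟩ := hF
  classical
  set n : ι × ℕ → ℕ∞ := fun p =>
    if p.2 = 0 ∨ ¬ Q ((p.1, (p.2 - 1).unpair.1), (p.2 - 1).unpair.2) then ⊤
    else (((p.2 - 1).unpair.1 : ℕ) : ℕ∞) with hn
  refine ⟨n, ?_, fun i => ?_⟩
  · have hk : Computable (fun p : (ι × ℕ) × ℕ => (p.1.2 - 1).unpair) :=
      Computable.unpair.comp (Primrec.pred.to_comp.comp (Computable.snd.comp Computable.fst))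
    have h0 : Sg X 1 (fun p : (ι × ℕ) × ℕ => p.1.2 = 0) :=
      (Dl.eq (Computable.snd.comp Computable.fst) (Computable.const 0)).1
    have h1 : Sg X 1 (fun p : (ι × ℕ) × ℕ =>
        ¬ Q ((p.1.1, (p.1.2 - 1).unpair.1), (p.1.2 - 1).unpair.2)) :=
      Sg.comp (P := fun p => ¬ Q p) hQ
        (f := fun p : (ι × ℕ) × ℕ => ((p.1.1, (p.1.2 - 1).unpair.1), (p.1.2 - 1).unpair.2))
        (((Computable.fst.comp Computable.fst).pair (Computable.fst.comp hk)).pair
          (Computable.snd.comp hk))
    have h2 : Sg X 1 (fun p : (ι × ℕ) × ℕ => p.2 < (p.1.2 - 1).unpair.1) :=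
      (Dl.lt Computable.snd (Computable.fst.comp hk)).1
    refine ((h0.or h1).or h2).of_iff fun p => ?_
    simp only [hn]
    by_cases hc : p.1.2 = 0 ∨ ¬ Q ((p.1.1, (p.1.2 - 1).unpair.1), (p.1.2 - 1).unpair.2)
    · rw [if_pos hc]
      simp [hc]
    · rw [if_neg hc]
      constructor
      · intro h3; right; exact_mod_cast h3
      · rintro (h3 | h3)
        · exact absurd h3 hc
        · exact_mod_cast h3
  · ext N
    constructor
    · rintro ⟨k, rfl⟩
      simp only [hn]
      by_cases hc : k = 0 ∨ ¬ Q ((i, (k - 1).unpair.1), (k - 1).unpair.2)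
      · rw [if_pos hc]; exact Or.inl rfl
      · rw [if_neg hc]
        right
        refine ⟨(k - 1).unpair.1, ?_, rfl⟩
        push Not at hc
        exact (h (i, (k - 1).unpair.1)).2 ⟨_, hc.2⟩
    · rintro (rfl | ⟨f, hf, rfl⟩)
      · exact ⟨0, by simp [hn]⟩
      · obtain ⟨w, hw⟩ := (h (i, f)).1 hf
        refine ⟨Nat.pair f w + 1, ?_⟩
        simp only [hn]
        rw [if_neg]
        · simp
        · simp only [Nat.add_sub_cancel, Nat.unpair_pair]
          push Not
          exact ⟨by omega, hw⟩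

end Pool.Agent.NonLow
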