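import Pool.Agent.NonLow.Stmts2

/-!
# Assembly: enumeration of the family from a non-low oracle
-/

set_option autoImplicit false

namespace Pool.Agent.NonLow

theorem idx_computable : Computable idx :=
  Computable.option_getD Computable.decode (Computable.const _)

theorem idx_encode (p : Idx) : idx (Encodable.encode p) = p := by
  unfold idx
  rw [Encodable.encodek]
  rfl

attribute [local irreducible] idx

theorem idx_e_computable : Computable (fun i : ℕ => (idx i).e) :=
  Computable.fst.comp idx_computable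

theorem range_comp_idx {β : Type} (f : Idx → β) : Set.range (fun i : ℕ => f (idx i)) = Set.range f := by
  ext y
  constructor
  · rintro ⟨i, rfl⟩; exact ⟨idx i, rfl⟩
  · rintro ⟨p, rfl⟩
    refine ⟨Encodable.encode p, ?_⟩
    show f (idx (Encodable.encode p)) = f p
    rw [idx_encode]

theorem idx_pair_computable : Computable (fun p : ℕ × ℕ => ((idx p.1, p.2) : Idx × ℕ)) :=
  (idx_computable.comp Computable.fst).pair Computable.snd

theorem typB_fst (D : Data) (g : ℕ → ℕ) (p : Idx) : (typB D g p).1 = p.e := rfl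

theorem typC_fst (D : Data) (A : ℕ → Prop) (p : Idx) : (typC D A p).1 = p.e := rfl

attribute [local irreducible] typB typC

theorem sg_idx {X : ℕ → ℕ} {n : ℕ} {P : Idx → ℕ → Prop} (h : Sg X n (fun p : Idx × ℕ => P p.1 p.2)) :
    Sg X n (fun p : ℕ × ℕ => P (idx p.1) p.2) :=
  h.comp (f := fun p : ℕ × ℕ => ((idx p.1, p.2) : Idx × ℕ)) idx_pair_computable

/-- T from its parts -/
theorem fam_main (hb1 : StmtB1) (hb2 : StmtB2) (hb3 : StmtB3) (hc1 : StmtC1) (hc2 : StmtC2)
    (hc3 : StmtC3) : StmtFam := by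
  intro D hT hU hG X A hA hA2
  by_cases h3 : Dl Z 2 A
  · obtain ⟨g, hg, hgc⟩ := hb1 D hT hU hG X A hA hA2 h3
    obtain ⟨h1, h2⟩ := hb3 D hT hU hG X g hgc
    refine ⟨fun i => typB D g (idx i), ?_, ?_, ?_, ?_⟩
    · rw [range_comp_idx (typB D g)]; exact hb2 D g hg
    · exact idx_e_computable.of_eq fun i => (typB_fst D g (idx i)).symm
    · exact sg_idx (P := fun p v => (v : ℕ∞) < (typB D g p).2.1) h1
    · exact sg_idx (P := fun p v => v ∈ (typB D g p).2.2) h2
  · have hs := hc1 D hT hU hG A h3
    obtain ⟨h1, h2⟩ := hc3 D hT hU hG X A hA hs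
    refine ⟨fun i => typC D A (idx i), ?_, ?_, ?_, ?_⟩
    · rw [range_comp_idx (typC D A)]; exact hc2 D A hs
    · exact idx_e_computable.of_eq fun i => (typC_fst D A (idx i)).symm
    · exact sg_idx (P := fun p v => (v : ℕ∞) < (typC D A p).2.1) h1
    · exact sg_idx (P := fun p v => v ∈ (typC D A p).2.2) h2

end Pool.Agent.NonLow
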