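import Pool.Agent.NonLow.Stmts2

/-!
# Interface with Mathlib: lowness and `Δ₂`
-/

set_option autoImplicit false

namespace Pool.Agent.NonLow

open Encodable

theorem ib_chi (A : ℕ → Prop) (n v : ℕ) :
    chi A n = v ↔ (v = 1 ∧ A n) ∨ (v = 0 ∧ ¬ A n) := by
  unfold chi
  by_cases h : A n <;> simp [h, eq_comm]

/-- the graph of a characteristic function -/
theorem ib_chi_dl {X : ℕ → ℕ} {n : ℕ} {A : ℕ → Prop} (h : Dl X n A) :
    Dl X n (fun p : ℕ × ℕ => chi A p.1 = p.2) := by
  have h1 : Dl X n (fun p : ℕ × ℕ => A p.1) := h.comp (f := fun p : ℕ × ℕ => p.1) Computable.fst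
  have e1 : Dl X n (fun p : ℕ × ℕ => p.2 = 1) := Dl.eq Computable.snd (Computable.const 1)
  have e0 : Dl X n (fun p : ℕ × ℕ => p.2 = 0) := Dl.eq Computable.snd (Computable.const 0)
  exact ((e1.and h1).or (e0.and h1.not)).of_iff fun p => ib_chi A p.1 p.2

theorem ib_halt : Sg Z 0 Halt := by
  have hc : Computable (fun p : ℕ × ℕ =>
      (Nat.Partrec.Code.evaln p.2 (Denumerable.ofNat Nat.Partrec.Code p.1.unpair.1)
        p.1.unpair.2).isSome) := by
    refine Primrec.to_comp ?_
    refine Primrec.option_isSome.comp ?_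
    refine Nat.Partrec.Code.primrec_evaln.comp (Primrec.pair (Primrec.pair Primrec.snd ?_) ?_)
    · exact (Primrec.ofNat Nat.Partrec.Code).comp
        (Primrec.fst.comp (Primrec.unpair.comp Primrec.fst))
    · exact Primrec.snd.comp (Primrec.unpair.comp Primrec.fst)
  have h1 : Sg Z 0 (fun p : ℕ × ℕ =>
      (Nat.Partrec.Code.evaln p.2 (Denumerable.ofNat Nat.Partrec.Code p.1.unpair.1)
        p.1.unpair.2).isSome = true) := Sg.of_bool hc fun _ => Iff.rfl
  refine (Sg.exN (P := fun (n k : ℕ) => (Nat.Partrec.Code.evaln k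
    (Denumerable.ofNat Nat.Partrec.Code n.unpair.1) n.unpair.2).isSome = true) h1).of_iff
    fun n => ?_
  unfold Halt
  rw [Part.dom_iff_mem]
  constructor
  · rintro ⟨y, hy⟩
    obtain ⟨k, hk⟩ := Nat.Partrec.Code.evaln_complete.1 hy
    exact ⟨k, Option.isSome_iff_exists.2 ⟨y, hk⟩⟩
  · rintro ⟨k, hk⟩
    obtain ⟨y, hy⟩ := Option.isSome_iff_exists.1 hk
    exact ⟨y, Nat.Partrec.Code.evaln_complete.2 ⟨k, hy⟩⟩

theorem ib_seg_iff (X : ℕ → ℕ) (w : List ℕ) (s : ℕ) :
    seg X s = w ↔ w.length = s ∧ ∀ i, i < s → X i = w.getD i 0 := by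
  constructor
  · rintro rfl
    exact ⟨seg_length X s, fun i hi => (seg_getD X hi 0).symm⟩
  · rintro ⟨h1, h2⟩
    refine List.ext_getElem (by rw [seg_length, h1]) fun i hi hi' => ?_
    have hi2 : i < s := by rwa [seg_length] at hi
    have e1 := seg_getD X hi2 0
    have e2 := h2 i hi2
    rw [List.getD_eq_getElem _ _ hi] at e1
    rw [List.getD_eq_getElem _ _ hi'] at e2
    rw [e1, e2]

theorem ib_seg {X : ℕ → ℕ} (hX : Dl Z 1 (fun p : ℕ × ℕ => X p.1 = p.2)) :
    Dl Z 1 (fun p : ℕ × List ℕ => seg X p.1 = p.2) := by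
  have h1 : Dl Z 1 (fun p : ℕ × List ℕ => p.2.length = p.1) :=
    Dl.eq (Computable.list_length.comp Computable.snd) Computable.fst
  have h2 : Dl Z 1 (fun p : (ℕ × List ℕ) × ℕ => X p.2 = p.1.2.getD p.2 0) :=
    hX.comp (f := fun p : (ℕ × List ℕ) × ℕ => (p.2, p.1.2.getD p.2 0))
      (Computable.snd.pair ((Primrec.list_getD 0).to_comp.comp
        (Computable.snd.comp Computable.fst) Computable.snd))
  exact (h1.and (Dl.ball (P := fun (p : ℕ × List ℕ) (i : ℕ) => X i = p.2.getD i 0) h2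
    (f := fun p : ℕ × List ℕ => p.1) Computable.fst)).of_iff fun p => ib_seg_iff X p.2 p.1

/-- `Σ₁(0')` predicates are `Σ₂` -/
theorem ib_down {X : ℕ → ℕ} (hX : Dl Z 1 (fun p : ℕ × ℕ => X p.1 = p.2))
    {α : Type} [Primcodable α] {P : α → Prop} (h : Sg X 0 P) : Sg Z 1 P := by
  obtain ⟨θ, hθ, h⟩ := h
  have h1 : Sg Z 1 (fun p : (α × ℕ) × List ℕ => seg X p.1.2 = p.2) :=
    (ib_seg hX).1.comp (f := fun p : (α × ℕ) × List ℕ => (p.1.2, p.2))
      ((Computable.snd.comp Computable.fst).pair Computable.snd)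
  have h2 : Sg Z 1 (fun p : (α × ℕ) × List ℕ => θ p.1.1 p.2 = true) :=
    Sg.of_bool (f := fun p : (α × ℕ) × List ℕ => θ p.1.1 p.2)
      (hθ.comp (Computable.fst.comp Computable.fst) Computable.snd) fun _ => Iff.rfl
  have h3 : Sg Z 1 (fun p : α × ℕ => θ p.1 (seg X p.2) = true) :=
    Sg.fsub (P := fun (p : α × ℕ) (w : List ℕ) => θ p.1 w = true)
      (f := fun p : α × ℕ => seg X p.2) h1 h2
  exact (Sg.exN (P := fun (x : α) (s : ℕ) => θ x (seg X s) = true) h3).of_iff h

/-- lightface `Σ₁` predicates are many-one reducible to the halting set -/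
theorem ib_code {β : Type} [Primcodable β] {R : β → Prop} (h : Sg Z 0 R) :
    ∃ c : ℕ, ∀ x, R x ↔ Halt (Nat.pair c (encode x)) := by
  obtain ⟨θ, hθ, h⟩ := h
  set g : ℕ → ℕ → Bool := fun m s =>
    ((decode (α := β) m).map (fun x => θ x (seg Z s))).getD false with hg
  have hseg : Computable (fun s : ℕ => seg Z s) := by
    have : Primrec (fun s : ℕ => (List.range s).map fun _ => 0) :=
      Primrec.list_map Primrec.list_range (Primrec.const 0).to₂
    exact this.to_comp
  have hgc : Computable₂ g := by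
    refine Computable.option_getD (Computable.option_map
      (f := fun p : ℕ × ℕ => decode (α := β) p.1)
      (g := fun (p : ℕ × ℕ) (x : β) => θ x (seg Z p.2))
      (Computable.decode.comp Computable.fst) ?_) (Computable.const false)
    exact hθ.comp Computable.snd (hseg.comp (Computable.snd.comp Computable.fst))
  have hp : Partrec (fun m : ℕ => Nat.rfind (fun s => Part.some (g m s))) :=
    Partrec.rfind hgc.partrec₂
  obtain ⟨c, hc⟩ := Nat.Partrec.Code.exists_code.1 (Partrec.nat_iff.1 hp)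
  refine ⟨encode c, fun x => ?_⟩
  unfold Halt
  rw [Nat.unpair_pair]
  simp only [Denumerable.ofNat_encode]
  rw [hc]
  have hr := Nat.rfind_dom (p := (fun s => Part.some (g (encode x) s) : ℕ →. Bool))
  refine (h x).trans (Iff.trans ?_ hr.symm)
  constructor
  · rintro ⟨s, hs⟩
    refine ⟨s, ?_, fun _ => trivial⟩
    show true ∈ Part.some (g (encode x) s)
    simp [hg, hs]
  · rintro ⟨s, hs, _⟩
    refine ⟨s, ?_⟩
    have hs' : true ∈ Part.some (g (encode x) s) := hs
    simpa [hg] using hs'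

/-- `Σ₂` predicates are `Σ₁(0')` -/
theorem ib_up {α : Type} [Primcodable α] {P : α → Prop} (h : Sg Z 1 P) :
    Sg (chi Halt) 0 P := by
  obtain ⟨Q, hQ, h⟩ := h
  obtain ⟨c, hc⟩ := ib_code hQ
  have h1 : Sg (chi Halt) 0 (fun p : α × ℕ => chi Halt (Nat.pair c (encode p)) = 0) :=
    (Dl.oracle (chi Halt)).1.comp (f := fun p : α × ℕ => (Nat.pair c (encode p), 0))
      (((Primrec₂.natPair.to_comp.comp (Computable.const c) Computable.encode)).pair
        (Computable.const 0))
  refine (Sg.exN (P := fun (x : α) (a : ℕ) => chi Halt (Nat.pair c (encode (x, a))) = 0)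
    h1).of_iff fun x => ?_
  rw [h x]
  refine exists_congr fun a => ?_
  have h2 := hc (x, a)
  rw [ib_chi]
  constructor
  · intro h3
    exact Or.inr ⟨rfl, fun h4 => h2.2 h4 h3⟩
  · rintro (⟨h3, _⟩ | ⟨_, h3⟩)
    · exact absurd h3 (by decide)
    · by_contra h4
      exact h3 (h2.1 h4)

/-- `Σ₁(X)` sets are domains of functions partial recursive in `X` -/
theorem ib_dom (h2 : StmtI2) {X : ℕ → ℕ} {A : ℕ → Prop} (h : Sg X 0 A) :
    ∃ f : ℕ →. ℕ, TuringReducible f (PFun.lift X) ∧ ∀ n, (f n).Dom ↔ A n := by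
  classical
  obtain ⟨θ, hθ, h⟩ := h
  set G : ℕ → ℕ := fun m => if θ m.unpair.1 (seg X m.unpair.2) = true then 0 else 1 with hG
  have hD : Dl X 0 (fun p : ℕ × ℕ => θ p.1.unpair.1 (seg X p.1.unpair.2) = true) :=
    (Dl.seg X hθ).comp (f := fun p : ℕ × ℕ => (p.1.unpair.1, p.1.unpair.2))
      ((Computable.fst.comp (Computable.unpair.comp Computable.fst)).pair
        (Computable.snd.comp (Computable.unpair.comp Computable.fst)))
  have e1 : Dl X 0 (fun p : ℕ × ℕ => p.2 = 1) := Dl.eq Computable.snd (Computable.const 1)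
  have e0 : Dl X 0 (fun p : ℕ × ℕ => p.2 = 0) := Dl.eq Computable.snd (Computable.const 0)
  have hgr : Sg X 0 (fun p : ℕ × ℕ => G p.1 = p.2) := by
    refine (((e0.and hD).or (e1.and hD.not)).of_iff fun p => ?_).1
    simp only [hG]
    by_cases hb : θ p.1.unpair.1 (seg X p.1.unpair.2) = true <;> simp [hb, eq_comm]
  have hGr : RecursiveIn {PFun.lift X} (PFun.lift G) := h2 X G hgr
  refine ⟨_, RecursiveIn.iff_nat.2 (Nat.RecursiveIn.rfind (RecursiveIn.iff_nat.1 hGr)),
    fun n => ?_⟩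
  have hr := Nat.rfind_dom
    (p := (fun s => Part.some (decide (G (Nat.pair n s) = 0)) : ℕ →. Bool))
  have he : (fun s => Part.some (decide (G (Nat.pair n s) = 0)) : ℕ →. Bool)
      = (fun s => (fun m => decide (m = 0)) <$> Part.some (G (Nat.pair n s))) := by
    funext s
    exact (Part.map_some _ _).symm
  have hr2 : (Nat.rfind (fun s => (fun m => decide (m = 0)) <$> Part.some (G (Nat.pair n s)) :
      ℕ →. Bool)).Dom ↔ A n := by
    rw [← he]
    refine hr.trans (Iff.trans ?_ (h n).symm)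
    constructor
    · rintro ⟨s, hs, _⟩
      refine ⟨s, ?_⟩
      have hs' : true ∈ Part.some (decide (G (Nat.pair n s) = 0)) := hs
      rw [Part.mem_some_iff] at hs'
      have hs2 : G (Nat.pair n s) = 0 := of_decide_eq_true hs'.symm
      simp only [hG, Nat.unpair_pair] at hs2
      by_contra hc
      rw [if_neg hc] at hs2
      exact absurd hs2 (by decide)
    · rintro ⟨s, hs⟩
      refine ⟨s, ?_, fun _ => trivial⟩
      show true ∈ Part.some (decide (G (Nat.pair n s) = 0))
      rw [Part.mem_some_iff, eq_comm, decide_eq_true_iff]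
      simp only [hG, Nat.unpair_pair]
      rw [if_pos hs]
  exact hr2

theorem i3_main (h1 : StmtI1) (h2 : StmtI2) : StmtI3 := by
  intro X hX α _ P hP
  have hA : Sg X 0 (fun n : ℕ => ∃ x : α, encode x = n ∧ P x) := by
    refine Sg.ex (P := fun (n : ℕ) (x : α) => encode x = n ∧ P x) (Sg.and ?_ ?_)
    · exact (Dl.eq (Computable.encode.comp Computable.snd) Computable.fst).1
    · exact hP.comp (f := fun p : ℕ × α => p.2) Computable.snd
  obtain ⟨f, hf, hfd⟩ := ib_dom h2 hA
  have hg := h1 (chi Halt) _ (hX f hf)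
  have hg2 := ib_down (ib_chi_dl ib_halt.dl) hg
  have hD : Dl Z 1 (fun n => (f n).Dom) := by
    constructor
    · refine (hg2.comp (f := fun n : ℕ => (n, 1))
        (Computable.id.pair (Computable.const 1))).of_iff fun n => ?_
      show (f n).Dom ↔ (1 : ℕ) ∈ Part.some (chi (fun n => (f n).Dom) n)
      rw [Part.mem_some_iff, eq_comm, ib_chi]
      simp
    · refine (hg2.comp (f := fun n : ℕ => (n, 0))
        (Computable.id.pair (Computable.const 0))).of_iff fun n => ?_
      show ¬ (f n).Dom ↔ (0 : ℕ) ∈ Part.some (chi (fun n => (f n).Dom) n)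
      rw [Part.mem_some_iff, eq_comm, ib_chi]
      simp
  refine (hD.comp (f := fun x : α => encode x) Computable.encode).of_iff fun x => ?_
  rw [hfd]
  constructor
  · intro hx; exact ⟨x, rfl, hx⟩
  · rintro ⟨y, hy, hPy⟩
    rw [encode_injective hy] at hPy
    exact hPy

theorem i4_main (h1 : StmtI1) (h2 : StmtI2) : StmtI4 := by
  intro X hX
  have hX' : ∃ f : ℕ →. ℕ, TuringReducible f (PFun.lift X) ∧
      ¬ TuringReducible (PFun.lift (chi fun n => (f n).Dom)) (PFun.lift (chi Halt)) := by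
    by_contra hc
    apply hX
    intro f hf
    by_contra hn
    exact hc ⟨f, hf, hn⟩
  obtain ⟨f, hf, hn⟩ := hX'
  refine ⟨fun n => (f n).Dom, ?_, fun hD => hn ?_⟩
  · exact (Sg.exN (P := fun (n v : ℕ) => v ∈ f n) (h1 X f hf)).of_iff fun n => Part.dom_iff_mem
  · exact h2 (chi Halt) _ (ib_chi_dl ⟨ib_up hD.1, ib_up hD.2⟩).1

end Pool.Agent.NonLow
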