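import Pool.Agent.NonLow.Stmts

/-!
# Congruence of the sums `LL` and `Lo` (module O4)
-/

set_option autoImplicit false

namespace Pool.Agent.NonLow

/-- gadgets with isomorphic centres are isomorphic -/
theorem LLiso_GG (k : ℕ) (E E' : ℕ → Qd → Prop) (h : Nonempty (PP E ≃o PP E')) :
    Nonempty (GG k E ≃o GG k E') := by
  obtain ⟨f⟩ := h
  exact ⟨OrderIso.sumLexCongr (OrderIso.refl _) (OrderIso.sumLexCongr f (OrderIso.refl _))⟩

theorem LLiso_GG_can (hp : StmtPP) (k : ℕ) (E : ℕ → Qd → Prop) (hE : EG E) (V : ℕ∞)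
    (hV : nE E = V) : Nonempty (GG k E ≃o GG k (can V)) := by
  subst hV
  exact LLiso_GG k E _ (hp E hE)

theorem LLiso_DD (hs : StmtShuffle) (hp : StmtPP) (E : ℕ → ℕ → Qd → Prop)
    (hE : ∀ k, EG (E k)) (F : Finset ℕ)
    (hF : Set.range (fun k => nE (E k)) = insert ⊤ ((fun f : ℕ => (f : ℕ∞)) '' (F : Set ℕ))) :
    Nonempty (DD E ≃o DD (fun k => can (enumF F k))) := by
  refine hs (fun k => GG 3 (E k)) (fun k => GG 3 (can (enumF F k))) ?_ ?_
  · intro k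
    have hk : nE (E k) ∈ Set.range (fun k => nE (E k)) := ⟨k, rfl⟩
    rw [hF] at hk
    rcases hk with hk | ⟨f, hf, hk⟩
    · obtain ⟨j, hj⟩ := Infinite.exists_notMem_finset F
      refine ⟨j, LLiso_GG_can hp 3 (E k) (hE k) _ ?_⟩
      rw [hk]
      simp [enumF, hj]
    · refine ⟨f, LLiso_GG_can hp 3 (E k) (hE k) _ ?_⟩
      have hf' : f ∈ F := hf
      simp only [enumF, hf', if_true]
      exact hk.symm
  · intro j
    have hj : enumF F j ∈ insert (⊤ : ℕ∞) ((fun f : ℕ => (f : ℕ∞)) '' (F : Set ℕ)) := by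
      by_cases h : j ∈ F
      · right
        exact ⟨j, h, by simp [enumF, h]⟩
      · left
        simp [enumF, h]
    rw [← hF] at hj
    obtain ⟨k, hk⟩ := hj
    exact ⟨k, LLiso_GG_can hp 3 (E k) (hE k) _ hk⟩

/-- the component of type `τ` -/
abbrev LLisoK (τ : Typ) : Type := KK τ.1 (fun k => can (enumF τ.2.2 k)) (can τ.2.1)

theorem LLiso_KK (hs : StmtShuffle) (hp : StmtPP) (τ : Typ) (e : ℕ) (E2 : ℕ → ℕ → Qd → Prop)
    (E1 : ℕ → Qd → Prop) (he : e = τ.1) (h2 : ∀ k, EG (E2 k)) (h1 : EG E1)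
    (hn : nE E1 = τ.2.1)
    (hr : Set.range (fun k => nE (E2 k)) = insert ⊤ ((fun f : ℕ => (f : ℕ∞)) '' (τ.2.2 : Set ℕ))) :
    Nonempty (KK e E2 E1 ≃o LLisoK τ) := by
  subst he
  obtain ⟨f⟩ := LLiso_DD hs hp E2 h2 τ.2.2 hr
  obtain ⟨g⟩ := LLiso_GG_can hp 4 E1 h1 _ hn
  exact ⟨OrderIso.sumLexCongr (OrderIso.refl _) (OrderIso.sumLexCongr f g)⟩

theorem ll_main (_hq : StmtQd) (hs : StmtShuffle) (hp : StmtPP) : StmtLL := by
  intro t e E2 E1 he h2 h1 hn hr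
  have key : ∀ i, Nonempty (KK (e i) (E2 i) (E1 i) ≃o LLisoK (t i)) := fun i =>
    LLiso_KK hs hp (t i) (e i) (E2 i) (E1 i) (he i) (h2 i) (h1 i) (hn i) (hr i)
  exact hs (fun i => KK (e i) (E2 i) (E1 i)) (fun i => LLisoK (t i))
    (fun i => ⟨i, key i⟩) (fun i => ⟨i, key i⟩)

theorem lo_main (_hq : StmtQd) (hs : StmtShuffle) (_hp : StmtPP) : StmtLo := by
  intro t t' h
  have key : ∀ i j, t i = t' j → Nonempty (LLisoK (t i) ≃o LLisoK (t' j)) := by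
    intro i j hij
    rw [hij]
    exact ⟨OrderIso.refl _⟩
  refine hs (fun i => LLisoK (t i)) (fun i => LLisoK (t' i)) ?_ ?_
  · intro i
    have : t i ∈ Set.range t' := h ▸ ⟨i, rfl⟩
    obtain ⟨j, hj⟩ := this
    exact ⟨j, key i j hj.symm⟩
  · intro j
    have : t' j ∈ Set.range t := h.symm ▸ ⟨j, rfl⟩
    obtain ⟨i, hi⟩ := this
    exact ⟨i, key i j hi⟩

end Pool.Agent.NonLow
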