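import Pool.Agent.NonLow.Stage

/-!
# The limit lemma relative to `0'` (module TL)
-/

set_option autoImplicit false

namespace Pool.Agent.NonLow

/-- combinatorial core: `W k` is the property that `k` is never refuted, `R k s` says that `k` is
refuted by stage `s` -/
private theorem Lim_core (A : Prop) (R : ℕ → ℕ → Prop)
    (hmono : ∀ k s s', s ≤ s' → R k s → R k s')
    (hpos : A → ∃ k, k % 2 = 0 ∧ ∀ s, ¬ R k s)
    (hneg : ¬ A → ∃ k, k % 2 = 1 ∧ ∀ s, ¬ R k s)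
    (hpos' : ∀ k, k % 2 = 0 → (∀ s, ¬ R k s) → A)
    (hneg' : ∀ k, k % 2 = 1 → (∀ s, ¬ R k s) → ¬ A) :
    ∃ s0, ∀ s, s0 ≤ s →
      ((∃ k, k < s + 1 ∧ (k % 2 = 0 ∧ ¬ R k s ∧ ∀ k', k' < k → R k' s)) ↔ A) := by
  have hex : ∃ k, ∀ s, ¬ R k s := by
    by_cases hA : A
    · obtain ⟨k, _, h⟩ := hpos hA
      exact ⟨k, h⟩
    · obtain ⟨k, _, h⟩ := hneg hA
      exact ⟨k, h⟩
  classical
  obtain ⟨k0, hk0, hmin⟩ : ∃ k0, (∀ s, ¬ R k0 s) ∧ ∀ k', k' < k0 → ∃ s, R k' s := by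
    refine ⟨Nat.find hex, Nat.find_spec hex, fun k' hk' => ?_⟩
    have := Nat.find_min hex hk'
    push Not at this
    exact this
  obtain ⟨s0, h0⟩ := stage_bound R k0 hmin
  refine ⟨max s0 k0, fun s hs => ?_⟩
  have hs1 : s0 ≤ s := (le_max_left _ _).trans hs
  have hs2 : k0 ≤ s := (le_max_right _ _).trans hs
  have hR : ∀ k', k' < k0 → R k' s := by
    intro k' hk'
    obtain ⟨t, ht, ht'⟩ := h0 k' hk'
    exact hmono _ _ _ (ht.trans hs1) ht'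
  constructor
  · rintro ⟨k, _, hk2, hk3, hk4⟩
    have h1 : k0 ≤ k := by
      by_contra hc
      exact hk3 (hR k (not_le.1 hc))
    have h2 : k ≤ k0 := by
      by_contra hc
      exact hk0 s (hk4 k0 (not_le.1 hc))
    have h3 : k = k0 := le_antisymm h2 h1
    subst h3
    exact hpos' k hk2 hk0
  · intro hA
    have h1 : k0 % 2 = 0 := by
      rcases Nat.mod_two_eq_zero_or_one k0 with h | h
      · exact h
      · exact absurd hA (hneg' k0 h hk0)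
    exact ⟨k0, by omega, h1, hk0 s, hR⟩

theorem lim_main : StmtLim := by
  rintro A ⟨⟨P, hP, hA⟩, ⟨N, hN, hA'⟩⟩
  obtain ⟨P1, hP1, hP2⟩ := hP
  obtain ⟨N1, hN1, hN2⟩ := hN
  have dP : Dl Z 1 P1 := Sg.dlc hP1
  have dN : Dl Z 1 N1 := Sg.dlc hN1
  set M : ℕ → ℕ → ℕ → Prop := fun m k z =>
    (k % 2 = 0 ∧ P1 ((m, k / 2), z)) ∨ (k % 2 = 1 ∧ N1 ((m, k / 2), z)) with hM
  set R : ℕ → ℕ → ℕ → Prop := fun m k s => ∃ z, z < s + 1 ∧ M m k z with hR
  -- complexity of `M`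
  have hdiv : Computable (fun k : ℕ => k / 2) :=
    (Primrec.nat_div.comp Primrec.id (Primrec.const 2)).to_comp
  have hmod : Computable (fun k : ℕ => k % 2) :=
    (Primrec.nat_mod.comp Primrec.id (Primrec.const 2)).to_comp
  have dM : Dl Z 1 (fun q : (ℕ × ℕ × ℕ) × ℕ => M q.1.1 q.1.2.1 q.2) := by
    have c1 : Computable (fun q : (ℕ × ℕ × ℕ) × ℕ => q.1.2.1) :=
      Computable.fst.comp (Computable.snd.comp Computable.fst)
    have c2 : Computable (fun q : (ℕ × ℕ × ℕ) × ℕ => ((q.1.1, q.1.2.1 / 2), q.2)) :=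
      ((Computable.fst.comp Computable.fst).pair (hdiv.comp c1)).pair Computable.snd
    exact ((Dl.eq (hmod.comp c1) (Computable.const 0)).and (dP.comp c2)).or
      ((Dl.eq (hmod.comp c1) (Computable.const 1)).and (dN.comp c2))
  have dR : Dl Z 1 (fun q : ℕ × ℕ × ℕ => R q.1 q.2.1 q.2.2) :=
    Dl.bex (P := fun (q : ℕ × ℕ × ℕ) (z : ℕ) => M q.1 q.2.1 z) dM (f := fun q => q.2.2 + 1)
      (Computable.succ.comp (Computable.snd.comp Computable.snd))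
  -- the approximation
  have d1 : Dl Z 1 (fun q : ((ℕ × ℕ) × ℕ) × ℕ => R q.1.1.1 q.2 q.1.1.2) :=
    dR.comp (f := fun q : ((ℕ × ℕ) × ℕ) × ℕ => (q.1.1.1, q.2, q.1.1.2))
      ((Computable.fst.comp (Computable.fst.comp Computable.fst)).pair
        (Computable.snd.pair (Computable.snd.comp (Computable.fst.comp Computable.fst))))
  have d2 : Dl Z 1 (fun q : (ℕ × ℕ) × ℕ => ∀ k', k' < q.2 → R q.1.1 k' q.1.2) :=
    Dl.ball (P := fun (q : (ℕ × ℕ) × ℕ) (k' : ℕ) => R q.1.1 k' q.1.2) d1 (f := fun q => q.2)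
      Computable.snd
  have d3 : Dl Z 1 (fun q : (ℕ × ℕ) × ℕ => ¬ R q.1.1 q.2 q.1.2) :=
    (dR.comp (f := fun q : (ℕ × ℕ) × ℕ => (q.1.1, q.2, q.1.2))
      ((Computable.fst.comp Computable.fst).pair
        (Computable.snd.pair (Computable.snd.comp Computable.fst)))).not
  have d4 : Dl Z 1 (fun q : (ℕ × ℕ) × ℕ =>
      q.2 % 2 = 0 ∧ ¬ R q.1.1 q.2 q.1.2 ∧ ∀ k', k' < q.2 → R q.1.1 k' q.1.2) :=
    (Dl.eq (hmod.comp Computable.snd) (Computable.const 0)).and (d3.and d2)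
  have d5 : Dl Z 1 (fun p : ℕ × ℕ => ∃ k, k < p.2 + 1 ∧
      (k % 2 = 0 ∧ ¬ R p.1 k p.2 ∧ ∀ k', k' < k → R p.1 k' p.2)) :=
    Dl.bex (P := fun (p : ℕ × ℕ) (k : ℕ) =>
      k % 2 = 0 ∧ ¬ R p.1 k p.2 ∧ ∀ k', k' < k → R p.1 k' p.2) d4 (f := fun p => p.2 + 1)
      (Computable.succ.comp Computable.snd)
  refine ⟨_, d5, fun m => ?_⟩
  have hnP : ∀ x, P (m, x) ↔ ∀ z, ¬ P1 ((m, x), z) := by
    intro x
    have := hP2 (m, x)
    constructor
    · intro h z hz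
      exact this.2 ⟨z, hz⟩ h
    · intro h
      by_contra hc
      obtain ⟨z, hz⟩ := this.1 hc
      exact h z hz
  have hnN : ∀ x, N (m, x) ↔ ∀ z, ¬ N1 ((m, x), z) := by
    intro x
    have := hN2 (m, x)
    constructor
    · intro h z hz
      exact this.2 ⟨z, hz⟩ h
    · intro h
      by_contra hc
      obtain ⟨z, hz⟩ := this.1 hc
      exact h z hz
  have hAm := hA m
  have hAm' := hA' m
  refine Lim_core (A m) (fun k s => R m k s) ?_ ?_ ?_ ?_ ?_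
  · rintro k s s' hss ⟨z, hz, hz'⟩
    exact ⟨z, by omega, hz'⟩
  · intro h
    obtain ⟨x, hx⟩ := hAm.1 h
    refine ⟨2 * x, by omega, fun s => ?_⟩
    rintro ⟨z, _, hz | hz⟩
    · rw [show 2 * x / 2 = x by omega] at hz
      exact (hnP x).1 hx z hz.2
    · omega
  · intro h
    obtain ⟨x, hx⟩ := hAm'.1 h
    refine ⟨2 * x + 1, by omega, fun s => ?_⟩
    rintro ⟨z, _, hz | hz⟩
    · omega
    · rw [show (2 * x + 1) / 2 = x by omega] at hz
      exact (hnN x).1 hx z hz.2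
  · intro k hk h
    refine hAm.2 ⟨k / 2, (hnP _).2 fun z hz => ?_⟩
    exact h z ⟨z, by omega, Or.inl ⟨hk, hz⟩⟩
  · intro k hk h
    refine hAm'.2 ⟨k / 2, (hnN _).2 fun z hz => ?_⟩
    exact h z ⟨z, by omega, Or.inr ⟨hk, hz⟩⟩

end Pool.Agent.NonLow
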