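import Pool.Agent.NonLow.CovLex

/-!
# O5a: adjacency in `PP E`
-/

set_option autoImplicit false

namespace Pool.Agent.NonLow

section generic

variable {Q S : Type} [LinearOrder Q] [LinearOrder S]

private theorem ppa_unit (a b : Unit) : ¬ a ⋖ b := fun h => absurd h.1 (lt_irrefl _)

/-- adjacency in `Q + 1 + S + 1` for dense `Q` without last element, `S` empty or dense without
endpoints -/
theorem ppa_fibre [DenselyOrdered Q] [NoMaxOrder Q]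
    (hS : IsEmpty S ∨ (DenselyOrdered S ∧ NoMaxOrder S ∧ NoMinOrder S))
    (a b : Q ⊕ₗ (Unit ⊕ₗ (S ⊕ₗ Unit))) :
    a ⋖ b ↔ IsEmpty S ∧ a = inR (inL ()) ∧ b = inR (inR (inR ())) := by
  constructor
  · intro hab
    rcases (cl_sum_covBy_iff a b).1 hab with ⟨q, q', rfl, rfl, hc⟩ | ⟨u, v, rfl, rfl, hc⟩ |
      ⟨q, v, rfl, rfl, hm, -⟩
    · exact absurd hc not_covBy
    · rcases (cl_sum_covBy_iff u v).1 hc with ⟨a, a', rfl, rfl, hc'⟩ | ⟨b, b', rfl, rfl, hc'⟩ |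
        ⟨a, b, rfl, rfl, -, hm⟩
      · exact absurd hc' (ppa_unit _ _)
      · exfalso
        rcases (cl_sum_covBy_iff b b').1 hc' with ⟨s, s', rfl, rfl, hs⟩ | ⟨a, a', rfl, rfl, hs⟩ |
          ⟨s, a, rfl, rfl, hm, -⟩
        · rcases hS with h1 | ⟨h1, -, -⟩
          · exact h1.false s
          · exact not_covBy hs
        · exact ppa_unit _ _ hs
        · rcases hS with h1 | ⟨-, h1, -⟩
          · exact h1.false s
          · exact not_isMax s hm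
      · rcases cl_sum_cases b with ⟨s, rfl⟩ | ⟨b, rfl⟩
        · exfalso
          rw [isMin_inL] at hm
          rcases hS with h1 | ⟨-, -, h1⟩
          · exact h1.false s
          · exact not_isMin s hm
        · exact ⟨⟨fun s => hm.not_lt (inL_lt_inR s b)⟩, rfl, rfl⟩
    · exact absurd hm (not_isMax q)
  · rintro ⟨hj, rfl, rfl⟩
    refine inR_covBy_inR.2 (inL_covBy_inR.2 ⟨fun b _ => le_refl _, ?_⟩)
    rw [isMin_iff_forall_not_lt]
    intro c hc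
    rcases cl_sum_cases c with ⟨s, rfl⟩ | ⟨b, rfl⟩
    · exact hj.false s
    · exact lt_irrefl _ (inR_lt_inR.1 hc)

theorem ppa_fibre_noMin [NoMinOrder Q] [Nonempty Q] (a : Q ⊕ₗ (Unit ⊕ₗ (S ⊕ₗ Unit))) :
    ∃ b, b < a := by
  rcases cl_sum_cases a with ⟨q, rfl⟩ | ⟨r, rfl⟩
  · obtain ⟨c, hc⟩ := exists_lt q
    exact ⟨inL c, inL_lt_inL.2 hc⟩
  · obtain ⟨c⟩ := (inferInstance : Nonempty Q)
    exact ⟨inL c, inL_lt_inR _ _⟩

end generic

theorem qd_dense (hq : StmtQd) : DenselyOrdered Qd :=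
  ⟨fun a b h => by
    obtain ⟨c, -, h1, h2⟩ := hq.1 0 a b h
    exact ⟨c, h1, h2⟩⟩

theorem qd_noMax (hq : StmtQd) : NoMaxOrder Qd :=
  ⟨fun a => by
    obtain ⟨c, -, h1⟩ := hq.2.1 0 a
    exact ⟨c, h1⟩⟩

theorem qd_noMin (hq : StmtQd) : NoMinOrder Qd :=
  ⟨fun a => by
    obtain ⟨c, -, h1⟩ := hq.2.2 0 a
    exact ⟨c, h1⟩⟩

/-- a good set is dense without endpoints -/
theorem good_order {P : Qd → Prop} (h : Good P) :
    DenselyOrdered {q : Qd // P q} ∧ NoMaxOrder {q : Qd // P q} ∧ NoMinOrder {q : Qd // P q} := by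
  refine ⟨⟨fun a b hab => ?_⟩, ⟨fun a => ?_⟩, ⟨fun a => ?_⟩⟩
  · obtain ⟨c, h1, h2, h3⟩ := h.1 a.1 b.1 (Subtype.coe_lt_coe.2 hab)
    exact ⟨⟨c, h1⟩, Subtype.coe_lt_coe.1 h2, Subtype.coe_lt_coe.1 h3⟩
  · obtain ⟨c, h1, h2⟩ := h.2.1 a.1
    exact ⟨⟨c, h1⟩, Subtype.coe_lt_coe.1 h2⟩
  · obtain ⟨c, h1, h2⟩ := h.2.2 a.1
    exact ⟨⟨c, h1⟩, Subtype.coe_lt_coe.1 h2⟩

theorem eg_order {E : ℕ → Qd → Prop} (hE : EG E) (j : ℕ) :
    IsEmpty {q : Qd // E j q} ∨ (DenselyOrdered {q : Qd // E j q} ∧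
      NoMaxOrder {q : Qd // E j q} ∧ NoMinOrder {q : Qd // E j q}) := by
  rcases hE j with h | h
  · exact Or.inl ⟨fun s => h s.1 s.2⟩
  · exact Or.inr (good_order h)

/-- the fibre of `PP E` over `j` -/
abbrev PPf (E : ℕ → Qd → Prop) (j : ℕ) : Type :=
  Qd ⊕ₗ (Unit ⊕ₗ ({q : Qd // E j q} ⊕ₗ Unit))

/-- the first of the two possibly adjacent points of the fibre over `j` -/
def ppL (E : ℕ → Qd → Prop) (j : ℕ) : PP E := sg (α := PPf E) j (inR (inL ()))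

/-- the second of the two possibly adjacent points of the fibre over `j` -/
def ppR (E : ℕ → Qd → Prop) (j : ℕ) : PP E := sg (α := PPf E) j (inR (inR (inR ())))

theorem ppa_noMinOrder (hq : StmtQd) (E : ℕ → Qd → Prop) (j : ℕ) : NoMinOrder (PPf E j) :=
  have := qd_noMin hq
  ⟨ppa_fibre_noMin⟩

theorem ppa_ne {E : ℕ → Qd → Prop} {i j : ℕ} : ppL E i ≠ ppR E j := by
  intro h
  have hij : i = j := sg_fst_eq h
  subst hij
  have h1 := sg_injective (α := PPf E) i h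
  exact inL_ne_inR _ _ (inR_injective h1)

theorem ppL_injective (E : ℕ → Qd → Prop) : Function.Injective (ppL E) := fun _ _ h =>
  sg_fst_eq (α := PPf E) h

theorem ppR_injective (E : ℕ → Qd → Prop) : Function.Injective (ppR E) := fun _ _ h =>
  sg_fst_eq (α := PPf E) h

/-- adjacency in `PP E` -/
theorem pp_covBy_iff (hq : StmtQd) {E : ℕ → Qd → Prop} (hE : EG E) (x y : PP E) :
    x ⋖ y ↔ ∃ j, (∀ q, ¬ E j q) ∧ x = ppL E j ∧ y = ppR E j := by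
  have := fun j => ppa_noMinOrder hq E j
  have := qd_dense hq
  have := qd_noMax hq
  rw [cl_sg_covBy_iff_of_noMin (α := PPf E) x y]
  constructor
  · rintro ⟨j, a, b, rfl, rfl, hab⟩
    obtain ⟨h1, rfl, rfl⟩ := (ppa_fibre (eg_order hE j) a b).1 hab
    exact ⟨j, fun q hq' => h1.false ⟨q, hq'⟩, rfl, rfl⟩
  · rintro ⟨j, hj, rfl, rfl⟩
    exact ⟨j, _, _, rfl, rfl, (ppa_fibre (eg_order hE j) _ _).2 ⟨⟨fun s => hj s.1 s.2⟩, rfl, rfl⟩⟩

theorem pp_exists_gt (E : ℕ → Qd → Prop) (x : PP E) : ∃ y, x < y := by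
  obtain ⟨j, a, rfl⟩ := cl_sg_cases (α := PPf E) x
  exact ⟨sg (α := PPf E) (j + 1) (inR (inL ())), sg_lt_of_lt (Nat.lt_succ_self j) _ _⟩

theorem pp_exists_lt (hq : StmtQd) (E : ℕ → Qd → Prop) (x : PP E) : ∃ y, y < x := by
  obtain ⟨j, a, rfl⟩ := cl_sg_cases (α := PPf E) x
  have := qd_noMin hq
  obtain ⟨b, hb⟩ := ppa_fibre_noMin a
  exact ⟨sg (α := PPf E) j b, sg_lt_sg.2 hb⟩

theorem pp_no_chain (hq : StmtQd) {E : ℕ → Qd → Prop} (hE : EG E) (x y z : PP E) (h : x ⋖ y) :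
    ¬ y ⋖ z := by
  intro h'
  obtain ⟨j, -, -, e1⟩ := (pp_covBy_iff hq hE _ _).1 h
  obtain ⟨i, -, e2, -⟩ := (pp_covBy_iff hq hE _ _).1 h'
  exact ppa_ne (e2.symm.trans e1)

theorem pp_encard (hq : StmtQd) {E : ℕ → Qd → Prop} (hE : EG E) :
    {a : PP E | ∃ b, a ⋖ b}.encard = nE E := by
  have h : {a : PP E | ∃ b, a ⋖ b} = ppL E '' {j : ℕ | ∀ q, ¬ E j q} := by
    ext a
    constructor
    · rintro ⟨b, hab⟩
      obtain ⟨j, hj, e1, -⟩ := (pp_covBy_iff hq hE _ _).1 hab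
      exact ⟨j, hj, e1.symm⟩
    · rintro ⟨j, hj, rfl⟩
      exact ⟨ppR E j, (pp_covBy_iff hq hE _ _).2 ⟨j, hj, rfl, rfl⟩⟩
  rw [h, (ppL_injective E).encard_image]
  rfl

theorem ppadj_main (hq : StmtQd) : StmtPPadj := fun E =>
  ⟨pp_exists_gt E, pp_exists_lt hq E, ⟨ppL E 0⟩, fun hE => ⟨pp_no_chain hq hE, pp_encard hq hE⟩⟩

end Pool.Agent.NonLow
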