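import Pool.Agent.NonLow.Stmts

/-!
# O3: the order type of `PP E` depends only on the number of adjacent pairs
-/

set_option autoImplicit false

namespace Pool.Agent.NonLow

/-! ## The fibre lemma -/

/-- **Fibre lemma.** Two linear orders with monotone maps to the same linear order and with
isomorphic fibres are isomorphic. -/
theorem ppi_fibre {M N ι : Type*} [LinearOrder M] [LinearOrder N] [LinearOrder ι]
    (f : M → ι) (g : N → ι) (hf : Monotone f) (hg : Monotone g)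
    (h : ∀ n, Nonempty ({x // f x = n} ≃o {y // g y = n})) : Nonempty (M ≃o N) := by
  have e : ∀ n, ({x // f x = n} ≃o {y // g y = n}) := fun n => (h n).some
  set F : M → N := fun x => (e (f x) ⟨x, rfl⟩).1 with hF
  have hFe : ∀ (n : ι) (z : {x // f x = n}), F z.1 = (e n z).1 := by
    rintro n ⟨x, rfl⟩
    rfl
  have hgF : ∀ x, g (F x) = f x := fun x => (e (f x) ⟨x, rfl⟩).2
  have hmono : StrictMono F := by
    intro x x' hx
    rcases (hf hx.le).lt_or_eq with h1 | h1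
    · by_contra h2
      have h3 := hg (not_lt.1 h2)
      rw [hgF, hgF] at h3
      exact absurd h1 (not_lt.2 h3)
    · have e1 := hFe (f x') ⟨x, h1⟩
      have e2 := hFe (f x') ⟨x', rfl⟩
      have h4 : (⟨x, h1⟩ : {y // f y = f x'}) < ⟨x', rfl⟩ := hx
      have h5 := (e (f x')).strictMono h4
      have h6 : (e (f x') ⟨x, h1⟩).1 < (e (f x') ⟨x', rfl⟩).1 := h5
      rw [← e1, ← e2] at h6
      exact h6
  have hsurj : Function.Surjective F := by
    intro y
    refine ⟨((e (g y)).symm ⟨y, rfl⟩).1, ?_⟩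
    rw [hFe (g y) ((e (g y)).symm ⟨y, rfl⟩)]
    simp
  exact ⟨hmono.orderIsoOfSurjective F hsurj⟩

/-! ## Counting -/

section cnt
variable (p : ℕ → Prop) [DecidablePred p]

theorem ppi_count_le (j : ℕ) : (Nat.count p j : ℕ∞) ≤ {i | p i}.encard := by
  rw [Nat.count_eq_card_filter_range, ← Set.encard_coe_eq_coe_finsetCard]
  refine Set.encard_le_encard ?_
  intro i hi
  simp at hi
  exact hi.2

theorem ppi_count_lt (j : ℕ) (hj : p j) : (Nat.count p j : ℕ∞) < {i | p i}.encard := by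
  have h := ppi_count_le p (j + 1)
  rw [Nat.count_succ_eq_succ_count hj] at h
  refine lt_of_lt_of_le ?_ h
  exact_mod_cast Nat.lt_succ_self _

theorem ppi_exists_lt (k : ℕ) (hk : (k : ℕ∞) < {i | p i}.encard) :
    ∃ j, p j ∧ Nat.count p j = k := by
  have hh : ∀ hf : (Set.ofPred p).Finite, k < hf.toFinset.card := by
    intro hf
    have h1 : {i | p i}.encard = (hf.toFinset.card : ℕ∞) := hf.encard_eq_coe_toFinset_card
    rw [h1] at hk
    exact_mod_cast hk
  exact ⟨Nat.nth p k, Nat.nth_mem k hh, Nat.count_nth hh⟩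

theorem ppi_lt_iff (k : ℕ) : (∃ j, p j ∧ Nat.count p j = k) ↔ (k : ℕ∞) < {i | p i}.encard := by
  constructor
  · rintro ⟨j, hj, rfl⟩
    exact ppi_count_lt p j hj
  · exact ppi_exists_lt p k

theorem ppi_le_iff (k : ℕ) : (∃ j, Nat.count p j = k) ↔ (k : ℕ∞) ≤ {i | p i}.encard := by
  constructor
  · rintro ⟨j, rfl⟩
    exact ppi_count_le p j
  · intro hk
    cases k with
    | zero => exact ⟨0, Nat.count_zero p⟩
    | succ k =>
      have h1 : (k : ℕ∞) < {i | p i}.encard := by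
        refine lt_of_lt_of_le ?_ hk
        exact_mod_cast Nat.lt_succ_self _
      obtain ⟨j, hj, hk⟩ := ppi_exists_lt p k h1
      exact ⟨j + 1, by rw [Nat.count_succ_eq_succ_count hj, hk]⟩

end cnt

/-! ## The level map -/

open Classical in
/-- the number of empty `E j'` with `j' < j` -/
noncomputable def ppiH (E : ℕ → Qd → Prop) (j : ℕ) : ℕ := Nat.count (fun j => ∀ q, ¬ E j q) j

theorem ppiH_mono (E : ℕ → Qd → Prop) : Monotone (ppiH E) := by
  classical
  exact Nat.count_monotone _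

theorem ppiH_succ_of (E : ℕ → Qd → Prop) (j : ℕ) (h : ∀ q, ¬ E j q) :
    ppiH E (j + 1) = ppiH E j + 1 := by
  classical
  exact Nat.count_succ_eq_succ_count h

theorem ppiH_succ_not (E : ℕ → Qd → Prop) (j : ℕ) (h : ¬ ∀ q, ¬ E j q) :
    ppiH E (j + 1) = ppiH E j := by
  classical
  exact Nat.count_succ_eq_count h

theorem ppiH_inj (E : ℕ → Qd → Prop) (i j : ℕ) (hi : ∀ q, ¬ E i q) (hj : ∀ q, ¬ E j q)
    (h : ppiH E i = ppiH E j) : i = j := by
  classical
  exact Nat.count_injective (p := fun j => ∀ q, ¬ E j q) hi hj h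

theorem ppiH_lt_iff (E : ℕ → Qd → Prop) (k : ℕ) :
    (∃ j, (∀ q, ¬ E j q) ∧ ppiH E j = k) ↔ (k : ℕ∞) < nE E := by
  classical
  exact ppi_lt_iff (fun j => ∀ q, ¬ E j q) k

theorem ppiH_le_iff (E : ℕ → Qd → Prop) (k : ℕ) :
    (∃ j, ppiH E j = k) ↔ (k : ℕ∞) ≤ nE E := by
  classical
  exact ppi_le_iff (fun j => ∀ q, ¬ E j q) k

/-! ## Elements of `PP E` -/

section elts
variable {E : ℕ → Qd → Prop}

/-- one block of the order `PP E` -/
abbrev PPi (E : ℕ → Qd → Prop) (j : ℕ) : Type := Qd ⊕ₗ (Unit ⊕ₗ ({q : Qd // E j q} ⊕ₗ Unit))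

/-- element of `PP E` -/
def ppiM (j : ℕ) (x : PPi E j) : PP E := toLex ⟨j, x⟩

/-- the four kinds of elements -/
def ppiA (E : ℕ → Qd → Prop) (j : ℕ) (q : Qd) : PPi E j := toLex (Sum.inl q)
/-- first point -/
def ppiB (E : ℕ → Qd → Prop) (j : ℕ) : PPi E j := toLex (Sum.inr (toLex (Sum.inl ())))
/-- middle points -/
def ppiC (E : ℕ → Qd → Prop) (j : ℕ) (q : {q : Qd // E j q}) : PPi E j :=
  toLex (Sum.inr (toLex (Sum.inr (toLex (Sum.inl q)))))
/-- last point -/
def ppiD (E : ℕ → Qd → Prop) (j : ℕ) : PPi E j :=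
  toLex (Sum.inr (toLex (Sum.inr (toLex (Sum.inr ())))))

theorem ppi_lt_of_idx {i j : ℕ} (h : i < j) (x : PPi E i) (y : PPi E j) :
    (ppiM i x : PP E) < ppiM j y := by
  rw [Sigma.Lex.lt_def]
  exact Or.inl h

theorem ppi_lt_of_blk {j : ℕ} {x y : PPi E j} (h : x < y) : (ppiM j x : PP E) < ppiM j y := by
  rw [Sigma.Lex.lt_def]
  exact Or.inr ⟨rfl, h⟩

theorem ppi_lt_iff' {i j : ℕ} (x : PPi E i) (y : PPi E j) :
    (ppiM i x : PP E) < ppiM j y ↔ i < j ∨ ∃ h : i = j, (h ▸ x : PPi E j) < y := by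
  constructor
  · intro h
    rw [Sigma.Lex.lt_def] at h
    rcases h with h | ⟨h, h'⟩
    · exact Or.inl h
    · right
      change i = j at h
      subst h
      exact ⟨rfl, h'⟩
  · rintro (h | ⟨rfl, h⟩)
    · exact ppi_lt_of_idx h x y
    · exact ppi_lt_of_blk h

theorem ppi_cases {P : PP E → Prop} (hA : ∀ j q, P (ppiM j (ppiA E j q)))
    (hB : ∀ j, P (ppiM j (ppiB E j))) (hC : ∀ j q, P (ppiM j (ppiC E j q)))
    (hD : ∀ j, P (ppiM j (ppiD E j))) : ∀ x, P x := by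
  rintro ⟨j, q | u | q | u⟩
  · exact hA j q
  · exact hB j
  · exact hC j q
  · exact hD j

/-! ### Order inside a block -/

theorem ppi_low (hmin : NoMinOrder Qd) (j : ℕ) (x : PPi E j) : ∃ q, ppiA E j q < x := by
  rcases x with q | x
  · obtain ⟨q', hq'⟩ := exists_lt q
    exact ⟨q', Sum.Lex.inl_lt_inl_iff.2 hq'⟩
  · exact ⟨Classical.arbitrary Qd, Sum.Lex.inl_lt_inr _ _⟩

theorem ppi_dense (hq : StmtQd) (j : ℕ) (hG : Good (E j)) : DenselyOrdered (PPi E j) := by
  have : DenselyOrdered Qd := ⟨fun a b hab => by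
    obtain ⟨c, -, h1, h2⟩ := hq.1 0 a b hab
    exact ⟨c, h1, h2⟩⟩
  have : NoMaxOrder Qd := ⟨fun a => by
    obtain ⟨c, -, h1⟩ := hq.2.1 0 a
    exact ⟨c, h1⟩⟩
  have : DenselyOrdered {q : Qd // E j q} := ⟨fun a b hab => by
    obtain ⟨c, h0, h1, h2⟩ := hG.1 a b hab
    exact ⟨⟨c, h0⟩, h1, h2⟩⟩
  have : NoMaxOrder {q : Qd // E j q} := ⟨fun a => by
    obtain ⟨c, h0, h1⟩ := hG.2.1 a
    exact ⟨⟨c, h0⟩, h1⟩⟩
  have : NoMinOrder {q : Qd // E j q} := ⟨fun a => by
    obtain ⟨c, h0, h1⟩ := hG.2.2 a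
    exact ⟨⟨c, h0⟩, h1⟩⟩
  have : Nonempty {q : Qd // E j q} := by
    obtain ⟨c, h0, -⟩ := hG.2.1 (Classical.arbitrary Qd)
    exact ⟨⟨c, h0⟩⟩
  have : DenselyOrdered ({q : Qd // E j q} ⊕ₗ Unit) := inferInstance
  have : NoMinOrder ({q : Qd // E j q} ⊕ₗ Unit) := inferInstance
  have : DenselyOrdered (Unit ⊕ₗ ({q : Qd // E j q} ⊕ₗ Unit)) := inferInstance
  infer_instance

/-! ### The level map -/

/-- position inside a block -/
def ppiPos (E : ℕ → Qd → Prop) (j : ℕ) (x : PPi E j) : ℕ :=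
  Sum.elim (fun _ => 0) (fun y => Sum.elim (fun _ => 1) (fun _ => 2) (ofLex y)) (ofLex x)

theorem ppiPos_A (j : ℕ) (q : Qd) : ppiPos E j (ppiA E j q) = 0 := rfl
theorem ppiPos_B (j : ℕ) : ppiPos E j (ppiB E j) = 1 := rfl
theorem ppiPos_C (j : ℕ) (q : {q : Qd // E j q}) : ppiPos E j (ppiC E j q) = 2 := rfl
theorem ppiPos_D (j : ℕ) : ppiPos E j (ppiD E j) = 2 := rfl

theorem ppi_blk_cases {j : ℕ} {P : PPi E j → Prop} (hA : ∀ q, P (ppiA E j q))
    (hB : P (ppiB E j)) (hC : ∀ q, P (ppiC E j q))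
    (hD : P (ppiD E j)) : ∀ x, P x := by
  rintro (q | u | q | u)
  · exact hA q
  · exact hB
  · exact hC q
  · exact hD

theorem ppi_le_two (j : ℕ) (x : PPi E j) : ppiPos E j x ≤ 2 := by
  revert x
  refine ppi_blk_cases (fun q => ?_) ?_ (fun q => ?_) ?_
  · rw [ppiPos_A]; omega
  · rw [ppiPos_B]; omega
  · rw [ppiPos_C]
  · rw [ppiPos_D]

theorem ppi_not_inr_le (j : ℕ) (q : Qd) (y : Unit ⊕ₗ ({q : Qd // E j q} ⊕ₗ Unit)) :
    ¬ ((toLex (Sum.inr y) : PPi E j) ≤ ppiA E j q) := Sum.Lex.not_inr_le_inl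

theorem ppiPos_mono (j : ℕ) : Monotone (ppiPos E j) := by
  intro x y
  revert x
  refine ppi_blk_cases (fun q => ?_) ?_ (fun q => ?_) ?_
  · intro _
    rw [ppiPos_A]; omega
  · revert y
    refine ppi_blk_cases (fun q => ?_) ?_ (fun q => ?_) ?_
    · intro h
      exact absurd h (ppi_not_inr_le j q _)
    · intro _
      exact le_rfl
    · intro _
      rw [ppiPos_B, ppiPos_C]; omega
    · intro _
      rw [ppiPos_B, ppiPos_D]; omega
  · revert y
    refine ppi_blk_cases (fun q' => ?_) ?_ (fun q => ?_) ?_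
    · intro h
      exact absurd h (ppi_not_inr_le j q' _)
    · intro h
      exact absurd (Sum.Lex.inr_le_inr_iff.1 h) Sum.Lex.not_inr_le_inl
    · intro _
      rw [ppiPos_C, ppiPos_C]
    · intro _
      rw [ppiPos_C, ppiPos_D]
  · revert y
    refine ppi_blk_cases (fun q => ?_) ?_ (fun q => ?_) ?_
    · intro h
      exact absurd h (ppi_not_inr_le j q _)
    · intro h
      exact absurd (Sum.Lex.inr_le_inr_iff.1 h) Sum.Lex.not_inr_le_inl
    · intro _
      rw [ppiPos_D, ppiPos_C]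
    · intro _
      exact le_rfl

open Classical in
/-- the level map -/
noncomputable def ppiL (E : ℕ → Qd → Prop) (x : PP E) : ℕ :=
  3 * ppiH E (ofLex x).1 + if (∀ q, ¬ E (ofLex x).1 q) then ppiPos E (ofLex x).1 (ofLex x).2 else 0

theorem ppiL_empty (j : ℕ) (h : ∀ q, ¬ E j q) (x : PPi E j) :
    ppiL E (ppiM j x) = 3 * ppiH E j + ppiPos E j x :=
  congrArg (3 * ppiH E j + ·) (if_pos h)

theorem ppiL_good (j : ℕ) (h : ¬ ∀ q, ¬ E j q) (x : PPi E j) :
    ppiL E (ppiM j x) = 3 * ppiH E j :=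
  congrArg (3 * ppiH E j + ·) (if_neg h)

theorem ppiL_A (j : ℕ) (q : Qd) : ppiL E (ppiM j (ppiA E j q)) = 3 * ppiH E j := by
  by_cases h : ∀ q, ¬ E j q
  · rw [ppiL_empty j h, ppiPos_A, add_zero]
  · exact ppiL_good j h _

theorem ppiL_bd (j : ℕ) (x : PPi E j) :
    3 * ppiH E j ≤ ppiL E (ppiM j x) ∧ ppiL E (ppiM j x) ≤ 3 * ppiH E (j + 1) ∧
      ppiL E (ppiM j x) ≤ 3 * ppiH E j + 2 := by
  by_cases h : ∀ q, ¬ E j q
  · rw [ppiL_empty j h, ppiH_succ_of E j h]
    have := ppi_le_two j x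
    omega
  · rw [ppiL_good j h, ppiH_succ_not E j h]
    omega

theorem ppiL_mono : Monotone (ppiL E) := by
  rintro ⟨i, x⟩ ⟨j, y⟩ hxy
  have hM1 : (⟨i, x⟩ : PP E) = ppiM i x := rfl
  have hM2 : (⟨j, y⟩ : PP E) = ppiM j y := rfl
  rw [hM1, hM2] at hxy ⊢
  rw [Sigma.Lex.le_def] at hxy
  rcases hxy with h | ⟨h, h'⟩
  · change i < j at h
    have h1 := (ppiL_bd i x).2.1
    have h2 := (ppiL_bd j y).1
    have h3 := ppiH_mono E (Nat.succ_le_of_lt h)
    have h4 : ppiH E (i + 1) ≤ ppiH E j := h3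
    omega
  · change i = j at h
    subst h
    have h'' : x ≤ y := h'
    by_cases h : ∀ q, ¬ E i q
    · rw [ppiL_empty i h, ppiL_empty i h]
      have := ppiPos_mono i h''
      omega
    · rw [ppiL_good i h, ppiL_good i h]

theorem ppi_pos_zero (j : ℕ) (x : PPi E j) (h : ppiPos E j x = 0) : ∃ q, x = ppiA E j q := by
  revert x
  refine ppi_blk_cases (fun q _ => ⟨q, rfl⟩) (fun h => ?_) (fun q h => ?_) (fun h => ?_)
  · rw [ppiPos_B] at h; omega
  · rw [ppiPos_C] at h; omega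
  · rw [ppiPos_D] at h; omega

theorem ppi_countable (E : ℕ → Qd → Prop) : Countable (PP E) :=
  inferInstanceAs (Countable (Σ j : ℕ, (Qd ⊕ (Unit ⊕ ({q : Qd // E j q} ⊕ Unit)))))

/-! ### Fibres over multiples of three -/

theorem ppi_fib_dense (hq : StmtQd) (hE : EG E) (k : ℕ) :
    DenselyOrdered {x : PP E // ppiL E x = 3 * k} := by
  have hmin : NoMinOrder Qd := ⟨fun a => by
    obtain ⟨c, -, h1⟩ := hq.2.2 0 a
    exact ⟨c, h1⟩⟩
  constructor
  rintro ⟨⟨i, x⟩, hx⟩ ⟨⟨j, y⟩, hy⟩ hxy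
  have hxy' : (ppiM i x : PP E) < ppiM j y := hxy
  change ppiL E (ppiM i x) = 3 * k at hx
  change ppiL E (ppiM j y) = 3 * k at hy
  rw [ppi_lt_iff'] at hxy'
  rcases hxy' with h | ⟨rfl, h⟩
  · obtain ⟨q, hq'⟩ := ppi_low hmin j y
    refine ⟨⟨ppiM j (ppiA E j q), ?_⟩, ?_, ?_⟩
    · rw [ppiL_A]
      have := ppiL_bd j y
      omega
    · exact ppi_lt_of_idx h x (ppiA E j q)
    · exact ppi_lt_of_blk hq'
  · change x < y at h
    by_cases h0 : ∀ q, ¬ E i q
    · rw [ppiL_empty i h0] at hx hy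
      obtain ⟨q1, rfl⟩ := ppi_pos_zero i x (by have := ppi_le_two i x; omega)
      obtain ⟨q2, rfl⟩ := ppi_pos_zero i y (by have := ppi_le_two i y; omega)
      have h1 : q1 < q2 := Sum.Lex.inl_lt_inl_iff.1 h
      obtain ⟨c, -, h2, h3⟩ := hq.1 0 q1 q2 h1
      refine ⟨⟨ppiM i (ppiA E i c), ?_⟩, ?_, ?_⟩
      · rw [ppiL_A]
        rw [ppiPos_A] at hx
        omega
      · exact ppi_lt_of_blk (Sum.Lex.inl_lt_inl_iff.2 h2)
      · exact ppi_lt_of_blk (Sum.Lex.inl_lt_inl_iff.2 h3)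
    · have hG : Good (E i) := by
        rcases hE i with h1 | h1
        · exact absurd h1 h0
        · exact h1
      have := ppi_dense hq i hG
      obtain ⟨z, h1, h2⟩ := exists_between h
      refine ⟨⟨ppiM i z, ?_⟩, ?_, ?_⟩
      · rw [ppiL_good i h0] at hx ⊢
        exact hx
      · exact ppi_lt_of_blk h1
      · exact ppi_lt_of_blk h2

theorem ppi_fib_min (hq : StmtQd) (k : ℕ) :
    NoMinOrder {x : PP E // ppiL E x = 3 * k} := by
  have hmin : NoMinOrder Qd := ⟨fun a => by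
    obtain ⟨c, -, h1⟩ := hq.2.2 0 a
    exact ⟨c, h1⟩⟩
  constructor
  rintro ⟨⟨j, y⟩, hy⟩
  change ppiL E (ppiM j y) = 3 * k at hy
  obtain ⟨q, hq'⟩ := ppi_low hmin j y
  refine ⟨⟨ppiM j (ppiA E j q), ?_⟩, ?_⟩
  · rw [ppiL_A]
    have := ppiL_bd j y
    omega
  · exact ppi_lt_of_blk hq'

theorem ppi_fib_max (hq : StmtQd) (k : ℕ) :
    NoMaxOrder {x : PP E // ppiL E x = 3 * k} := by
  constructor
  rintro ⟨⟨j, y⟩, hy⟩
  change ppiL E (ppiM j y) = 3 * k at hy
  by_cases h0 : ∀ q, ¬ E j q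
  · rw [ppiL_empty j h0] at hy
    obtain ⟨q1, rfl⟩ := ppi_pos_zero j y (by have := ppi_le_two j y; omega)
    obtain ⟨c, -, h2⟩ := hq.2.1 0 q1
    refine ⟨⟨ppiM j (ppiA E j c), ?_⟩, ?_⟩
    · rw [ppiL_A]
      rw [ppiPos_A] at hy
      omega
    · exact ppi_lt_of_blk (Sum.Lex.inl_lt_inl_iff.2 h2)
  · refine ⟨⟨ppiM (j + 1) (ppiA E (j + 1) (Classical.arbitrary Qd)), ?_⟩, ?_⟩
    · rw [ppiL_A, ppiH_succ_not E j h0]
      rw [ppiL_good j h0] at hy
      exact hy
    · exact ppi_lt_of_idx (Nat.lt_succ_self j) _ _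

theorem ppi_fib_ne (k : ℕ) (hk : (k : ℕ∞) ≤ nE E) :
    Nonempty {x : PP E // ppiL E x = 3 * k} := by
  obtain ⟨j, hj⟩ := (ppiH_le_iff E k).2 hk
  exact ⟨⟨ppiM j (ppiA E j (Classical.arbitrary Qd)), by rw [ppiL_A, hj]⟩⟩

theorem ppi_fib_em (k : ℕ) (hk : ¬ (k : ℕ∞) ≤ nE E) :
    IsEmpty {x : PP E // ppiL E x = 3 * k} := by
  constructor
  rintro ⟨⟨j, y⟩, hy⟩
  change ppiL E (ppiM j y) = 3 * k at hy
  apply hk
  rw [← ppiH_le_iff]
  refine ⟨j, ?_⟩
  have := ppiL_bd j y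
  omega

/-! ### Fibres over the other numbers -/

theorem ppi_fib_one (k r : ℕ) (hr : r = 1 ∨ r = 2) :
    Subsingleton {x : PP E // ppiL E x = 3 * k + r} := by
  constructor
  rintro ⟨⟨i, x⟩, hx⟩ ⟨⟨j, y⟩, hy⟩
  apply Subtype.ext
  change (ppiM i x : PP E) = ppiM j y
  change ppiL E (ppiM i x) = 3 * k + r at hx
  change ppiL E (ppiM j y) = 3 * k + r at hy
  have hi : ∀ q, ¬ E i q := by
    by_contra h
    rw [ppiL_good i h] at hx
    omega
  have hj : ∀ q, ¬ E j q := by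
    by_contra h
    rw [ppiL_good j h] at hy
    omega
  rw [ppiL_empty i hi] at hx
  rw [ppiL_empty j hj] at hy
  have h1 := ppi_le_two i x
  have h2 := ppi_le_two j y
  have hij : i = j := ppiH_inj E i j hi hj (by omega)
  subst hij
  have hp : ppiPos E i x = r := by omega
  have hp' : ppiPos E i y = r := by omega
  congr 1
  have key : ∀ z : PPi E i, ppiPos E i z = r → z = if r = 1 then ppiB E i else ppiD E i := by
    refine ppi_blk_cases (fun q h => ?_) (fun h => ?_) (fun q h => ?_) (fun h => ?_)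
    · rw [ppiPos_A] at h; omega
    · rw [ppiPos_B] at h; rw [if_pos h.symm]
    · exact absurd q.2 (hi q.1)
    · rw [ppiPos_D] at h; rw [if_neg (by omega)]
  rw [key x hp, key y hp']

theorem ppi_fib_one_ne (k r : ℕ) (hr : r = 1 ∨ r = 2) :
    Nonempty {x : PP E // ppiL E x = 3 * k + r} ↔ (k : ℕ∞) < nE E := by
  rw [← ppiH_lt_iff]
  constructor
  · rintro ⟨⟨⟨i, x⟩, hx⟩⟩
    change ppiL E (ppiM i x) = 3 * k + r at hx
    have hi : ∀ q, ¬ E i q := by
      by_contra h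
      rw [ppiL_good i h] at hx
      omega
    rw [ppiL_empty i hi] at hx
    have h1 := ppi_le_two i x
    exact ⟨i, hi, by omega⟩
  · rintro ⟨j, hj, hk⟩
    rcases hr with rfl | rfl
    · exact ⟨⟨ppiM j (ppiB E j), by rw [ppiL_empty j hj, ppiPos_B, hk]⟩⟩
    · exact ⟨⟨ppiM j (ppiD E j), by rw [ppiL_empty j hj, ppiPos_D, hk]⟩⟩

end elts

/-! ## The isomorphism -/

theorem ppi_iso_of_subsingleton {A B : Type*} [LinearOrder A] [LinearOrder B]
    (hA : Subsingleton A) (hB : Subsingleton B) (h : Nonempty A ↔ Nonempty B) :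
    Nonempty (A ≃o B) := by
  by_cases hne : Nonempty A
  · have hne' := h.1 hne
    obtain ⟨a⟩ := hne
    obtain ⟨b⟩ := hne'
    exact ⟨{ toFun := fun _ => b
             invFun := fun _ => a
             left_inv := fun x => Subsingleton.elim _ _
             right_inv := fun x => Subsingleton.elim _ _
             map_rel_iff' := by
              intro x y
              have : x = y := Subsingleton.elim _ _
              simp [this] }⟩
  · have hne' : ¬ Nonempty B := fun h' => hne (h.2 h')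
    rw [not_nonempty_iff] at hne hne'
    exact ⟨{ toFun := fun x => (hne.false x).elim
             invFun := fun x => (hne'.false x).elim
             left_inv := fun x => Subsingleton.elim _ _
             right_inv := fun x => Subsingleton.elim _ _
             map_rel_iff' := by
              intro x y
              exact (hne.false x).elim }⟩

/-- two orders `PP E`, `PP E'` with the same number of adjacent pairs are isomorphic -/
theorem ppi_iso (hq : StmtQd) (E E' : ℕ → Qd → Prop) (hE : EG E) (hE' : EG E')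
    (hn : nE E = nE E') : Nonempty (PP E ≃o PP E') := by
  refine ppi_fibre (ppiL E) (ppiL E') ppiL_mono ppiL_mono ?_
  intro n
  obtain ⟨k, r, hr, rfl⟩ : ∃ k r, r < 3 ∧ n = 3 * k + r :=
    ⟨n / 3, n % 3, Nat.mod_lt _ (by norm_num), (Nat.div_add_mod n 3).symm⟩
  rcases Nat.eq_zero_or_pos r with rfl | hr0
  · rw [add_zero]
    by_cases hk : (k : ℕ∞) ≤ nE E
    · have hk' : (k : ℕ∞) ≤ nE E' := hn ▸ hk
      have := ppi_countable E
      have := ppi_countable E'
      have := ppi_fib_dense hq hE k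
      have := ppi_fib_dense hq hE' k
      have := ppi_fib_min (E := E) hq k
      have := ppi_fib_min (E := E') hq k
      have := ppi_fib_max (E := E) hq k
      have := ppi_fib_max (E := E') hq k
      have := ppi_fib_ne (E := E) k hk
      have := ppi_fib_ne (E := E') k hk'
      exact Order.iso_of_countable_dense _ _
    · have hk' : ¬ (k : ℕ∞) ≤ nE E' := hn ▸ hk
      have h1 := ppi_fib_em (E := E) k hk
      have h2 := ppi_fib_em (E := E') k hk'
      exact ppi_iso_of_subsingleton inferInstance inferInstance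
        ⟨fun ⟨x⟩ => (h1.false x).elim, fun ⟨x⟩ => (h2.false x).elim⟩
  · have hr' : r = 1 ∨ r = 2 := by omega
    refine ppi_iso_of_subsingleton (ppi_fib_one k r hr') (ppi_fib_one k r hr') ?_
    rw [ppi_fib_one_ne k r hr', ppi_fib_one_ne k r hr', hn]

/-! ## The canonical sets -/

theorem nE_can (V : ℕ∞) : nE (can V) = V := by
  have h1 : {j : ℕ | ∀ q, ¬ can V j q} = {j : ℕ | (j : ℕ∞) < V} := by
    ext j
    simp only [can, Set.mem_ofPred_eq, not_not]
    exact ⟨fun h => h (Classical.arbitrary Qd), fun h _ => h⟩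
  unfold nE
  rw [h1]
  induction V using ENat.recTopCoe with
  | top =>
    have : {j : ℕ | (j : ℕ∞) < ⊤} = Set.univ := by
      ext j
      simp
    rw [this]
    simp
  | coe n =>
    have : {j : ℕ | (j : ℕ∞) < n} = ((Finset.range n : Finset ℕ) : Set ℕ) := by
      ext j
      simp
    rw [this, Set.encard_coe_eq_coe_finsetCard, Finset.card_range]

theorem EG_can (hq : StmtQd) (V : ℕ∞) : EG (can V) := by
  intro j
  by_cases h : (j : ℕ∞) < V
  · exact Or.inl (fun q hh => hh h)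
  · right
    refine ⟨fun a b hab => ?_, fun a => ?_, fun a => ?_⟩
    · obtain ⟨c, -, h1, h2⟩ := hq.1 0 a b hab
      exact ⟨c, h, h1, h2⟩
    · obtain ⟨c, -, h1⟩ := hq.2.1 0 a
      exact ⟨c, h, h1⟩
    · obtain ⟨c, -, h1⟩ := hq.2.2 0 a
      exact ⟨c, h, h1⟩

/-- O3 (without the adjacency module) -/
theorem pp_main' (hq : StmtQd) : StmtPP := fun E hE =>
  ppi_iso hq E (can (nE E)) hE (EG_can hq _) (nE_can _).symm

/-- O3 -/
theorem pp_main (hq : StmtQd) (_hadj : StmtPPadj) : StmtPP := pp_main' hq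

end Pool.Agent.NonLow
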