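import Pool.Agent.NonLow.PrLemmas

/-!
# Assembly: presentations
-/

set_option autoImplicit false

namespace Pool.Agent.NonLow

variable {X : ℕ → ℕ} {ι : Type} [Primcodable ι]

theorem pr_PP {E : ι → ℕ → Qd → Prop} (hE : Dl X 0 (fun p : (ι × ℕ) × Qd => E p.1.1 p.1.2 p.2)) :
    Pr X (fun i => PP (E i)) := by
  refine Pr.sigmaN (A := fun i j => (Qd ⊕ₗ (Unit ⊕ₗ ({q : Qd // E i j q} ⊕ₗ Unit)))) ?_
  refine Pr.sum (A := fun _ => Qd) Pr.qd ?_
  refine Pr.sum (A := fun _ => Unit) Pr.unit ?_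
  refine Pr.sum (A := fun p : ι × ℕ => {q : Qd // E p.1 p.2 q}) ?_ Pr.unit
  exact Pr.sub (E := fun (p : ι × ℕ) (q : Qd) => E p.1 p.2 q) hE

theorem pr_GG (k : ℕ) {E : ι → ℕ → Qd → Prop}
    (hE : Dl X 0 (fun p : (ι × ℕ) × Qd => E p.1.1 p.1.2 p.2)) :
    Pr X (fun i => GG k (E i)) := by
  refine Pr.sum (A := fun _ => Fin k) (Pr.fin (Computable.const k)) ?_
  exact Pr.sum (A := fun i => PP (E i)) (pr_PP hE) (Pr.fin (Computable.const k))

theorem pr_DD {E : ι → ℕ → ℕ → Qd → Prop}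
    (hE : Dl X 0 (fun p : ((ι × ℕ) × ℕ) × Qd => E p.1.1.1 p.1.1.2 p.1.2 p.2)) :
    Pr X (fun i => DD (E i)) := by
  refine Pr.sigmaQ (A := fun i (q : Qd) => GG 3 (E i q.col)) ?_
  have h := pr_GG (X := X) (ι := ι × ℕ) 3 (E := fun p j q => E p.1 p.2 j q) hE
  have hc : Computable (fun p : ι × Qd => ((p.1, p.2.col) : ι × ℕ)) := by
    refine Computable.fst.pair ?_
    have h1 : Primrec (fun n : ℕ => (Nat.unpair (Nat.unpair n).2).1) :=
      Primrec.fst.comp (Primrec.unpair.comp (Primrec.snd.comp Primrec.unpair))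
    have h2 : Computable (fun q : Qd => Qd.col q) := h1.to_comp
    exact h2.comp Computable.snd
  exact Pr.comp (A := fun p : ι × ℕ => GG 3 (E p.1 p.2)) h hc

theorem pr_KK {e : ι → ℕ} (he : Computable e) {E2 : ι → ℕ → ℕ → Qd → Prop}
    {E1 : ι → ℕ → Qd → Prop}
    (hE2 : Dl X 0 (fun p : ((ι × ℕ) × ℕ) × Qd => E2 p.1.1.1 p.1.1.2 p.1.2 p.2))
    (hE1 : Dl X 0 (fun p : (ι × ℕ) × Qd => E1 p.1.1 p.1.2 p.2)) :
    Pr X (fun i => KK (e i) (E2 i) (E1 i)) := by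
  refine Pr.sum (A := fun i => Fin (e i + 5)) (Pr.fin ?_) ?_
  · exact (Primrec.nat_add.comp Primrec.id (Primrec.const 5)).to_comp.comp he
  · exact Pr.sum (A := fun i => DD (E2 i)) (pr_DD hE2) (pr_GG 4 hE1)

theorem pr_LL {e : ℕ → ℕ} (he : Computable e) {E2 : ℕ → ℕ → ℕ → Qd → Prop}
    {E1 : ℕ → ℕ → Qd → Prop}
    (hE2 : Dl X 0 (fun p : ((ℕ × ℕ) × ℕ) × Qd => E2 p.1.1.1 p.1.1.2 p.1.2 p.2))
    (hE1 : Dl X 0 (fun p : (ℕ × ℕ) × Qd => E1 p.1.1 p.1.2 p.2)) :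
    Pr X (fun _ : ι => LL e E2 E1) := by
  refine Pr.sigmaQ (A := fun (_ : ι) (q : Qd) => KK (e q.col) (E2 q.col) (E1 q.col)) ?_
  have h := pr_KK (X := X) he hE2 hE1
  have hc : Computable (fun p : ι × Qd => (p.2.col : ℕ)) := by
    have h1 : Primrec (fun n : ℕ => (Nat.unpair (Nat.unpair n).2).1) :=
      Primrec.fst.comp (Primrec.unpair.comp (Primrec.snd.comp Primrec.unpair))
    have h2 : Computable (fun q : Qd => Qd.col q) := h1.to_comp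
    exact h2.comp Computable.snd
  exact Pr.comp (A := fun i : ℕ => KK (e i) (E2 i) (E1 i)) h hc

instance LL_infinite (e : ℕ → ℕ) (E2 : ℕ → ℕ → ℕ → Qd → Prop) (E1 : ℕ → ℕ → Qd → Prop) :
    Infinite (LL e E2 E1) := by
  have hinj : Function.Injective (fun n : ℕ =>
      (toLex ⟨(show Qd from n), toLex (Sum.inl (⟨0, by omega⟩ : Fin (e (Qd.col n) + 5)))⟩ :
        LL e E2 E1)) := by
    intro a b h
    have h1 := congrArg (fun x : LL e E2 E1 => (ofLex x).1) h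
    exact h1
  exact Infinite.of_injective _ hinj

/-- P from its parts -/
theorem pres_main (h1 : StmtE1) (h2 : StmtE2) (hr : StmtReindex) (hl : StmtLL) : StmtPres := by
  intro X t he hV hF
  obtain ⟨E1, hE1, hE1'⟩ := h1 X (fun i : ℕ => (t i).2.1) hV
  obtain ⟨n, hn, hn'⟩ := h2 X (fun i : ℕ => ((t i).2.2 : Set ℕ)) hF
  obtain ⟨E2, hE2, hE2'⟩ := h1 X n hn
  obtain ⟨lt, hlt, φ, hφ⟩ := hr X (LL (fun i => (t i).1) (fun i k => E2 (i, k)) E1)
    (pr_LL (ι := ℕ) he (E2 := fun i k => E2 (i, k)) hE2 hE1)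
  obtain ⟨ψ⟩ := hl t (fun i => (t i).1) (fun i k => E2 (i, k)) E1 (fun _ => rfl)
    (fun i k => (hE2' (i, k)).1) (fun i => (hE1' i).1) (fun i => (hE1' i).2)
    (fun i => by
      have : (fun k => nE (E2 (i, k))) = fun k => n (i, k) := funext fun k => (hE2' (i, k)).2
      rw [this]; exact hn' i)
  refine ⟨lt, hlt, φ.trans ψ.toEquiv, fun a b => ?_⟩
  rw [hφ]
  exact (ψ.lt_iff_lt).symm

end Pool.Agent.NonLow
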