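import Pool.Agent.NonLow.SemPc

/-!
# Locations in `Lo t` (module Sem)
-/

set_option autoImplicit false
set_option linter.unusedSectionVars false

namespace Pool.Agent.NonLow.SemAux

/-! ### The gadget `B_k + P + B_k` -/

section gg
variable {k : ℕ} {E : ℕ → Qd → Prop}

/-- first block -/
def gA (E : ℕ → Qd → Prop) (i : Fin k) : GG k E := toLex (Sum.inl i)
/-- middle -/
def gP (k : ℕ) (p : PP E) : GG k E := toLex (Sum.inr (toLex (Sum.inl p)))
/-- last block -/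
def gB (E : ℕ → Qd → Prop) (i : Fin k) : GG k E := toLex (Sum.inr (toLex (Sum.inr i)))

theorem gg_cases (z : GG k E) : (∃ i, z = gA E i) ∨ (∃ p, z = gP k p) ∨ ∃ i, z = gB E i := by
  rcases sps_sum_cases z with ⟨a, rfl⟩ | ⟨b, rfl⟩
  · exact Or.inl ⟨a, rfl⟩
  · rcases sps_sum_cases b with ⟨a, rfl⟩ | ⟨b, rfl⟩
    · exact Or.inr (Or.inl ⟨a, rfl⟩)
    · exact Or.inr (Or.inr ⟨b, rfl⟩)

variable (h1 : ∀ x : PP E, ∃ y, x < y) (h2 : ∀ x : PP E, ∃ y, y < x) (h3 : Nonempty (PP E))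

include h2 h3 in
theorem gg_op1 : SOp (Fin k) (PP E ⊕ₗ Fin k) := by
  right
  intro b
  rcases sps_sum_cases b with ⟨a, rfl⟩ | ⟨b, rfl⟩
  · obtain ⟨y, hy⟩ := h2 a
    exact ⟨toLex (Sum.inl y), Sum.Lex.inl_lt_inl_iff.2 hy⟩
  · obtain ⟨p⟩ := h3
    exact ⟨toLex (Sum.inl p), Sum.Lex.inl_lt_inr _ _⟩

include h1 in
theorem gg_op2 : SOp (PP E) (Fin k) := Or.inl h1

include h2 h3 in
theorem spc_gA : SPc (gA E : Fin k → GG k E) := spc_inl (gg_op1 h2 h3)

include h1 h2 h3 in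
theorem spc_gP : SPc (gP k : PP E → GG k E) :=
  (spc_inr (gg_op1 h2 h3)).comp (spc_inl (gg_op2 h1))

include h1 h2 h3 in
theorem spc_gB : SPc (gB E : Fin k → GG k E) :=
  (spc_inr (gg_op1 h2 h3)).comp (spc_inr (gg_op2 h1))

theorem gA_lt_gP (i : Fin k) (p : PP E) : gA E i < gP k p := Sum.Lex.inl_lt_inr _ _
theorem gA_lt_gB (i j : Fin k) : gA E i < gB E j := Sum.Lex.inl_lt_inr _ _
theorem gP_lt_gB (p : PP E) (j : Fin k) : gP k p < gB E j :=
  Sum.Lex.inr_lt_inr_iff.2 (Sum.Lex.inl_lt_inr _ _)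

/-- between the two blocks -/
theorem gg_between (z : GG k E) (i j : Fin k) (hi : i.val + 1 = k) (hj : j.val = 0)
    (ha : gA E i < z) (hb : z < gB E j) : ∃ p, gP k p = z := by
  rcases gg_cases z with ⟨l, rfl⟩ | ⟨p, rfl⟩ | ⟨l, rfl⟩
  · exfalso
    have : i < l := Sum.Lex.inl_lt_inl_iff.1 ha
    have := l.isLt
    omega
  · exact ⟨p, rfl⟩
  · exfalso
    have : l < j := Sum.Lex.inr_lt_inr_iff.1 (Sum.Lex.inr_lt_inr_iff.1 hb)
    omega

end gg

/-! ### The order `D` -/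

section dd
variable {E : ℕ → ℕ → Qd → Prop}

/-- a piece of `D` -/
def dS (E : ℕ → ℕ → Qd → Prop) (q : Qd) (w : GG 3 (E q.col)) : DD E := toLex ⟨q, w⟩

theorem dd_cases (z : DD E) : ∃ q w, z = dS E q w := sps_sig_cases z

variable (hq : StmtQd) (hadj : StmtPPadj)

include hadj in
theorem gg_nonempty (k : ℕ) (F : ℕ → Qd → Prop) : Nonempty (GG k F) := by
  obtain ⟨p⟩ := (hadj F).2.2.1
  exact ⟨gP k p⟩

include hq in
theorem qd_dense (q r : Qd) (h : q < r) : ∃ s, q < s ∧ s < r := by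
  obtain ⟨c, _, h1, h2⟩ := hq.1 0 q r h
  exact ⟨c, h1, h2⟩

include hq hadj in
theorem spc_dS (q : Qd) : SPc (dS E q) :=
  spc_sig (α := fun q => GG 3 (E q.col)) (qd_dense hq) (fun _ => gg_nonempty hadj 3 _) q

include hq hadj in
theorem dd_nomax (z : DD E) : ∃ y, z < y := by
  obtain ⟨q, w, rfl⟩ := dd_cases z
  obtain ⟨r, _, hr⟩ := hq.2.1 0 q
  obtain ⟨w'⟩ := gg_nonempty hadj 3 (E r.col)
  exact ⟨dS E r w', sps_sig_lt_of hr⟩

include hq hadj in
theorem dd_nomin (z : DD E) : ∃ y, y < z := by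
  obtain ⟨q, w, rfl⟩ := dd_cases z
  obtain ⟨r, _, hr⟩ := hq.2.2 0 q
  obtain ⟨w'⟩ := gg_nonempty hadj 3 (E r.col)
  exact ⟨dS E r w', sps_sig_lt_of hr⟩

include hadj in
theorem dd_nonempty : Nonempty (DD E) := by
  obtain ⟨w⟩ := gg_nonempty hadj 3 (E (Qd.col (Classical.arbitrary Qd)))
  exact ⟨dS E _ w⟩

/-- no long chains in `P` -/
theorem pp_ch {F : ℕ → Qd → Prop} (hF : ∀ x y z : PP F, x ⋖ y → ¬ y ⋖ z) {n : ℕ} (hn : 2 ≤ n)
    (p : PP F) : ¬ SCh n p := by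
  rintro ⟨y, _, h⟩
  exact hF _ _ _ (h 0 (by omega)) (h 1 (by omega))

include hadj in
/-- chains in the gadgets -/
theorem gg_ch {F : ℕ → Qd → Prop} (hF : EG F) {k n : ℕ} (hn : 2 ≤ n) (z : GG k F)
    (h : SCh n z) : (∃ i : Fin k, i.val + n < k ∧ z = gA F i) ∨
      ∃ i : Fin k, i.val + n < k ∧ z = gB F i := by
  obtain ⟨a1, a2, a3, a4⟩ := hadj F
  obtain ⟨a5, _⟩ := a4 hF
  rcases gg_cases z with ⟨i, rfl⟩ | ⟨p, rfl⟩ | ⟨i, rfl⟩
  · rw [(spc_gA a2 a3).ch, sch_fin] at h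
    exact Or.inl ⟨i, h, rfl⟩
  · rw [(spc_gP a1 a2 a3).ch] at h
    exact absurd h (pp_ch a5 hn p)
  · rw [(spc_gB a1 a2 a3).ch, sch_fin] at h
    exact Or.inr ⟨i, h, rfl⟩

include hq hadj in
theorem dd_ch (hE : ∀ k, EG (E k)) {n : ℕ} (hn : 3 ≤ n) (z : DD E) : ¬ SCh n z := by
  intro h
  obtain ⟨q, w, rfl⟩ := dd_cases z
  rw [(spc_dS hq hadj q).ch] at h
  rcases gg_ch hadj (hE _) (by omega) w h with ⟨i, hi, _⟩ | ⟨i, hi, _⟩ <;> omega

include hq hadj in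
/-- the numbers of adjacent pairs between consecutive 3-blocks of `D` -/
theorem dd_sgp (hE : ∀ k, EG (E k)) : sgp (DD E) = {n : ℕ | ∃ k, nE (E k) = n} := by
  have hcnt : ∀ q : Qd, cnt (dS E q (gA _ 2)) (dS E q (gB _ 0)) = nE (E q.col) := by
    intro q
    obtain ⟨a1, a2, a3, a4⟩ := hadj (E q.col)
    obtain ⟨_, a5⟩ := a4 (hE _)
    rw [(spc_dS hq hadj q).cnt, (spc_gP a1 a2 a3).cnt_all, a5]
    · exact fun p => ⟨gA_lt_gP _ _, gP_lt_gB _ _⟩
    · exact fun z h1 h2 => gg_between z 2 0 rfl rfl h1 h2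
  ext n
  constructor
  · rintro ⟨a0, a1, a2, b0, b1, b2, c1, c2, c3, c4, c5, c6, c7⟩
    obtain ⟨q, w, rfl⟩ := dd_cases a0
    have hS := spc_dS (E := E) hq hadj q
    obtain ⟨p1, p2, p3, p4⟩ := hadj (E q.col)
    have hw : SCh 2 w := by
      rw [← hS.ch, ← sch_two]
      exact ⟨a1, a2, c1, c2⟩
    have hb : C3 b0 := ⟨b1, b2, c4, c5⟩
    -- the second block of a piece is impossible
    rcases gg_ch hadj (hE _) le_rfl w hw with ⟨i, hi, rfl⟩ | ⟨i, hi, rfl⟩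
    · have e0 : i = 0 := Fin.ext (by omega)
      subst e0
      have hA := hS.comp (spc_gA (k := 3) p2 p3)
      have e1 : a1 = dS E q (gA _ 1) := c1.unique_right
        (hA.cov.2 (by rw [Fin.covBy_iff, Nat.covBy_iff_add_one_eq]; rfl))
      subst e1
      have e2 : a2 = dS E q (gA _ 2) := c2.unique_right
        (hA.cov.2 (by rw [Fin.covBy_iff, Nat.covBy_iff_add_one_eq]; rfl))
      subst e2
      have hB := hS.comp (spc_gB (k := 3) p1 p2 p3)
      have k1 : C3 (dS E q (gB _ 0)) := by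
        rw [sch_two, hB.ch, sch_fin]
        decide
      have k2 : dS E q (gA _ 2) < dS E q (gB _ 0) := (hS.lt _ _).2 (gA_lt_gB _ _)
      have k3 : ¬ dS E q (gB _ 0) < b0 := fun h => c6 _ k2 h k1
      rcases lt_or_eq_of_le (not_lt.1 k3) with h | h
      · exfalso
        obtain ⟨w', rfl⟩ := hS.cv _ _ b0 c3 h
        obtain ⟨p, rfl⟩ := gg_between w' 2 0 rfl rfl ((hS.lt _ _).1 c3) ((hS.lt _ _).1 h)
        rw [sch_two, (hS.comp (spc_gP (k := 3) p1 p2 p3)).ch] at hb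
        exact pp_ch (p4 (hE _)).1 le_rfl p hb
      · subst h
        refine ⟨q.col, ?_⟩
        rw [← hcnt, c7]
    · exfalso
      have e0 : i = 0 := Fin.ext (by omega)
      subst e0
      have hB := hS.comp (spc_gB (k := 3) p1 p2 p3)
      have e1 : a1 = dS E q (gB _ 1) := c1.unique_right
        (hB.cov.2 (by rw [Fin.covBy_iff, Nat.covBy_iff_add_one_eq]; rfl))
      subst e1
      have e2 : a2 = dS E q (gB _ 2) := c2.unique_right
        (hB.cov.2 (by rw [Fin.covBy_iff, Nat.covBy_iff_add_one_eq]; rfl))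
      subst e2
      obtain ⟨r, w', rfl⟩ := dd_cases b0
      have h1 : q < r := by
        rcases lt_or_eq_of_le (sps_sig_le_of c3) with h | h
        · exact h
        · exfalso
          subst h
          have h2 : gB _ 2 < w' := (hS.lt _ _).1 c3
          rcases gg_cases w' with ⟨l, rfl⟩ | ⟨p, rfl⟩ | ⟨l, rfl⟩
          · exact absurd h2 (lt_asymm (gA_lt_gB _ _))
          · exact absurd h2 (lt_asymm (gP_lt_gB _ _))
          · have h3 := ((spc_gB (k := 3) p1 p2 p3).lt _ _).1 h2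
            have := l.isLt
            have h4 : (2 : Fin 3).val < l.val := h3
            have h5 : (2 : Fin 3).val = 2 := rfl
            omega
      obtain ⟨s, h2, h3⟩ := qd_dense hq q r h1
      obtain ⟨s1, s2, s3, s4⟩ := hadj (E s.col)
      refine c6 (dS E s (gA _ 0)) (sps_sig_lt_of h2) (sps_sig_lt_of h3) ?_
      rw [sch_two, ((spc_dS (E := E) hq hadj s).comp (spc_gA (k := 3) s2 s3)).ch, sch_fin]
      decide
  · rintro ⟨k, hk⟩
    obtain ⟨q, hqk, _⟩ := hq.2.1 k (Classical.arbitrary Qd)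
    have hS := spc_dS (E := E) hq hadj q
    obtain ⟨p1, p2, p3, p4⟩ := hadj (E q.col)
    have hA := hS.comp (spc_gA (k := 3) p2 p3)
    have hB := hS.comp (spc_gB (k := 3) p1 p2 p3)
    refine ⟨dS E q (gA _ 0), dS E q (gA _ 1), dS E q (gA _ 2), dS E q (gB _ 0), dS E q (gB _ 1),
      dS E q (gB _ 2), hA.cov.2 ?_, hA.cov.2 ?_, (hS.lt _ _).2 (gA_lt_gB _ _), hB.cov.2 ?_,
      hB.cov.2 ?_, ?_, ?_⟩
    · rw [Fin.covBy_iff, Nat.covBy_iff_add_one_eq]; rfl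
    · rw [Fin.covBy_iff, Nat.covBy_iff_add_one_eq]; rfl
    · rw [Fin.covBy_iff, Nat.covBy_iff_add_one_eq]; rfl
    · rw [Fin.covBy_iff, Nat.covBy_iff_add_one_eq]; rfl
    · intro z h1 h2 h3
      obtain ⟨w', rfl⟩ := hS.cv _ _ z h1 h2
      obtain ⟨p, rfl⟩ := gg_between w' 2 0 rfl rfl ((hS.lt _ _).1 h1) ((hS.lt _ _).1 h2)
      rw [sch_two, (hS.comp (spc_gP (k := 3) p1 p2 p3)).ch] at h3
      exact pp_ch (p4 (hE _)).1 le_rfl p h3
    · rw [hcnt, hqk, hk]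

end dd

/-! ### The components -/

section kk
variable {e : ℕ} {E2 : ℕ → ℕ → Qd → Prop} {E1 : ℕ → Qd → Prop}

/-- first block -/
def kB (E2 : ℕ → ℕ → Qd → Prop) (E1 : ℕ → Qd → Prop) (i : Fin (e + 5)) : KK e E2 E1 :=
  toLex (Sum.inl i)
/-- middle -/
def kD (e : ℕ) (E1 : ℕ → Qd → Prop) (d : DD E2) : KK e E2 E1 :=
  toLex (Sum.inr (toLex (Sum.inl d)))
/-- last part -/
def kG (e : ℕ) (E2 : ℕ → ℕ → Qd → Prop) (w : GG 4 E1) : KK e E2 E1 :=
  toLex (Sum.inr (toLex (Sum.inr w)))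

theorem kk_cases (z : KK e E2 E1) :
    (∃ i, z = kB E2 E1 i) ∨ (∃ d, z = kD e E1 d) ∨ ∃ w, z = kG e E2 w := by
  rcases sps_sum_cases z with ⟨a, rfl⟩ | ⟨b, rfl⟩
  · exact Or.inl ⟨a, rfl⟩
  · rcases sps_sum_cases b with ⟨a, rfl⟩ | ⟨b, rfl⟩
    · exact Or.inr (Or.inl ⟨a, rfl⟩)
    · exact Or.inr (Or.inr ⟨b, rfl⟩)

variable (hq : StmtQd) (hadj : StmtPPadj)

include hq hadj in
theorem kk_op1 : SOp (Fin (e + 5)) (DD E2 ⊕ₗ GG 4 E1) := by
  right
  intro b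
  rcases sps_sum_cases b with ⟨a, rfl⟩ | ⟨b, rfl⟩
  · obtain ⟨y, hy⟩ := dd_nomin hq hadj a
    exact ⟨toLex (Sum.inl y), Sum.Lex.inl_lt_inl_iff.2 hy⟩
  · obtain ⟨p⟩ := dd_nonempty (E := E2) hadj
    exact ⟨toLex (Sum.inl p), Sum.Lex.inl_lt_inr _ _⟩

include hq hadj in
theorem kk_op2 : SOp (DD E2) (GG 4 E1) := Or.inl (dd_nomax hq hadj)

include hq hadj in
theorem spc_kB : SPc (kB E2 E1 : Fin (e + 5) → KK e E2 E1) := spc_inl (kk_op1 hq hadj)

include hq hadj in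
theorem spc_kD : SPc (kD e E1 : DD E2 → KK e E2 E1) :=
  (spc_inr (kk_op1 hq hadj)).comp (spc_inl (kk_op2 hq hadj))

include hq hadj in
theorem spc_kG : SPc (kG e E2 : GG 4 E1 → KK e E2 E1) :=
  (spc_inr (kk_op1 hq hadj)).comp (spc_inr (kk_op2 hq hadj))

theorem kB_lt_kD (i : Fin (e + 5)) (d : DD E2) : kB E2 E1 i < kD e E1 d := Sum.Lex.inl_lt_inr _ _
theorem kB_lt_kG (i : Fin (e + 5)) (w : GG 4 E1) : kB E2 E1 i < kG e E2 w :=
  Sum.Lex.inl_lt_inr _ _
theorem kD_lt_kG (d : DD E2) (w : GG 4 E1) : kD e E1 d < kG e E2 w :=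
  Sum.Lex.inr_lt_inr_iff.2 (Sum.Lex.inl_lt_inr _ _)

include hadj in
theorem gA_zero_le (F : ℕ → Qd → Prop) (w : GG 4 F) : ¬ w < gA F 0 := by
  intro h
  rcases gg_cases w with ⟨l, rfl⟩ | ⟨p, rfl⟩ | ⟨l, rfl⟩
  · have h1 : l < 0 := Sum.Lex.inl_lt_inl_iff.1 h
    exact absurd h1 (Fin.not_lt_zero l)
  · exact lt_asymm h (gA_lt_gP _ _)
  · exact lt_asymm h (gA_lt_gB _ _)

include hadj in
/-- between the first block and the last part -/
theorem kk_between (z : KK e E2 E1) (i : Fin (e + 5)) (hi : i.val + 1 = e + 5)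
    (ha : kB E2 E1 i < z) (hb : z < kG e E2 (gA E1 0)) : ∃ d, kD e E1 d = z := by
  rcases kk_cases z with ⟨l, rfl⟩ | ⟨p, rfl⟩ | ⟨w, rfl⟩
  · exfalso
    have : i < l := Sum.Lex.inl_lt_inl_iff.1 ha
    have := l.isLt
    omega
  · exact ⟨p, rfl⟩
  · exfalso
    have h1 : w < gA E1 0 := Sum.Lex.inr_lt_inr_iff.1 (Sum.Lex.inr_lt_inr_iff.1 hb)
    exact gA_zero_le hadj _ _ h1

theorem fin_cov {k i j : ℕ} (hi : i < k) (hj : j < k) (h : i + 1 = j) :
    (⟨i, hi⟩ : Fin k) ⋖ ⟨j, hj⟩ := by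
  rw [Fin.covBy_iff, Nat.covBy_iff_add_one_eq]
  exact h

include hq hadj in
/-- a location in a component -/
theorem loc_of {M : Type} [LinearOrder M] (g : KK e E2 E1 → M) (hg : SPc g)
    (hE2 : ∀ k, EG (E2 k)) (hE1 : EG E1) (x : ℕ → M)
    (hx1 : ∀ j (h : j < e + 5), x j = g (kB E2 E1 ⟨j, h⟩))
    (hx2 : ∀ j (h : j < 4), x (e + 5 + j) = g (kG e E2 (gA E1 ⟨j, h⟩)))
    (hx3 : ∀ j (h : j < 4), x (e + 9 + j) = g (kG e E2 (gB E1 ⟨j, h⟩))) :
    Loc e x ∧ cnt (x (e + 8)) (x (e + 9)) = nE E1 ∧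
      gaps (x (e + 4)) (x (e + 5)) = {n : ℕ | ∃ k, nE (E2 k) = n} := by
  obtain ⟨p1, p2, p3, p4⟩ := hadj E1
  have hB := hg.comp (spc_kB (e := e) (E2 := E2) (E1 := E1) hq hadj)
  have hD := hg.comp (spc_kD (e := e) (E2 := E2) (E1 := E1) hq hadj)
  have hG := spc_kG (e := e) (E2 := E2) (E1 := E1) hq hadj
  have hGA := hg.comp (hG.comp (spc_gA (k := 4) p2 p3))
  have hGB := hg.comp (hG.comp (spc_gB (k := 4) p1 p2 p3))
  have hGP := hg.comp (hG.comp (spc_gP (k := 4) p1 p2 p3))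
  have y4 := hx1 (e + 4) (by omega)
  have y5 : x (e + 5) = g (kG e E2 (gA E1 0)) := hx2 0 (by norm_num)
  have y8 : x (e + 8) = g (kG e E2 (gA E1 3)) := hx2 3 (by norm_num)
  have y9 : x (e + 9) = g (kG e E2 (gB E1 0)) := hx3 0 (by norm_num)
  have between1 : ∀ z, x (e + 4) < z → z < x (e + 5) → ∃ d, g (kD e E1 d) = z := by
    intro z h1 h2
    rw [y4] at h1
    rw [y5] at h2
    obtain ⟨w, rfl⟩ := hg.cv _ _ z h1 h2
    obtain ⟨d, rfl⟩ := kk_between hadj w _ rfl ((hg.lt _ _).1 h1) ((hg.lt _ _).1 h2)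
    exact ⟨d, rfl⟩
  have between2 : ∀ z, x (e + 8) < z → z < x (e + 9) → ∃ p, g (kG e E2 (gP 4 p)) = z := by
    intro z h1 h2
    rw [y8] at h1
    rw [y9] at h2
    obtain ⟨w, rfl⟩ := (hg.comp hG).cv _ _ z h1 h2
    obtain ⟨p, rfl⟩ := gg_between w 3 0 rfl rfl (((hg.comp hG).lt _ _).1 h1)
      (((hg.comp hG).lt _ _).1 h2)
    exact ⟨p, rfl⟩
  refine ⟨⟨?_, ?_, ?_, ?_, ?_, ?_, ?_, ?_, ?_⟩, ?_, ?_⟩
  · intro i hi
    rw [hx1 i (by omega), hx1 (i + 1) (by omega)]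
    exact hB.cov.2 (fin_cov _ _ rfl)
  · intro z hz
    rw [hx1 0 (by omega)] at hz
    obtain ⟨c, rfl⟩ := hB.dn _ z hz
    have h1 := hB.cov.1 hz
    rw [Fin.covBy_iff, Nat.covBy_iff_add_one_eq] at h1
    exact absurd h1 (Nat.succ_ne_zero _)
  · intro z hz
    rw [y4] at hz
    obtain ⟨c, rfl⟩ := hB.up _ z hz
    have h1 := hB.cov.1 hz
    rw [Fin.covBy_iff, Nat.covBy_iff_add_one_eq] at h1
    have := c.isLt
    simp only at h1
    omega
  · rw [y4, y5]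
    exact (hg.lt _ _).2 (kB_lt_kG _ _)
  · intro z h1 h2 h3
    obtain ⟨d, rfl⟩ := between1 z h1 h2
    rw [sch_three, hD.ch] at h3
    exact dd_ch hq hadj hE2 le_rfl d h3
  · intro i hi
    rw [show e + 6 + i = e + 5 + (i + 1) by omega, hx2 i (by omega), hx2 (i + 1) (by omega)]
    exact hGA.cov.2 (fin_cov _ _ rfl)
  · rw [y8, y9]
    exact ((hg.comp hG).lt _ _).2 (gA_lt_gB _ _)
  · intro z h1 h2 h3
    obtain ⟨p, rfl⟩ := between2 z h1 h2
    rw [sch_three, hGP.ch] at h3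
    exact pp_ch (p4 hE1).1 (by norm_num) p h3
  · intro i hi
    rw [show e + 10 + i = e + 9 + (i + 1) by omega, hx3 i (by omega), hx3 (i + 1) (by omega)]
    exact hGB.cov.2 (fin_cov _ _ rfl)
  · rw [hGP.cnt_all _ _ _ between2, (p4 hE1).2]
    intro p
    rw [y8, y9]
    exact ⟨((hg.comp hG).lt _ _).2 (gA_lt_gP _ _), ((hg.comp hG).lt _ _).2 (gP_lt_gB _ _)⟩
  · rw [hD.gaps_all _ _ _ between1, dd_sgp hq hadj hE2]
    intro d
    rw [y4, y5]
    exact ⟨(hg.lt _ _).2 (kB_lt_kD _ _), (hg.lt _ _).2 (kD_lt_kG _ _)⟩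

end kk

/-! ### The order `Lo t` -/

section lo
variable (hq : StmtQd) (hadj : StmtPPadj) (hE : ∀ V, EG (can V))

/-- a component of `Lo t` -/
def lS (t : ℕ → Typ) (q : Qd)
    (w : KK (t q.col).1 (fun k => can (enumF (t q.col).2.2 k)) (can (t q.col).2.1)) : Lo t :=
  toLex ⟨q, w⟩

include hq hadj in
theorem spc_lS (t : ℕ → Typ) (q : Qd) : SPc (lS t q) :=
  spc_sig (α := fun q : Qd => KK (t q.col).1 (fun k => can (enumF (t q.col).2.2 k))
    (can (t q.col).2.1)) (qd_dense hq)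
    (fun q => by
      obtain ⟨w⟩ := gg_nonempty hadj 4 (can (t q.col).2.1)
      exact ⟨kG _ _ w⟩) q

include hq hadj hE in
/-- every location is in a component -/
theorem loc_sub (t : ℕ → Typ) (e : ℕ) (x : ℕ → Lo t) (hx : Loc e x) :
    ∃ q : Qd, (t q.col).1 = e ∧
      (∀ j (h : j < (t q.col).1 + 5), x j = lS t q (kB _ _ ⟨j, h⟩)) ∧
      (∀ j (h : j < 4), x ((t q.col).1 + 5 + j) = lS t q (kG _ _ (gA _ ⟨j, h⟩))) ∧
      (∀ j (h : j < 4), x ((t q.col).1 + 9 + j) = lS t q (kG _ _ (gB _ ⟨j, h⟩))) := by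
  obtain ⟨q, z0, hz0⟩ := sps_sig_cases (x 0)
  have hg := spc_lS hq hadj t q
  have hz : x 0 = lS t q z0 := hz0
  have hB := hg.comp (spc_kB (e := (t q.col).1) (E2 := fun k => can (enumF (t q.col).2.2 k))
    (E1 := can (t q.col).2.1) hq hadj)
  have hD := hg.comp (spc_kD (e := (t q.col).1) (E2 := fun k => can (enumF (t q.col).2.2 k))
    (E1 := can (t q.col).2.1) hq hadj)
  have hG := hg.comp (spc_kG (e := (t q.col).1) (E2 := fun k => can (enumF (t q.col).2.2 k))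
    (E1 := can (t q.col).2.1) hq hadj)
  obtain ⟨p1, p2, p3, p4⟩ := hadj (can (t q.col).2.1)
  have hGA := hG.comp (spc_gA (k := 4) p2 p3)
  have hGB := hG.comp (spc_gB (k := 4) p1 p2 p3)
  have hGP := hG.comp (spc_gP (k := 4) p1 p2 p3)
  have hc : SCh (e + 4) (x 0) := ⟨x, rfl, hx.chain⟩
  refine ⟨q, ?_⟩
  -- the first block
  obtain ⟨i, hi, rfl⟩ : ∃ i : Fin ((t q.col).1 + 5), i.val + (e + 4) < (t q.col).1 + 5 ∧
      z0 = kB _ _ i := by
    rcases kk_cases z0 with ⟨i, rfl⟩ | ⟨d, rfl⟩ | ⟨w, rfl⟩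
    · rw [hz, hB.ch, sch_fin] at hc
      exact ⟨i, hc, rfl⟩
    · rw [hz, hD.ch] at hc
      exact absurd hc (dd_ch hq hadj (fun _ => hE _) (by omega) d)
    · rw [hz, hG.ch] at hc
      rcases gg_ch hadj (hE _) (by omega) w hc with ⟨i, hi, _⟩ | ⟨i, hi, _⟩ <;> omega
  have hi0 : i.val = 0 := by
    by_contra hne
    refine hx.nopred (lS t q (kB _ _ ⟨i.val - 1, by omega⟩)) ?_
    rw [hz]
    refine hB.cov.2 ?_
    rw [Fin.covBy_iff, Nat.covBy_iff_add_one_eq]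
    show i.val - 1 + 1 = i.val
    omega
  obtain ⟨i, hil⟩ := i
  simp only at hi0
  subst hi0
  have hfirst : ∀ j (h : j < (t q.col).1 + 5), j ≤ e + 4 → x j = lS t q (kB _ _ ⟨j, h⟩) := by
    intro j
    induction j with
    | zero => exact fun _ _ => hz
    | succ j ih =>
      intro h1 h2
      have h3 := hx.chain j (by omega)
      rw [ih (by omega) (by omega)] at h3
      exact h3.unique_right (hB.cov.2 (fin_cov _ _ rfl))
  have hee : (t q.col).1 = e := by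
    by_contra hne
    simp only at hi
    refine hx.nosucc (lS t q (kB _ _ ⟨e + 5, by omega⟩)) ?_
    rw [hfirst (e + 4) (by omega) le_rfl]
    exact hB.cov.2 (fin_cov _ _ rfl)
  subst hee
  have y4 := hfirst ((t q.col).1 + 4) (by omega) le_rfl
  -- the second block
  have c5 : C4 (x ((t q.col).1 + 5)) :=
    ⟨_, _, _, hx.chain1 0 (by norm_num), hx.chain1 1 (by norm_num), hx.chain1 2 (by norm_num)⟩
  have y5 : x ((t q.col).1 + 5) = lS t q (kG _ _ (gA _ 0)) := by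
    have k1 : C4 (lS t q (kG _ _ (gA _ 0))) := by
      rw [sch_three, hGA.ch, sch_fin]
      decide
    have k2 : x ((t q.col).1 + 4) < lS t q (kG _ _ (gA _ 0)) := by
      rw [y4]
      exact (hg.lt _ _).2 (kB_lt_kG _ _)
    have k3 : ¬ lS t q (kG _ _ (gA _ 0)) < x ((t q.col).1 + 5) := fun h => hx.no1 _ k2 h k1
    rcases lt_or_eq_of_le (not_lt.1 k3) with h | h
    · exfalso
      have k4 := hx.lt1
      rw [y4] at k4
      obtain ⟨w, hw⟩ := hg.cv _ _ _ k4 h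
      rw [← hw] at k4 h c5
      obtain ⟨d, rfl⟩ := kk_between hadj w _ rfl ((hg.lt _ _).1 k4) ((hg.lt _ _).1 h)
      rw [sch_three, hD.ch] at c5
      exact dd_ch hq hadj (fun _ => hE _) le_rfl d c5
    · exact h
  have hsecond : ∀ j (h : j < 4), x ((t q.col).1 + 5 + j) = lS t q (kG _ _ (gA _ ⟨j, h⟩)) := by
    intro j
    induction j with
    | zero => exact fun _ => y5
    | succ j ih =>
      intro h1
      have h3 := hx.chain1 j (by omega)
      rw [ih (by omega), show (t q.col).1 + 6 + j = (t q.col).1 + 5 + (j + 1) by omega] at h3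
      exact h3.unique_right (hGA.cov.2 (fin_cov _ _ rfl))
  have y8 : x ((t q.col).1 + 8) = lS t q (kG _ _ (gA _ 3)) := hsecond 3 (by norm_num)
  -- the third block
  have c9 : C4 (x ((t q.col).1 + 9)) :=
    ⟨_, _, _, hx.chain2 0 (by norm_num), hx.chain2 1 (by norm_num), hx.chain2 2 (by norm_num)⟩
  have y9 : x ((t q.col).1 + 9) = lS t q (kG _ _ (gB _ 0)) := by
    have k1 : C4 (lS t q (kG _ _ (gB _ 0))) := by
      rw [sch_three, hGB.ch, sch_fin]
      decide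
    have k2 : x ((t q.col).1 + 8) < lS t q (kG _ _ (gB _ 0)) := by
      rw [y8]
      exact (hG.lt _ _).2 (gA_lt_gB _ _)
    have k3 : ¬ lS t q (kG _ _ (gB _ 0)) < x ((t q.col).1 + 9) := fun h => hx.no2 _ k2 h k1
    rcases lt_or_eq_of_le (not_lt.1 k3) with h | h
    · exfalso
      have k4 := hx.lt2
      rw [y8] at k4
      obtain ⟨w, hw⟩ := hG.cv _ _ _ k4 h
      rw [← hw] at k4 h c9
      obtain ⟨p, rfl⟩ := gg_between w 3 0 rfl rfl ((hG.lt _ _).1 k4) ((hG.lt _ _).1 h)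
      rw [sch_three, hGP.ch] at c9
      exact pp_ch (p4 (hE _)).1 (by norm_num) p c9
    · exact h
  have hthird : ∀ j (h : j < 4), x ((t q.col).1 + 9 + j) = lS t q (kG _ _ (gB _ ⟨j, h⟩)) := by
    intro j
    induction j with
    | zero => exact fun _ => y9
    | succ j ih =>
      intro h1
      have h3 := hx.chain2 j (by omega)
      rw [ih (by omega), show (t q.col).1 + 10 + j = (t q.col).1 + 9 + (j + 1) by omega] at h3
      exact h3.unique_right (hGB.cov.2 (fin_cov _ _ rfl))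
  exact ⟨rfl, fun j h => hfirst j h (by omega), hsecond, hthird⟩

end lo

end Pool.Agent.NonLow.SemAux

namespace Pool.Agent.NonLow

open SemAux

theorem sem_main (hq : StmtQd) (hadj : StmtPPadj) (hn : ∀ V, nE (can V) = V)
    (hE : ∀ V, EG (can V)) : StmtSem := by
  have hF : ∀ F : Finset ℕ, {n : ℕ | ∃ k, nE (can (enumF F k)) = n} = (F : Set ℕ) := by
    intro F
    ext n
    simp only [hn, Set.mem_ofPred_eq, Finset.mem_coe]
    unfold enumF
    constructor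
    · rintro ⟨k, hk⟩
      by_cases h : k ∈ F
      · rw [if_pos h] at hk
        have : k = n := by exact_mod_cast hk
        exact this ▸ h
      · rw [if_neg h] at hk
        exact absurd hk (ENat.top_ne_natCast n)
    · intro h
      exact ⟨n, if_pos h⟩
  intro t
  constructor
  · intro i
    obtain ⟨q, rfl, _⟩ := hq.2.1 i (Classical.arbitrary Qd)
    set e := (t q.col).1 with he
    refine ⟨fun j => if h : j < (t q.col).1 + 5 then lS t q (kB _ _ ⟨j, h⟩)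
      else if h : j - ((t q.col).1 + 5) < 4 then lS t q (kG _ _ (gA _ ⟨j - ((t q.col).1 + 5), h⟩))
      else if h : j - ((t q.col).1 + 9) < 4 then lS t q (kG _ _ (gB _ ⟨j - ((t q.col).1 + 9), h⟩))
      else lS t q (kG _ _ (gB _ 0)), ?_⟩
    refine (loc_of (e := (t q.col).1) hq hadj (lS t q) (spc_lS hq hadj t q) (fun _ => hE _)
      (hE _) _ ?_ ?_ ?_).1
    · intro j h
      simp only [dif_pos h]
    · intro j h
      have h1 : ¬ (t q.col).1 + 5 + j < (t q.col).1 + 5 := by omega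
      have h2 : (t q.col).1 + 5 + j - ((t q.col).1 + 5) < 4 := by omega
      simp only [dif_neg h1, dif_pos h2]
      congr 4
      omega
    · intro j h
      have h1 : ¬ (t q.col).1 + 9 + j < (t q.col).1 + 5 := by omega
      have h2 : ¬ (t q.col).1 + 9 + j - ((t q.col).1 + 5) < 4 := by omega
      have h3 : (t q.col).1 + 9 + j - ((t q.col).1 + 9) < 4 := by omega
      simp only [dif_neg h1, dif_neg h2, dif_pos h3]
      congr 4
      omega
  · intro e x hx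
    obtain ⟨q, hqe, h1, h2, h3⟩ := loc_sub hq hadj hE t e x hx
    subst hqe
    obtain ⟨_, h4, h5⟩ := loc_of (e := (t q.col).1) hq hadj (lS t q) (spc_lS hq hadj t q)
      (fun _ => hE _) (hE _) x h1 h2 h3
    refine ⟨q.col, rfl, ?_, ?_⟩
    · rw [h4, hn]
    · rw [h5, hF]

end Pool.Agent.NonLow
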