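import Pool.Agent.NonLow.Stmts2

/-!
# Combinatorics of the stage approximations (module TS)
-/

set_option autoImplicit false

namespace Pool.Agent.NonLow

/-! ### `leastN` -/

theorem lt_leastN (W : ℕ → Prop) (v : ℕ) : (v : ℕ∞) < leastN W ↔ ∀ v', v' ≤ v → W v' := by
  unfold leastN
  constructor
  · intro h
    by_contra hc
    have hsub : {u : ℕ | ∀ v', v' ≤ u → W v'} ⊆ ((Finset.range v : Finset ℕ) : Set ℕ) := by
      intro u hu
      rw [Finset.coe_range, Set.mem_Iio]
      by_contra h2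
      exact hc fun v' hv' => hu v' (hv'.trans (not_lt.1 h2))
    have h1 := Set.encard_le_encard hsub
    rw [Set.encard_coe_eq_coe_finsetCard, Finset.card_range] at h1
    exact absurd h (not_lt.2 h1)
  · intro h
    have hsub : ((Finset.range (v + 1) : Finset ℕ) : Set ℕ) ⊆ {u : ℕ | ∀ v', v' ≤ u → W v'} := by
      intro u hu v' hv'
      rw [Finset.coe_range, Set.mem_Iio] at hu
      exact h v' (by omega)
    have h1 := Set.encard_le_encard hsub
    rw [Set.encard_coe_eq_coe_finsetCard, Finset.card_range] at h1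
    refine lt_of_lt_of_le ?_ h1
    exact_mod_cast Nat.lt_succ_self v

theorem leastN_eq_top (W : ℕ → Prop) : leastN W = ⊤ ↔ ∀ v, W v := by
  constructor
  · intro h v
    have h1 : (v : ℕ∞) < leastN W := by
      rw [h]
      exact ENat.coe_lt_top v
    exact (lt_leastN W v).1 h1 v le_rfl
  · intro h
    rw [ENat.eq_top_iff_forall_gt]
    intro v
    exact (lt_leastN W v).2 fun v' _ => h v'

theorem leastN_eq_coe (W : ℕ → Prop) (n : ℕ) :
    leastN W = n ↔ (∀ v, v < n → W v) ∧ ¬ W n := by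
  constructor
  · intro h
    have h1 : ∀ v, v < n → W v := by
      intro v hv
      refine (lt_leastN W v).1 ?_ v le_rfl
      rw [h]
      exact_mod_cast hv
    refine ⟨h1, fun hn => ?_⟩
    have h2 : (n : ℕ∞) < leastN W := by
      rw [lt_leastN]
      intro v' hv'
      rcases Nat.lt_or_eq_of_le hv' with h3 | h3
      · exact h1 v' h3
      · rw [h3]
        exact hn
    rw [h] at h2
    exact lt_irrefl _ h2
  · rintro ⟨h1, h2⟩
    refine le_antisymm ?_ ?_
    · rw [← not_lt, lt_leastN]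
      exact fun h => h2 (h n le_rfl)
    · rcases Nat.eq_zero_or_pos n with h3 | h3
      · rw [h3]
        simp
      · have h4 : ((n - 1 : ℕ) : ℕ∞) < leastN W := by
          rw [lt_leastN]
          intro v' hv'
          exact h1 v' (by omega)
        have h5 := Order.add_one_le_of_lt h4
        have h6 : ((n - 1 : ℕ) : ℕ∞) + 1 = (n : ℕ∞) := by
          have : n - 1 + 1 = n := by omega
          exact_mod_cast congrArg (fun k : ℕ => (k : ℕ∞)) this
        rwa [h6] at h5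

variable (D : Data)

theorem lt_Unum (e l v : ℕ) :
    (v : ℕ∞) < Unum D e l ↔ ∀ v', v' ≤ v → ∃ a, D.U (e, l, v', a) :=
  lt_leastN (fun v' => ∃ a, D.U (e, l, v', a)) v

/-! ### Stages -/

theorem stage_dead_mono {e l s s' : ℕ} (h : s ≤ s') (hd : dead D e l s) : dead D e l s' := by
  obtain ⟨a, h1, h2⟩ := hd
  exact ⟨a, h1.trans h, h2⟩

theorem stage_lst_mem (e s : ℕ) :
    lst D e s = s + 1 ∨ (lst D e s ≤ s ∧ ¬ dead D e (lst D e s) s) :=
  Nat.sInf_mem (s := {l | l = s + 1 ∨ (l ≤ s ∧ ¬ dead D e l s)}) ⟨s + 1, Or.inl rfl⟩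

theorem stage_lst_le {e s l : ℕ} (h : l = s + 1 ∨ (l ≤ s ∧ ¬ dead D e l s)) : lst D e s ≤ l :=
  Nat.sInf_le h

theorem stage_Ust_mem (e l s : ℕ) :
    Ust D e l s ≤ s ∧ ∀ v', v' < Ust D e l s → ∃ a, a ≤ s ∧ D.U (e, l, v', a) :=
  Nat.sSup_mem (s := {v | v ≤ s ∧ ∀ v', v' < v → ∃ a, a ≤ s ∧ D.U (e, l, v', a)})
    ⟨0, Nat.zero_le _, fun _ h => absurd h (Nat.not_lt_zero _)⟩ ⟨s, fun _ hv => hv.1⟩

theorem stage_le_Ust {e l s v : ℕ} (h1 : v ≤ s)
    (h2 : ∀ v', v' < v → ∃ a, a ≤ s ∧ D.U (e, l, v', a)) : v ≤ Ust D e l s :=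
  le_csSup (s := {v | v ≤ s ∧ ∀ v', v' < v → ∃ a, a ≤ s ∧ D.U (e, l, v', a)})
    ⟨s, fun _ hv => hv.1⟩ ⟨h1, h2⟩

/-- a common bound for finitely many witnesses -/
theorem stage_bound (P : ℕ → ℕ → Prop) (n : ℕ) (h : ∀ m, m < n → ∃ a, P m a) :
    ∃ s0, ∀ m, m < n → ∃ a, a ≤ s0 ∧ P m a := by
  induction n with
  | zero => exact ⟨0, fun m hm => absurd hm (Nat.not_lt_zero _)⟩
  | succ n ih =>
    obtain ⟨s0, h0⟩ := ih fun m hm => h m (by omega)
    obtain ⟨a, ha⟩ := h n (by omega)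
    refine ⟨max s0 a, fun m hm => ?_⟩
    rcases Nat.lt_succ_iff_lt_or_eq.1 hm with h1 | h1
    · obtain ⟨b, hb, hb'⟩ := h0 m h1
      exact ⟨b, hb.trans (le_max_left _ _), hb'⟩
    · rw [h1]
      exact ⟨a, le_max_right _ _, ha⟩

theorem stage_main : StmtStage := by
  intro D
  have hmono : ∀ e s, lst D e s ≤ lst D e (s + 1) := by
    intro e s
    rcases stage_lst_mem D e (s + 1) with h | ⟨h1, h2⟩
    · rw [h]
      exact (stage_lst_le D (Or.inl rfl)).trans (by omega)
    · rcases Nat.lt_or_eq_of_le h1 with h3 | h3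
      · exact stage_lst_le D
          (Or.inr ⟨by omega, fun hd => h2 (stage_dead_mono D (Nat.le_succ s) hd)⟩)
      · rw [h3]
        exact stage_lst_le D (Or.inl rfl)
  refine ⟨hmono, ?_, ?_, ?_, ?_, ?_, ?_⟩
  · intro e t ht
    obtain ⟨h1, h2⟩ := ht
    obtain ⟨s0, h3⟩ := stage_bound (fun l a => ¬ D.T (e, l, a)) t fun l hl => by
      have := h2 l hl
      unfold tru at this
      exact not_forall.1 this
    refine ⟨max s0 t, fun s hs => ?_⟩
    have hs1 : s0 ≤ s := (le_max_left _ _).trans hs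
    have hs2 : t ≤ s := (le_max_right _ _).trans hs
    refine le_antisymm (stage_lst_le D (Or.inr ⟨hs2, fun ⟨a, _, ha⟩ => ha (h1 a)⟩)) ?_
    by_contra hc
    rw [not_le] at hc
    obtain ⟨a, ha, ha'⟩ := h3 _ hc
    rcases stage_lst_mem D e s with h4 | ⟨_, h5⟩
    · omega
    · exact h5 ⟨a, ha.trans hs1, ha'⟩
  · intro e he s0
    by_contra hc
    push Not at hc
    have hconst : ∀ k, lst D e (s0 + k) = lst D e s0 := by
      intro k
      induction k with
      | zero => rfl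
      | succ k ih =>
        rw [← ih]
        exact hc (s0 + k) (by omega)
    have h1 := he (lst D e s0)
    unfold tru at h1
    obtain ⟨a, ha⟩ := not_forall.1 h1
    have h2 := hconst (lst D e s0 + a)
    rcases stage_lst_mem D e (s0 + (lst D e s0 + a)) with h4 | ⟨_, h5⟩
    · omega
    · rw [h2] at h5
      exact h5 ⟨a, by omega, ha⟩
  · intro e l s
    obtain ⟨h1, h2⟩ := stage_Ust_mem D e l s
    refine stage_le_Ust D (by omega) fun v' hv' => ?_
    obtain ⟨a, h3, h4⟩ := h2 v' hv'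
    exact ⟨a, by omega, h4⟩
  · intro e l s
    exact (stage_Ust_mem D e l s).1
  · intro e l s
    by_contra hc
    rw [not_le] at hc
    have h1 : Unum D e l ≠ ⊤ := ne_top_of_lt hc
    obtain ⟨n, hn⟩ := ENat.ne_top_iff_exists.1 h1
    rw [← hn] at hc
    have h2 : n < Ust D e l s := by exact_mod_cast hc
    have h3 : (n : ℕ∞) < Unum D e l := by
      rw [lt_Unum]
      intro v' hv'
      obtain ⟨a, _, ha⟩ := (stage_Ust_mem D e l s).2 v' (by omega)
      exact ⟨a, ha⟩
    rw [← hn] at h3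
    exact lt_irrefl _ h3
  · intro e l v hv
    have h1 : ∀ v', v' < v → ∃ a, D.U (e, l, v', a) := by
      intro v' hv'
      have h2 : (v' : ℕ∞) < Unum D e l := lt_of_lt_of_le (by exact_mod_cast hv') hv
      exact (lt_Unum D e l v').1 h2 v' le_rfl
    obtain ⟨s0, h3⟩ := stage_bound (fun v' a => D.U (e, l, v', a)) v h1
    refine ⟨max s0 v, fun s hs => ?_⟩
    have hs1 : s0 ≤ s := (le_max_left _ _).trans hs
    have hs2 : v ≤ s := (le_max_right _ _).trans hs
    refine stage_le_Ust D hs2 fun v' hv' => ?_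
    obtain ⟨a, ha, ha'⟩ := h3 v' hv'
    exact ⟨a, ha.trans hs1, ha'⟩

end Pool.Agent.NonLow
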