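import Pool.Agent.NonLow.Stmts2

/-!
# Complexity of the stage approximations (module TSc)
-/

set_option autoImplicit false

namespace Pool.Agent.NonLow

variable (D : Data)

/-- membership in the set whose infimum is `lst` -/
private def SC_mem (e s l : ℕ) : Prop := l = s + 1 ∨ (l ≤ s ∧ ¬ dead D e l s)

/-- membership in the set whose supremum is `Ust` -/
private def SC_in (e l s v : ℕ) : Prop :=
  v ≤ s ∧ ∀ v', v' < v → ∃ a, a ≤ s ∧ D.U (e, l, v', a)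

private theorem SC_lst_iff (e s l : ℕ) :
    lst D e s = l ↔ SC_mem D e s l ∧ ∀ l', l' < l → ¬ SC_mem D e s l' := by
  have hne : {l | SC_mem D e s l}.Nonempty := ⟨s + 1, Or.inl rfl⟩
  have hl : lst D e s = sInf {l | SC_mem D e s l} := rfl
  constructor
  · rintro rfl
    exact ⟨by rw [hl]; exact Nat.sInf_mem hne,
      fun l' h1 h2 => Nat.notMem_of_lt_sInf (s := {l | SC_mem D e s l}) (by rw [← hl]; exact h1) h2⟩
  · rintro ⟨h1, h2⟩
    rw [hl]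
    refine le_antisymm (Nat.sInf_le h1) ?_
    by_contra hc
    exact h2 _ (not_le.1 hc) (Nat.sInf_mem hne)

private theorem SC_Ust_iff (e l s v : ℕ) :
    Ust D e l s = v ↔ SC_in D e l s v ∧ ∀ v', v' < s + 1 → (v < v' → ¬ SC_in D e l s v') := by
  have hne : {v | SC_in D e l s v}.Nonempty :=
    ⟨0, Nat.zero_le _, fun _ h => absurd h (Nat.not_lt_zero _)⟩
  have hbd : BddAbove {v | SC_in D e l s v} := ⟨s, fun v hv => hv.1⟩
  have hl : Ust D e l s = sSup {v | SC_in D e l s v} := rfl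
  constructor
  · rintro rfl
    refine ⟨by rw [hl]; exact Nat.sSup_mem hne hbd, fun v' _ h1 h2 => ?_⟩
    have h3 : v' ≤ Ust D e l s := by rw [hl]; exact le_csSup hbd h2
    omega
  · rintro ⟨h1, h2⟩
    rw [hl]
    refine le_antisymm ?_ (le_csSup hbd h1)
    by_contra hc
    have h3 := Nat.sSup_mem hne hbd
    exact h2 _ (Nat.lt_succ_of_le h3.1) (not_le.1 hc) h3

private theorem SC_dead (hT : Dl Z 1 D.T) :
    Dl Z 1 (fun p : ℕ × ℕ × ℕ => dead D p.1 p.2.1 p.2.2) := by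
  have h1 : Dl Z 1 (fun q : (ℕ × ℕ × ℕ) × ℕ => ¬ D.T (q.1.1, q.1.2.1, q.2)) :=
    (hT.comp (f := fun q : (ℕ × ℕ × ℕ) × ℕ => (q.1.1, q.1.2.1, q.2))
      ((Computable.fst.comp Computable.fst).pair
        ((Computable.fst.comp (Computable.snd.comp Computable.fst)).pair Computable.snd))).not
  have h2 := Dl.bex (P := fun (p : ℕ × ℕ × ℕ) (a : ℕ) => ¬ D.T (p.1, p.2.1, a)) h1
    (f := fun p => p.2.2 + 1)
    (Computable.succ.comp (Computable.snd.comp Computable.snd))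
  refine h2.of_iff fun p => ?_
  unfold dead
  refine exists_congr fun a => and_congr_left fun _ => ?_
  omega

private theorem SC_memC (hT : Dl Z 1 D.T) :
    Dl Z 1 (fun p : (ℕ × ℕ) × ℕ => SC_mem D p.1.1 p.1.2 p.2) := by
  have c1 : Computable (fun p : (ℕ × ℕ) × ℕ => p.1.2) := Computable.snd.comp Computable.fst
  have c2 : Computable (fun p : (ℕ × ℕ) × ℕ => p.1.1) := Computable.fst.comp Computable.fst
  refine Dl.or (Dl.eq Computable.snd (Computable.succ.comp c1)) (Dl.and (Dl.le Computable.snd c1) ?_)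
  exact ((SC_dead D hT).comp (f := fun p : (ℕ × ℕ) × ℕ => (p.1.1, p.2, p.1.2))
    (c2.pair (Computable.snd.pair c1))).not

private theorem SC_lst (hT : Dl Z 1 D.T) :
    Dl Z 1 (fun p : (ℕ × ℕ) × ℕ => lst D p.1.1 p.1.2 = p.2) := by
  have h1 := SC_memC D hT
  have h2 : Dl Z 1 (fun q : ((ℕ × ℕ) × ℕ) × ℕ => ¬ SC_mem D q.1.1.1 q.1.1.2 q.2) :=
    (h1.comp (f := fun q : ((ℕ × ℕ) × ℕ) × ℕ => (q.1.1, q.2))
      ((Computable.fst.comp Computable.fst).pair Computable.snd)).not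
  have h3 := Dl.ball (P := fun (p : (ℕ × ℕ) × ℕ) (l : ℕ) => ¬ SC_mem D p.1.1 p.1.2 l) h2
    (f := fun p => p.2) Computable.snd
  exact (h1.and h3).of_iff fun p => SC_lst_iff D p.1.1 p.1.2 p.2

private theorem SC_inC (hU : Dl Z 1 D.U) :
    Dl Z 1 (fun p : (ℕ × ℕ × ℕ) × ℕ => SC_in D p.1.1 p.1.2.1 p.1.2.2 p.2) := by
  have c1 : Computable (fun p : (ℕ × ℕ × ℕ) × ℕ => p.1.2.2) :=
    Computable.snd.comp (Computable.snd.comp Computable.fst)
  -- the matrix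
  have d1 : Computable (fun q : (((ℕ × ℕ × ℕ) × ℕ) × ℕ) × ℕ =>
      (q.1.1.1.1, q.1.1.1.2.1, q.1.2, q.2)) := by
    have e1 : Computable (fun q : (((ℕ × ℕ × ℕ) × ℕ) × ℕ) × ℕ => q.1.1.1) :=
      Computable.fst.comp (Computable.fst.comp Computable.fst)
    exact (Computable.fst.comp e1).pair ((Computable.fst.comp (Computable.snd.comp e1)).pair
      ((Computable.snd.comp Computable.fst).pair Computable.snd))
  have h1 : Dl Z 1 (fun q : (((ℕ × ℕ × ℕ) × ℕ) × ℕ) × ℕ =>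
      D.U (q.1.1.1.1, q.1.1.1.2.1, q.1.2, q.2)) := hU.comp d1
  have h2 := Dl.bex (P := fun (q : ((ℕ × ℕ × ℕ) × ℕ) × ℕ) (a : ℕ) =>
      D.U (q.1.1.1, q.1.1.2.1, q.2, a)) h1 (f := fun q => q.1.1.2.2 + 1)
    (Computable.succ.comp (Computable.snd.comp (Computable.snd.comp
      (Computable.fst.comp Computable.fst))))
  have h3 := Dl.ball (P := fun (p : (ℕ × ℕ × ℕ) × ℕ) (v' : ℕ) =>
      ∃ a, a < p.1.2.2 + 1 ∧ D.U (p.1.1, p.1.2.1, v', a)) h2 (f := fun p => p.2) Computable.snd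
  refine (Dl.and (Dl.le Computable.snd c1) h3).of_iff fun p => ?_
  unfold SC_in
  refine and_congr_right fun _ => forall_congr' fun v' => forall_congr' fun _ =>
    exists_congr fun a => and_congr_left fun _ => ?_
  omega

private theorem SC_Ust (hU : Dl Z 1 D.U) :
    Dl Z 1 (fun p : (ℕ × ℕ × ℕ) × ℕ => Ust D p.1.1 p.1.2.1 p.1.2.2 = p.2) := by
  have h1 := SC_inC D hU
  have h2 : Dl Z 1 (fun q : ((ℕ × ℕ × ℕ) × ℕ) × ℕ =>
      ¬ SC_in D q.1.1.1 q.1.1.2.1 q.1.1.2.2 q.2) :=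
    (h1.comp (f := fun q : ((ℕ × ℕ × ℕ) × ℕ) × ℕ => (q.1.1, q.2))
      ((Computable.fst.comp Computable.fst).pair Computable.snd)).not
  have h3 : Dl Z 1 (fun q : ((ℕ × ℕ × ℕ) × ℕ) × ℕ => q.1.2 < q.2) :=
    Dl.lt (Computable.snd.comp Computable.fst) Computable.snd
  have h4 := Dl.ball (P := fun (p : (ℕ × ℕ × ℕ) × ℕ) (v' : ℕ) =>
      (p.2 < v' → ¬ SC_in D p.1.1 p.1.2.1 p.1.2.2 v')) (h3.imp h2) (f := fun p => p.1.2.2 + 1)
    (Computable.succ.comp (Computable.snd.comp (Computable.snd.comp Computable.fst)))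
  exact (h1.and h4).of_iff fun p => SC_Ust_iff D p.1.1 p.1.2.1 p.1.2.2 p.2

private theorem SC_Ucur (hT : Dl Z 1 D.T) (hU : Dl Z 1 D.U) :
    Dl Z 1 (fun p : (ℕ × ℕ) × ℕ => Ucur D p.1.1 p.1.2 = p.2) := by
  have h1 : Sg Z 1 (fun q : ((ℕ × ℕ) × ℕ) × ℕ => lst D q.1.1.1 q.1.1.2 = q.2) :=
    (SC_lst D hT).1.comp (f := fun q : ((ℕ × ℕ) × ℕ) × ℕ => (q.1.1, q.2))
      ((Computable.fst.comp Computable.fst).pair Computable.snd)
  have c1 : Computable (fun q : ((ℕ × ℕ) × ℕ) × ℕ => q.1.1) := Computable.fst.comp Computable.fst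
  have h2 : Dl Z 1 (fun q : ((ℕ × ℕ) × ℕ) × ℕ => Ust D q.1.1.1 q.2 q.1.1.2 = q.1.2) :=
    (SC_Ust D hU).comp (f := fun q : ((ℕ × ℕ) × ℕ) × ℕ => ((q.1.1.1, q.2, q.1.1.2), q.1.2))
      (((Computable.fst.comp c1).pair (Computable.snd.pair (Computable.snd.comp c1))).pair
        (Computable.snd.comp Computable.fst))
  exact Dl.fsub (P := fun (p : (ℕ × ℕ) × ℕ) (y : ℕ) => Ust D p.1.1 y p.1.2 = p.2)
    (f := fun p : (ℕ × ℕ) × ℕ => lst D p.1.1 p.1.2) h1 h2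

private theorem SC_bad (hT : Dl Z 1 D.T) (hU : Dl Z 1 D.U) :
    Dl Z 1 (fun p : ℕ × ℕ × ℕ => bad D p.1 p.2.1 p.2.2) := by
  have h1 : Sg Z 1 (fun q : (ℕ × ℕ × ℕ) × ℕ => lst D q.1.1 q.1.2.1 = q.2) :=
    (SC_lst D hT).1.comp (f := fun q : (ℕ × ℕ × ℕ) × ℕ => ((q.1.1, q.1.2.1), q.2))
      (((Computable.fst.comp Computable.fst).pair
        (Computable.fst.comp (Computable.snd.comp Computable.fst))).pair Computable.snd)
  have h2 : Dl Z 1 (fun q : (ℕ × ℕ × ℕ) × ℕ => lst D q.1.1 (q.1.2.1 + 1) ≠ q.2) :=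
    ((SC_lst D hT).comp (f := fun q : (ℕ × ℕ × ℕ) × ℕ => ((q.1.1, q.1.2.1 + 1), q.2))
      (((Computable.fst.comp Computable.fst).pair (Computable.succ.comp
        (Computable.fst.comp (Computable.snd.comp Computable.fst)))).pair Computable.snd)).not
  have h3 := Dl.fsub (P := fun (p : ℕ × ℕ × ℕ) (y : ℕ) => lst D p.1 (p.2.1 + 1) ≠ y)
    (f := fun p : ℕ × ℕ × ℕ => lst D p.1 p.2.1) h1 h2
  have h4 : Dl Z 1 (fun p : ℕ × ℕ × ℕ => Ucur D p.1 p.2.1 = p.2.2) :=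
    (SC_Ucur D hT hU).comp (f := fun p : ℕ × ℕ × ℕ => ((p.1, p.2.1), p.2.2))
      ((Computable.fst.pair (Computable.fst.comp Computable.snd)).pair
        (Computable.snd.comp Computable.snd))
  exact h3.or h4

private theorem SC_fst (hT : Dl Z 1 D.T) : Dl Z 2 (fun p : ℕ × ℕ => fst D p.1 p.2) := by
  have h1 : Dl Z 1 (fun q : (ℕ × ℕ) × ℕ => ¬ D.T (q.1.1, q.1.2, q.2)) :=
    (hT.comp (f := fun q : (ℕ × ℕ) × ℕ => (q.1.1, q.1.2, q.2))
      ((Computable.fst.comp Computable.fst).pair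
        ((Computable.snd.comp Computable.fst).pair Computable.snd))).not
  have h2 : Sg Z 1 (fun p : ℕ × ℕ => ¬ tru D p.1 p.2) :=
    (Sg.exN (P := fun (p : ℕ × ℕ) (a : ℕ) => ¬ D.T (p.1, p.2, a)) h1.1).of_iff fun p => by
      unfold tru
      exact not_forall
  have h3 : Dl Z 2 (fun p : ℕ × ℕ => tru D p.1 p.2) :=
    Sg.dlc (P := fun p : ℕ × ℕ => tru D p.1 p.2) h2
  have h4 : Dl Z 2 (fun q : (ℕ × ℕ) × ℕ => ¬ tru D q.1.1 q.2) :=
    (h3.comp (f := fun q : (ℕ × ℕ) × ℕ => (q.1.1, q.2))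
      ((Computable.fst.comp Computable.fst).pair Computable.snd)).not
  have h5 := Dl.ball (P := fun (p : ℕ × ℕ) (l : ℕ) => ¬ tru D p.1 l) h4 (f := fun p => p.2)
    Computable.snd
  exact h3.and h5

theorem stageC_main : StmtStageC := fun D hT hU _ =>
  ⟨SC_lst D hT, SC_Ucur D hT hU, SC_bad D hT hU, SC_fst D hT⟩

end Pool.Agent.NonLow
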