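import Pool.Agent.NonLow.Main
import Pool.Agent.NonLow.FamAll
import Pool.Agent.NonLow.LowNo
import Pool.Agent.NonLow.Pres
import Pool.Agent.NonLow.QdFacts
import Pool.Agent.NonLow.Shuffle
import Pool.Agent.NonLow.PPiso
import Pool.Agent.NonLow.PPadj
import Pool.Agent.NonLow.LLiso
import Pool.Agent.NonLow.Sem
import Pool.Agent.NonLow.ENum
import Pool.Agent.NonLow.Reindex
import Pool.Agent.NonLow.Univ
import Pool.Agent.NonLow.Cplx
import Pool.Agent.NonLow.Stage
import Pool.Agent.NonLow.StageC
import Pool.Agent.NonLow.Lim
import Pool.Agent.NonLow.BSlow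
import Pool.Agent.NonLow.BRange
import Pool.Agent.NonLow.BCplx
import Pool.Agent.NonLow.CStop
import Pool.Agent.NonLow.CRange
import Pool.Agent.NonLow.CCplx
import Pool.Agent.NonLow.InterA
import Pool.Agent.NonLow.InterB
import Pool.Agent.NonLow.InterC

/-!
# The main theorem
-/

set_option autoImplicit false

namespace Pool.Agent.NonLow

theorem main : StmtMain := by
  have hpp : StmtPP := pp_main' qd_main
  have hll : StmtLL := ll_main qd_main (shuffle_main qd_main) hpp
  have hlo : StmtLo := lo_main qd_main (shuffle_main qd_main) hpp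
  have hsem : StmtSem := sem_main qd_main (ppadj_main qd_main) nE_can (EG_can qd_main)
  have hfam : StmtFam := fam_main (b1_main stage_main stageC_main lim_main) (b2_main stage_main)
    (b3_main stageC_main) (c1_main stageC_main) (c2_main stage_main) (c3_main stageC_main)
  exact main_of (lowno_main univ_main cplx_main hsem)
    (pres_main (e1_main qd_main) e2_main reindex_main hll) hfam hlo i1_main
    (i3_main i1_main i2_main) (i4_main i1_main i2_main) (i5_main i1_main i2_main)
    (fun D => by obtain ⟨τ, h, _⟩ := fam_nonempty D 0; exact ⟨τ, h⟩)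

end Pool.Agent.NonLow
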