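import Pool.Agent.NonLow.Stmts

/-!
# Isolated convex pieces of linear orders (auxiliary file for the module Sem)
-/

set_option autoImplicit false
set_option linter.unusedSectionVars false

namespace Pool.Agent.NonLow.SemAux

section pc
variable {A M N : Type} [LinearOrder A] [LinearOrder M] [LinearOrder N]

/-- `f` embeds `A` as a convex piece of `M`; adjacencies do not leave the piece -/
structure SPc (f : A → M) : Prop where
  lt : ∀ a b, f a < f b ↔ a < b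
  cv : ∀ a b z, f a < z → z < f b → ∃ c, f c = z
  up : ∀ a z, f a ⋖ z → ∃ c, f c = z
  dn : ∀ a z, z ⋖ f a → ∃ c, f c = z

theorem SPc.inj {f : A → M} (h : SPc f) : Function.Injective f := by
  intro a b hab
  by_contra hne
  rcases lt_or_gt_of_ne hne with h1 | h1
  · have := (h.lt a b).2 h1
    rw [hab] at this
    exact lt_irrefl _ this
  · have := (h.lt b a).2 h1
    rw [hab] at this
    exact lt_irrefl _ this

theorem SPc.cov {f : A → M} (h : SPc f) {a b : A} : f a ⋖ f b ↔ a ⋖ b := by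
  constructor
  · intro hc
    refine ⟨(h.lt a b).1 hc.1, fun c h1 h2 => hc.2 ((h.lt a c).2 h1) ((h.lt c b).2 h2)⟩
  · intro hc
    refine ⟨(h.lt a b).2 hc.1, fun z h1 h2 => ?_⟩
    obtain ⟨c, rfl⟩ := h.cv a b z h1 h2
    exact hc.2 ((h.lt a c).1 h1) ((h.lt c b).1 h2)

theorem SPc.comp {f : A → M} {g : M → N} (hg : SPc g) (hf : SPc f) :
    SPc (fun a => g (f a)) where
  lt a b := (hg.lt _ _).trans (hf.lt a b)
  cv a b z h1 h2 := by
    obtain ⟨c, rfl⟩ := hg.cv _ _ z h1 h2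
    obtain ⟨d, rfl⟩ := hf.cv a b c ((hg.lt _ _).1 h1) ((hg.lt _ _).1 h2)
    exact ⟨d, rfl⟩
  up a z h1 := by
    obtain ⟨c, rfl⟩ := hg.up _ z h1
    obtain ⟨d, rfl⟩ := hf.up a c (hg.cov.1 h1)
    exact ⟨d, rfl⟩
  dn a z h1 := by
    obtain ⟨c, rfl⟩ := hg.dn _ z h1
    obtain ⟨d, rfl⟩ := hf.dn a c (hg.cov.1 h1)
    exact ⟨d, rfl⟩

/-- `x` starts a chain of `n` successive adjacencies -/
def SCh (n : ℕ) (x : M) : Prop := ∃ y : ℕ → M, y 0 = x ∧ ∀ i < n, y i ⋖ y (i + 1)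

theorem sch_two {x : M} : C3 x ↔ SCh 2 x := by
  constructor
  · rintro ⟨y, z, h1, h2⟩
    refine ⟨fun i => if i = 0 then x else if i = 1 then y else z, rfl, ?_⟩
    intro i hi
    interval_cases i
    · simpa using h1
    · simpa using h2
  · rintro ⟨y, rfl, h⟩
    exact ⟨y 1, y 2, h 0 (by norm_num), h 1 (by norm_num)⟩

theorem sch_three {x : M} : C4 x ↔ SCh 3 x := by
  constructor
  · rintro ⟨y, z, w, h1, h2, h3⟩
    refine ⟨fun i => if i = 0 then x else if i = 1 then y else if i = 2 then z else w, rfl, ?_⟩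
    intro i hi
    interval_cases i
    · simpa using h1
    · simpa using h2
    · simpa using h3
  · rintro ⟨y, rfl, h⟩
    exact ⟨y 1, y 2, y 3, h 0 (by norm_num), h 1 (by norm_num), h 2 (by norm_num)⟩

theorem SCh.mono {m n : ℕ} (hmn : m ≤ n) {x : M} (h : SCh n x) : SCh m x := by
  obtain ⟨y, h0, h1⟩ := h
  exact ⟨y, h0, fun i hi => h1 i (lt_of_lt_of_le hi hmn)⟩

theorem SPc.ch {f : A → M} (h : SPc f) {n : ℕ} {a : A} : SCh n (f a) ↔ SCh n a := by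
  constructor
  · rintro ⟨y, h0, h1⟩
    have h2 : ∀ j, ∃ c, j ≤ n → f c = y j := by
      intro j
      induction j with
      | zero => exact ⟨a, fun _ => h0.symm⟩
      | succ j ih =>
        obtain ⟨c, hc⟩ := ih
        by_cases hj : j + 1 ≤ n
        · have h3 := h1 j (by omega)
          rw [← hc (by omega)] at h3
          obtain ⟨d, hd⟩ := h.up c _ h3
          exact ⟨d, fun _ => hd⟩
        · exact ⟨a, fun h => absurd h hj⟩
    choose c hc using h2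
    refine ⟨c, ?_, ?_⟩
    · apply h.inj
      rw [hc 0 (Nat.zero_le _), h0]
    · intro i hi
      rw [← h.cov, hc i (by omega), hc (i + 1) (by omega)]
      exact h1 i hi
  · rintro ⟨y, rfl, h1⟩
    exact ⟨fun i => f (y i), rfl, fun i hi => h.cov.2 (h1 i hi)⟩

theorem SPc.c3 {f : A → M} (h : SPc f) {a : A} : C3 (f a) ↔ C3 a := by
  rw [sch_two, sch_two, h.ch]

theorem SPc.c4 {f : A → M} (h : SPc f) {a : A} : C4 (f a) ↔ C4 a := by
  rw [sch_three, sch_three, h.ch]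

theorem SPc.cnt {f : A → M} (h : SPc f) (a b : A) : cnt (f a) (f b) = cnt a b := by
  unfold NonLow.cnt
  rw [← h.inj.encard_image]
  congr 1
  ext z
  constructor
  · rintro ⟨h1, w, h2, h3⟩
    obtain ⟨c, rfl⟩ := h.cv a b z h1 (h2.1.trans h3)
    obtain ⟨d, rfl⟩ := h.up c w h2
    exact ⟨c, ⟨(h.lt _ _).1 h1, d, h.cov.1 h2, (h.lt _ _).1 h3⟩, rfl⟩
  · rintro ⟨c, ⟨h1, d, h2, h3⟩, rfl⟩
    exact ⟨(h.lt _ _).2 h1, f d, h.cov.2 h2, (h.lt _ _).2 h3⟩

/-- the piece is the whole interval `(u,v)` -/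
theorem SPc.cnt_all {f : A → M} (h : SPc f) (u v : M) (hin : ∀ a, u < f a ∧ f a < v)
    (hcv : ∀ z, u < z → z < v → ∃ a, f a = z) : NonLow.cnt u v = {a : A | ∃ b, a ⋖ b}.encard := by
  unfold NonLow.cnt
  rw [← h.inj.encard_image]
  congr 1
  ext z
  constructor
  · rintro ⟨h1, w, h2, h3⟩
    obtain ⟨c, rfl⟩ := hcv z h1 (h2.1.trans h3)
    obtain ⟨d, rfl⟩ := h.up c w h2
    exact ⟨c, ⟨d, h.cov.1 h2⟩, rfl⟩
  · rintro ⟨c, ⟨d, h2⟩, rfl⟩
    exact ⟨(hin c).1, f d, h.cov.2 h2, (hin d).2⟩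

/-- finite numbers of adjacent pairs between consecutive 3-blocks -/
def sgp (A : Type) [LinearOrder A] : Set ℕ :=
  {n | ∃ a0 a1 a2 b0 b1 b2 : A, a0 ⋖ a1 ∧ a1 ⋖ a2 ∧ a2 < b0 ∧ b0 ⋖ b1 ∧ b1 ⋖ b2 ∧
    (∀ z, a2 < z → z < b0 → ¬ C3 z) ∧ cnt a2 b0 = n}

theorem SPc.gaps_all {f : A → M} (h : SPc f) (u v : M) (hin : ∀ a, u < f a ∧ f a < v)
    (hcv : ∀ z, u < z → z < v → ∃ a, f a = z) : gaps u v = sgp A := by
  ext n
  constructor
  · rintro ⟨a0, a1, a2, b0, b1, b2, h1, h2, h3, h4, h5, h6, h7, h8, h9⟩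
    have k1 : a0 < v := h2.1.trans (h3.1.trans (h4.trans (h5.1.trans (h6.1.trans h7))))
    obtain ⟨a0, rfl⟩ := hcv a0 h1 k1
    obtain ⟨a1, rfl⟩ := h.up _ _ h2
    obtain ⟨a2, rfl⟩ := h.up _ _ h3
    have k2 : u < b0 := (hin a2).1.trans h4
    obtain ⟨b0, rfl⟩ := hcv b0 k2 (h5.1.trans (h6.1.trans h7))
    obtain ⟨b1, rfl⟩ := h.up _ _ h5
    obtain ⟨b2, rfl⟩ := h.up _ _ h6
    refine ⟨a0, a1, a2, b0, b1, b2, h.cov.1 h2, h.cov.1 h3, (h.lt _ _).1 h4, h.cov.1 h5,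
      h.cov.1 h6, ?_, ?_⟩
    · intro z k3 k4
      rw [← h.c3]
      exact h8 _ ((h.lt _ _).2 k3) ((h.lt _ _).2 k4)
    · rw [← h9, h.cnt]
  · rintro ⟨a0, a1, a2, b0, b1, b2, h2, h3, h4, h5, h6, h8, h9⟩
    refine ⟨f a0, f a1, f a2, f b0, f b1, f b2, (hin a0).1, h.cov.2 h2, h.cov.2 h3,
      (h.lt _ _).2 h4, h.cov.2 h5, h.cov.2 h6, (hin b2).2, ?_, ?_⟩
    · intro z k3 k4
      obtain ⟨z, rfl⟩ := h.cv _ _ z k3 k4
      rw [h.c3]
      exact h8 _ ((h.lt _ _).1 k3) ((h.lt _ _).1 k4)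
    · rw [h.cnt, h9]

end pc

/-! ### Chains in finite blocks -/

theorem sch_fin {k n : ℕ} {i : Fin k} : SCh n i ↔ i.val + n < k := by
  constructor
  · rintro ⟨y, rfl, h⟩
    have h1 : ∀ j ≤ n, (y j).val = (y 0).val + j := by
      intro j hj
      induction j with
      | zero => rfl
      | succ j ih =>
        have h2 := h j (by omega)
        rw [Fin.covBy_iff, Nat.covBy_iff_add_one_eq] at h2
        rw [← h2, ih (by omega)]
        rfl
    rw [← h1 n le_rfl]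
    exact (y n).isLt
  · intro h
    refine ⟨fun j => if hj : i.val + j < k then ⟨i.val + j, hj⟩ else i, ?_, ?_⟩
    · simp
    · intro j hj
      have h1 : i.val + j < k := by omega
      have h2 : i.val + (j + 1) < k := by omega
      simp only [dif_pos h1, dif_pos h2]
      rw [Fin.covBy_iff, Nat.covBy_iff_add_one_eq]
      rfl

/-! ### Lexicographic sums -/

section sum
variable {A B : Type} [LinearOrder A] [LinearOrder B]

/-- no adjacency between the two summands of `A ⊕ₗ B` -/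
def SOp (A B : Type) [LinearOrder A] [LinearOrder B] : Prop :=
  (∀ a : A, ∃ a', a < a') ∨ (∀ b : B, ∃ b', b' < b)

theorem SOp.not_cov (h : SOp A B) (a : A) (b : B) :
    ¬ (toLex (Sum.inl a) : A ⊕ₗ B) ⋖ toLex (Sum.inr b) := by
  intro hc
  rcases h with h | h
  · obtain ⟨a', ha⟩ := h a
    exact hc.2 (Sum.Lex.inl_lt_inl_iff.2 ha) (Sum.Lex.inl_lt_inr a' b)
  · obtain ⟨b', hb⟩ := h b
    exact hc.2 (Sum.Lex.inl_lt_inr a b') (Sum.Lex.inr_lt_inr_iff.2 hb)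

theorem sps_sum_cases (z : A ⊕ₗ B) : (∃ a, z = toLex (Sum.inl a)) ∨ ∃ b, z = toLex (Sum.inr b) := by
  rcases h : ofLex z with a | b
  · exact Or.inl ⟨a, by rw [← h]; rfl⟩
  · exact Or.inr ⟨b, by rw [← h]; rfl⟩

theorem spc_inl (h : SOp A B) : SPc (fun a : A => (toLex (Sum.inl a) : A ⊕ₗ B)) where
  lt a b := Sum.Lex.inl_lt_inl_iff
  cv a b z h1 h2 := by
    rcases sps_sum_cases z with ⟨c, rfl⟩ | ⟨c, rfl⟩
    · exact ⟨c, rfl⟩
    · exact absurd h2 Sum.Lex.not_inr_lt_inl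
  up a z h1 := by
    rcases sps_sum_cases z with ⟨c, rfl⟩ | ⟨c, rfl⟩
    · exact ⟨c, rfl⟩
    · exact absurd h1 (h.not_cov a c)
  dn a z h1 := by
    rcases sps_sum_cases z with ⟨c, rfl⟩ | ⟨c, rfl⟩
    · exact ⟨c, rfl⟩
    · exact absurd h1.1 Sum.Lex.not_inr_lt_inl

theorem spc_inr (h : SOp A B) : SPc (fun b : B => (toLex (Sum.inr b) : A ⊕ₗ B)) where
  lt a b := Sum.Lex.inr_lt_inr_iff
  cv a b z h1 h2 := by
    rcases sps_sum_cases z with ⟨c, rfl⟩ | ⟨c, rfl⟩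
    · exact absurd h1 Sum.Lex.not_inr_lt_inl
    · exact ⟨c, rfl⟩
  up a z h1 := by
    rcases sps_sum_cases z with ⟨c, rfl⟩ | ⟨c, rfl⟩
    · exact absurd h1.1 Sum.Lex.not_inr_lt_inl
    · exact ⟨c, rfl⟩
  dn a z h1 := by
    rcases sps_sum_cases z with ⟨c, rfl⟩ | ⟨c, rfl⟩
    · exact absurd h1 (h.not_cov c a)
    · exact ⟨c, rfl⟩

end sum

section sigma
variable {α : Qd → Type} [∀ i, LinearOrder (α i)]

theorem sps_sig_cases (z : Σₗ q : Qd, α q) : ∃ q a, z = toLex ⟨q, a⟩ := by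
  rcases h : ofLex z with ⟨q, a⟩
  exact ⟨q, a, by rw [← h]; rfl⟩

theorem sps_sig_lt {q : Qd} {a b : α q} :
    (toLex ⟨q, a⟩ : Σₗ q : Qd, α q) < toLex ⟨q, b⟩ ↔ a < b := by
  rw [Sigma.Lex.lt_def]
  constructor
  · rintro (h | ⟨h, h2⟩)
    · exact absurd h (lt_irrefl _)
    · exact h2
  · intro h
    exact Or.inr ⟨rfl, h⟩

theorem sps_sig_lt_of {q r : Qd} {a : α q} {b : α r} (h : q < r) :
    (toLex ⟨q, a⟩ : Σₗ q : Qd, α q) < toLex ⟨r, b⟩ := by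
  rw [Sigma.Lex.lt_def]
  exact Or.inl h

theorem sps_sig_le_of {q r : Qd} {a : α q} {b : α r}
    (h : (toLex ⟨q, a⟩ : Σₗ q : Qd, α q) < toLex ⟨r, b⟩) : q ≤ r := by
  rw [Sigma.Lex.lt_def] at h
  rcases h with h | ⟨h, _⟩
  · exact le_of_lt h
  · exact le_of_eq h

theorem spc_sig (hd : ∀ q r : Qd, q < r → ∃ s, q < s ∧ s < r) (hn : ∀ q, Nonempty (α q)) (q : Qd) :
    SPc (fun a : α q => (toLex ⟨q, a⟩ : Σₗ q : Qd, α q)) where
  lt a b := sps_sig_lt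
  cv a b z h1 h2 := by
    obtain ⟨r, c, rfl⟩ := sps_sig_cases z
    obtain rfl : q = r := le_antisymm (sps_sig_le_of h1) (sps_sig_le_of h2)
    exact ⟨c, rfl⟩
  up a z h1 := by
    obtain ⟨r, c, rfl⟩ := sps_sig_cases z
    rcases (sps_sig_le_of h1.1).lt_or_eq with h | rfl
    · exfalso
      obtain ⟨s, h2, h3⟩ := hd q r h
      obtain ⟨w⟩ := hn s
      exact h1.2 (c := toLex ⟨s, w⟩) (sps_sig_lt_of h2) (sps_sig_lt_of h3)
    · exact ⟨c, rfl⟩
  dn a z h1 := by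
    obtain ⟨r, c, rfl⟩ := sps_sig_cases z
    rcases (sps_sig_le_of h1.1).lt_or_eq with h | rfl
    · exfalso
      obtain ⟨s, h2, h3⟩ := hd r q h
      obtain ⟨w⟩ := hn s
      exact h1.2 (c := toLex ⟨s, w⟩) (sps_sig_lt_of h2) (sps_sig_lt_of h3)
    · exact ⟨c, rfl⟩

end sigma

end Pool.Agent.NonLow.SemAux
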