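import Pool.Agent.NonLow.Defs

/-!
# Frozen module statements

Each module of the project proves one of these `Prop`s (or uses others as hypotheses).
-/

set_option autoImplicit false

namespace Pool.Agent.NonLow

/-! ### Order theory -/

/-- O2: every colour is dense and unbounded in `Qd`. -/
def StmtQd : Prop :=
  (∀ (n : ℕ) (a b : Qd), a < b → ∃ c : Qd, c.col = n ∧ a < c ∧ c < b) ∧
  (∀ (n : ℕ) (a : Qd), ∃ c : Qd, c.col = n ∧ a < c) ∧
  (∀ (n : ℕ) (a : Qd), ∃ c : Qd, c.col = n ∧ c < a)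

/-- O1: shuffle lemma. -/
def StmtShuffle : Prop :=
  ∀ (A B : ℕ → Type) [∀ i, LinearOrder (A i)] [∀ i, LinearOrder (B i)],
    (∀ i, ∃ j, Nonempty (A i ≃o B j)) → (∀ j, ∃ i, Nonempty (A i ≃o B j)) →
    Nonempty ((Σₗ q : Qd, A q.col) ≃o (Σₗ q : Qd, B q.col))

/-- a subset of `Qd` which is nonempty, dense (in itself, even in `Qd`) and unbounded -/
def Good (S : Qd → Prop) : Prop :=
  (∀ a b : Qd, a < b → ∃ c, S c ∧ a < c ∧ c < b) ∧ (∀ a : Qd, ∃ c, S c ∧ a < c) ∧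
    (∀ a : Qd, ∃ c, S c ∧ c < a)

/-- `E j` is empty or good for every `j` -/
def EG (E : ℕ → Qd → Prop) : Prop := ∀ j, (∀ q, ¬ E j q) ∨ Good (E j)

/-- the number of `j` with `E j = ∅` -/
noncomputable def nE (E : ℕ → Qd → Prop) : ℕ∞ := {j : ℕ | ∀ q, ¬ E j q}.encard

/-- O3: the type of `PP E` depends only on the number of adjacent pairs. -/
def StmtPP : Prop :=
  ∀ E : ℕ → Qd → Prop, EG E → Nonempty (PP E ≃o PP (can (nE E)))

/-- O4: congruence: `LL e E2 E1 ≅ Lo t` when the data agree. -/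
def StmtLL : Prop :=
  ∀ (t : ℕ → Typ) (e : ℕ → ℕ) (E2 : ℕ → ℕ → ℕ → Qd → Prop) (E1 : ℕ → ℕ → Qd → Prop),
    (∀ i, e i = (t i).1) → (∀ i k, EG (E2 i k)) → (∀ i, EG (E1 i)) →
    (∀ i, nE (E1 i) = (t i).2.1) →
    (∀ i, Set.range (fun k => nE (E2 i k)) = insert ⊤ ((fun f : ℕ => (f : ℕ∞)) '' ((t i).2.2 : Set ℕ))) →
    Nonempty (LL e E2 E1 ≃o Lo t)

/-- O4': the type of `Lo t` depends only on the range of `t`. -/
def StmtLo : Prop :=
  ∀ t t' : ℕ → Typ, Set.range t = Set.range t' → Nonempty (Lo t ≃o Lo t')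

/-- O5a: adjacency in `PP E`. -/
def StmtPPadj : Prop :=
  ∀ E : ℕ → Qd → Prop,
    (∀ x : PP E, ∃ y, x < y) ∧ (∀ x : PP E, ∃ y, y < x) ∧ Nonempty (PP E) ∧
    (EG E → (∀ x y z : PP E, x ⋖ y → ¬ y ⋖ z) ∧ {a : PP E | ∃ b, a ⋖ b}.encard = nE E)

/-- O5b: locations in `Lo t` and their contents. -/
def StmtSem : Prop :=
  ∀ t : ℕ → Typ,
    (∀ i, ∃ x : ℕ → Lo t, Loc (t i).1 x) ∧
    (∀ e (x : ℕ → Lo t), Loc e x → ∃ i, (t i).1 = e ∧
      cnt (x (e + 8)) (x (e + 9)) = (t i).2.1 ∧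
      gaps (x (e + 4)) (x (e + 5)) = ((t i).2.2 : Set ℕ))

/-! ### Presentations -/

/-- `A i`, `i : ι`, is a uniformly `X`-computable family of linear orders. -/
def Pr (X : ℕ → ℕ) {ι : Type} [Primcodable ι] (A : ι → Type) [∀ i, LinearOrder (A i)] : Prop :=
  ∃ c : ∀ i, A i → ℕ, (∀ i, Function.Injective (c i)) ∧
    Dl X 0 (fun p : ι × ℕ => ∃ a : A p.1, c p.1 a = p.2) ∧
    ∃ r : ι × ℕ × ℕ → Prop, Dl X 0 r ∧ ∀ i a b, r (i, c i a, c i b) ↔ a < b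

/-- P: `Lo t` has an `X`-computable copy. -/
def StmtPres : Prop :=
  ∀ (X : ℕ → ℕ) (t : ℕ → Typ), Computable (fun i => (t i).1) →
    Sg X 1 (fun p : ℕ × ℕ => (p.2 : ℕ∞) < (t p.1).2.1) →
    Sg X 2 (fun p : ℕ × ℕ => p.2 ∈ (t p.1).2.2) →
    ∃ lt : ℕ × ℕ → Prop, Dl X 0 lt ∧ ∃ φ : ℕ ≃ Lo t, ∀ a b, lt (a, b) ↔ φ a < φ b

/-- N: diagonalisation against copies with limit computable order and adjacency. -/
def StmtLowNo : Prop :=
  ∃ D : Data, Dl Z 1 D.T ∧ Dl Z 1 D.U ∧ Dl Z 1 D.G ∧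
    ∀ t : ℕ → Typ, Set.range t = Fam D → ∀ lt : ℕ × ℕ → Prop, Dl Z 1 lt →
      Dl Z 1 (fun p : ℕ × ℕ => ∃ z, lt (p.1, z) ∧ lt (z, p.2)) →
      ∀ φ : ℕ ≃ Lo t, ¬ ∀ a b, lt (a, b) ↔ φ a < φ b

/-- T: enumeration of the family `Fam D` from a non-low oracle. -/
def StmtFam : Prop :=
  ∀ D : Data, Dl Z 1 D.T → Dl Z 1 D.U → Dl Z 1 D.G → ∀ (X : ℕ → ℕ) (A : ℕ → Prop),
    Sg X 0 A → ¬ Dl Z 1 A →
    ∃ t : ℕ → Typ, Set.range t = Fam D ∧ Computable (fun i => (t i).1) ∧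
      Sg X 1 (fun p : ℕ × ℕ => (p.2 : ℕ∞) < (t p.1).2.1) ∧
      Sg X 2 (fun p : ℕ × ℕ => p.2 ∈ (t p.1).2.2)

/-! ### Interface with Mathlib's Turing reducibility -/

/-- I1: functions recursive in `X` have `Σ₁(X)` graphs. -/
def StmtI1 : Prop :=
  ∀ (X : ℕ → ℕ) (f : ℕ →. ℕ), TuringReducible f (PFun.lift X) →
    Sg X 0 (fun p : ℕ × ℕ => p.2 ∈ f p.1)

/-- I2: total functions with `Σ₁(X)` graphs are recursive in `X`. -/
def StmtI2 : Prop :=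
  ∀ (X f : ℕ → ℕ), Sg X 0 (fun p : ℕ × ℕ => f p.1 = p.2) →
    TuringReducible (PFun.lift f) (PFun.lift X)

/-- I3: if `X` is low then every `Σ₁(X)` set is `Δ₂`. -/
def StmtI3 : Prop :=
  ∀ X : ℕ → ℕ, Low X → ∀ {α : Type} [Primcodable α] (P : α → Prop), Sg X 0 P → Dl Z 1 P

/-- I4: if `X` is not low, then some `Σ₁(X)` set is not `Δ₂`. -/
def StmtI4 : Prop :=
  ∀ X : ℕ → ℕ, ¬ Low X → ∃ A : ℕ → Prop, Sg X 0 A ∧ ¬ Dl Z 1 A

/-- I5: a linear order with an `X`-computable copy has a copy of the degree of `X`. -/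
def StmtI5 : Prop :=
  ∀ (X : ℕ → ℕ) (R : ℕ → ℕ → Bool), (∀ a, R a a = true) →
    (∀ a b c, R a b = true → R b c = true → R a c = true) →
    (∀ a b, R a b = true → R b a = true → a = b) → (∀ a b, R a b = true ∨ R b a = true) →
    Dl X 0 (fun p : ℕ × ℕ => R p.1 p.2 = true) →
    ∃ S : ℕ → ℕ → Bool, (∃ e : ℕ ≃ ℕ, ∀ a b, R a b = S (e a) (e b)) ∧
      TuringReducible
        (PFun.lift (fun p : ℕ => (S (Nat.unpair p).1 (Nat.unpair p).2).toNat)) (PFun.lift X) ∧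
      TuringReducible (PFun.lift X)
        (PFun.lift (fun p : ℕ => (S (Nat.unpair p).1 (Nat.unpair p).2).toNat))

/-! ### Main theorem -/

/-- the main theorem: there is a linear order on `ℕ` such that the functions Turing equivalent to
one of its copies are exactly the non-low ones -/
def StmtMain : Prop :=
  ∃ R : ℕ → ℕ → Bool,
    (∀ a, R a a = true) ∧
    (∀ a b c, R a b = true → R b c = true → R a c = true) ∧
    (∀ a b, R a b = true → R b a = true → a = b) ∧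
    (∀ a b, R a b = true ∨ R b a = true) ∧
    ∀ X : ℕ → ℕ, (¬ Low X ↔
      ∃ S : ℕ → ℕ → Bool,
        (∃ e : ℕ ≃ ℕ, ∀ a b, R a b = S (e a) (e b)) ∧
        TuringReducible
          (PFun.lift (fun p : ℕ => (S (Nat.unpair p).1 (Nat.unpair p).2).toNat))
          (PFun.lift X) ∧
        TuringReducible (PFun.lift X)
          (PFun.lift (fun p : ℕ => (S (Nat.unpair p).1 (Nat.unpair p).2).toNat)))

end Pool.Agent.NonLow
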