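import Pool.Agent.NonLow.Comp

/-!
# Frozen module statements, second part (computability)
-/

set_option autoImplicit false

namespace Pool.Agent.NonLow

/-! ### Presentations -/

/-- PC1: a `Σ₂(X)` number as the number of empty members of an `X`-decidable family. -/
def StmtE1 : Prop :=
  ∀ (X : ℕ → ℕ) {ι : Type} [Primcodable ι] (V : ι → ℕ∞),
    Sg X 1 (fun p : ι × ℕ => (p.2 : ℕ∞) < V p.1) →
    ∃ E : ι → ℕ → Qd → Prop, Dl X 0 (fun p : (ι × ℕ) × Qd => E p.1.1 p.1.2 p.2) ∧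
      ∀ i, EG (E i) ∧ nE (E i) = V i

/-- PC2: a `Σ₃(X)` set as the set of finite values of a sequence of `Σ₂(X)` numbers. -/
def StmtE2 : Prop :=
  ∀ (X : ℕ → ℕ) {ι : Type} [Primcodable ι] (F : ι → Set ℕ),
    Sg X 2 (fun p : ι × ℕ => p.2 ∈ F p.1) →
    ∃ n : ι × ℕ → ℕ∞, Sg X 1 (fun p : (ι × ℕ) × ℕ => (p.2 : ℕ∞) < n p.1) ∧
      ∀ i, Set.range (fun k => n (i, k)) = insert ⊤ ((fun f : ℕ => (f : ℕ∞)) '' F i)

/-- PB: an infinite order which is a member of a presentable family has a copy on `ℕ`. -/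
def StmtReindex : Prop :=
  ∀ (X : ℕ → ℕ) (A : Type) [LinearOrder A] [Infinite A], Pr X (fun _ : ℕ => A) →
    ∃ lt : ℕ × ℕ → Prop, Dl X 0 lt ∧ ∃ φ : ℕ ≃ A, ∀ a b, lt (a, b) ↔ φ a < φ b

/-! ### Universal predicates -/

/-- the universal lightface `Σ₁` predicate -/
def HH (c x : ℕ) : Prop :=
  ((Denumerable.ofNat Nat.Partrec.Code c).eval x).Dom

/-- NA: universality. -/
def StmtUniv : Prop :=
  Sg Z 0 (fun p : ℕ × ℕ => HH p.1 p.2) ∧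
  (∀ P : ℕ × ℕ → Prop, Sg Z 1 (fun p => ¬ P p) →
    ∃ c, ∀ n l, P (n, l) ↔ ∀ a, HH c (Encodable.encode ((n, l, a) : ℕ × ℕ × ℕ))) ∧
  (∀ P : ℕ × ℕ × ℕ → Prop, Sg Z 1 P →
    ∃ c, ∀ n l v, P (n, l, v) ↔ ∃ a, ¬ HH c (Encodable.encode ((n, l, v, a) : ℕ × ℕ × ℕ × ℕ))) ∧
  (∀ P : ℕ × ℕ × ℕ → Prop, Sg Z 2 P →
    ∃ c, ∀ n l f, P (n, l, f) ↔ ∃ w, ∀ b, HH c (Encodable.encode ((n, l, f, w, b) : ℕ × ℕ × ℕ × ℕ × ℕ)))

/-- the sequence coded by a natural number -/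
def dec (l : ℕ) : ℕ → ℕ := fun i => ((Encodable.decode (α := List ℕ) l).getD []).getD i 0

/-- NB: complexity of locations and contents in a copy with limit computable order and adjacency.
`φ` is an isomorphism of the copy with a linear order `M`. -/
def StmtCplx : Prop :=
  ∀ (M : Type) [LinearOrder M] (φ : ℕ ≃ M) (lt : ℕ × ℕ → Prop),
    (∀ a b, lt (a, b) ↔ φ a < φ b) → Dl Z 1 lt →
    Dl Z 1 (fun p : ℕ × ℕ => ∃ z, lt (p.1, z) ∧ lt (z, p.2)) →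
    Sg Z 1 (fun p : ℕ × ℕ => ¬ Loc p.1 (fun i => φ (dec p.2 i))) ∧
    Sg Z 1 (fun p : ℕ × ℕ × ℕ =>
      (p.2.2 : ℕ∞) < cnt (φ (dec p.2.1 (p.1 + 8))) (φ (dec p.2.1 (p.1 + 9)))) ∧
    Sg Z 2 (fun p : ℕ × ℕ × ℕ =>
      p.2.2 ∈ gaps (φ (dec p.2.1 (p.1 + 4))) (φ (dec p.2.1 (p.1 + 5))))

/-! ### Stages -/

section stages
variable (D : Data)

/-- `ℓ` is refuted by stage `s` -/
def dead (e ℓ s : ℕ) : Prop := ∃ a, a ≤ s ∧ ¬ D.T (e, ℓ, a)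

/-- the location at stage `s` -/
noncomputable def lst (e s : ℕ) : ℕ := sInf {ℓ | ℓ = s + 1 ∨ (ℓ ≤ s ∧ ¬ dead D e ℓ s)}

/-- the number at stage `s` -/
noncomputable def Ust (e ℓ s : ℕ) : ℕ :=
  sSup {v | v ≤ s ∧ ∀ v', v' < v → ∃ a, a ≤ s ∧ D.U (e, ℓ, v', a)}

/-- the current number at stage `s` -/
noncomputable def Ucur (e s : ℕ) : ℕ := Ust D e (lst D e s) s

/-- `v` is bad at stage `s` -/
def bad (e s v : ℕ) : Prop := lst D e (s + 1) ≠ lst D e s ∨ Ucur D e s = v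

/-- `v` is pushed, with delay function `g` -/
def Push (g : ℕ → ℕ) (e r v : ℕ) : Prop := ∃ s, g v ≤ s ∧ r ≤ s ∧ bad D e s v

/-- TS: semantics of the stages. -/
def StmtStage : Prop := ∀ D : Data,
  (∀ e s, lst D e s ≤ lst D e (s + 1)) ∧
  (∀ e t, fst D e t → ∃ s0, ∀ s, s0 ≤ s → lst D e s = t) ∧
  (∀ e, (∀ ℓ, ¬ tru D e ℓ) → ∀ s0, ∃ s, s0 ≤ s ∧ lst D e (s + 1) ≠ lst D e s) ∧
  (∀ e ℓ s, Ust D e ℓ s ≤ Ust D e ℓ (s + 1)) ∧
  (∀ e ℓ s, Ust D e ℓ s ≤ s) ∧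
  (∀ e ℓ s, (Ust D e ℓ s : ℕ∞) ≤ Unum D e ℓ) ∧
  (∀ e ℓ (v : ℕ), (v : ℕ∞) ≤ Unum D e ℓ → ∃ s0, ∀ s, s0 ≤ s → v ≤ Ust D e ℓ s)

/-- TSc: complexity of the stages. -/
def StmtStageC : Prop := ∀ D : Data, Dl Z 1 D.T → Dl Z 1 D.U → Dl Z 1 D.G →
  Dl Z 1 (fun p : (ℕ × ℕ) × ℕ => lst D p.1.1 p.1.2 = p.2) ∧
  Dl Z 1 (fun p : (ℕ × ℕ) × ℕ => Ucur D p.1.1 p.1.2 = p.2) ∧
  Dl Z 1 (fun p : ℕ × ℕ × ℕ => bad D p.1 p.2.1 p.2.2) ∧
  Dl Z 2 (fun p : ℕ × ℕ => fst D p.1 p.2)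

/-- the number of initial values satisfying `W`: the least `v` with `¬ W v` -/
noncomputable def leastN (W : ℕ → Prop) : ℕ∞ := {v : ℕ | ∀ v', v' ≤ v → W v'}.encard

end stages

/-- TL: the limit lemma relative to `0'`. -/
def StmtLim : Prop :=
  ∀ A : ℕ → Prop, Dl Z 2 A → ∃ a : ℕ × ℕ → Prop, Dl Z 1 a ∧
    ∀ m, ∃ s0, ∀ s, s0 ≤ s → (a (m, s) ↔ A m)

/-! ### Component indices -/

/-- component indices: `(e, k, m, r, r', f, w, l)`: label, kind, number, start stages, element,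
witness, list of the elements of `F₀` -/
abbrev Idx : Type := ℕ × ℕ × ℕ × ℕ × ℕ × ℕ × ℕ × List ℕ

namespace Idx
def e (p : Idx) : ℕ := p.1
def k (p : Idx) : ℕ := p.2.1
def m (p : Idx) : ℕ := p.2.2.1
def r (p : Idx) : ℕ := p.2.2.2.1
def r' (p : Idx) : ℕ := p.2.2.2.2.1
def f (p : Idx) : ℕ := p.2.2.2.2.2.1
def w (p : Idx) : ℕ := p.2.2.2.2.2.2.1
def l (p : Idx) : List ℕ := p.2.2.2.2.2.2.2
end Idx

/-- the index coded by a natural number -/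
def idx (i : ℕ) : Idx := (Encodable.decode (α := Idx) i).getD (0, 0, 0, 0, 0, 0, 0, [])

section beta
variable (D : Data)

/-- `h < H_p` in case beta -/
def Hb (p : Idx) (h : ℕ) : Prop :=
  (p.k = 1 ∧ p.f ∈ p.l ∧ ∃ s, h < Ucur D p.e s ∧
    ∀ w, w < h + 1 → ∃ b, b < s + 1 ∧ ¬ D.G (p.e, lst D p.e s, p.f, w, b)) ∨
  (p.k = 2 ∧ p.f ∉ p.l ∧ ∃ s, h ≤ s ∧ h < Ucur D p.e s ∧
    ∀ b, b < s + 1 → D.G (p.e, lst D p.e s, p.f, p.w, b)) ∨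
  (¬ (p.k = 1 ∧ p.f ∈ p.l) ∧ ¬ (p.k = 2 ∧ p.f ∉ p.l) ∧ h < p.m)

/-- the type of component `p` in case beta -/
noncomputable def typB (g : ℕ → ℕ) (p : Idx) : Typ :=
  (p.e, leastN (fun v => Hb D p v ∨ Push D g p.e p.r v), p.l.toFinset)

/-- the property of the delay function used in case beta -/
def Slow (g : ℕ → ℕ) : Prop :=
  (∀ v, v ≤ g v) ∧ ∀ e t, fst D e t → Unum D e t = ⊤ → ∀ m r, ∃ v, m ≤ v ∧ ¬ Push D g e r v

end beta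

/-- B1: existence of a slow delay function. -/
def StmtB1 : Prop :=
  ∀ D : Data, Dl Z 1 D.T → Dl Z 1 D.U → Dl Z 1 D.G → ∀ (X : ℕ → ℕ) (A : ℕ → Prop),
    Sg X 0 A → ¬ Dl Z 1 A → Dl Z 2 A →
    ∃ g : ℕ → ℕ, Slow D g ∧ Dl X 1 (fun p : ℕ × ℕ => g p.1 = p.2)

/-- B2: the types of the components are exactly the members of the family (case beta). -/
def StmtB2 : Prop :=
  ∀ (D : Data) (g : ℕ → ℕ), Slow D g → Set.range (typB D g) = Fam D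

/-- B3: complexity (case beta). -/
def StmtB3 : Prop :=
  ∀ D : Data, Dl Z 1 D.T → Dl Z 1 D.U → Dl Z 1 D.G → ∀ (X g : ℕ → ℕ),
    Dl X 1 (fun p : ℕ × ℕ => g p.1 = p.2) →
    Sg X 1 (fun p : Idx × ℕ => (p.2 : ℕ∞) < (typB D g p.1).2.1) ∧
    Sg X 2 (fun p : Idx × ℕ => p.2 ∈ (typB D g p.1).2.2)

section gamma
variable (D : Data) (A : ℕ → Prop)

/-- `h < H_p` in case gamma -/
def Hc (p : Idx) (h : ℕ) : Prop :=
  (p.k ≠ 0 ∧ ∃ s, h < Ucur D p.e s) ∨ (p.k = 0 ∧ h < p.m)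

/-- membership in `F^{(n)} = F₀ ∪ {2 m' + A(m') : m' < n}` -/
def memF (l : List ℕ) (n f : ℕ) : Prop :=
  f ∈ l ∨ ∃ m', m' < n ∧ ((f = 2 * m' ∧ ¬ A m') ∨ (f = 2 * m' + 1 ∧ A m'))

/-- `F^{(n)}` looks like the set `G` at stage `s` -/
def Mat (e : ℕ) (l : List ℕ) (n s : ℕ) : Prop :=
  ∃ t, t < s + 1 ∧ fst D e t ∧
    (∀ f, f ∈ l → f ≤ s) ∧ (∀ m', m' < n → 2 * m' + 1 ≤ s) ∧
    ∀ f, f < s + 1 → (memF A l n f ↔ ∃ w, w < s + 1 ∧ ∀ b, D.G (e, t, f, w, b))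

/-- the chase passes `n` -/
def Pass (e : ℕ) (l : List ℕ) (r' n : ℕ) : Prop := ∃ s, r' ≤ s ∧ Mat D A e l n s

/-- membership in the set of component `p` in case gamma -/
def inF (p : Idx) (f : ℕ) : Prop :=
  f ∈ p.l ∨ ((p.k ≠ 0 ∨ Push D (fun v => v) p.e p.r p.m) ∧
    ∃ m', ((f = 2 * m' ∧ ¬ A m') ∨ (f = 2 * m' + 1 ∧ A m')) ∧
      ∀ n', n' < m' + 1 → Pass D A p.e p.l p.r' n')

/-- the set of component `p` in case gamma -/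
noncomputable def setC (p : Idx) : Finset ℕ := by
  classical exact if h : {f | inF D A p f}.Finite then h.toFinset else ∅

/-- the type of component `p` in case gamma -/
noncomputable def typC (p : Idx) : Typ :=
  (p.e, leastN (fun v => Hc D p v ∨ Push D (fun v => v) p.e p.r v), setC D A p)

/-- the chase always stops -/
def Stops : Prop := ∀ e l r', ∃ n, ¬ Pass D A e l r' n

end gamma

/-- C1: the chase stops if `A` is not `Δ₃`. -/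
def StmtC1 : Prop :=
  ∀ D : Data, Dl Z 1 D.T → Dl Z 1 D.U → Dl Z 1 D.G → ∀ A : ℕ → Prop, ¬ Dl Z 2 A → Stops D A

/-- C2: the types of the components are exactly the members of the family (case gamma). -/
def StmtC2 : Prop :=
  ∀ (D : Data) (A : ℕ → Prop), Stops D A → Set.range (typC D A) = Fam D

/-- C3: complexity (case gamma). -/
def StmtC3 : Prop :=
  ∀ D : Data, Dl Z 1 D.T → Dl Z 1 D.U → Dl Z 1 D.G → ∀ (X : ℕ → ℕ) (A : ℕ → Prop), Sg X 0 A →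
    Stops D A →
    Sg X 1 (fun p : Idx × ℕ => (p.2 : ℕ∞) < (typC D A p.1).2.1) ∧
    Sg X 2 (fun p : Idx × ℕ => p.2 ∈ (typC D A p.1).2.2)

end Pool.Agent.NonLow
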